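import Pool.Agent.Lib.MP_f4742e_al.AnisDefs

/-!
The RB-index of `H(A, σ)` without nilpotent elements.
-/

set_option autoImplicit false

namespace Pool.Agent.MP_f4742e_al

open SymAlg Polynomial

section

variable {F A : Type*} [Field F] [CharZero F] [Ring A] [Algebra F A]

omit [CharZero F] in
/-- An idempotent polynomial in an element which is not nilpotent. -/
theorem exists_idem_ne (q : A) (hq : IsIntegral F q) (hnil : ¬ IsNilpotent q) : ∃ P : F[X],
    aeval q (X * P) * aeval q (X * P) = aeval q (X * P) ∧ aeval q (X * P) ≠ 0 := by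
  have hp0 : minpoly F q ≠ 0 := minpoly.ne_zero hq
  obtain ⟨g, hg, hnd⟩ := exists_eq_pow_rootMultiplicity_mul_and_not_dvd (minpoly F q) hp0 0
  rw [map_zero, sub_zero] at hg hnd
  obtain ⟨e, he⟩ : ∃ e, e = (minpoly F q).rootMultiplicity 0 := ⟨_, rfl⟩
  rw [← he] at hg
  have hcop : IsCoprime (X ^ (e + 1)) g := by
    apply IsCoprime.pow_left
    exact (prime_X.irreducible.coprime_iff_not_dvd).2 hnd
  obtain ⟨u, v, huv⟩ := hcop
  refine ⟨u * X ^ e, ?_, ?_⟩
  · rw [← map_mul, ← sub_eq_zero, ← map_sub]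
    have h1 : X * (u * X ^ e) * (X * (u * X ^ e)) - X * (u * X ^ e) =
        -(u * X * v) * (X ^ e * g) := by
      linear_combination (X * u * X ^ e) * huv
    rw [h1, ← hg, map_mul, minpoly.aeval, mul_zero]
  · intro h0
    apply hnil
    refine ⟨e, ?_⟩
    have h1 : (X : F[X]) ^ e = X ^ e * (X * (u * X ^ e)) + v * (X ^ e * g) := by
      linear_combination (-(X ^ e : F[X])) * huv
    have h2 := congrArg (aeval q) h1
    rw [map_add, map_mul _ (X ^ e), h0, mul_zero, zero_add, ← hg, map_mul, minpoly.aeval,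
      mul_zero, map_pow, aeval_X] at h2
    exact h2

variable {σ : A →ₗ[F] A} (hσ : IsInvolution σ)

include hσ

omit [CharZero F] in
theorem IsInvolution.one : σ 1 = 1 := by
  have h1 := hσ.anti (σ 1) 1
  rw [mul_one, hσ.invol, mul_one] at h1
  exact h1.symm

omit [CharZero F] in
theorem IsInvolution.pow {x : A} (hx : σ x = x) (k : ℕ) : σ (x ^ k) = x ^ k := by
  induction k with
  | zero => rw [pow_zero, hσ.one]
  | succ k ih => rw [pow_succ, hσ.anti, hx, ih, ← pow_succ', pow_succ]

omit [CharZero F] in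
theorem IsInvolution.aeval {x : A} (hx : σ x = x) (P : F[X]) :
    σ (aeval x P) = aeval x P := by
  induction P using Polynomial.induction_on' with
  | add P Q hP hQ => rw [map_add, map_add, hP, hQ]
  | monomial k c => rw [aeval_monomial, ← Algebra.smul_def, map_smul, hσ.pow hx]

omit [CharZero F] in
/-- Without elements of square zero there are no nilpotent elements. -/
theorem nonil_pow (hnil : ∀ x : A, σ x = x → x * x = 0 → x = 0) {x : A} (hx : σ x = x)
    (h : IsNilpotent x) : x = 0 := by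
  obtain ⟨k, hk⟩ := h
  induction k using Nat.strong_induction_on with
  | _ k ih =>
    rcases Nat.lt_or_ge k 2 with h1 | h1
    · obtain rfl | rfl : k = 0 ∨ k = 1 := by omega
      · rw [pow_zero] at hk
        rw [← mul_one x, hk, mul_zero]
      · rw [pow_one] at hk
        exact hk
    · apply ih (k - 1) (by omega)
      apply hnil _ (hσ.pow hx _)
      rw [← pow_add]
      exact pow_eq_zero_of_le (by omega) hk

end

section

variable {F A : Type*} [Field F] [CharZero F] [Ring A] [Algebra F A] [Invertible (2 : A)]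
  {σ : A →ₗ[F] A} (hσ : IsInvolution σ)

/-- `R^2 = 0`. -/
theorem anis_sq [FiniteDimensional F A] (hnil : ∀ x : A, σ x = x → x * x = 0 → x = 0)
    (R : HInv σ hσ →ₗ[F] HInv σ hσ) (hR : IsRotaBaxter R) : R ^ 2 = 0 := by
  obtain ⟨S, hS, hSR, hN⟩ := extendH hσ R hR
  apply hN
  have h1 : σ (S 1) = S 1 := by
    rw [hSR]
    exact HInv_fix hσ _
  have h2 := nonil_pow hσ hnil h1 hS.nilpotent_one
  have h3 := pow_two_mul_eq_zero hS 1 (by rw [pow_one, h2])
  exact h3

/-- `R = 0` if there are no idempotents. -/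
theorem anis_zero [FiniteDimensional F A] [Nontrivial A]
    (hnil : ∀ x : A, σ x = x → x * x = 0 → x = 0)
    (hidem : ∀ p : A, σ p = p → p * p = p → p = 0 ∨ p = 1)
    (R : HInv σ hσ →ₗ[F] HInv σ hσ) (hR : IsRotaBaxter R) : R = 0 := by
  obtain ⟨S, hS, hSR, hN⟩ := extendH hσ R hR
  have h0 : S ^ 1 = 0 := by
    apply LinearMap.ext
    intro x
    rw [LinearMap.zero_apply]
    by_contra hne
    obtain ⟨q, hq⟩ : ∃ q, q = (S ^ 1) x := ⟨_, rfl⟩
    rw [← hq] at hne
    have hqs : σ q = q := by
      rw [hq, pow_one, hSR]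
      exact HInv_fix hσ _
    obtain ⟨P, hP1, hP2⟩ := exists_idem_ne (F := F) q (Algebra.IsIntegral.isIntegral q)
      (fun h => hne (nonil_pow hσ hnil hqs h))
    obtain ⟨z, hz⟩ := aeval_mem_range hS 1 hq P
    have h1 := (hidem _ (hσ.aeval hqs (X * P)) hP1).resolve_left hP2
    have h2 := not_range hS 0 (by rw [pow_zero]; exact one_ne_zero) z
    apply h2
    rw [pow_zero, mul_zero, zero_add, ← hz, h1]
  have h1 := hN 1 h0
  rw [pow_one] at h1
  exact h1

/-- The operator given by an idempotent `p` and a nonzero element of its Peirce space `1/2`. -/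
theorem exists_ne_zero {p y : A} (hp : σ p = p) (hpp : p * p = p) (hp0 : p ≠ 0) (hy : σ y = y)
    (hpy : p * y + y * p = y) (hy0 : y ≠ 0) :
    ∃ R : HInv σ hσ →ₗ[F] HInv σ hσ, IsRotaBaxter R ∧ R ≠ 0 := by
  obtain ⟨ℓ, hℓ⟩ : ∃ ℓ : A →ₗ[F] F, ℓ y ≠ 0 := by
    by_contra hcon
    push Not at hcon
    exact hy0 ((Module.forall_dual_apply_eq_zero_iff F y).1 hcon)
  obtain ⟨ph, hph⟩ : ∃ ph : A → A, ∀ x, ph x = p * x + x * p - (p * x * p + p * x * p) :=
    ⟨fun x => p * x + x * p - (p * x * p + p * x * p), fun _ => rfl⟩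
  have hph1 : ∀ x, ph (p * x + x * p) = ph x := by
    intro x
    have h1 : ∀ z, p * (p * z) = p * z := fun z => by rw [← mul_assoc, hpp]
    rw [hph, hph]
    simp only [mul_add, add_mul, mul_assoc, hpp, h1]
    abel
  let R : HInv σ hσ →ₗ[F] HInv σ hσ :=
    { toFun := fun u => ℓ (ph (unsym u.1)) • mkH hσ hp
      map_add' := fun u w => by
        rw [← add_smul, ← map_add]
        congr 2
        change ph (unsym u.1 + unsym w.1) = _
        rw [hph, hph, hph]
        noncomm_ring
      map_smul' := fun c u => by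
        rw [RingHom.id_apply, smul_smul, ← smul_eq_mul, ← map_smul]
        congr 2
        change ph (c • unsym u.1) = _
        rw [hph, hph]
        simp only [mul_smul_comm, smul_mul_assoc, smul_sub, smul_add] }
  have hR : ∀ u, R u = ℓ (ph (unsym u.1)) • mkH hσ hp := fun _ => rfl
  have hpm : ∀ u : HInv σ hσ, (2 : F) • ℓ (ph (unsym (mkH hσ hp * u).1)) =
      ℓ (ph (unsym u.1)) := by
    intro u
    rw [← map_smul, ← hph1 (unsym u.1)]
    have h1 := H_mul hσ (mkH hσ hp) u
    rw [unsym_mkH] at h1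
    unfold jp at h1
    rw [← h1, two_smul]
    congr 1
    rw [hph, hph]
    noncomm_ring
  have hcomm : ∀ u v : HInv σ hσ, u * v = v * u := by
    intro u v
    apply Subtype.ext
    exact SymAlg.mul_comm _ _
  have hmm : mkH hσ hp * mkH hσ hp = mkH hσ hp := by
    apply H_ext
    apply two_inj_inv
    rw [H_mul, unsym_mkH]
    unfold jp
    rw [hpp]
  refine ⟨R, ?_, ?_⟩
  · intro u w
    have h1 : R (R u * w) = (2⁻¹ * (ℓ (ph (unsym u.1)) * ℓ (ph (unsym w.1)))) • mkH hσ hp := by
      rw [hR u, H_smul_mul, map_smul, hR, smul_smul, ← hpm w, smul_eq_mul]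
      congr 1
      field_simp
    have h2 : R (u * R w) = (2⁻¹ * (ℓ (ph (unsym u.1)) * ℓ (ph (unsym w.1)))) • mkH hσ hp := by
      rw [hR w, H_mul_smul, map_smul, hcomm, hR, smul_smul, ← hpm u, smul_eq_mul]
      congr 1
      field_simp
    rw [map_add, h1, h2, hR u, hR w, H_smul_mul, H_mul_smul, hmm, smul_smul, ← add_smul,
      ← two_mul, mul_inv_cancel_left₀ two_ne_zero]
  · intro h0
    have h1 := congrArg (fun T : HInv σ hσ →ₗ[F] HInv σ hσ => unsym (T (mkH hσ hy)).1) h0
    change ℓ (ph y) • p = 0 at h1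
    have h2 : ph y = y := by
      have h3 : ∀ z, p * (p * z) = p * z := fun z => by rw [← mul_assoc, hpp]
      have h4 : p * y * p = 0 := by
        have h5 := congrArg (fun t => p * t * p) hpy
        simp only [mul_add, add_mul, mul_assoc, h3, hpp] at h5
        rw [← mul_assoc] at h5
        exact add_eq_left.1 h5
      rw [hph, h4, add_zero, sub_zero, hpy]
    rw [h2] at h1
    rcases smul_eq_zero.1 h1 with h3 | h3
    · exact hℓ h3
    · exact hp0 h3

/-- `J` has no ideals except `0` and `J`. -/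
def IsSimpleJ (F : Type*) {J : Type*} [Field F] [NonUnitalNonAssocRing J] [Module F J] : Prop :=
  ∀ I : Submodule F J, (∀ u, ∀ v ∈ I, u * v ∈ I) → I = ⊥ ∨ I = ⊤

/-- In a simple algebra the Peirce space `1/2` of an idempotent `p ≠ 0, 1` is not zero. -/
theorem exists_half (hs : IsSimpleJ F (J := HInv σ hσ)) {p : A} (hp : σ p = p)
    (hpp : p * p = p) (hp0 : p ≠ 0) (hp1 : p ≠ 1) :
    ∃ y : A, σ y = y ∧ p * y + y * p = y ∧ y ≠ 0 := by
  by_contra hcon
  push Not at hcon
  have h3 : ∀ z, p * (p * z) = p * z := fun z => by rw [← mul_assoc, hpp]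
  have hpx : ∀ x, σ x = x → p * x = x * p := by
    intro x hx
    have h1 := hcon (p * x + x * p - (p * x * p + p * x * p))
      (by
        rw [map_sub, map_add, map_add, hσ.anti, hσ.anti, hσ.anti, hσ.anti, hp, hx, mul_assoc]
        abel)
      (by
        simp only [mul_add, add_mul, mul_sub, sub_mul, mul_assoc, hpp, h3]
        abel)
    have h2 := congrArg (fun t => p * t) h1
    have h4 := congrArg (fun t => t * p) h1
    simp only [mul_add, add_mul, mul_sub, sub_mul, mul_assoc, hpp, h3, mul_zero,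
      zero_mul] at h2 h4
    have h5 : p * x = p * (x * p) := by
      rw [← sub_eq_zero, ← h2]
      abel
    have h6 : x * p = p * (x * p) := by
      rw [← sub_eq_zero, ← h4]
      abel
    rw [h5, ← h6]
  obtain ⟨I, hI⟩ : ∃ I : Submodule F (HInv σ hσ), ∀ u, u ∈ I ↔ p * unsym u.1 = unsym u.1 := by
    refine ⟨{ carrier := {u | p * unsym u.1 = unsym u.1}
              add_mem' := ?_
              zero_mem' := ?_
              smul_mem' := ?_ }, fun u => Iff.rfl⟩
    · intro u w hu hw
      change p * (unsym u.1 + unsym w.1) = unsym u.1 + unsym w.1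
      rw [mul_add, hu, hw]
    · exact mul_zero p
    · intro c u hu
      change p * (c • unsym u.1) = c • unsym u.1
      rw [mul_smul_comm, hu]
  rcases hs I (by
    intro u v hv
    rw [hI] at hv ⊢
    apply two_inj_inv
    rw [← mul_add, H_mul]
    unfold jp
    rw [mul_add, ← mul_assoc, hpx _ (HInv_fix hσ u), mul_assoc, hv, ← mul_assoc, hv]) with h | h
  · have h4 : mkH hσ hp ∈ I := (hI _).2 hpp
    rw [h, Submodule.mem_bot] at h4
    apply hp0
    exact congrArg (fun t : HInv σ hσ => unsym t.1) h4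
  · have h4 : mkH hσ (hσ.one) ∈ I := by
      rw [h]
      exact Submodule.mem_top
    rw [hI, unsym_mkH, mul_one] at h4
    exact hp1 h4

/-- The RB-index of a simple `H(A, σ)` without nilpotent elements. -/
theorem rb_anis [FiniteDimensional F A] [Nontrivial A] (hs : IsSimpleJ F (J := HInv σ hσ))
    (hnil : ∀ x : A, σ x = x → x * x = 0 → x = 0) :
    ((∃ p : A, σ p = p ∧ p * p = p ∧ p ≠ 0 ∧ p ≠ 1) → HasRBIndex F (HInv σ hσ) 2) ∧
      ((∀ p : A, σ p = p → p * p = p → p = 0 ∨ p = 1) → HasRBIndex F (HInv σ hσ) 1) := by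
  constructor
  · rintro ⟨p, hp, hpp, hp0, hp1⟩
    refine ⟨fun R hR => anis_sq hσ hnil R hR, fun N hN => ?_⟩
    by_contra hcon
    obtain ⟨y, hy, hpy, hy0⟩ := exists_half hσ hs hp hpp hp0 hp1
    obtain ⟨R, hR, hR0⟩ := exists_ne_zero hσ hp hpp hp0 hy hpy hy0
    apply hR0
    have h1 : R ^ 1 = 0 := pow_eq_zero_of_le (by omega) (hN R hR)
    rw [pow_one] at h1
    exact h1
  · intro hidem
    refine ⟨fun R hR => ?_, fun N hN => ?_⟩
    · rw [pow_one]
      exact anis_zero hσ hnil hidem R hR
    · by_contra hcon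
      have h0 : N = 0 := by omega
      have h1 := hN 0 (fun x y => by simp)
      rw [h0, pow_zero] at h1
      have h2 := congrArg (fun T : HInv σ hσ →ₗ[F] HInv σ hσ =>
        unsym (T (mkH hσ hσ.one)).1) h1
      change (1 : A) = 0 at h2
      exact one_ne_zero h2

end

end Pool.Agent.MP_f4742e_al
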