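import Pool.Agent.Lib.MP_f4742e_al.Nil

/-!
The last nonzero power of `R 1` is not in the image of a high power of `R`.
-/

set_option autoImplicit false

namespace Pool.Agent.MP_f4742e_al

open Polynomial

section

variable {F A : Type*} [Field F] [CharZero F] [Ring A] [Algebra F A]

/-- A polynomial `f` with `f(0) = 0`, `f(1) = 1` and `f(p)` idempotent. -/
theorem exists_idem_poly (p : A) (hp : IsIntegral F p) : ∃ f1 f2 : F[X],
    1 - X * f1 = (1 - X) * f2 ∧ (aeval p (X * f1)) * (aeval p (X * f1)) = aeval p (X * f1) := by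
  have hp0 : minpoly F p ≠ 0 := minpoly.ne_zero hp
  obtain ⟨q, hq, hnd⟩ := exists_eq_pow_rootMultiplicity_mul_and_not_dvd (minpoly F p) hp0 0
  rw [map_zero, sub_zero] at hq hnd
  obtain ⟨e, he⟩ : ∃ e, e = (minpoly F p).rootMultiplicity 0 := ⟨_, rfl⟩
  rw [← he] at hq
  have hcop : IsCoprime (X ^ (e + 1)) ((1 - X) * q) := by
    apply IsCoprime.pow_left
    apply IsCoprime.mul_right
    · exact ⟨1, 1, by ring⟩
    · exact (prime_X.irreducible.coprime_iff_not_dvd).2 hnd
  obtain ⟨u, v, huv⟩ := hcop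
  refine ⟨u * X ^ e, q * v, ?_, ?_⟩
  · linear_combination (-1 : F[X]) * huv
  · rw [← map_mul, ← sub_eq_zero, ← map_sub]
    have h1 : X * (u * X ^ e) * (X * (u * X ^ e)) - X * (u * X ^ e) =
        -(u * X * v * (1 - X)) * (X ^ e * q) := by
      linear_combination (X * u * X ^ e) * huv
    rw [h1, ← hq, map_mul, minpoly.aeval, mul_zero]

variable {R : A →ₗ[F] A}

theorem pow_mem_range (h : JRB R) (m : ℕ) {p w : A} (hp : p = (R ^ m) w) (i : ℕ) :
    ∃ z, p ^ (i + 1) = (R ^ m) z := by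
  induction i with
  | zero => exact ⟨w, by rw [zero_add, pow_one, hp]⟩
  | succ i ih =>
    obtain ⟨z, hz⟩ := ih
    obtain ⟨z', hz'⟩ := range_jp h m w z
    refine ⟨(2 : F)⁻¹ • z', ?_⟩
    rw [map_smul, ← hz', ← hp, ← hz]
    unfold jp
    rw [← pow_succ, ← pow_succ', ← two_smul F, smul_smul, inv_mul_cancel₀ two_ne_zero, one_smul]

theorem aeval_mem_range (h : JRB R) (m : ℕ) {p w : A} (hp : p = (R ^ m) w) (f : F[X]) :
    ∃ z, aeval p (X * f) = (R ^ m) z := by
  induction f using Polynomial.induction_on' with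
  | add f g hf hg =>
    obtain ⟨z1, h1⟩ := hf
    obtain ⟨z2, h2⟩ := hg
    refine ⟨z1 + z2, ?_⟩
    rw [mul_add, map_add, h1, h2, map_add]
  | monomial n a =>
    obtain ⟨z, hz⟩ := pow_mem_range h m hp n
    refine ⟨a • z, ?_⟩
    rw [map_smul, ← hz, X_mul_monomial, aeval_monomial, ← Algebra.smul_def]

theorem aeval_mem_ker (h : JRB R) (m : ℕ) {p w : A} (hp : p = (R ^ m) w)
    (h1 : (R ^ m) (1 - p) = 0) (f : F[X]) : (R ^ m) (aeval p ((1 - X) * f)) = 0 := by
  obtain ⟨z, hz⟩ := aeval_mem_range h m hp (divX f)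
  have h2 : (1 - X) * f = (1 - X) * (X * divX f) + (1 - X) * C (f.coeff 0) := by
    rw [← mul_add]
    congr 1
    exact (X_mul_divX_add f).symm
  have h3 : aeval p ((1 - X) * f) = (2 : F)⁻¹ • jp (1 - p) (aeval p (X * divX f)) +
      (f.coeff 0) • (1 - p) := by
    have h4 : jp (1 - p) (aeval p (X * divX f)) =
        (2 : F) • (aeval p ((1 - X) * (X * divX f))) := by
      have h5 : (1 - p) = aeval p (1 - X : F[X]) := by
        rw [map_sub, map_one, aeval_X]
      unfold jp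
      rw [h5, ← map_mul, ← map_mul, two_smul, mul_comm (X * divX f) (1 - X)]
    rw [h4, smul_smul, inv_mul_cancel₀ two_ne_zero, one_smul, h2, map_add]
    congr 1
    rw [map_mul, aeval_C, map_sub, map_one, aeval_X, ← Algebra.commutes, ← Algebra.smul_def]
  rw [h3, hz, map_add, map_smul, map_smul, h1, ker_jp h m _ _ h1, smul_zero, smul_zero, add_zero]

/-- The key idempotent argument. -/
theorem not_range [FiniteDimensional F A] (h : JRB R) (m : ℕ) (hm : (R 1) ^ m ≠ 0) (z : A) :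
    (R ^ (2 * m + 1)) z ≠ (R 1) ^ m := by
  intro hz
  have hm' : (R ^ m) 1 ≠ 0 := by
    rw [Ne, pow_R_one_eq_zero h]
    exact hm
  have hfac : (m.factorial : F) ≠ 0 := Nat.cast_ne_zero.2 m.factorial_ne_zero
  obtain ⟨p, hp⟩ : ∃ p, p = (R ^ (m + 1)) ((m.factorial : F)⁻¹ • z) := ⟨_, rfl⟩
  have hp' : p = (R ^ m) (R ((m.factorial : F)⁻¹ • z)) := by
    rw [hp, pow_succ, Module.End.mul_apply]
  have h1 : (R ^ m) (1 - p) = 0 := by
    rw [map_sub, hp, map_smul, map_smul, ← Module.End.mul_apply, ← pow_add]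
    have h2 : m + (m + 1) = 2 * m + 1 := by ring
    rw [h2, hz, ← pow_R_one h m, smul_smul, inv_mul_cancel₀ hfac, one_smul, sub_self]
  obtain ⟨f1, f2, hf, hid⟩ := exists_idem_poly (F := F) p (Algebra.IsIntegral.isIntegral p)
  obtain ⟨ε, hε⟩ : ∃ ε, ε = aeval p (X * f1) := ⟨_, rfl⟩
  rw [← hε] at hid
  obtain ⟨w, hw⟩ := aeval_mem_range h (m + 1) hp f1
  rw [← hε] at hw
  have hκ : (R ^ m) (1 - ε) = 0 := by
    have h2 : 1 - ε = aeval p (1 - X * f1) := by
      rw [map_sub, map_one, hε]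
    rw [h2, hf]
    exact aeval_mem_ker h m hp' h1 f2
  -- the element with image the idempotent
  obtain ⟨u', hu'⟩ : ∃ u', u' = (R ^ m) w := ⟨_, rfl⟩
  have hRu' : R u' = ε := by
    rw [hu', hw, pow_succ', Module.End.mul_apply]
  have hεr : ε = (R ^ m) (R w) := by
    rw [hw, pow_succ, Module.End.mul_apply]
  have hR1 : R (jp ε u') = ε := by
    have h2 := h u' u'
    rw [hRu', jp_comm u' ε, ← two_smul F (jp ε u'), map_smul] at h2
    have h3 : jp ε ε = (2 : F) • ε := by
      unfold jp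
      rw [hid, two_smul]
    rw [h3] at h2
    exact (smul_right_injective A (two_ne_zero (α := F)) h2).symm
  have hR2 : R (jp ε (jp ε u')) = ε := by
    have h2 := h (jp ε u') u'
    rw [hRu', hR1, jp_comm (jp ε u') ε, map_add, hR1] at h2
    have h3 : jp ε ε = ε + ε := by
      unfold jp
      rw [hid]
    rw [h3] at h2
    exact (add_left_cancel h2).symm
  obtain ⟨u, hu⟩ : ∃ u, u = (2 : F) • jp ε u' - jp ε (jp ε u') := ⟨_, rfl⟩
  have hRu : R u = ε := by
    rw [hu, map_sub, map_smul, hR1, hR2, two_smul, add_sub_cancel_right]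
  obtain ⟨w1, hw1⟩ := range_jp h m (R w) w
  rw [← hεr, ← hu'] at hw1
  obtain ⟨w2, hw2⟩ := range_jp h m (R w) w1
  rw [← hεr, ← hw1] at hw2
  have hur : u = (R ^ m) ((2 : F) • w1 - w2) := by
    rw [hu, map_sub, map_smul, ← hw1, ← hw2]
  have hku : jp (1 - ε) u = u := by
    rw [hu]
    unfold jp
    rw [two_smul]
    have h2 : ∀ y : A, ε * (ε * y) = ε * y := by
      intro y
      rw [← mul_assoc, hid]
    simp only [mul_add, add_mul, mul_sub, sub_mul, one_mul, mul_one, mul_assoc, h2, hid]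
    abel
  have h3 : (R ^ m) u = 0 := by
    have h4 := ker_jp h m (1 - ε) ((2 : F) • w1 - w2) hκ
    rw [← hur, hku] at h4
    exact h4
  have h4 : (R ^ m) ε = 0 := by
    rw [← hRu, ← Module.End.mul_apply, ← pow_succ, pow_succ', Module.End.mul_apply, h3, map_zero]
  apply hm'
  rw [map_sub, h4, sub_zero] at hκ
  exact hκ

end

end Pool.Agent.MP_f4742e_al
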