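import Pool.Agent.Lib.MP_f4742e_al.Defs
import Pool.Agent.Lib.MP_f4742e_al.Idem

/-!
The Jordan algebra `H(A, σ)` of an associative algebra with involution.
-/

set_option autoImplicit false

namespace Pool.Agent.MP_f4742e_al

open SymAlg

section

variable {F A : Type*} [Field F] [Ring A] [Algebra F A]

/-- An involution of an associative algebra: a linear anti-automorphism of order at most two. -/
structure IsInvolution (σ : A →ₗ[F] A) : Prop where
  anti : ∀ x y, σ (x * y) = σ y * σ x
  invol : ∀ x, σ (σ x) = x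

variable [Invertible (2 : A)]

theorem two_unsym_mulA (x y : Aˢʸᵐ) :
    unsym (x * y) + unsym (x * y) = unsym x * unsym y + unsym y * unsym x := by
  rw [unsym_mul, ← add_mul, ← two_mul, mul_invOf_self, one_mul]

theorem two_inj_inv {x y : A} (h : x + x = y + y) : x = y := by
  rw [← two_mul, ← two_mul] at h
  have h1 := congrArg (fun t => ⅟(2 : A) * t) h
  simpa only [invOf_mul_cancel_left'] using h1

/-- The Jordan algebra `H(A, σ)` of the symmetric elements, with product `(xy + yx)/2`. -/
def HInv (σ : A →ₗ[F] A) (hσ : IsInvolution σ) : NonUnitalSubalgebra F Aˢʸᵐ where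
  carrier := {x | σ (unsym x) = unsym x}
  add_mem' := by
    intro x y hx hy
    change σ (unsym x + unsym y) = unsym x + unsym y
    rw [map_add, hx, hy]
  zero_mem' := map_zero σ
  smul_mem' := by
    intro c x hx
    change σ (c • unsym x) = c • unsym x
    rw [map_smul, hx]
  mul_mem' := by
    intro x y hx hy
    have h1 := two_unsym_mulA x y
    apply two_inj_inv
    rw [← map_add]
    change σ (unsym (x * y) + unsym (x * y)) = _
    rw [h1, map_add, hσ.anti, hσ.anti, hx, hy, add_comm]

variable {σ : A →ₗ[F] A} (hσ : IsInvolution σ)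

theorem HInv_fix (u : HInv σ hσ) : σ (unsym u.1) = unsym u.1 := u.2

/-- The element of `H(A, σ)` given by a symmetric element. -/
def mkH {x : A} (hx : σ x = x) : HInv σ hσ := ⟨sym x, hx⟩

theorem unsym_mkH {x : A} (hx : σ x = x) : unsym (mkH hσ hx).1 = x := rfl

theorem H_ext {u v : HInv σ hσ} (h : unsym u.1 = unsym v.1) : u = v :=
  Subtype.ext (unsym_injective h)

theorem H_mul (u v : HInv σ hσ) : unsym (u * v).1 + unsym (u * v).1 =
    jp (unsym u.1) (unsym v.1) := two_unsym_mulA u.1 v.1

theorem H_smul_mul (c : F) (u v : HInv σ hσ) : (c • u) * v = c • (u * v) := by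
  apply H_ext
  apply two_inj_inv
  rw [H_mul]
  change jp (c • unsym u.1) (unsym v.1) = c • unsym (u * v).1 + c • unsym (u * v).1
  rw [← smul_add, H_mul, smul_jp]

theorem H_mul_smul (c : F) (u v : HInv σ hσ) : u * (c • v) = c • (u * v) := by
  apply H_ext
  apply two_inj_inv
  rw [H_mul]
  change jp (unsym u.1) (c • unsym v.1) = c • unsym (u * v).1 + c • unsym (u * v).1
  rw [← smul_add, H_mul, jp_smul]

end

section

variable {F A : Type*} [Field F] [CharZero F] [Ring A] [Algebra F A] [Invertible (2 : A)]
  {σ : A →ₗ[F] A} (hσ : IsInvolution σ)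

/-- The projection to the symmetric elements. -/
noncomputable def projH : A →ₗ[F] HInv σ hσ where
  toFun x := mkH hσ (x := (2⁻¹ : F) • (x + σ x)) (by
    rw [map_smul, map_add, hσ.invol, add_comm])
  map_add' x y := by
    apply H_ext
    change (2⁻¹ : F) • (x + y + σ (x + y)) = (2⁻¹ : F) • (x + σ x) + (2⁻¹ : F) • (y + σ y)
    rw [map_add, ← smul_add]
    congr 1
    abel
  map_smul' c x := by
    apply H_ext
    change (2⁻¹ : F) • (c • x + σ (c • x)) = c • ((2⁻¹ : F) • (x + σ x))
    rw [map_smul, ← smul_add, smul_comm]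

theorem projH_val (x : A) : unsym (projH hσ x).1 = (2⁻¹ : F) • (x + σ x) := rfl

theorem projH_H (u : HInv σ hσ) : projH hσ (unsym u.1) = u := by
  apply H_ext
  rw [projH_val, HInv_fix, ← two_smul F, smul_smul, inv_mul_cancel₀ two_ne_zero, one_smul]

theorem projH_jp (u : HInv σ hσ) (y : A) :
    projH hσ (jp (unsym u.1) y) = u * projH hσ y + u * projH hσ y := by
  apply H_ext
  change _ = unsym (u * projH hσ y).1 + unsym (u * projH hσ y).1
  rw [H_mul, projH_val, projH_val]
  have h1 := HInv_fix hσ u
  unfold jp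
  rw [map_add, hσ.anti, hσ.anti, h1, mul_smul_comm, smul_mul_assoc, ← smul_add]
  congr 1
  rw [mul_add, add_mul]
  abel

/-- Rota-Baxter operators on `H(A, σ)` extend to operators on `A`. -/
theorem extendH (R : HInv σ hσ →ₗ[F] HInv σ hσ) (hR : IsRotaBaxter R) :
    ∃ S : A →ₗ[F] A, JRB S ∧ (∀ x, S x = unsym (R (projH hσ x)).1) ∧
      ∀ N : ℕ, S ^ N = 0 → R ^ N = 0 := by
  have hcomm : ∀ u v : HInv σ hσ, u * v = v * u := by
    intro u v
    apply Subtype.ext
    exact SymAlg.mul_comm _ _
  let S : A →ₗ[F] A :=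
    { toFun := fun x => unsym (R (projH hσ x)).1
      map_add' := fun x y => by
        rw [map_add, map_add]
        rfl
      map_smul' := fun c x => by
        rw [map_smul, map_smul]
        rfl }
  have hS : ∀ x, S x = unsym (R (projH hσ x)).1 := fun _ => rfl
  refine ⟨S, ?_, hS, ?_⟩
  · intro x y
    have h1 : jp (S x) (S y) = unsym (R (projH hσ x) * R (projH hσ y)).1 +
        unsym (R (projH hσ x) * R (projH hσ y)).1 := by
      rw [H_mul]
      rfl
    have h2 : projH hσ (jp (S x) y + jp x (S y)) =
        (R (projH hσ x) * projH hσ y + projH hσ x * R (projH hσ y)) +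
        (R (projH hσ x) * projH hσ y + projH hσ x * R (projH hσ y)) := by
      rw [map_add, hS, hS, jp_comm x, projH_jp, projH_jp, hcomm (R (projH hσ y)) (projH hσ x)]
      abel
    rw [h1, hS (jp (S x) y + jp x (S y)), h2, map_add, ← hR]
    rfl
  · intro N hN
    have h3 : ∀ (N : ℕ) (u : HInv σ hσ), (S ^ N) (unsym u.1) = unsym ((R ^ N) u).1 := by
      intro N u
      induction N with
      | zero => rfl
      | succ N ih =>
        rw [pow_succ', Module.End.mul_apply, ih, pow_succ', Module.End.mul_apply, hS, projH_H]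
    apply LinearMap.ext
    intro u
    have h4 := h3 N u
    rw [hN, LinearMap.zero_apply] at h4
    apply H_ext
    rw [LinearMap.zero_apply]
    exact h4.symm

end

end Pool.Agent.MP_f4742e_al
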