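import Pool.Agent.Lib.MP_f4742e_al.Anis

/-!
The RB-index of `H_n(F)` if the form `n⟨1⟩` is anisotropic over `F`.
-/

set_option autoImplicit false

namespace Pool.Agent.MP_f4742e_al

open SymAlg Matrix

section

variable {F : Type*} [Field F] [CharZero F] {n : ℕ}

/-- The transposition as a linear map. -/
def trL (n : ℕ) (F : Type*) [Field F] : Matrix (Fin n) (Fin n) F →ₗ[F] Matrix (Fin n) (Fin n) F :=
  (Matrix.transposeLinearEquiv (Fin n) (Fin n) F F).toLinearMap

omit [CharZero F] in
theorem trL_apply (x : Matrix (Fin n) (Fin n) F) : trL n F x = xᵀ := rfl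

omit [CharZero F] in
theorem trL_inv : IsInvolution (trL n F) where
  anti x y := by rw [trL_apply, trL_apply, trL_apply, transpose_mul]
  invol x := by rw [trL_apply, trL_apply, transpose_transpose]

theorem HSym_eq : HSym n F = HInv (trL n F) trL_inv := rfl

/-- `rb(H_n(F)) = 2` if `n⟨1⟩` is anisotropic. -/
theorem rb_HSym_anis (hn : 2 ≤ n) (han : ∀ x : Fin n → F, ∑ i, x i * x i = 0 → x = 0) :
    HasRBIndex F (HSym n F) 2 := by
  rw [HSym_eq]
  refine ⟨fun R hR => anis_sq trL_inv ?_ R hR, fun N hN => ?_⟩
  · intro x hx hxx
    rw [trL_apply] at hx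
    ext i j
    have h1 := han (fun j => x i j) (by
      have h2 := congrFun (congrFun hxx i) i
      rw [Matrix.mul_apply, Matrix.zero_apply] at h2
      rw [← h2]
      refine Finset.sum_congr rfl fun j _ => ?_
      have h3 := congrFun (congrFun hx i) j
      rw [transpose_apply] at h3
      rw [h3])
    exact congrFun h1 j
  · by_contra hcon
    obtain ⟨i, hi⟩ : ∃ i : Fin n, i = ⟨0, by omega⟩ := ⟨_, rfl⟩
    obtain ⟨j, hj⟩ : ∃ j : Fin n, j = ⟨1, by omega⟩ := ⟨_, rfl⟩
    have hij : i ≠ j := by
      rw [hi, hj]
      intro h
      rw [Fin.ext_iff] at h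
      simp only at h
      omega
    obtain ⟨R, hR, hR0⟩ := exists_ne_zero (F := F) (σ := trL n F) trL_inv
      (p := Matrix.single i i 1) (y := Matrix.single i j 1 + Matrix.single j i 1)
      (by rw [trL_apply, transpose_single])
      (by rw [single_mul_single_same, mul_one])
      (by
        intro h
        have h1 := congrFun (congrFun h i) i
        rw [single_apply_same, Matrix.zero_apply] at h1
        exact one_ne_zero h1)
      (by rw [trL_apply, transpose_add, transpose_single, transpose_single, add_comm])
      (by
        rw [mul_add, add_mul, single_mul_single_same, single_mul_single_same, mul_one,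
          single_mul_single_of_ne _ _ _ _ hij, single_mul_single_of_ne _ _ _ _ hij.symm,
          add_zero, zero_add])
      (by
        intro h
        have h1 := congrFun (congrFun h i) j
        rw [Matrix.add_apply, single_apply_same, Matrix.zero_apply, Matrix.single_apply,
          if_neg (fun h2 => hij h2.2), add_zero] at h1
        exact one_ne_zero h1)
    apply hR0
    have h1 : R ^ 1 = 0 := pow_eq_zero_of_le (by omega) (hN R hR)
    rw [pow_one] at h1
    exact h1

end

end Pool.Agent.MP_f4742e_al
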