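import Mathlib

/-!
Rota-Baxter operators of weight zero on the Jordan algebra of an associative algebra:
basic relations.
-/

set_option autoImplicit false

namespace Pool.Agent.MP_f4742e_al

section

variable {F A : Type*} [Field F] [Ring A] [Algebra F A]

/-- Twice the Jordan product. -/
def jp (x y : A) : A := x * y + y * x

theorem jp_comm (x y : A) : jp x y = jp y x := by
  unfold jp
  rw [add_comm]

theorem jp_add (x y z : A) : jp x (y + z) = jp x y + jp x z := by
  unfold jp
  noncomm_ring

theorem add_jp (x y z : A) : jp (x + y) z = jp x z + jp y z := by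
  unfold jp
  noncomm_ring

theorem jp_sub (x y z : A) : jp x (y - z) = jp x y - jp x z := by
  unfold jp
  noncomm_ring

theorem sub_jp (x y z : A) : jp (x - y) z = jp x z - jp y z := by
  unfold jp
  noncomm_ring

theorem jp_smul (c : F) (x y : A) : jp x (c • y) = c • jp x y := by
  unfold jp
  rw [mul_smul_comm, smul_mul_assoc, smul_add]

theorem smul_jp (c : F) (x y : A) : jp (c • x) y = c • jp x y := by
  unfold jp
  rw [mul_smul_comm, smul_mul_assoc, smul_add]

theorem jp_zero (x : A) : jp x 0 = 0 := by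
  unfold jp
  rw [mul_zero, zero_mul, add_zero]

theorem zero_jp (x : A) : jp 0 x = 0 := by
  unfold jp
  rw [mul_zero, zero_mul, add_zero]

theorem one_jp (x : A) : jp 1 x = x + x := by
  unfold jp
  rw [one_mul, mul_one]

theorem jp_one (x : A) : jp x 1 = x + x := by
  unfold jp
  rw [one_mul, mul_one]

/-- The Rota-Baxter identity of weight zero for the Jordan product. -/
def JRB (R : A →ₗ[F] A) : Prop :=
  ∀ x y : A, jp (R x) (R y) = R (jp (R x) y + jp x (R y))

variable {R : A →ₗ[F] A} (h : JRB R)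

include h

/-- The relation with the multiplication by `R 1`. -/
theorem rel_one (x : A) : jp (R x) (R 1) = R (R x + R x) + R (jp x (R 1)) := by
  rw [h x 1, jp_one, map_add]

/-- If `R^m x = 0` then `R^m (x ∘ R^m w) = 0`. -/
theorem ker_jp (m : ℕ) : ∀ x w : A, (R ^ m) x = 0 → (R ^ m) (jp x ((R ^ m) w)) = 0 := by
  induction m with
  | zero =>
    intro x w hx
    rw [pow_zero, Module.End.one_apply] at hx
    rw [hx, zero_jp, map_zero]
  | succ m ih =>
    intro x w hx
    have hx' : (R ^ m) (R x) = 0 := by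
      rw [← Module.End.mul_apply, ← pow_succ]
      exact hx
    have h1 : R (jp x (R ((R ^ m) w))) = jp (R x) (R ((R ^ m) w)) - R (jp (R x) ((R ^ m) w)) := by
      rw [h x ((R ^ m) w), map_add, add_sub_cancel_left]
    have h2 : (R ^ (m + 1)) w = R ((R ^ m) w) := by
      rw [pow_succ', Module.End.mul_apply]
    have h3 : R ((R ^ m) w) = (R ^ m) (R w) := by
      rw [← Module.End.mul_apply, ← Module.End.mul_apply, ← pow_succ, ← pow_succ']
    rw [h2, pow_succ, Module.End.mul_apply, h1, map_sub, h3, ih (R x) (R w) hx', zero_sub,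
      neg_eq_zero, ← Module.End.mul_apply, ← pow_succ, pow_succ', Module.End.mul_apply,
      ih (R x) w hx', map_zero]

/-- The image of `R^m` is closed under the Jordan product. -/
theorem range_jp (m : ℕ) : ∀ x w : A, ∃ z : A, jp ((R ^ m) x) ((R ^ m) w) = (R ^ m) z := by
  induction m with
  | zero =>
    intro x w
    exact ⟨jp x w, rfl⟩
  | succ m ih =>
    intro x w
    have h2 : ∀ w : A, (R ^ (m + 1)) w = R ((R ^ m) w) := by
      intro w
      rw [pow_succ', Module.End.mul_apply]
    have h3 : ∀ w : A, R ((R ^ m) w) = (R ^ m) (R w) := by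
      intro w
      rw [← Module.End.mul_apply, ← Module.End.mul_apply, ← pow_succ, ← pow_succ']
    obtain ⟨z1, hz1⟩ := ih (R x) w
    obtain ⟨z2, hz2⟩ := ih x (R w)
    refine ⟨z1 + z2, ?_⟩
    rw [h2, h2, h2, h, map_add (R ^ m), ← hz1, ← hz2, h3, h3]

/-- `R^(2k) = 0` if `R^k 1 = 0`. -/
theorem pow_two_mul_eq_zero [CharZero F] (k : ℕ) (hk : (R ^ k) 1 = 0) : R ^ (2 * k) = 0 := by
  apply LinearMap.ext
  intro w
  have h1 := ker_jp h k 1 w hk
  rw [one_jp, ← two_smul F, map_smul, ← Module.End.mul_apply, ← pow_add, ← two_mul] at h1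
  rw [LinearMap.zero_apply]
  exact (smul_eq_zero.1 h1).resolve_left two_ne_zero

variable [CharZero F]

/-- The powers of `R 1`. -/
theorem R_pow (k : ℕ) : ((k : F) + 1) • R ((R 1) ^ k) = (R 1) ^ (k + 1) := by
  induction k with
  | zero => rw [pow_zero, Nat.cast_zero, zero_add, one_smul, zero_add, pow_one]
  | succ k ih =>
    have h1 := rel_one h (((k : F) + 1) • (R 1) ^ k)
    rw [map_smul, ih] at h1
    have h2 : jp ((R 1) ^ (k + 1)) (R 1) = (2 : F) • (R 1) ^ (k + 1 + 1) := by
      unfold jp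
      rw [← pow_succ, ← pow_succ', two_smul]
    have h3 : jp (((k : F) + 1) • (R 1) ^ k) (R 1) =
        (2 : F) • (((k : F) + 1) • (R 1) ^ (k + 1)) := by
      rw [smul_jp]
      unfold jp
      rw [← pow_succ, ← pow_succ', ← two_smul F, smul_comm]
    rw [h2, h3, ← two_smul F, map_smul, map_smul, ← smul_add] at h1
    have h4 := smul_right_injective A (two_ne_zero (α := F)) h1
    rw [h4, map_smul, Nat.cast_add, Nat.cast_one]
    module

/-- The elements `R^k 1`. -/
theorem pow_R_one (k : ℕ) : (k.factorial : F) • (R ^ k) 1 = (R 1) ^ k := by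
  induction k with
  | zero => rw [pow_zero, pow_zero, Nat.factorial_zero, Nat.cast_one, one_smul,
      Module.End.one_apply]
  | succ k ih =>
    rw [← R_pow h k, ← ih, map_smul, pow_succ', Module.End.mul_apply, smul_smul,
      Nat.factorial_succ]
    push_cast
    rfl

/-- `R^k 1 = 0` iff `(R 1)^k = 0`. -/
theorem pow_R_one_eq_zero (k : ℕ) : (R ^ k) 1 = 0 ↔ (R 1) ^ k = 0 := by
  rw [← pow_R_one h k, smul_eq_zero]
  have : (k.factorial : F) ≠ 0 := Nat.cast_ne_zero.2 k.factorial_ne_zero
  tauto

omit [CharZero F] in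
/-- The relation of multiplication by `R 1` with powers. -/
theorem rel_pow (j : ℕ) (x : A) :
    jp (R 1) ((R ^ j) x) = (2 * j : F) • (R ^ (j + 1)) x + (R ^ j) (jp (R 1) x) := by
  induction j with
  | zero => rw [pow_zero, Module.End.one_apply, Nat.cast_zero, mul_zero, zero_smul, zero_add,
      Module.End.one_apply]
  | succ j ih =>
    have h1 := rel_one h ((R ^ j) x)
    rw [jp_comm, jp_comm ((R ^ j) x), ih, ← two_smul F (R ((R ^ j) x))] at h1
    simp only [map_add, map_smul] at h1
    have h2 : (R ^ (j + 1)) x = R ((R ^ j) x) := by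
      rw [pow_succ', Module.End.mul_apply]
    have h3 : (R ^ (j + 1 + 1)) x = R (R ((R ^ j) x)) := by
      rw [pow_succ', Module.End.mul_apply, h2]
    have h4 : (R ^ (j + 1)) (jp (R 1) x) = R ((R ^ j) (jp (R 1) x)) := by
      rw [pow_succ', Module.End.mul_apply]
    rw [h2] at h1 ⊢
    rw [h1, h3, h4, Nat.cast_add, Nat.cast_one]
    module

/-- The square of the inner derivation of `R 1`. -/
theorem rel_D (x : A) :
    R ((R 1) ^ 2 * x - (2 : F) • (R 1 * x * R 1) + x * (R 1) ^ 2) =
      (R 1) ^ 2 * R x - (2 : F) • (R 1 * R x * R 1) + R x * (R 1) ^ 2 := by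
  have e1 : ∀ y : A, jp (R y) (R 1) = (2 : F) • R (R y) + R (jp y (R 1)) := by
    intro y
    rw [rel_one h, map_add, two_smul]
  have e2 : (2 : F) • R (R 1) = (R 1) ^ 2 := by
    have := R_pow h 1
    rw [pow_one, Nat.cast_one, one_add_one_eq_two] at this
    exact this
  have e3 : jp (R x) ((R 1) ^ 2) = R ((2 : F) • jp (R x) (R 1) + jp x ((R 1) ^ 2)) := by
    rw [← e2, jp_smul, h x (R 1), jp_smul, ← smul_add, ← map_smul]
  have e4 : jp (jp (R x) (R 1)) (R 1) =
      R ((4 : F) • R (R x) + (2 : F) • R (jp x (R 1)) + (2 : F) • jp (R x) (R 1) +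
        jp (jp x (R 1)) (R 1)) := by
    have e41 : jp (R x) (R 1) = R ((2 : F) • R x + jp x (R 1)) := by
      rw [e1 x, map_add, map_smul]
    have e42 := e1 ((2 : F) • R x + jp x (R 1))
    rw [← e41, add_jp, smul_jp] at e42
    rw [e42, e1 x]
    simp only [map_add, map_smul]
    module
  have e5 : ∀ y : A, (R 1) ^ 2 * y - (2 : F) • (R 1 * y * R 1) + y * (R 1) ^ 2 =
      (2 : F) • jp y ((R 1) ^ 2) - jp (jp y (R 1)) (R 1) := by
    intro y
    unfold jp
    rw [two_smul, two_smul]
    noncomm_ring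
  rw [e5, e5, e3, e4, ← map_smul, ← map_sub]
  have e6 := e1 x
  have e7 : (2 : F) • jp (R x) (R 1) = (4 : F) • R (R x) + (2 : F) • R (jp x (R 1)) := by
    rw [e6]
    module
  congr 1
  rw [smul_add, ← e7]
  module

end

end Pool.Agent.MP_f4742e_al
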