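import Pool.Agent.Lib.MP_f4742e_al.Fil
import Pool.Agent.Lib.MP_f4742e_al.Idem

/-!
Equal blocks: independence of the elements `a^i g a^j`, and the image of high powers of `R`.
-/

set_option autoImplicit false

namespace Pool.Agent.MP_f4742e_al

section

variable {F A : Type*} [Field F] [Ring A] [Algebra F A]
  {ι : Type*} [Fintype ι] [DecidableEq ι]

omit [DecidableEq ι] in
/-- Independence of the elements `a^i g_α a^j`. -/
theorem indep {a : A} {k : ℕ} (ha : a ^ k = 0) {g : ι → A}
    (hg : LinearIndependent F fun α => a ^ (k - 1) * g α * a ^ (k - 1)) :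
    LinearIndependent F fun q : Fin k × Fin k × ι => a ^ (q.1 : ℕ) * g q.2.2 * a ^ (q.2.1 : ℕ) := by
  rw [Fintype.linearIndependent_iff] at hg ⊢
  intro c hc
  have key : ∀ n : ℕ, ∀ q : Fin k × Fin k × ι, (q.1 : ℕ) + (q.2.1 : ℕ) = n → c q = 0 := by
    intro n
    induction n using Nat.strong_induction_on with
    | _ n ih =>
      intro q hq
      have h1 := congrArg (fun x => a ^ (k - 1 - (q.1 : ℕ)) * x * a ^ (k - 1 - (q.2.1 : ℕ))) hc
      simp only [Finset.mul_sum, Finset.sum_mul, mul_zero, zero_mul] at h1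
      have h2 : ∑ p : Fin k × Fin k × ι, a ^ (k - 1 - (q.1 : ℕ)) *
          (c p • (a ^ (p.1 : ℕ) * g p.2.2 * a ^ (p.2.1 : ℕ))) * a ^ (k - 1 - (q.2.1 : ℕ)) =
          ∑ α : ι, c (q.1, q.2.1, α) • (a ^ (k - 1) * g α * a ^ (k - 1)) := by
        rw [Fintype.sum_prod_type, Finset.sum_eq_single q.1, Fintype.sum_prod_type,
          Finset.sum_eq_single q.2.1]
        · apply Finset.sum_congr rfl
          intro α _
          rw [mul_smul_comm, smul_mul_assoc]
          congr 1
          have h3 : a ^ (k - 1 - (q.1 : ℕ)) * (a ^ (q.1 : ℕ) * g α * a ^ (q.2.1 : ℕ)) *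
              a ^ (k - 1 - (q.2.1 : ℕ)) = (a ^ (k - 1 - (q.1 : ℕ)) * a ^ (q.1 : ℕ)) * g α *
              (a ^ (q.2.1 : ℕ) * a ^ (k - 1 - (q.2.1 : ℕ))) := by
            simp only [mul_assoc]
          have hq1 := q.1.2
          have hq2 := q.2.1.2
          have h4 : k - 1 - (q.1 : ℕ) + (q.1 : ℕ) = k - 1 := by omega
          have h5 : (q.2.1 : ℕ) + (k - 1 - (q.2.1 : ℕ)) = k - 1 := by omega
          rw [h3, ← pow_add, ← pow_add, h4, h5]
        · intro j _ hj
          apply Finset.sum_eq_zero
          intro α _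
          rcases lt_or_gt_of_ne (fun hjj => hj (Fin.ext hjj) : (j : ℕ) ≠ (q.2.1 : ℕ)) with h3 | h3
          · rw [ih ((q.1 : ℕ) + (j : ℕ)) (by omega) (q.1, j, α) rfl, zero_smul, mul_zero, zero_mul]
          · rw [mul_smul_comm, smul_mul_assoc]
            have h4 : a ^ (k - 1 - (q.1 : ℕ)) * (a ^ (q.1 : ℕ) * g α * a ^ (j : ℕ)) *
                a ^ (k - 1 - (q.2.1 : ℕ)) = a ^ (k - 1 - (q.1 : ℕ)) * (a ^ (q.1 : ℕ) * g α) *
                (a ^ (j : ℕ) * a ^ (k - 1 - (q.2.1 : ℕ))) := by
              simp only [mul_assoc]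
            have hj2 := j.2
            have h5 : a ^ ((j : ℕ) + (k - 1 - (q.2.1 : ℕ))) = 0 :=
              pow_eq_zero_of_le (by omega) ha
            rw [h4, ← pow_add a (j : ℕ), h5, mul_zero, smul_zero]
        · intro hcon
          exact absurd (Finset.mem_univ _) hcon
        · intro i _ hi
          rw [Fintype.sum_prod_type]
          apply Finset.sum_eq_zero
          intro j _
          apply Finset.sum_eq_zero
          intro α _
          by_cases h6 : (i : ℕ) + (j : ℕ) < n
          · rw [ih ((i : ℕ) + (j : ℕ)) h6 (i, j, α) rfl, zero_smul, mul_zero, zero_mul]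
          · rw [mul_smul_comm, smul_mul_assoc]
            have hi2 := i.2
            have hj2 := j.2
            have h4 : a ^ (k - 1 - (q.1 : ℕ)) * (a ^ (i : ℕ) * g α * a ^ (j : ℕ)) *
                a ^ (k - 1 - (q.2.1 : ℕ)) = (a ^ (k - 1 - (q.1 : ℕ)) * a ^ (i : ℕ)) * g α *
                (a ^ (j : ℕ) * a ^ (k - 1 - (q.2.1 : ℕ))) := by
              simp only [mul_assoc]
            have hii : (i : ℕ) ≠ (q.1 : ℕ) := fun hii => hi (Fin.ext hii)
            rw [h4, ← pow_add, ← pow_add]
            by_cases h7 : (q.1 : ℕ) < (i : ℕ)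
            · have h5 : a ^ (k - 1 - (q.1 : ℕ) + (i : ℕ)) = 0 :=
                pow_eq_zero_of_le (by omega) ha
              rw [h5, zero_mul, zero_mul, smul_zero]
            · have h5 : a ^ ((j : ℕ) + (k - 1 - (q.2.1 : ℕ))) = 0 :=
                pow_eq_zero_of_le (by omega) ha
              rw [h5, mul_zero, smul_zero]
        · intro hcon
          exact absurd (Finset.mem_univ _) hcon
      rw [h2] at h1
      exact hg _ h1 q.2.2
  intro q
  exact key _ q rfl

omit [DecidableEq ι] in
/-- The dimension bound. -/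
theorem card_le [FiniteDimensional F A] {a : A} {k : ℕ} (ha : a ^ k = 0) {g : ι → A}
    (hg : LinearIndependent F fun α => a ^ (k - 1) * g α * a ^ (k - 1)) :
    k * (k * Fintype.card ι) ≤ Module.finrank F A := by
  have h1 := (indep ha hg).fintype_card_le_finrank
  rw [Fintype.card_prod, Fintype.card_prod, Fintype.card_fin] at h1
  exact h1

/-- The basis in the case of equal blocks. -/
noncomputable def mkEqBlock [FiniteDimensional F A] {a : A} {k : ℕ} (hk : 0 < k) (ha : a ^ k = 0)
    {g : ι → A} [Nonempty ι]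
    (hg : LinearIndependent F fun α => a ^ (k - 1) * g α * a ^ (k - 1))
    (hcard : k * (k * Fintype.card ι) = Module.finrank F A) :
    EqBlock (LinearMap.mulLeft F a) (LinearMap.mulRight F a) k ι where
  g := g
  b := by
    haveI : NeZero k := ⟨hk.ne'⟩
    exact basisOfLinearIndependentOfCardEqFinrank (indep ha hg) (by
      rw [Fintype.card_prod, Fintype.card_prod, Fintype.card_fin]
      exact hcard)
  hb := by
    intro i j α
    have : NeZero k := ⟨hk.ne'⟩
    rw [coe_basisOfLinearIndependentOfCardEqFinrank, Module.End.mul_apply,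
      LinearMap.pow_mulLeft, LinearMap.pow_mulRight, LinearMap.mulLeft_apply,
      LinearMap.mulRight_apply, mul_assoc]
  comm := LinearMap.commute_mulLeft_right a a
  hl := by
    rw [LinearMap.pow_mulLeft, ha, LinearMap.mulLeft_zero_eq_zero]
  hr := by
    rw [LinearMap.pow_mulRight, ha, LinearMap.mulRight_zero_eq_zero]

variable {a : A} {k : ℕ} (E : EqBlock (LinearMap.mulLeft F a) (LinearMap.mulRight F a) k ι)

omit [Fintype ι] in
/-- Elements killed by `a` on both sides lie in the last step of the filtration. -/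
theorem mem_Fl_last {x : A} (h1 : a * x = 0) (h2 : x * a = 0) : x ∈ Fl E.b (2 * k - 2) := by
  intro q hq
  have hx := E.b.linearCombination_repr x
  rw [Finsupp.linearCombination_apply, Finsupp.sum] at hx
  by_cases h3 : (q.1 : ℕ) < k - 1
  · have h4 : E.b.repr (a * x) (⟨(q.1 : ℕ) + 1, by omega⟩, q.2.1, q.2.2) = E.b.repr x q := by
      have h5 : a * x = ∑ p ∈ (E.b.repr x).support, E.b.repr x p •
          ((LinearMap.mulLeft F a) ^ ((p.1 : ℕ) + 1) * (LinearMap.mulRight F a) ^ (p.2.1 : ℕ))
            (E.g p.2.2) := by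
        conv_lhs => rw [← hx]
        rw [Finset.mul_sum]
        apply Finset.sum_congr rfl
        rintro ⟨i, j, α⟩ _
        rw [mul_smul_comm, E.hb, pow_succ', mul_assoc, Module.End.mul_apply _ (_ * _),
          LinearMap.mulLeft_apply]
      rw [h5, map_sum, Finsupp.finsetSum_apply]
      simp only [map_smul, Finsupp.smul_apply, mon_repr E]
      rw [Finset.sum_eq_single q]
      · rw [if_pos ⟨rfl, rfl, rfl⟩, smul_eq_mul, mul_one]
      · intro p _ hp
        rw [if_neg, smul_zero]
        rintro ⟨h6, h7, h8⟩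
        apply hp
        refine Prod.ext (Fin.ext ?_) (Prod.ext (Fin.ext h7) h8)
        omega
      · intro hq
        rw [Finsupp.notMem_support_iff.1 hq, zero_smul]
    rw [← h4, h1, map_zero, Finsupp.zero_apply]
  · have h3' : (q.2.1 : ℕ) < k - 1 := by
      have := q.1.2
      omega
    have h4 : E.b.repr (x * a) (q.1, ⟨(q.2.1 : ℕ) + 1, by omega⟩, q.2.2) = E.b.repr x q := by
      have h5 : x * a = ∑ p ∈ (E.b.repr x).support, E.b.repr x p •
          ((LinearMap.mulLeft F a) ^ (p.1 : ℕ) * (LinearMap.mulRight F a) ^ ((p.2.1 : ℕ) + 1))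
            (E.g p.2.2) := by
        conv_lhs => rw [← hx]
        rw [Finset.sum_mul]
        apply Finset.sum_congr rfl
        rintro ⟨i, j, α⟩ _
        rw [smul_mul_assoc, E.hb, pow_succ', ← mul_assoc,
          ((LinearMap.commute_mulLeft_right a a).pow_left (i : ℕ)).eq, mul_assoc,
          Module.End.mul_apply _ (_ * _), LinearMap.mulRight_apply]
      rw [h5, map_sum, Finsupp.finsetSum_apply]
      simp only [map_smul, Finsupp.smul_apply, mon_repr E]
      rw [Finset.sum_eq_single q]
      · rw [if_pos ⟨rfl, rfl, rfl⟩, smul_eq_mul, mul_one]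
      · intro p _ hp
        rw [if_neg, smul_zero]
        rintro ⟨h6, h7, h8⟩
        apply hp
        refine Prod.ext (Fin.ext h6) (Prod.ext (Fin.ext ?_) h8)
        omega
      · intro hq
        rw [Finsupp.notMem_support_iff.1 hq, zero_smul]
    rw [← h4, h2, map_zero, Finsupp.zero_apply]

omit [DecidableEq ι] in
/-- The last step of the filtration. -/
theorem Fl_last_span (hk : 0 < k) {x : A} (hx : x ∈ Fl E.b (2 * k - 2)) :
    ∃ c : ι → F, x = ∑ α, c α • (a ^ (k - 1) * E.g α * a ^ (k - 1)) := by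
  refine ⟨fun α => E.b.repr x (⟨k - 1, by omega⟩, ⟨k - 1, by omega⟩, α), ?_⟩
  conv_lhs => rw [← E.b.sum_repr x]
  rw [Fintype.sum_prod_type, Finset.sum_eq_single (⟨k - 1, by omega⟩ : Fin k),
    Fintype.sum_prod_type, Finset.sum_eq_single (⟨k - 1, by omega⟩ : Fin k)]
  · apply Finset.sum_congr rfl
    intro α _
    congr 1
    rw [E.hb, Module.End.mul_apply,
      LinearMap.pow_mulLeft, LinearMap.pow_mulRight, LinearMap.mulLeft_apply,
      LinearMap.mulRight_apply, mul_assoc]
  · intro j _ hj
    apply Finset.sum_eq_zero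
    intro α _
    have h1 : (j : ℕ) ≠ k - 1 := fun h => hj (Fin.ext h)
    have h2 := j.2
    rw [hx _ (by simp only; omega), zero_smul]
  · intro hcon
    exact absurd (Finset.mem_univ _) hcon
  · intro i _ hi
    apply Finset.sum_eq_zero
    rintro ⟨j, α⟩ _
    have h1 : (i : ℕ) ≠ k - 1 := fun h => hi (Fin.ext h)
    have h2 := i.2
    have h3 := j.2
    rw [hx _ (by simp only; omega), zero_smul]
  · intro hcon
    exact absurd (Finset.mem_univ _) hcon

end

section

variable {F A : Type*} [Field F] [CharZero F] [Ring A] [Algebra F A]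
  {ι : Type*} [Fintype ι] [DecidableEq ι] {R : A →ₗ[F] A} {k : ℕ}
  (E : EqBlock (LinearMap.mulLeft F (R 1)) (LinearMap.mulRight F (R 1)) k ι)

include E

/-- The powers of `R` and the filtration. -/
theorem pow_Fl (h : JRB R) (j : ℕ) (s : ℕ) (hs : s + j ≤ 2 * k - 1) (x : A) (hx : x ∈ Fl E.b s) :
    (R ^ (j + 1)) x ∈ Fl E.b (s + j) := by
  have hD : Commute ((LinearMap.mulLeft F (R 1) - LinearMap.mulRight F (R 1)) ^ 2)
      (R : Module.End F A) := by
    apply LinearMap.ext
    intro y
    have h1 := rel_D h y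
    rw [Module.End.mul_apply, Module.End.mul_apply]
    have h2 : ∀ z : A, ((LinearMap.mulLeft F (R 1) - LinearMap.mulRight F (R 1)) ^ 2) z =
        (R 1) ^ 2 * z - (2 : F) • (R 1 * z * R 1) + z * (R 1) ^ 2 := by
      intro z
      rw [pow_two, Module.End.mul_apply, LinearMap.sub_apply, LinearMap.sub_apply,
        LinearMap.mulLeft_apply, LinearMap.mulLeft_apply, LinearMap.mulRight_apply,
        LinearMap.mulRight_apply, two_smul]
      noncomm_ring
    rw [h2, h2, h1]
  induction j generalizing s x with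
  | zero =>
    rw [zero_add, pow_one, add_zero]
    exact Fl_stable E hD s hs x hx
  | succ j ih =>
    have h1 := rel_pow h (j + 1) x
    have h2 : jp (R 1) ((R ^ (j + 1)) x) ∈ Fl E.b (s + (j + 1)) := by
      have h3 := ih s (by omega) x hx
      have h4 := Fl_l E h3
      have h5 := Fl_r E h3
      rw [LinearMap.mulLeft_apply] at h4
      rw [LinearMap.mulRight_apply] at h5
      exact Submodule.add_mem _ h4 h5
    have h3 : (R ^ (j + 1)) (jp (R 1) x) ∈ Fl E.b (s + (j + 1)) := by
      have h4 := Fl_l E hx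
      have h5 := Fl_r E hx
      rw [LinearMap.mulLeft_apply] at h4
      rw [LinearMap.mulRight_apply] at h5
      have h6 := ih (s + 1) (by omega) _ (Submodule.add_mem _ h4 h5)
      have h7 : s + 1 + j = s + (j + 1) := by ring
      rw [h7] at h6
      exact h6
    have h4 : (2 * ((j + 1 : ℕ) : F)) ≠ 0 :=
      mul_ne_zero two_ne_zero (Nat.cast_ne_zero.2 (Nat.succ_ne_zero j))
    have h5 : (R ^ (j + 1 + 1)) x = (2 * ((j + 1 : ℕ) : F))⁻¹ •
        (jp (R 1) ((R ^ (j + 1)) x) - (R ^ (j + 1)) (jp (R 1) x)) := by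
      rw [h1, add_sub_cancel_right, smul_smul, inv_mul_cancel₀ h4, one_smul]
    rw [h5]
    exact Submodule.smul_mem _ _ (Submodule.sub_mem _ h2 h3)

theorem range_Fl (h : JRB R) (hk : 0 < k) (x : A) :
    (R ^ (2 * k - 1)) x ∈ Fl E.b (2 * k - 2) := by
  have h1 := pow_Fl E h (2 * k - 2) 0 (by omega) x (Fl_zero E x)
  have h2 : 2 * k - 2 + 1 = 2 * k - 1 := by omega
  rw [h2, zero_add] at h1
  exact h1

end

end Pool.Agent.MP_f4742e_al
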