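import Mathlib

/-!
Nilpotent endomorphisms of maximal index over a division ring.
-/

set_option autoImplicit false

namespace Pool.Agent.MP_f4742e_al

open Module

section

variable {D V : Type*} [DivisionRing D] [AddCommGroup V] [Module D V] [FiniteDimensional D V]
  {f : V →ₗ[D] V}

omit [FiniteDimensional D V] in
theorem range_pow_le (f : V →ₗ[D] V) (j : ℕ) :
    LinearMap.range (f ^ (j + 1)) ≤ LinearMap.range (f ^ j) := by
  rintro _ ⟨x, rfl⟩
  exact ⟨f x, by rw [← Module.End.mul_apply, ← pow_succ]⟩

omit [FiniteDimensional D V] in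
theorem range_pow_stab {j : ℕ} (h : LinearMap.range (f ^ (j + 1)) = LinearMap.range (f ^ j))
    (i : ℕ) : LinearMap.range (f ^ (j + i)) = LinearMap.range (f ^ j) := by
  induction i with
  | zero => rw [add_zero]
  | succ i ih =>
    have h1 : ∀ k : ℕ, LinearMap.range (f ^ (k + 1)) = (LinearMap.range (f ^ k)).map f := by
      intro k
      rw [pow_succ', Module.End.mul_eq_comp, LinearMap.range_comp]
    rw [← add_assoc, h1, ih, ← h1, h]

/-- The ranks of the powers decrease strictly. -/
theorem finrank_range_pow {m : ℕ} (hm : f ^ m = 0) (i j : ℕ) (h : f ^ (i + j) ≠ 0) :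
    finrank D (LinearMap.range (f ^ (i + j))) + j ≤ finrank D (LinearMap.range (f ^ i)) := by
  induction j with
  | zero => rw [add_zero, add_zero]
  | succ j ih =>
    have h0 : f ^ (i + j) ≠ 0 := by
      intro h1
      apply h
      rw [← add_assoc, pow_succ, h1, zero_mul]
    have h1 := ih h0
    have h2 : LinearMap.range (f ^ (i + j + 1)) < LinearMap.range (f ^ (i + j)) := by
      refine lt_of_le_of_ne (range_pow_le f _) fun h3 => h0 ?_
      have h4 := range_pow_stab h3 m
      rw [pow_add, hm, mul_zero, LinearMap.range_zero] at h4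
      exact LinearMap.range_eq_bot.1 h4.symm
    have h3 := Submodule.finrank_lt_finrank_of_lt h2
    have h4 : i + (j + 1) = i + j + 1 := rfl
    rw [h4]
    omega

/-- The index of nilpotency is at most the dimension. -/
theorem index_le {m k : ℕ} (hm : f ^ m = 0) (hk : f ^ k ≠ 0) : k + 1 ≤ finrank D V := by
  have h1 := finrank_range_pow hm 0 k (by rw [zero_add]; exact hk)
  have h2 : 0 < finrank D (LinearMap.range (f ^ (0 + k))) := by
    rw [zero_add, Module.finrank_pos_iff, Submodule.nontrivial_iff_ne_bot]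
    intro h3
    exact hk (LinearMap.range_eq_bot.1 h3)
  rw [pow_zero, Module.End.one_eq_id, LinearMap.range_id, finrank_top] at h1
  omega

variable {m : ℕ} (hn : finrank D V = m + 1) (h0 : f ^ (m + 1) = 0) (h1 : f ^ m ≠ 0)

include hn h0 h1

theorem finrank_range_last : finrank D (LinearMap.range (f ^ m)) = 1 ∧
    m ≤ finrank D (LinearMap.range f) := by
  have h2 : 0 < finrank D (LinearMap.range (f ^ m)) := by
    rw [Module.finrank_pos_iff, Submodule.nontrivial_iff_ne_bot]
    intro h3
    exact h1 (LinearMap.range_eq_bot.1 h3)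
  have h3 := finrank_range_pow h0 0 m (by rw [zero_add]; exact h1)
  rw [pow_zero, Module.End.one_eq_id, LinearMap.range_id, finrank_top, hn, zero_add] at h3
  refine ⟨by omega, ?_⟩
  rcases Nat.eq_zero_or_pos m with hm | hm
  · omega
  · obtain ⟨l, rfl⟩ : ∃ l, m = 1 + l := ⟨m - 1, by omega⟩
    have h4 := finrank_range_pow h0 1 l h1
    rw [pow_one] at h4
    omega

/-- The kernel is the image of the last power. -/
theorem ker_eq_range_last {x : V} (hx : f x = 0) : ∃ y, x = (f ^ m) y := by
  obtain ⟨h2, h3⟩ := finrank_range_last hn h0 h1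
  have h4 : LinearMap.range (f ^ m) ≤ LinearMap.ker f := by
    rintro _ ⟨y, rfl⟩
    rw [LinearMap.mem_ker, ← Module.End.mul_apply, ← pow_succ', h0, LinearMap.zero_apply]
  have h5 := LinearMap.finrank_range_add_finrank_ker f
  have h6 := Submodule.eq_of_le_of_finrank_le h4 (by omega)
  have h7 : x ∈ LinearMap.range (f ^ m) := by
    rw [h6]
    exact hx
  obtain ⟨y, hy⟩ := h7
  exact ⟨y, hy.symm⟩

/-- The kernel of the last power is the image. -/
theorem ker_last_eq_range {x : V} (hx : (f ^ m) x = 0) : ∃ y, x = f y := by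
  obtain ⟨h2, h3⟩ := finrank_range_last hn h0 h1
  have h4 : LinearMap.range f ≤ LinearMap.ker (f ^ m) := by
    rintro _ ⟨y, rfl⟩
    rw [LinearMap.mem_ker, ← Module.End.mul_apply, ← pow_succ, h0, LinearMap.zero_apply]
  have h5 := LinearMap.finrank_range_add_finrank_ker (f ^ m)
  have h6 := Submodule.eq_of_le_of_finrank_le h4 (by omega)
  have h7 : x ∈ LinearMap.range f := by
    rw [h6]
    exact hx
  obtain ⟨y, hy⟩ := h7
  exact ⟨y, hy.symm⟩

end

end Pool.Agent.MP_f4742e_al
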