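import Pool.Agent.Lib.MP_f4742e_al.Lower

/-!
Extension of Rota-Baxter operators on matrices to matrices over an algebra.
-/

set_option autoImplicit false

namespace Pool.Agent.MP_f4742e_al

open Matrix

section

variable {F D : Type*} [Field F] [Ring D] [Algebra F D] {n : ℕ}

/-- The bilinear map `(d, x) ↦ x ⊗ d`. -/
def io (F D : Type*) [Field F] [Ring D] [Algebra F D] (n : ℕ) :
    D →ₗ[F] Matrix (Fin n) (Fin n) F →ₗ[F] Matrix (Fin n) (Fin n) D :=
  LinearMap.mk₂ F (fun d x => Matrix.of fun k l => x k l • d)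
    (fun d d' x => by
      ext k l
      rw [Matrix.add_apply, Matrix.of_apply, Matrix.of_apply, Matrix.of_apply, smul_add])
    (fun c d x => by
      ext k l
      rw [Matrix.smul_apply, Matrix.of_apply, Matrix.of_apply, smul_comm])
    (fun d x x' => by
      ext k l
      rw [Matrix.add_apply, Matrix.of_apply, Matrix.of_apply, Matrix.of_apply, Matrix.add_apply,
        add_smul])
    (fun c d x => by
      ext k l
      rw [Matrix.smul_apply, Matrix.of_apply, Matrix.of_apply, Matrix.smul_apply, smul_assoc])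

theorem io_apply (d : D) (x : Matrix (Fin n) (Fin n) F) (k l : Fin n) :
    io F D n d x k l = x k l • d := rfl

theorem io_mul (d d' : D) (x y : Matrix (Fin n) (Fin n) F) :
    io F D n d x * io F D n d' y = io F D n (d * d') (x * y) := by
  ext k l
  rw [Matrix.mul_apply, io_apply, Matrix.mul_apply, Finset.sum_smul]
  refine Finset.sum_congr rfl fun j _ => ?_
  rw [io_apply, io_apply, smul_mul_smul_comm]

theorem io_sum (X : Matrix (Fin n) (Fin n) D) :
    X = ∑ i, ∑ j, io F D n (X i j) (Matrix.single i j 1) := by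
  conv_lhs => rw [Matrix.matrix_eq_sum_single X]
  refine Finset.sum_congr rfl fun i _ => Finset.sum_congr rfl fun j _ => ?_
  ext k l
  rw [io_apply, Matrix.single_apply, Matrix.single_apply]
  split_ifs with h
  · rw [one_smul]
  · rw [zero_smul]

/-- The extension of an operator. -/
noncomputable def extD (D : Type*) [Ring D] [Algebra F D]
    (R : Matrix (Fin n) (Fin n) F →ₗ[F] Matrix (Fin n) (Fin n) F) :
    Matrix (Fin n) (Fin n) D →ₗ[F] Matrix (Fin n) (Fin n) D where
  toFun X := ∑ i, ∑ j, io F D n (X i j) (R (Matrix.single i j 1))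
  map_add' X Y := by
    simp only [Matrix.add_apply, map_add, LinearMap.add_apply, Finset.sum_add_distrib]
  map_smul' c X := by
    simp only [Matrix.smul_apply, map_smul, LinearMap.smul_apply, Finset.smul_sum,
      RingHom.id_apply]

theorem extD_io (R : Matrix (Fin n) (Fin n) F →ₗ[F] Matrix (Fin n) (Fin n) F) (d : D)
    (x : Matrix (Fin n) (Fin n) F) : extD D R (io F D n d x) = io F D n d (R x) := by
  change ∑ i, ∑ j, io F D n (x i j • d) (R (Matrix.single i j 1)) = _
  conv_rhs => rw [Matrix.matrix_eq_sum_single x]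
  rw [map_sum, map_sum]
  refine Finset.sum_congr rfl fun i _ => ?_
  rw [map_sum, map_sum]
  refine Finset.sum_congr rfl fun j _ => ?_
  have h1 : Matrix.single i j (x i j) = x i j • Matrix.single i j (1 : F) := by
    rw [Matrix.smul_single, smul_eq_mul, mul_one]
  rw [h1, map_smul, map_smul, map_smul, LinearMap.smul_apply]

theorem extD_pow (R : Matrix (Fin n) (Fin n) F →ₗ[F] Matrix (Fin n) (Fin n) F) (N : ℕ) (d : D)
    (x : Matrix (Fin n) (Fin n) F) :
    ((extD D R) ^ N) (io F D n d x) = io F D n d ((R ^ N) x) := by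
  induction N with
  | zero => rfl
  | succ N ih => rw [pow_succ', Module.End.mul_apply, ih, extD_io, pow_succ',
      Module.End.mul_apply]

theorem io_induction {P : Matrix (Fin n) (Fin n) D → Prop} (h0 : P 0)
    (h1 : ∀ d x, P (io F D n d x)) (h2 : ∀ X Y, P X → P Y → P (X + Y))
    (X : Matrix (Fin n) (Fin n) D) : P X := by
  rw [io_sum (F := F) X]
  refine Finset.sum_induction _ P h2 h0 fun i _ => ?_
  exact Finset.sum_induction _ P h2 h0 fun j _ => h1 _ _

theorem extD_rb {R : Matrix (Fin n) (Fin n) F →ₗ[F] Matrix (Fin n) (Fin n) F}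
    (hR : ∀ x y, R x * R y = R (R x * y + x * R y)) (X Y : Matrix (Fin n) (Fin n) D) :
    extD D R X * extD D R Y = extD D R (extD D R X * Y + X * extD D R Y) := by
  revert Y
  refine io_induction (F := F) (P := fun X => ∀ Y, extD D R X * extD D R Y =
    extD D R (extD D R X * Y + X * extD D R Y)) ?_ ?_ ?_ X
  · intro Y
    simp only [map_zero, zero_mul, add_zero]
  · intro d x Y
    refine io_induction (F := F) (P := fun Y => extD D R (io F D n d x) * extD D R Y =
      extD D R (extD D R (io F D n d x) * Y + io F D n d x * extD D R Y)) ?_ ?_ ?_ Y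
    · simp only [map_zero, mul_zero, add_zero]
    · intro d' y
      rw [extD_io, extD_io, io_mul, io_mul, io_mul, ← map_add, extD_io, hR]
    · intro Y Y' hY hY'
      rw [map_add, mul_add, hY, hY', mul_add, mul_add, ← map_add]
      congr 1
      abel
  · intro X X' hX hX' Y
    rw [map_add, add_mul, hX, hX', add_mul, add_mul, ← map_add]
    congr 1
    abel

theorem extD_pow_ne [Nontrivial D] {R : Matrix (Fin n) (Fin n) F →ₗ[F] Matrix (Fin n) (Fin n) F}
    {N : ℕ} (hR : R ^ N ≠ 0) : (extD D R) ^ N ≠ 0 := by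
  intro h
  apply hR
  apply LinearMap.ext
  intro x
  have h1 := extD_pow (D := D) R N 1 x
  rw [h, LinearMap.zero_apply] at h1
  ext k l
  have h2 := congrFun (congrFun h1 k) l
  rw [Matrix.zero_apply, io_apply] at h2
  rw [LinearMap.zero_apply, Matrix.zero_apply]
  exact (smul_eq_zero.1 h2.symm).resolve_right one_ne_zero

/-- A Rota-Baxter operator on `M_{m+1}(D)` with nonzero `2m`-th power. -/
theorem lowerD (F D : Type*) [Field F] [Ring D] [Nontrivial D] [Algebra F D] (m : ℕ) :
    ∃ S : Matrix (Fin (m + 1)) (Fin (m + 1)) D →ₗ[F] Matrix (Fin (m + 1)) (Fin (m + 1)) D,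
      (∀ X Y, S X * S Y = S (S X * Y + X * S Y)) ∧ S ^ (2 * m) ≠ 0 :=
  ⟨extD D (RR F m), extD_rb RR_rb, extD_pow_ne RR_pow_ne⟩

end

end Pool.Agent.MP_f4742e_al
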