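import Pool.Agent.Lib.MP_f4742e_al.HData

/-!
The image of `R^m`, where `(R 1)^m = 0`.
-/

set_option autoImplicit false

namespace Pool.Agent.MP_f4742e_al

section general

variable {F A : Type*} [Field F] [Ring A] [Algebra F A] [CharZero F] {R : A →ₗ[F] A} (h : JRB R)

include h

theorem L_succ (k : ℕ) (x : A) : ((k : F) + 1) • R (jp ((R 1) ^ k) (R x)) =
    jp ((R 1) ^ (k + 1)) (R x) - R (jp ((R 1) ^ (k + 1)) x) := by
  have h1 := h (((k : F) + 1) • (R 1) ^ k) x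
  rw [← a_pow_succ h k, smul_jp, map_add, map_smul] at h1
  rw [h1, add_sub_cancel_left]

theorem Cfact {m : ℕ} (hm : (R 1) ^ m = 0) (d : ℕ) : ∀ k, k + d = m → ∀ i j : ℕ, d ≤ i → d ≤ j →
    ∀ x : A, (R ^ i) (jp ((R 1) ^ k) ((R ^ j) x)) = 0 := by
  induction d with
  | zero =>
    intro k hk i j _ _ x
    rw [add_zero] at hk
    rw [hk, hm, zero_jp, map_zero]
  | succ d ih =>
    intro k hk i j hi hj x
    obtain ⟨i', rfl⟩ : ∃ i', i = i' + 1 := ⟨i - 1, by omega⟩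
    obtain ⟨j', rfl⟩ : ∃ j', j = j' + 1 := ⟨j - 1, by omega⟩
    have h1 := L_succ h k ((R ^ j') x)
    have h2 := congrArg (R ^ i') h1
    rw [map_smul, map_sub, ← Module.End.mul_apply, ← pow_succ, ← Module.End.mul_apply (R ^ i') R,
      ← pow_succ, ← Module.End.mul_apply R (R ^ j'), ← pow_succ',
      ih (k + 1) (by omega) i' (j' + 1) (by omega) (by omega) x,
      ih (k + 1) (by omega) (i' + 1) j' (by omega) (by omega) x, sub_zero] at h2
    exact (smul_eq_zero.1 h2).resolve_left (Nat.cast_add_one_ne_zero k)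

theorem b1_aux {m : ℕ} (hm : (R 1) ^ m = 0) (x : A) (i : ℕ) : ∀ k, k + i + 1 = m →
    (k.factorial : F) • jp ((R 1) ^ (m - 1)) ((R ^ m) x) =
      ((m - 1).factorial : F) • (R ^ i) (jp ((R 1) ^ k) ((R ^ m) x)) := by
  induction i with
  | zero =>
    intro k hk
    have h1 : m - 1 = k := by omega
    rw [h1, pow_zero, Module.End.one_apply]
  | succ i ih =>
    intro k hk
    have h1 := ih (k + 1) (by omega)
    have h2 := L_succ h k ((R ^ (m - 1)) x)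
    have h3 : R ((R ^ (m - 1)) x) = (R ^ m) x := by
      rw [← Module.End.mul_apply, ← pow_succ']
      congr 2
      omega
    rw [h3] at h2
    have h4 := congrArg (R ^ i) h2
    rw [map_smul, map_sub, ← Module.End.mul_apply, ← pow_succ, ← Module.End.mul_apply (R ^ i) R,
      ← pow_succ, Cfact h hm (i + 1) (k + 1) (by omega) (i + 1) (m - 1) le_rfl (by omega) x,
      sub_zero] at h4
    rw [← h4, Nat.factorial_succ, Nat.cast_mul, mul_smul, Nat.cast_add, Nat.cast_one, smul_comm,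
      smul_comm _ ((k : F) + 1), smul_comm _ ((k : F) + 1)] at h1
    have h5 := smul_right_injective A (Nat.cast_add_one_ne_zero (R := F) k)
    apply h5
    change ((k : F) + 1) • _ = ((k : F) + 1) • _
    rw [← h1]

/-- `e ∘ R^m x` is a multiple of `R^(2m-1) x`. -/
theorem jp_e {m : ℕ} (hm1 : 1 ≤ m) (hm : (R 1) ^ m = 0) (x : A) :
    jp ((R 1) ^ (m - 1)) ((R ^ m) x) = (2 * ((m - 1).factorial : F)) • (R ^ (2 * m - 1)) x := by
  have h1 := b1_aux h hm x (m - 1) 0 (by omega)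
  rw [Nat.factorial_zero, Nat.cast_one, one_smul, pow_zero, one_jp, ← two_smul F, map_smul,
    ← Module.End.mul_apply, ← pow_add] at h1
  have h2 : m - 1 + m = 2 * m - 1 := by omega
  rw [h1, h2, smul_smul, mul_comm]

theorem pow_2m {m : ℕ} (hm : (R 1) ^ m = 0) (j : ℕ) (hj : 2 * m ≤ j) (x : A) : (R ^ j) x = 0 := by
  have h1 := pow_two_mul_eq_zero h m ((pow_R_one_eq_zero h m).2 hm)
  rw [pow_eq_zero_of_le hj h1, LinearMap.zero_apply]

theorem jp_a_last {m : ℕ} (hm1 : 1 ≤ m) (hm : (R 1) ^ m = 0) (x : A) :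
    jp (R 1) ((R ^ (2 * m - 1)) x) = 0 := by
  have h1 := rel_pow h (2 * m - 1) x
  have h2 := rel_pow h m x
  rw [pow_2m h hm (2 * m - 1 + 1) (by omega), smul_zero, zero_add] at h1
  rw [h1]
  have h3 : 2 * m - 1 = (m - 1) + m := by omega
  have h4 : (R ^ m) (jp (R 1) x) = jp (R 1) ((R ^ m) x) - (2 * m : F) • (R ^ (m + 1)) x := by
    rw [h2, add_sub_cancel_left]
  have h5 := Cfact h hm (m - 1) 1 (by omega) (m - 1) m le_rfl (by omega) x
  rw [pow_one] at h5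
  rw [h3, pow_add, Module.End.mul_apply, h4, map_sub, map_smul, h5, ← Module.End.mul_apply,
    ← pow_add, pow_2m h hm _ (by omega), smul_zero, sub_zero]

omit [CharZero F] in
theorem jp_a_mem (m : ℕ) (x : A) : jp (R 1) ((R ^ m) x) =
    (R ^ m) ((2 * m : F) • R x + jp (R 1) x) := by
  rw [rel_pow h m x, map_add, map_smul, pow_succ, Module.End.mul_apply]

theorem sq_mem (m : ℕ) (x : A) : ∃ z, (R ^ m) x * (R ^ m) x = (R ^ m) z := by
  obtain ⟨z, hz⟩ := range_jp h m x x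
  refine ⟨(2 : F)⁻¹ • z, ?_⟩
  rw [map_smul, ← hz]
  unfold jp
  rw [← two_smul F, smul_smul, inv_mul_cancel₀ two_ne_zero, one_smul]

theorem qaq_mem (m : ℕ) (x : A) : ∃ z, (R ^ m) x * R 1 * (R ^ m) x = (R ^ m) z := by
  obtain ⟨z1, h1⟩ := sq_mem h m x
  obtain ⟨z2, h2⟩ := range_jp h m x ((2 * m : F) • R x + jp (R 1) x)
  rw [← jp_a_mem h m x] at h2
  have h3 := jp_a_mem h m z1
  rw [← h1] at h3
  refine ⟨(2 : F)⁻¹ • (z2 - ((2 * m : F) • R z1 + jp (R 1) z1)), ?_⟩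
  rw [map_smul, map_sub, ← h2, ← h3]
  have h4 : jp ((R ^ m) x) (jp (R 1) ((R ^ m) x)) - jp (R 1) ((R ^ m) x * (R ^ m) x) =
      (2 : F) • ((R ^ m) x * R 1 * (R ^ m) x) := by
    rw [two_smul]
    unfold jp
    noncomm_ring
  rw [h4, smul_smul, inv_mul_cancel₀ two_ne_zero, one_smul]

omit h [CharZero F] in
theorem e_mul_e {m : ℕ} (hm1 : 2 ≤ m) (hm : (R 1) ^ m = 0) :
    (R 1) ^ (m - 1) * (R 1) ^ (m - 1) = 0 := by
  rw [← pow_add]
  exact pow_eq_zero_of_le (by omega) hm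

omit h [CharZero F] in
theorem a_mul_e {m : ℕ} (hm1 : 1 ≤ m) (hm : (R 1) ^ m = 0) : R 1 * (R 1) ^ (m - 1) = 0 := by
  rw [← pow_succ']
  exact pow_eq_zero_of_le (by omega) hm

omit h [CharZero F] in
theorem e_mul_a {m : ℕ} (hm1 : 1 ≤ m) (hm : (R 1) ^ m = 0) : (R 1) ^ (m - 1) * R 1 = 0 := by
  rw [← pow_succ]
  exact pow_eq_zero_of_le (by omega) hm

theorem e_q_e {m : ℕ} (hm1 : 2 ≤ m) (hm : (R 1) ^ m = 0) (x : A) :
    (R 1) ^ (m - 1) * (R ^ m) x * (R 1) ^ (m - 1) = 0 := by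
  have h1 := jp_e h (by omega) hm x
  have h2 := congrArg (jp ((R 1) ^ (m - 1))) h1
  have h3 : 2 * m - 1 = m + (m - 1) := by omega
  have h3' : (R ^ (2 * m - 1)) ((R ^ (m - 1)) x) = 0 := by
    rw [← Module.End.mul_apply, ← pow_add]
    exact pow_2m h hm _ (by omega) _
  have h3'' : jp ((R 1) ^ (m - 1)) ((R ^ (2 * m - 1)) x) = 0 := by
    rw [h3, pow_add R, Module.End.mul_apply, jp_e h (by omega) hm, h3', smul_zero]
  rw [jp_smul, h3'', smul_zero] at h2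
  have h4 : jp ((R 1) ^ (m - 1)) (jp ((R 1) ^ (m - 1)) ((R ^ m) x)) =
      (2 : F) • ((R 1) ^ (m - 1) * (R ^ m) x * (R 1) ^ (m - 1)) := by
    have h5 := e_mul_e hm1 hm
    generalize (R 1) ^ (m - 1) = e at h5 ⊢
    unfold jp
    rw [two_smul, mul_add, add_mul, ← mul_assoc e e, h5, zero_mul, zero_add, mul_assoc _ e e, h5,
      mul_zero, add_zero, ← mul_assoc]
  rw [h4] at h2
  exact (smul_eq_zero.1 h2).resolve_left two_ne_zero

omit [CharZero F] in
theorem shuffle (p : ℕ) : ∀ (u w : A) (r : ℕ), (R ^ (p + 1)) u = 0 → p + 1 ≤ r →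
    (R ^ p) (jp u ((R ^ r) w)) = jp ((R ^ p) u) ((R ^ r) w) := by
  induction p with
  | zero =>
    intro u w r _ _
    rfl
  | succ p ih =>
    intro u w r hu hr
    obtain ⟨r', rfl⟩ : ∃ r', r = r' + 1 := ⟨r - 1, by omega⟩
    have h1 := h u ((R ^ r') w)
    have h2 : R (jp u ((R ^ (r' + 1)) w)) =
        jp (R u) ((R ^ (r' + 1)) w) - R (jp (R u) ((R ^ r') w)) := by
      rw [pow_succ', Module.End.mul_apply, h1, map_add, add_sub_cancel_left]
    have h3 : (R ^ (p + 1)) (R u) = 0 := by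
      rw [← Module.End.mul_apply, ← pow_succ]
      exact hu
    have h4 : (R ^ (p + 1)) (jp (R u) ((R ^ r') w)) = 0 := by
      obtain ⟨t, rfl⟩ : ∃ t, r' = (p + 1) + t := ⟨r' - (p + 1), by omega⟩
      rw [pow_add R (p + 1) t, Module.End.mul_apply]
      exact ker_jp h (p + 1) _ _ h3
    have h5 : ∀ y : A, (R ^ (p + 1)) y = (R ^ p) (R y) := by
      intro y
      rw [pow_succ, Module.End.mul_apply]
    rw [h5] at h4
    rw [h5, h2, map_sub, ih (R u) w (r' + 1) h3 (by omega), h4, sub_zero, h5]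

theorem assoc_e {m : ℕ} (hm1 : 1 ≤ m) (hm : (R 1) ^ m = 0) (x x' : A) :
    jp ((R 1) ^ (m - 1)) (jp ((R ^ m) x) ((R ^ m) x')) =
      jp (jp ((R 1) ^ (m - 1)) ((R ^ m) x)) ((R ^ m) x') := by
  obtain ⟨z, hz⟩ := range_jp h m x x'
  have h1 : ∀ y : A, (R ^ (2 * m - 1)) y = (R ^ (m - 1)) ((R ^ m) y) := by
    intro y
    have h2 : 2 * m - 1 = (m - 1) + m := by omega
    rw [h2, pow_add, Module.End.mul_apply]
  have h3 : (R ^ (m - 1 + 1)) ((R ^ m) x) = 0 := by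
    rw [← Module.End.mul_apply, ← pow_add]
    exact pow_2m h hm _ (by omega) _
  rw [hz, jp_e h hm1 hm, h1, ← hz, shuffle h (m - 1) _ _ m h3 (by omega), jp_e h hm1 hm x, smul_jp,
    h1]

/-- `e q² + q² e = 2 q e q`. -/
theorem F_rel {m : ℕ} (hm1 : 1 ≤ m) (hm : (R 1) ^ m = 0) (x : A) :
    (R 1) ^ (m - 1) * ((R ^ m) x * (R ^ m) x) + (R ^ m) x * (R ^ m) x * (R 1) ^ (m - 1) =
      (2 : F) • ((R ^ m) x * (R 1) ^ (m - 1) * (R ^ m) x) := by
  have h1 := assoc_e h hm1 hm x x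
  generalize (R 1) ^ (m - 1) = e at h1 ⊢
  generalize (R ^ m) x = q at h1 ⊢
  unfold jp at h1
  rw [two_smul]
  have h2 : e * (q * q) + q * q * e - (q * e * q + q * e * q) =
      e * (q * q + q * q) + (q * q + q * q) * e - ((e * q + q * e) * q + q * (e * q + q * e)) := by
    noncomm_ring
  rw [← sub_eq_zero, h2, h1, sub_self]

theorem aqe {m : ℕ} (hm1 : 1 ≤ m) (hm : (R 1) ^ m = 0) (x : A) :
    R 1 * (R ^ m) x * (R 1) ^ (m - 1) + (R 1) ^ (m - 1) * (R ^ m) x * R 1 = 0 := by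
  have h1 := jp_a_last h hm1 hm x
  have h2 := jp_e h hm1 hm x
  have h3 := congrArg (jp (R 1)) h2
  rw [jp_smul, h1, smul_zero] at h3
  have h4 := a_mul_e hm1 hm
  have h5 := e_mul_a hm1 hm
  generalize (R 1) ^ (m - 1) = e at h3 h4 h5 ⊢
  unfold jp at h3
  rw [mul_add, add_mul, ← mul_assoc (R 1) e, h4, zero_mul, zero_add, mul_assoc _ e (R 1), h5,
    mul_zero, add_zero, ← mul_assoc] at h3
  exact h3

theorem aqeqa {m : ℕ} (hm1 : 1 ≤ m) (hm : (R 1) ^ m = 0) (x : A) :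
    R 1 * (R ^ m) x * (R 1) ^ (m - 1) * ((R ^ m) x * R 1) = 0 := by
  have h1 := aqe h hm1 hm x
  obtain ⟨z, hz⟩ := qaq_mem h m x
  have h2 := aqe h hm1 hm z
  rw [← hz] at h2
  generalize (R 1) ^ (m - 1) = e at h1 h2 ⊢
  generalize (R ^ m) x = q at h1 h2 ⊢
  have h3 : (2 : F) • (R 1 * q * e * (q * R 1)) = (R 1 * q * e + e * q * R 1) * (q * R 1) +
      R 1 * q * (R 1 * q * e + e * q * R 1) -
      (R 1 * (q * R 1 * q) * e + e * (q * R 1 * q) * R 1) := by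
    rw [two_smul]
    noncomm_ring
  rw [h1, h2, zero_mul, mul_zero, add_zero, sub_zero] at h3
  exact (smul_eq_zero.1 h3).resolve_left two_ne_zero

theorem jp_e_ne [FiniteDimensional F A] {m : ℕ} (hm1 : 1 ≤ m) (hm : (R 1) ^ m = 0)
    (he : (R 1) ^ (m - 1) ≠ 0) (x : A) {c : F}
    (hx : jp ((R 1) ^ (m - 1)) ((R ^ m) x) = c • (R 1) ^ (m - 1)) : c = 0 := by
  by_contra hc
  rw [jp_e h hm1 hm] at hx
  apply not_range h (m - 1) he ((c⁻¹ * (2 * ((m - 1).factorial : F))) • x)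
  have h1 : 2 * (m - 1) + 1 = 2 * m - 1 := by omega
  rw [h1, map_smul, mul_smul, hx, smul_smul, inv_mul_cancel₀ hc, one_smul]

theorem last_zero {m : ℕ} (hm1 : 1 ≤ m) (hm : (R 1) ^ m = 0) (x : A)
    (hx : jp ((R 1) ^ (m - 1)) ((R ^ m) x) = 0) : (R ^ (2 * m - 1)) x = 0 := by
  rw [jp_e h hm1 hm] at hx
  exact (smul_eq_zero.1 hx).resolve_left
    (mul_ne_zero two_ne_zero (Nat.cast_ne_zero.2 (Nat.factorial_ne_zero _)))

end general

end Pool.Agent.MP_f4742e_al
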