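import Pool.Agent.Lib.MP_f4742e_al.Block

/-!
The upper bound `2n - 1` for `M_n(F)^+`.
-/

set_option autoImplicit false

namespace Pool.Agent.MP_f4742e_al

open Matrix

section

variable {F A : Type*} [Field F] [CharZero F] [Ring A] [Algebra F A]

omit [Field F] [CharZero F] [Algebra F A] in
/-- The index of nilpotency. -/
theorem exists_index {a : A} (ha : IsNilpotent a) (h1 : (1 : A) ≠ 0) :
    ∃ k, 0 < k ∧ a ^ k = 0 ∧ a ^ (k - 1) ≠ 0 := by
  classical
  have ha' : ∃ n, a ^ n = 0 := ha
  refine ⟨Nat.find ha', ?_, Nat.find_spec ha', ?_⟩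
  · rw [Nat.find_pos, pow_zero]
    exact h1
  · apply Nat.find_min ha'
    have h2 : 0 < Nat.find ha' := by
      rw [Nat.find_pos, pow_zero]
      exact h1
    omega

theorem pow_zero_of_le {R : A →ₗ[F] A} (h : JRB R) {m N : ℕ} (hm : (R 1) ^ m = 0)
    (hN : 2 * m ≤ N) : R ^ N = 0 := by
  have h1 := pow_two_mul_eq_zero h m ((pow_R_one_eq_zero h m).2 hm)
  exact pow_eq_zero_of_le hN h1

/-- The conclusion for equal blocks, if the last step of the filtration meets the image of `R`
only in multiples of the last power of `R 1`. -/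
theorem EqBlock.conclude [FiniteDimensional F A] {R : A →ₗ[F] A} (h : JRB R) {k : ℕ} (hk : 0 < k)
    (hne : (R 1) ^ (k - 1) ≠ 0) {ι : Type*} [Fintype ι] [DecidableEq ι]
    (E : EqBlock (LinearMap.mulLeft F (R 1)) (LinearMap.mulRight F (R 1)) k ι)
    (hlast : ∀ x : A, R x ∈ Fl E.b (2 * k - 2) → ∃ c : F, R x = c • (R 1) ^ (k - 1)) :
    R ^ (2 * k - 1) = 0 := by
  apply LinearMap.ext
  intro x
  rw [LinearMap.zero_apply]
  by_contra hx
  have h1 := range_Fl E h hk x
  have h2 : 2 * k - 1 = (2 * k - 2) + 1 := by omega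
  have h3 : (R ^ (2 * k - 1)) x = R ((R ^ (2 * k - 2)) x) := by
    rw [h2, pow_succ', Module.End.mul_apply]
  rw [h3] at h1 hx
  obtain ⟨c, hc⟩ := hlast _ h1
  have hc0 : c ≠ 0 := by
    intro hc0
    rw [hc0, zero_smul] at hc
    exact hx hc
  have h4 := not_range h (k - 1) hne (c⁻¹ • x)
  apply h4
  have h5 : 2 * (k - 1) + 1 = 2 * k - 1 := by omega
  rw [h5, map_smul, h3, hc, smul_smul, inv_mul_cancel₀ hc0, one_smul]

end

section

variable {F : Type*} [Field F] [CharZero F] {m : Type*} [Fintype m] [DecidableEq m]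

omit [CharZero F] in
theorem exists_mul_mul_ne_zero {e : Matrix m m F} (he : e ≠ 0) : ∃ g, e * g * e ≠ 0 := by
  obtain ⟨p, q, hpq⟩ : ∃ p q, e p q ≠ 0 := by
    by_contra hcon
    push Not at hcon
    exact he (Matrix.ext hcon)
  refine ⟨Matrix.single q p 1, ?_⟩
  intro h
  have h1 := congrFun (congrFun h p) q
  rw [Matrix.mul_apply, Finset.sum_eq_single p] at h1
  · rw [Matrix.mul_single_apply_same, mul_one, Matrix.zero_apply] at h1
    exact hpq (mul_self_eq_zero.1 h1)
  · intro c _ hc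
    rw [Matrix.mul_single_apply_of_ne _ _ _ _ _ hc, zero_mul]
  · intro hcon
    exact absurd (Finset.mem_univ _) hcon

omit [CharZero F] in
theorem linInd_unit {V : Type*} [AddCommGroup V] [Module F V] {v : V} (hv : v ≠ 0) :
    LinearIndependent F (fun _ : Unit => v) := by
  exact LinearIndependent.of_subsingleton () hv

/-- The upper bound for the full matrix algebra. -/
theorem upper_matrix (hm : 0 < Fintype.card m) {R : Matrix m m F →ₗ[F] Matrix m m F} (h : JRB R) :
    R ^ (2 * Fintype.card m - 1) = 0 := by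
  obtain ⟨n, hn⟩ : ∃ n, n = Fintype.card m := ⟨_, rfl⟩
  rw [← hn] at hm ⊢
  have hnon : Nonempty m := Fintype.card_pos_iff.1 (hn ▸ hm)
  obtain ⟨k, hk, hk0, hk1⟩ := exists_index h.nilpotent_one one_ne_zero
  obtain ⟨g, hg⟩ := exists_mul_mul_ne_zero hk1
  have hind : LinearIndependent F (fun _ : Unit => (R 1) ^ (k - 1) * g * (R 1) ^ (k - 1)) :=
    linInd_unit hg
  have hcard := card_le (g := fun _ => g) hk0 hind
  rw [Module.finrank_matrix, Module.finrank_self, Fintype.card_unit, mul_one, mul_one, ← hn]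
    at hcard
  have hkn : k ≤ n := by
    by_contra hcon
    have h1 : n * n < k * k := Nat.mul_self_lt_mul_self (by omega)
    omega
  by_cases hlt : k < n
  · exact pow_zero_of_le h hk0 (by omega)
  have hkn' : k = n := by omega
  rw [← hkn']
  let E := mkEqBlock (g := fun _ => g) hk hk0 hind (by
    rw [Module.finrank_matrix, Module.finrank_self, Fintype.card_unit, mul_one, mul_one, ← hn,
      hkn'])
  apply EqBlock.conclude h hk hk1 E
  intro x hx
  have hEg : ∀ α, E.g α = g := fun _ => rfl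
  obtain ⟨c, hc⟩ := Fl_last_span E hk hx
  have h1 : R 1 * (R 1) ^ (k - 1) = 0 := by
    rw [← pow_succ']
    have : k - 1 + 1 = k := by omega
    rw [this, hk0]
  have h2 : (R 1) ^ (k - 1) * R 1 = 0 := by
    rw [← pow_succ]
    have : k - 1 + 1 = k := by omega
    rw [this, hk0]
  obtain ⟨d, hd⟩ := Fl_last_span E hk (mem_Fl_last E h1 h2)
  rw [Fintype.sum_unique, hEg] at hc hd
  have hd0 : d default ≠ 0 := by
    intro hd0
    rw [hd0, zero_smul] at hd
    exact hk1 hd
  refine ⟨c default * (d default)⁻¹, ?_⟩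
  rw [hc]
  conv_rhs => rw [hd]
  rw [smul_smul, inv_mul_cancel_right₀ hd0]

end

end Pool.Agent.MP_f4742e_al
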