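import Pool.Agent.Lib.MP_f4742e_al.DMat
import Pool.Agent.Lib.MP_f4742e_al.HOp
import Pool.Agent.Lib.MP_f4742e_al.Upper

/-!
The upper bound for matrices over a division algebra.
-/

set_option autoImplicit false

namespace Pool.Agent.MP_f4742e_al

open Matrix Polynomial

section

variable {F D : Type*} [Field F] [CharZero F] [DivisionRing D] [Algebra F D]
  [FiniteDimensional F D] {n : ℕ}

omit [CharZero F] in
/-- The inverse of a nonzero element is a polynomial in it. -/
theorem exists_poly_inv {α : D} (hα : α ≠ 0) : ∃ P : F[X], aeval α (X * P) = 1 := by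
  have hint : IsIntegral F α := Algebra.IsIntegral.isIntegral α
  have h1 := minpoly.coeff_zero_ne_zero hint hα
  obtain ⟨p, hp⟩ : ∃ p, p = minpoly F α := ⟨_, rfl⟩
  have h2 : aeval α p = 0 := by rw [hp, minpoly.aeval]
  rw [← hp] at h1
  refine ⟨C (-(p.coeff 0)⁻¹) * divX p, ?_⟩
  have h3 : X * (C (-(p.coeff 0)⁻¹) * divX p) = C (-(p.coeff 0)⁻¹) * p + 1 := by
    have h4 : X * divX p + C (p.coeff 0) = p := X_mul_divX_add p
    have h5 : C (-(p.coeff 0)⁻¹) * C (p.coeff 0) = (-1 : F[X]) := by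
      rw [← C_mul, neg_mul, inv_mul_cancel₀ h1, C_neg, C_1]
    linear_combination (C (-(p.coeff 0)⁻¹)) * h4 - h5
  rw [h3, map_add, map_mul, h2, mul_zero, zero_add, map_one]

omit [CharZero F] [FiniteDimensional F D] in
/-- Polynomials in a matrix at an eigenvector. -/
theorem aeval_mulVec {q : Matrix (Fin n) (Fin n) D} {v : Fin n → D} {α : D}
    (h : q *ᵥ v = fun i => v i * α) (P : F[X]) :
    (aeval q P) *ᵥ v = fun i => v i * aeval α P := by
  have hpow : ∀ k : ℕ, (q ^ k) *ᵥ v = fun i => v i * α ^ k := by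
    intro k
    induction k with
    | zero =>
      funext i
      rw [pow_zero, one_mulVec, pow_zero, mul_one]
    | succ k ih =>
      rw [pow_succ', ← mulVec_mulVec, ih]
      funext i
      have h1 := congrFun h i
      rw [mulVec, dotProduct] at h1 ⊢
      have h2 : ∀ j, q i j * (v j * α ^ k) = q i j * v j * α ^ k := fun j => (mul_assoc _ _ _).symm
      simp only [h2]
      rw [← Finset.sum_mul, h1, mul_assoc, ← pow_succ']
  induction P using Polynomial.induction_on' with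
  | add P Q hP hQ =>
    rw [map_add, add_mulVec, hP, hQ, map_add]
    funext i
    rw [Pi.add_apply, mul_add]
  | monomial k c =>
    rw [aeval_monomial, aeval_monomial, ← Algebra.smul_def, ← Algebra.smul_def, smul_mulVec, hpow]
    funext i
    rw [Pi.smul_apply, mul_smul_comm]

omit [CharZero F] [FiniteDimensional F D] in
theorem aeval_vecMul {q : Matrix (Fin n) (Fin n) D} {φ : Fin n → D} {α : D}
    (h : φ ᵥ* q = fun i => α * φ i) (P : F[X]) :
    φ ᵥ* (aeval q P) = fun i => aeval α P * φ i := by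
  have hpow : ∀ k : ℕ, φ ᵥ* (q ^ k) = fun i => α ^ k * φ i := by
    intro k
    induction k with
    | zero =>
      funext i
      rw [pow_zero, vecMul_one, pow_zero, one_mul]
    | succ k ih =>
      rw [pow_succ, ← vecMul_vecMul, ih]
      funext i
      have h1 := congrFun h i
      rw [vecMul, dotProduct] at h1 ⊢
      have h2 : ∀ j, α ^ k * φ j * q j i = α ^ k * (φ j * q j i) := fun j => mul_assoc _ _ _
      simp only [h2]
      rw [← Finset.mul_sum, h1, ← mul_assoc, ← pow_succ]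
  induction P using Polynomial.induction_on' with
  | add P Q hP hQ =>
    rw [map_add, vecMul_add, hP, hQ, map_add]
    funext i
    rw [Pi.add_apply, add_mul]
  | monomial k c =>
    rw [aeval_monomial, aeval_monomial, ← Algebra.smul_def, ← Algebra.smul_def, vecMul_smul, hpow]
    funext i
    rw [Pi.smul_apply, smul_mul_assoc]

variable {R : Matrix (Fin n) (Fin n) D →ₗ[F] Matrix (Fin n) (Fin n) D} (h : JRB R) {k : ℕ}
  {v φ : Fin n → D}

include h

/-- The end of the argument: `e = v φ`, and the images of `R^k` act by scalars on `v` and `φ`. -/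
theorem upperD_core (hk : 1 ≤ k) (ha : (R 1) ^ k = 0) (he0 : (R 1) ^ (k - 1) ≠ 0)
    (he : (R 1) ^ (k - 1) = vecMulVec v φ)
    (H : ∀ x, ∃ α : D, (R ^ k) x *ᵥ v = (fun i => v i * α) ∧
      φ ᵥ* (R ^ k) x = fun i => α * φ i) : R ^ (2 * k - 1) = 0 := by
  apply LinearMap.ext
  intro x
  rw [LinearMap.zero_apply]
  apply last_zero h hk ha x
  obtain ⟨α, h1, h2⟩ := H x
  obtain ⟨q, hq⟩ : ∃ q, q = (R ^ k) x := ⟨_, rfl⟩
  rw [← hq] at h1 h2 ⊢
  have hα : α = 0 := by
    by_contra hα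
    obtain ⟨P, hP⟩ := exists_poly_inv (F := F) hα
    obtain ⟨z, hz⟩ := aeval_mem_range h k hq P
    have h3 := aeval_mulVec h1 (X * P)
    have h4 := aeval_vecMul h2 (X * P)
    rw [hP, hz] at h3 h4
    have h5 : jp ((R 1) ^ (k - 1)) ((R ^ k) z) = (2 : F) • (R 1) ^ (k - 1) := by
      unfold jp
      rw [he, mul_vecMulVec, vecMulVec_mul, h3, h4, two_smul]
      simp only [one_mul, mul_one]
    exact two_ne_zero (jp_e_ne h hk ha he0 z h5)
  rw [hα] at h1 h2
  unfold jp
  rw [he, mul_vecMulVec, vecMulVec_mul, h1, h2]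
  ext i j
  rw [Matrix.add_apply, vecMulVec_apply, vecMulVec_apply, Matrix.zero_apply]
  simp only [zero_mul, mul_zero, add_zero]

end

section

variable {F D : Type*} [Field F] [CharZero F] [DivisionRing D] [Algebra F D]
  [FiniteDimensional F D]

/-- The images of `R^k` act by scalars on `v` and `φ` if the index of `R 1` is maximal. -/
theorem upperD_scal {m : ℕ} {R : Matrix (Fin (m + 1)) (Fin (m + 1)) D →ₗ[F]
    Matrix (Fin (m + 1)) (Fin (m + 1)) D} (h : JRB R) (ha : (R 1) ^ (m + 1) = 0)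
    {v φ : Fin (m + 1) → D} (hv : v ≠ 0) (hφ : φ ≠ 0) (he : (R 1) ^ m = vecMulVec v φ)
    (hrow : ∀ x, x ᵥ* (R 1) = 0 → ∃ c : D, x = fun i => c * φ i)
    (hcol : ∀ y, (R 1) *ᵥ y = 0 → ∃ c : D, y = fun i => v i * c)
    (x : Matrix (Fin (m + 1)) (Fin (m + 1)) D) :
    ∃ α : D, (R ^ (m + 1)) x *ᵥ v = (fun i => v i * α) ∧
      φ ᵥ* (R ^ (m + 1)) x = fun i => α * φ i := by
  obtain ⟨a, haa⟩ : ∃ a, a = R 1 := ⟨_, rfl⟩
  obtain ⟨q, hq⟩ : ∃ q, q = (R ^ (m + 1)) x := ⟨_, rfl⟩
  have h1 := aqe h (by omega) ha x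
  have h2 := F_rel h (by omega) ha x
  rw [Nat.add_sub_cancel, he, ← haa, ← hq] at h1
  rw [Nat.add_sub_cancel, he, ← hq] at h2
  rw [← haa] at ha he hrow hcol
  rw [← hq]
  obtain ⟨z, hz⟩ : ∃ z, z = q *ᵥ v := ⟨_, rfl⟩
  obtain ⟨ψ, hψ⟩ : ∃ ψ, ψ = φ ᵥ* q := ⟨_, rfl⟩
  rw [mul_assoc, mul_vecMulVec, mul_vecMulVec, vecMulVec_mul, vecMulVec_mul, ← hz, ← hψ] at h1
  rw [← Matrix.mul_assoc, vecMulVec_mul, vecMulVec_mul, Matrix.mul_assoc q q, mul_vecMulVec,
    mul_vecMulVec, vecMulVec_mul, ← hz, ← hψ] at h2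
  have e1 : ∀ i j, (a *ᵥ z) i * φ j + v i * (ψ ᵥ* a) j = 0 := by
    intro i j
    have h3 := congrFun (congrFun h1 i) j
    rw [Matrix.add_apply, vecMulVec_apply, vecMulVec_apply, Matrix.zero_apply] at h3
    exact h3
  have e2 : ∀ i j, v i * (ψ ᵥ* q) j + (q *ᵥ z) i * φ j = 2 * (z i * ψ j) := by
    intro i j
    have h3 := congrFun (congrFun h2 i) j
    rw [Matrix.add_apply, Matrix.smul_apply, vecMulVec_apply, vecMulVec_apply, vecMulVec_apply,
      two_smul, ← two_mul] at h3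
    exact h3
  obtain ⟨i0, hi0⟩ : ∃ i, v i ≠ 0 := by
    by_contra hcon
    push Not at hcon
    exact hv (funext hcon)
  obtain ⟨j0, hj0⟩ : ∃ j, φ j ≠ 0 := by
    by_contra hcon
    push Not at hcon
    exact hφ (funext hcon)
  have hav : a *ᵥ v = 0 := by
    have h3 : a * vecMulVec v φ = 0 := by
      rw [← he, ← pow_succ']
      exact ha
    rw [mul_vecMulVec] at h3
    funext i
    have h4 := congrFun (congrFun h3 i) j0
    rw [vecMulVec_apply, Matrix.zero_apply] at h4
    exact (mul_eq_zero.1 h4).resolve_right hj0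
  have hφa : φ ᵥ* a = 0 := by
    have h3 : vecMulVec v φ * a = 0 := by
      rw [← he, ← pow_succ]
      exact ha
    rw [vecMulVec_mul] at h3
    funext j
    have h4 := congrFun (congrFun h3 i0) j
    rw [vecMulVec_apply, Matrix.zero_apply] at h4
    exact (mul_eq_zero.1 h4).resolve_left hi0
  have h2D : (2 : D) ≠ 0 := by
    have : CharZero D := charZero_of_injective_algebraMap (algebraMap F D).injective
    exact two_ne_zero
  -- one of the two vectors is an eigenvector
  have hor : (∃ α : D, z = fun i => v i * α) ∨ ∃ β : D, ψ = fun i => β * φ i := by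
    by_cases hδ : ∃ j, ψ j - ψ j0 * ((φ j0)⁻¹ * φ j) ≠ 0
    · left
      obtain ⟨j, hj⟩ := hδ
      obtain ⟨δ, hδ⟩ : ∃ δ, δ = ψ j - ψ j0 * ((φ j0)⁻¹ * φ j) := ⟨_, rfl⟩
      rw [← hδ] at hj
      refine ⟨((ψ ᵥ* q) j - (ψ ᵥ* q) j0 * ((φ j0)⁻¹ * φ j)) * (2 * δ)⁻¹, ?_⟩
      funext i
      have h3 := e2 i j
      have h4 := congrArg (fun t => t * ((φ j0)⁻¹ * φ j)) (e2 i j0)
      have h5 : (q *ᵥ z) i * φ j0 * ((φ j0)⁻¹ * φ j) = (q *ᵥ z) i * φ j := by
        rw [mul_assoc, mul_inv_cancel_left₀ hj0]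
      rw [add_mul, h5] at h4
      have h6 : v i * ((ψ ᵥ* q) j - (ψ ᵥ* q) j0 * ((φ j0)⁻¹ * φ j)) = z i * (2 * δ) := by
        have h7 : z i * (2 * δ) = 2 * (z i * ψ j) - 2 * (z i * ψ j0) * ((φ j0)⁻¹ * φ j) := by
          rw [hδ, two_mul, two_mul, two_mul]
          noncomm_ring
        rw [h7, ← h3, ← h4, mul_sub, ← mul_assoc (v i)]
        abel
      rw [← mul_assoc, h6, mul_inv_cancel_right₀ (mul_ne_zero h2D hj)]
    · right
      push Not at hδ
      refine ⟨ψ j0 * (φ j0)⁻¹, ?_⟩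
      funext j
      rw [mul_assoc, ← sub_eq_zero]
      exact hδ j
  -- hence both
  have hboth : (∃ α : D, z = fun i => v i * α) ∧ ∃ β : D, ψ = fun i => β * φ i := by
    rcases hor with hA | hB
    · refine ⟨hA, ?_⟩
      obtain ⟨α, hα⟩ := hA
      have haz : a *ᵥ z = 0 := by
        funext i
        have h3 := congrFun hav i
        rw [hα, mulVec, dotProduct]
        rw [mulVec, dotProduct] at h3
        simp only [← mul_assoc]
        rw [← Finset.sum_mul, h3, Pi.zero_apply, zero_mul]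
      apply hrow
      funext j
      have h3 := e1 i0 j
      rw [haz, Pi.zero_apply, zero_mul, zero_add] at h3
      exact (mul_eq_zero.1 h3).resolve_left hi0
    · refine ⟨?_, hB⟩
      obtain ⟨β, hβ⟩ := hB
      have hψa : ψ ᵥ* a = 0 := by
        funext i
        have h3 := congrFun hφa i
        rw [hβ, vecMul, dotProduct]
        rw [vecMul, dotProduct] at h3
        simp only [mul_assoc]
        rw [← Finset.mul_sum, h3, Pi.zero_apply, mul_zero]
      apply hcol
      funext i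
      have h3 := e1 i j0
      rw [hψa, Pi.zero_apply, mul_zero, add_zero] at h3
      exact (mul_eq_zero.1 h3).resolve_right hj0
  obtain ⟨⟨α, hα⟩, β, hβ⟩ := hboth
  have hqz : q *ᵥ z = fun i => v i * α ^ 2 := by
    have h3 := aeval_mulVec (F := F) (q := q) (v := v) (α := α) (by rw [← hz, hα]) (X ^ 2)
    rw [map_pow, aeval_X, map_pow, aeval_X, pow_two, ← mulVec_mulVec, ← hz] at h3
    exact h3
  have hψq : ψ ᵥ* q = fun i => β ^ 2 * φ i := by
    have h3 := aeval_vecMul (F := F) (q := q) (φ := φ) (α := β) (by rw [← hψ, hβ]) (X ^ 2)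
    rw [map_pow, aeval_X, map_pow, aeval_X, pow_two, ← vecMul_vecMul, ← hψ] at h3
    exact h3
  have h3 : β ^ 2 + α ^ 2 - 2 * (α * β) = 0 := by
    have h4 := e2 i0 j0
    rw [hqz, hψq, hα, hβ] at h4
    simp only at h4
    have h5 : v i0 * (β ^ 2 + α ^ 2 - 2 * (α * β)) * φ j0 =
        v i0 * (β ^ 2 * φ j0) + v i0 * α ^ 2 * φ j0 - 2 * (v i0 * α * (β * φ j0)) := by
      rw [two_mul, two_mul]
      noncomm_ring
    rw [h4, sub_self] at h5
    rcases mul_eq_zero.1 h5 with h6 | h6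
    · exact (mul_eq_zero.1 h6).resolve_left hi0
    · exact absurd h6 hj0
  have hδ : IsNilpotent (α - β) := by
    refine nil_of_rel (F := F) (H := -β) (Algebra.IsIntegral.isIntegral (α - β))
      (c := 1) one_ne_zero ?_
    rw [one_smul]
    have h5 : -β * (α - β) - (α - β) * -β - (α - β) ^ 2 = -(β ^ 2 + α ^ 2 - 2 * (α * β)) := by
      rw [two_mul]
      noncomm_ring
    rw [h3, neg_zero] at h5
    exact sub_eq_zero.1 h5
  have hαβ : α = β := sub_eq_zero.1 hδ.eq_zero
  refine ⟨α, hz.symm.trans hα, ?_⟩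
  rw [hαβ]
  exact hψ.symm.trans hβ

/-- The upper bound for matrices over a division algebra. -/
theorem upperD {n : ℕ} (hn : 0 < n) {R : Matrix (Fin n) (Fin n) D →ₗ[F] Matrix (Fin n) (Fin n) D}
    (h : JRB R) : R ^ (2 * n - 1) = 0 := by
  have hnon : Nonempty (Fin n) := ⟨⟨0, hn⟩⟩
  obtain ⟨k, hk, hk0, hk1⟩ := exists_index h.nilpotent_one one_ne_zero
  have hkn := index_le_size hk0 hk1
  by_cases hlt : k < n
  · exact pow_zero_of_le h hk0 (by omega)
  have hkn' : n = k := by omega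
  subst hkn'
  obtain ⟨m, rfl⟩ : ∃ m, n = m + 1 := ⟨n - 1, by omega⟩
  rcases Nat.eq_zero_or_pos m with hm | hm
  · subst hm
    have hsub : ∀ i j : Fin (0 + 1), i = j := fun i j => Fin.ext (by omega)
    refine upperD_core h (by omega) hk0 hk1 (v := fun _ => 1) (φ := fun _ => 1) ?_ ?_
    · rw [pow_zero]
      ext i j
      rw [vecMulVec_apply, mul_one, hsub i j, Matrix.one_apply_eq]
    · intro x
      refine ⟨((R ^ (0 + 1)) x) 0 0, ?_, ?_⟩
      · funext i
        rw [hsub i 0, one_mul]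
        change ∑ j : Fin 1, ((R ^ (0 + 1)) x) 0 j * 1 = _
        rw [Fin.sum_univ_one, mul_one]
      · funext i
        rw [hsub i 0, mul_one]
        change ∑ j : Fin 1, 1 * ((R ^ (0 + 1)) x) j 0 = _
        rw [Fin.sum_univ_one, one_mul]
  · rw [Nat.add_sub_cancel] at hk1
    obtain ⟨v, φ, hv, hφ, he, hrow, hcol⟩ := last_power hk0 hk1
    exact upperD_core h hk hk0 (by rw [Nat.add_sub_cancel]; exact hk1)
      (by rw [Nat.add_sub_cancel]; exact he)
      (upperD_scal h hk0 hv hφ he hrow hcol)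

end

end Pool.Agent.MP_f4742e_al
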