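import Pool.Agent.Lib.MP_f4742e_al.Defs
import Pool.Agent.Lib.MP_f4742e_al.DUpper
import Pool.Agent.Lib.MP_f4742e_al.DLower

/-!
The RB-index of `M_n(D)^+` for division algebras `D`.
-/

set_option autoImplicit false

namespace Pool.Agent.MP_f4742e_al

open Matrix SymAlg

section

variable {D : Type*} [DivisionRing D] [CharZero D] {m : Type*} [Fintype m] [DecidableEq m]

omit [CharZero D] [Fintype m] in
theorem two_eq_smulD : (2 : Matrix m m D) = (2 : D) • (1 : Matrix m m D) := by
  rw [two_smul, one_add_one_eq_two]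

/-- Two is invertible in the matrix algebra over a division ring of characteristic zero. -/
noncomputable instance invertibleTwoMatrixD : Invertible (2 : Matrix m m D) where
  invOf := (2⁻¹ : D) • (1 : Matrix m m D)
  invOf_mul_self := by
    rw [Matrix.smul_mul, one_mul, two_eq_smulD, smul_smul, inv_mul_cancel₀ two_ne_zero, one_smul]
  mul_invOf_self := by
    rw [two_mul, ← add_smul, ← two_mul, mul_inv_cancel₀ two_ne_zero, one_smul]

/-- The Jordan product on matrices. -/
theorem two_unsym_mul (x y : (Matrix m m D)ˢʸᵐ) :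
    unsym (x * y) + unsym (x * y) = unsym x * unsym y + unsym y * unsym x := by
  rw [unsym_mul, ← add_mul, ← two_mul, mul_invOf_self, one_mul]

end

/-- The Jordan algebra `M_n(D)^+`, with product `(xy + yx)/2`. -/
abbrev MPlusD (n : ℕ) (D : Type*) [DivisionRing D] [CharZero D] : Type _ :=
  (Matrix (Fin n) (Fin n) D)ˢʸᵐ

section

variable {F D : Type*} [Field F] [CharZero F] [DivisionRing D] [CharZero D] [Algebra F D]

/-- The identity map to the Jordan algebra as a linear equivalence. -/
def symLD (F D : Type*) [Field F] [DivisionRing D] [Algebra F D] (n : ℕ) :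
    Matrix (Fin n) (Fin n) D ≃ₗ[F] (Matrix (Fin n) (Fin n) D)ˢʸᵐ where
  toFun := sym
  invFun := unsym
  left_inv := fun _ => rfl
  right_inv := fun _ => rfl
  map_add' := fun _ _ => rfl
  map_smul' := fun _ _ => rfl

omit [CharZero F] [CharZero D] in
theorem two_inj {n : ℕ} [CharZero F] {x y : Matrix (Fin n) (Fin n) D} (h : x + x = y + y) :
    x = y := by
  rw [← two_smul F, ← two_smul F] at h
  exact smul_right_injective (Matrix (Fin n) (Fin n) D) (two_ne_zero (α := F)) h

theorem upper_MPlusD [FiniteDimensional F D] (n : ℕ) (hn : 0 < n)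
    (R : MPlusD n D →ₗ[F] MPlusD n D) (hR : IsRotaBaxter R) : R ^ (2 * n - 1) = 0 := by
  let S : Matrix (Fin n) (Fin n) D →ₗ[F] Matrix (Fin n) (Fin n) D :=
    (symLD F D n).symm.toLinearMap ∘ₗ R ∘ₗ (symLD F D n).toLinearMap
  have hS : ∀ x, S x = unsym (R (sym x)) := fun _ => rfl
  have hJ : JRB S := by
    intro x y
    have h1 := congrArg unsym (hR (sym x) (sym y))
    have h2 : (R (sym x) * sym y + sym x * R (sym y)) + (R (sym x) * sym y + sym x * R (sym y)) =
        sym (jp (S x) y + jp x (S y)) := by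
      apply unsym_injective
      have h3 := two_unsym_mul (R (sym x)) (sym y)
      have h4 := two_unsym_mul (sym x) (R (sym y))
      rw [unsym_add, unsym_add, add_add_add_comm, h3, h4]
      rfl
    have h3 : jp (S x) (S y) = unsym (R (sym x) * R (sym y)) + unsym (R (sym x) * R (sym y)) := by
      rw [two_unsym_mul]
      rfl
    rw [h3, h1, ← unsym_add, ← map_add, h2]
    rfl
  have h1 := upperD hn hJ
  have h3 : ∀ (N : ℕ) (u : MPlusD n D), (S ^ N) (unsym u) = unsym ((R ^ N) u) := by
    intro N u
    induction N with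
    | zero => rfl
    | succ N ih =>
      rw [pow_succ', Module.End.mul_apply, ih, pow_succ', Module.End.mul_apply, hS]
      rfl
  apply LinearMap.ext
  intro u
  have h4 := h3 (2 * n - 1) u
  rw [h1, LinearMap.zero_apply] at h4
  apply unsym_injective
  rw [LinearMap.zero_apply]
  exact h4.symm

variable (F D) in
theorem lower_MPlusD (m : ℕ) : ∃ R : MPlusD (m + 1) D →ₗ[F] MPlusD (m + 1) D,
    IsRotaBaxter R ∧ R ^ (2 * m) ≠ 0 := by
  obtain ⟨T, hT, hne⟩ := lowerD F D m
  let S : MPlusD (m + 1) D →ₗ[F] MPlusD (m + 1) D :=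
    (symLD F D (m + 1)).toLinearMap ∘ₗ T ∘ₗ (symLD F D (m + 1)).symm.toLinearMap
  have hS : ∀ x, S x = sym (T (unsym x)) := fun _ => rfl
  refine ⟨S, ?_, ?_⟩
  · intro x y
    apply unsym_injective
    apply two_inj (F := F)
    rw [two_unsym_mul, hS x, hS y, hS, unsym_sym, unsym_sym, unsym_sym, ← map_add, unsym_add,
      add_add_add_comm, two_unsym_mul, two_unsym_mul, unsym_sym, unsym_sym, hT, hT (unsym y),
      ← map_add]
    congr 1
    abel
  · intro h
    apply hne
    have h3 : ∀ (N : ℕ) (u : MPlusD (m + 1) D), unsym ((S ^ N) u) = (T ^ N) (unsym u) := by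
      intro N u
      induction N with
      | zero => rfl
      | succ N ih =>
        rw [pow_succ', Module.End.mul_apply, hS, unsym_sym, ih, pow_succ', Module.End.mul_apply]
    apply LinearMap.ext
    intro u
    have h4 := h3 (2 * m) (sym u)
    rw [h, LinearMap.zero_apply, unsym_zero, unsym_sym] at h4
    rw [← h4, LinearMap.zero_apply]

/-- `rb(M_n(D)^+) = 2n - 1`. -/
theorem rb_MPlusD [FiniteDimensional F D] (n : ℕ) (hn : 0 < n) :
    HasRBIndex F (MPlusD n D) (2 * n - 1) := by
  constructor
  · intro R hR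
    exact upper_MPlusD n hn R hR
  · intro N hN
    by_contra hcon
    obtain ⟨m, rfl⟩ : ∃ m, n = m + 1 := ⟨n - 1, by omega⟩
    obtain ⟨R, hR, hne⟩ := lower_MPlusD F D m
    apply hne
    exact pow_eq_zero_of_le (by omega) (hN R hR)

end

end Pool.Agent.MP_f4742e_al
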