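import Pool.Agent.Lib.MP_f4742e_al.DKer

/-!
Nilpotent matrices of maximal index over a division ring.
-/

set_option autoImplicit false

namespace Pool.Agent.MP_f4742e_al

open Matrix Module

section

variable {D : Type*} [DivisionRing D] {n : ℕ}

theorem vecMulLin_pow (a : Matrix (Fin n) (Fin n) D) (j : ℕ) (x : Fin n → D) :
    ((vecMulLinear a) ^ j) x = x ᵥ* a ^ j := by
  induction j with
  | zero => rw [pow_zero, pow_zero, Module.End.one_apply, vecMul_one]
  | succ j ih => rw [pow_succ', Module.End.mul_apply, ih, vecMulLinear_apply, vecMul_vecMul,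
      ← pow_succ]

theorem vecMulLin_pow_eq_zero (a : Matrix (Fin n) (Fin n) D) (j : ℕ) :
    (vecMulLinear a) ^ j = 0 ↔ a ^ j = 0 := by
  constructor
  · intro h
    ext i l
    have h1 := vecMulLin_pow a j (Pi.single i 1)
    rw [h, LinearMap.zero_apply, single_one_vecMul] at h1
    exact (congrFun h1 l).symm
  · intro h
    apply LinearMap.ext
    intro x
    rw [vecMulLin_pow, h, vecMul_zero, LinearMap.zero_apply]

/-- The index of a nilpotent matrix is at most its size. -/
theorem index_le_size {a : Matrix (Fin n) (Fin n) D} {k l : ℕ} (hl : a ^ l = 0)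
    (hk : a ^ k ≠ 0) : k + 1 ≤ n := by
  have h1 := index_le (f := vecMulLinear a) ((vecMulLin_pow_eq_zero a l).2 hl)
    (fun h => hk ((vecMulLin_pow_eq_zero a k).1 h))
  rw [Module.finrank_fin_fun] at h1
  exact h1

/-- The last power of a nilpotent matrix of maximal index. -/
theorem last_power {m : ℕ} {a : Matrix (Fin (m + 1)) (Fin (m + 1)) D} (h0 : a ^ (m + 1) = 0)
    (h1 : a ^ m ≠ 0) : ∃ v φ : Fin (m + 1) → D, v ≠ 0 ∧ φ ≠ 0 ∧ a ^ m = vecMulVec v φ ∧
      (∀ x, x ᵥ* a = 0 → ∃ c : D, x = fun i => c * φ i) ∧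
      ∀ y, a *ᵥ y = 0 → ∃ c : D, y = fun i => v i * c := by
  have hn : finrank D (Fin (m + 1) → D) = m + 1 := Module.finrank_fin_fun D
  have hf0 := (vecMulLin_pow_eq_zero a (m + 1)).2 h0
  have hf1 : (vecMulLinear a) ^ m ≠ 0 := fun h => h1 ((vecMulLin_pow_eq_zero a m).1 h)
  obtain ⟨h2, -⟩ := finrank_range_last hn hf0 hf1
  obtain ⟨w, hw, hspan⟩ := finrank_eq_one_iff'.1 h2
  obtain ⟨φ, hφ⟩ : ∃ φ, φ = w.1 := ⟨_, rfl⟩
  have hφ0 : φ ≠ 0 := by
    intro h
    apply hw
    apply Subtype.ext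
    rw [← hφ, h]
    rfl
  have hrange : ∀ x : Fin (m + 1) → D, ∃ c : D, x ᵥ* a ^ m = fun i => c * φ i := by
    intro x
    obtain ⟨c, hc⟩ := hspan ⟨((vecMulLinear a) ^ m) x, x, rfl⟩
    refine ⟨c, ?_⟩
    have h3 := congrArg Subtype.val hc
    rw [SetLike.val_smul, ← hφ] at h3
    rw [← vecMulLin_pow]
    exact h3.symm
  choose c hc using hrange
  obtain ⟨v, hv⟩ : ∃ v : Fin (m + 1) → D, v = fun i => c (Pi.single i 1) := ⟨_, rfl⟩
  have he : a ^ m = vecMulVec v φ := by
    ext i j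
    have h3 := hc (Pi.single i 1)
    rw [single_one_vecMul] at h3
    rw [vecMulVec_apply, hv]
    exact congrFun h3 j
  have hv0 : v ≠ 0 := by
    rintro rfl
    apply h1
    rw [he, zero_vecMulVec]
  refine ⟨v, φ, hv0, hφ0, he, ?_, ?_⟩
  · intro x hx
    obtain ⟨y, hy⟩ := ker_eq_range_last hn hf0 hf1 (x := x) hx
    rw [vecMulLin_pow] at hy
    exact ⟨c y, by rw [hy, hc]⟩
  · intro y hy
    -- a row which does not vanish on `v`
    obtain ⟨i0, hi0⟩ : ∃ i, v i ≠ 0 := by
      by_contra hcon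
      push Not at hcon
      exact hv0 (funext hcon)
    obtain ⟨j0, hj0⟩ : ∃ j, φ j ≠ 0 := by
      by_contra hcon
      push Not at hcon
      exact hφ0 (funext hcon)
    have hav : a *ᵥ v = 0 := by
      have h3 : a * vecMulVec v φ = 0 := by
        rw [← he, ← pow_succ']
        exact h0
      rw [mul_vecMulVec] at h3
      funext i
      have h4 := congrFun (congrFun h3 i) j0
      rw [vecMulVec_apply, Matrix.zero_apply] at h4
      exact (mul_eq_zero.1 h4).resolve_right hj0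
    refine ⟨(v i0)⁻¹ * y i0, ?_⟩
    funext i
    -- the row `e_i - v_i (v_{i0})⁻¹ e_{i0}` is in the image of `a`
    obtain ⟨x, hx⟩ : ∃ x : Fin (m + 1) → D,
      x = Pi.single i 1 - (v i * (v i0)⁻¹) • Pi.single i0 1 := ⟨_, rfl⟩
    have hxe : ((vecMulLinear a) ^ m) x = 0 := by
      rw [vecMulLin_pow, he, hx, sub_vecMul, smul_vecMul, single_one_vecMul, single_one_vecMul]
      funext j
      rw [Pi.sub_apply, Pi.smul_apply, smul_eq_mul, row_apply, row_apply, vecMulVec_apply,
        vecMulVec_apply, Pi.zero_apply, ← mul_assoc, inv_mul_cancel_right₀ hi0, sub_self]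
    obtain ⟨z, hz⟩ := ker_last_eq_range hn hf0 hf1 hxe
    have h3 : x ⬝ᵥ y = 0 := by
      rw [hz, vecMulLinear_apply, ← dotProduct_mulVec, hy, dotProduct_zero]
    rw [hx, sub_dotProduct, smul_dotProduct, single_one_dotProduct, single_one_dotProduct,
      smul_eq_mul, sub_eq_zero] at h3
    rw [h3, mul_assoc]

end

end Pool.Agent.MP_f4742e_al
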