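import Mathlib

/-!
Definitions: Rota-Baxter operators of weight zero, the RB-index, and the Jordan algebras of
Hermitian type.
-/

set_option autoImplicit false

namespace Pool.Agent.MP_f4742e_al

open Matrix SymAlg

/-- A Rota-Baxter operator of weight zero on a (not necessarily associative) algebra. -/
def IsRotaBaxter {F A : Type*} [Field F] [NonUnitalNonAssocRing A] [Module F A]
    (R : A →ₗ[F] A) : Prop :=
  ∀ x y : A, R x * R y = R (R x * y + x * R y)

/-- `HasRBIndex F A n` means that `rb(A) = n`: `n` is the least natural number such that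
`R ^ n = 0` for all Rota-Baxter operators `R` of weight zero on `A`. -/
def HasRBIndex (F A : Type*) [Field F] [NonUnitalNonAssocRing A] [Module F A] (n : ℕ) : Prop :=
  IsLeast {n : ℕ | ∀ R : A →ₗ[F] A, IsRotaBaxter R → R ^ n = 0} n

section

variable {F : Type*} [Field F] [CharZero F] {m : Type*} [Fintype m] [DecidableEq m]

omit [CharZero F] [Fintype m] in
theorem two_eq_smul : (2 : Matrix m m F) = (2 : F) • (1 : Matrix m m F) := by
  rw [two_smul, one_add_one_eq_two]

/-- Two is invertible in the matrix algebra over a field of characteristic zero. Mathlib's Jordan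
algebra `Aˢʸᵐ` of an associative algebra `A` (underlying space `A`, product
`x ∘ y = (xy + yx)/2`) needs this. -/
noncomputable instance invertibleTwoMatrix : Invertible (2 : Matrix m m F) where
  invOf := (2⁻¹ : F) • (1 : Matrix m m F)
  invOf_mul_self := by
    rw [two_eq_smul, smul_mul_smul_comm, one_mul, inv_mul_cancel₀ two_ne_zero, one_smul]
  mul_invOf_self := by
    rw [two_eq_smul, smul_mul_smul_comm, one_mul, mul_inv_cancel₀ two_ne_zero, one_smul]

/-- The Jordan product on matrices. -/
theorem unsym_mul_eq (x y : (Matrix m m F)ˢʸᵐ) :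
    unsym (x * y) = (2⁻¹ : F) • (unsym x * unsym y + unsym y * unsym x) := by
  rw [unsym_mul]
  change ((2⁻¹ : F) • (1 : Matrix m m F)) * _ = _
  rw [smul_mul_assoc, one_mul]

end

section

variable (n : ℕ) (F : Type*) [Field F] [CharZero F]

/-- The Jordan algebra `M_n(F)^+`. -/
abbrev MPlus : Type _ := (Matrix (Fin n) (Fin n) F)ˢʸᵐ

/-- The Jordan algebra `H_n(F)` of symmetric `n × n` matrices. -/
def HSym : NonUnitalSubalgebra F (Matrix (Fin n) (Fin n) F)ˢʸᵐ where
  carrier := {x | (unsym x)ᵀ = unsym x}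
  add_mem' := by
    intro x y hx hy
    change (unsym x + unsym y)ᵀ = unsym x + unsym y
    rw [transpose_add, hx, hy]
  zero_mem' := transpose_zero
  smul_mem' := by
    intro c x hx
    change (c • unsym x)ᵀ = c • unsym x
    rw [transpose_smul, hx]
  mul_mem' := by
    intro x y hx hy
    change (unsym (x * y))ᵀ = unsym (x * y)
    rw [unsym_mul_eq, transpose_smul, transpose_add, transpose_mul, transpose_mul, hx, hy,
      add_comm]

/-- The symplectic involution `x ↦ J⁻¹ xᵀ J` of `M_{2n}(F)`, where `J⁻¹ = -J`. -/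
def sympInv (x : Matrix (Fin n ⊕ Fin n) (Fin n ⊕ Fin n) F) :
    Matrix (Fin n ⊕ Fin n) (Fin n ⊕ Fin n) F := -(J (Fin n) F * xᵀ * J (Fin n) F)

variable {n F} in
omit [CharZero F] in
theorem sympInv_eq_iff (x : Matrix (Fin n ⊕ Fin n) (Fin n ⊕ Fin n) F) :
    sympInv n F x = x ↔ xᵀ * J (Fin n) F = J (Fin n) F * x := by
  unfold sympInv
  constructor
  · intro h
    conv_rhs => rw [← h]
    rw [Matrix.mul_neg, ← Matrix.mul_assoc, ← Matrix.mul_assoc, J_squared, Matrix.neg_mul,
      Matrix.neg_mul, neg_neg, Matrix.one_mul]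
  · intro h
    rw [Matrix.mul_assoc, h, ← Matrix.mul_assoc, J_squared, Matrix.neg_mul, neg_neg,
      Matrix.one_mul]

/-- The Jordan algebra `H_n(Q)` of the symmetric elements of `M_{2n}(F)` under the symplectic
involution. -/
def HSymp : NonUnitalSubalgebra F (Matrix (Fin n ⊕ Fin n) (Fin n ⊕ Fin n) F)ˢʸᵐ where
  carrier := {x | sympInv n F (unsym x) = unsym x}
  add_mem' := by
    intro x y hx hy
    rw [Set.mem_ofPred_eq, sympInv_eq_iff] at hx hy ⊢
    rw [unsym_add, transpose_add, Matrix.mul_add, Matrix.add_mul, hx, hy]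
  zero_mem' := by
    rw [Set.mem_ofPred_eq, sympInv_eq_iff, unsym_zero, transpose_zero, Matrix.mul_zero,
      Matrix.zero_mul]
  smul_mem' := by
    intro c x hx
    rw [Set.mem_ofPred_eq, sympInv_eq_iff] at hx ⊢
    rw [unsym_smul, transpose_smul, Matrix.mul_smul, Matrix.smul_mul, hx]
  mul_mem' := by
    intro x y hx hy
    rw [Set.mem_ofPred_eq, sympInv_eq_iff] at hx hy ⊢
    rw [unsym_mul_eq, transpose_smul, transpose_add, transpose_mul, transpose_mul,
      Matrix.smul_mul, Matrix.mul_smul, Matrix.add_mul, Matrix.mul_add, Matrix.mul_assoc, hx,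
      Matrix.mul_assoc, hy, ← Matrix.mul_assoc, ← Matrix.mul_assoc, hx, hy, Matrix.mul_assoc,
      Matrix.mul_assoc, add_comm]

end

end Pool.Agent.MP_f4742e_al
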