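import Pool.Agent.Lib.MP_f4742e_al.Lef

/-!
The filtration by powers of two commuting nilpotent endomorphisms, in the free case,
and its invariance under operators commuting with `(l - r)^2`.
-/

set_option autoImplicit false

namespace Pool.Agent.MP_f4742e_al

open Polynomial

section

variable {F V : Type*} [Field F] [AddCommGroup V] [Module F V]
  {ι : Type*} [Fintype ι] [DecidableEq ι] {k : ℕ}

/-- A basis of `V` of the form `l^i r^j g_α`, `i, j < k`, with `l^k = r^k = 0`. -/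
structure EqBlock (l r : Module.End F V) (k : ℕ) (ι : Type*) where
  g : ι → V
  b : Module.Basis (Fin k × Fin k × ι) F V
  hb : ∀ i j α, b (i, j, α) = (l ^ (i : ℕ) * r ^ (j : ℕ)) (g α)
  comm : Commute l r
  hl : l ^ k = 0
  hr : r ^ k = 0

variable {l r : Module.End F V} (E : EqBlock l r k ι)

/-- The filtration. -/
def Fl (b : Module.Basis (Fin k × Fin k × ι) F V) (s : ℕ) : Submodule F V where
  carrier := {x | ∀ q : Fin k × Fin k × ι, (q.1 : ℕ) + (q.2.1 : ℕ) < s → b.repr x q = 0}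
  add_mem' := by
    intro x y hx hy q hq
    rw [map_add, Finsupp.add_apply, hx q hq, hy q hq, add_zero]
  zero_mem' := by
    intro q _
    rw [map_zero, Finsupp.zero_apply]
  smul_mem' := by
    intro c x hx q hq
    rw [map_smul, Finsupp.smul_apply, hx q hq, smul_zero]

omit [Fintype ι] [DecidableEq ι] in
theorem mem_Fl {b : Module.Basis (Fin k × Fin k × ι) F V} {s : ℕ} {x : V} :
    x ∈ Fl b s ↔ ∀ q : Fin k × Fin k × ι, (q.1 : ℕ) + (q.2.1 : ℕ) < s → b.repr x q = 0 :=
  Iff.rfl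

omit [Fintype ι] in
theorem mon_repr (i j : ℕ) (α : ι) (q : Fin k × Fin k × ι) :
    E.b.repr ((l ^ i * r ^ j) (E.g α)) q =
      if i = (q.1 : ℕ) ∧ j = (q.2.1 : ℕ) ∧ α = q.2.2 then 1 else 0 := by
  by_cases hi : i < k
  · by_cases hj : j < k
    · have h1 := E.hb ⟨i, hi⟩ ⟨j, hj⟩ α
      rw [Fin.val_mk, Fin.val_mk] at h1
      rw [← h1, Module.Basis.repr_self, Finsupp.single_apply]
      congr 1
      rw [Prod.ext_iff, Prod.ext_iff, Fin.ext_iff, Fin.ext_iff]
    · rw [if_neg]
      · have h1 : r ^ j = 0 := pow_eq_zero_of_le (not_lt.1 hj) E.hr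
        rw [h1, mul_zero, LinearMap.zero_apply, map_zero, Finsupp.zero_apply]
      · rintro ⟨_, h2, _⟩
        exact hj (h2 ▸ q.2.1.2)
  · rw [if_neg]
    · have h1 : l ^ i = 0 := pow_eq_zero_of_le (not_lt.1 hi) E.hl
      rw [h1, zero_mul, LinearMap.zero_apply, map_zero, Finsupp.zero_apply]
    · rintro ⟨h2, _⟩
      exact hi (h2 ▸ q.1.2)

omit [Fintype ι] in
theorem Th_repr (m : ℕ) (f : F[X]) (α : ι) (q : Fin k × Fin k × ι) :
    E.b.repr (Th l r m f (E.g α)) q =
      if (q.1 : ℕ) + (q.2.1 : ℕ) = m ∧ α = q.2.2 then f.coeff (q.1 : ℕ) else 0 := by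
  unfold Th
  rw [LinearMap.sum_apply, map_sum, Finsupp.finsetSum_apply]
  simp only [LinearMap.smul_apply, map_smul, Finsupp.smul_apply, mon_repr E, smul_eq_mul,
    mul_ite, mul_one, mul_zero]
  by_cases h : (q.1 : ℕ) + (q.2.1 : ℕ) = m ∧ α = q.2.2
  · rw [if_pos h]
    rw [Finset.sum_eq_single ((q.1 : ℕ), (q.2.1 : ℕ))]
    · rw [if_pos ⟨rfl, rfl, h.2⟩]
    · intro c _ hc
      rw [if_neg]
      rintro ⟨h1, h2, _⟩
      exact hc (Prod.ext h1 h2)
    · intro hc
      exact absurd (Finset.HasAntidiagonal.mem_antidiagonal.2 h.1) hc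
  · rw [if_neg h]
    apply Finset.sum_eq_zero
    intro c hc
    rw [if_neg]
    rintro ⟨h1, h2, h3⟩
    rw [Finset.HasAntidiagonal.mem_antidiagonal, h1, h2] at hc
    exact h ⟨hc, h3⟩

theorem sum_Th_repr (m : ℕ) (f : ι → F[X]) (q : Fin k × Fin k × ι) :
    E.b.repr (∑ α, Th l r m (f α) (E.g α)) q =
      if (q.1 : ℕ) + (q.2.1 : ℕ) = m then (f q.2.2).coeff (q.1 : ℕ) else 0 := by
  rw [map_sum, Finsupp.finsetSum_apply]
  simp only [Th_repr E]
  by_cases h : (q.1 : ℕ) + (q.2.1 : ℕ) = m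
  · rw [if_pos h, Finset.sum_eq_single q.2.2]
    · rw [if_pos ⟨h, rfl⟩]
    · intro c _ hc
      rw [if_neg]
      rintro ⟨_, h1⟩
      exact hc h1
    · intro hc
      exact absurd (Finset.mem_univ _) hc
  · rw [if_neg h]
    apply Finset.sum_eq_zero
    intro c _
    rw [if_neg]
    rintro ⟨h1, _⟩
    exact h h1

omit [Fintype ι] in
theorem Fl_l {s : ℕ} {x : V} (hx : x ∈ Fl E.b s) : l x ∈ Fl E.b (s + 1) := by
  intro q hq
  have h1 : l x = (E.b.repr x).sum fun p c => c • (l ^ ((p.1 : ℕ) + 1) * r ^ (p.2.1 : ℕ)) (E.g p.2.2) := by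
    conv_lhs => rw [← E.b.linearCombination_repr x]
    rw [Finsupp.linearCombination_apply, Finsupp.sum, Finsupp.sum, map_sum]
    apply Finset.sum_congr rfl
    rintro ⟨i, j, α⟩ _
    rw [map_smul, E.hb, ← Module.End.mul_apply, ← mul_assoc, ← pow_succ']
  rw [h1, Finsupp.sum, map_sum, Finsupp.finsetSum_apply]
  apply Finset.sum_eq_zero
  intro p _
  rw [map_smul, Finsupp.smul_apply, mon_repr E]
  split_ifs with h2
  · have h3 : (p.1 : ℕ) + (p.2.1 : ℕ) < s := by omega
    rw [hx p h3, zero_smul]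
  · rw [smul_zero]

omit [Fintype ι] in
theorem Fl_r {s : ℕ} {x : V} (hx : x ∈ Fl E.b s) : r x ∈ Fl E.b (s + 1) := by
  intro q hq
  have h1 : r x = (E.b.repr x).sum fun p c => c • (l ^ (p.1 : ℕ) * r ^ ((p.2.1 : ℕ) + 1)) (E.g p.2.2) := by
    conv_lhs => rw [← E.b.linearCombination_repr x]
    rw [Finsupp.linearCombination_apply, Finsupp.sum, Finsupp.sum, map_sum]
    apply Finset.sum_congr rfl
    rintro ⟨i, j, α⟩ _
    rw [map_smul, E.hb, ← Module.End.mul_apply, ← mul_assoc,
      ← (E.comm.pow_left (i : ℕ)).eq, mul_assoc, ← pow_succ']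
  rw [h1, Finsupp.sum, map_sum, Finsupp.finsetSum_apply]
  apply Finset.sum_eq_zero
  intro p _
  rw [map_smul, Finsupp.smul_apply, mon_repr E]
  split_ifs with h2
  · have h3 : (p.1 : ℕ) + (p.2.1 : ℕ) < s := by omega
    rw [hx p h3, zero_smul]
  · rw [smul_zero]

omit [Fintype ι] in
theorem Fl_pow {s : ℕ} {x : V} (hx : x ∈ Fl E.b s) (c : ℕ) :
    ((l - r) ^ c) x ∈ Fl E.b (s + c) := by
  induction c with
  | zero => rw [pow_zero, Module.End.one_apply, add_zero]; exact hx
  | succ c ih =>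
    rw [pow_succ', Module.End.mul_apply, LinearMap.sub_apply, ← add_assoc]
    exact Submodule.sub_mem _ (Fl_l E ih) (Fl_r E ih)

omit [Fintype ι] [DecidableEq ι] in
theorem Fl_zero (x : V) : x ∈ Fl E.b 0 := fun _ hq => absurd hq (Nat.not_lt_zero _)

omit [Fintype ι] [DecidableEq ι] in
theorem Fl_last {x : V} (hx : x ∈ Fl E.b (2 * k - 1)) : x = 0 := by
  rw [← E.b.repr.map_eq_zero_iff]
  ext q
  rw [Finsupp.zero_apply]
  apply hx q
  have h1 := q.1.2
  have h2 := q.2.1.2
  omega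

omit [Fintype ι] [DecidableEq ι] in
theorem Fl_mono {s t : ℕ} (hst : s ≤ t) {x : V} (hx : x ∈ Fl E.b t) : x ∈ Fl E.b s :=
  fun q hq => hx q (lt_of_lt_of_le hq hst)

variable [CharZero F]

/-- Injectivity in the Lefschetz property. -/
theorem lef_inj {s p : ℕ} (hsp : s + p + 1 = k) {x : V} (hx : x ∈ Fl E.b s)
    (hD : ((l - r) ^ (2 * p)) x ∈ Fl E.b (s + 2 * p + 1)) : x ∈ Fl E.b (s + 1) := by
  obtain ⟨f, hf⟩ : ∃ f : ι → F[X], f = fun α => ∑ i : Fin (s + 1),
    C (E.b.repr x (⟨i, by omega⟩, ⟨s - i, by omega⟩, α)) * X ^ (i : ℕ) := ⟨_, rfl⟩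
  have hfd : ∀ α, (f α).natDegree ≤ s := by
    intro α
    rw [hf]
    apply natDegree_sum_le_of_forall_le
    intro i _
    refine (natDegree_C_mul_X_pow_le _ _).trans ?_
    omega
  have hfc : ∀ (α : ι) (i : ℕ) (hi : i < s + 1), (f α).coeff i =
      E.b.repr x (⟨i, by omega⟩, ⟨s - i, by omega⟩, α) := by
    intro α i hi
    rw [hf]
    simp only [finsetSum_coeff, coeff_C_mul, coeff_X_pow, mul_ite, mul_one, mul_zero]
    rw [Finset.sum_eq_single (⟨i, hi⟩ : Fin (s + 1))]
    · rw [if_pos rfl]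
    · intro c _ hc
      rw [if_neg]
      intro h1
      exact hc (Fin.ext h1.symm)
    · intro hc
      exact absurd (Finset.mem_univ _) hc
  obtain ⟨y, hy⟩ : ∃ y, y = ∑ α, Th l r s (f α) (E.g α) := ⟨_, rfl⟩
  have hxy : x - y ∈ Fl E.b (s + 1) := by
    intro q hq
    rw [map_sub, Finsupp.sub_apply, hy, sum_Th_repr E]
    split_ifs with h1
    · have h2 := hfc q.2.2 q.1 (by omega)
      rw [h2, sub_eq_zero]
      congr 1
      refine Prod.ext rfl (Prod.ext (Fin.ext ?_) rfl)
      change (q.2.1 : ℕ) = s - q.1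
      omega
    · rw [hx q (by omega), sub_zero]
  have hDy : ((l - r) ^ (2 * p)) y ∈ Fl E.b (s + 2 * p + 1) := by
    have h1 : y = x - (x - y) := by abel
    rw [h1, map_sub]
    apply Submodule.sub_mem _ hD
    have h2 := Fl_pow E hxy (2 * p)
    have h3 : s + 1 + 2 * p = s + 2 * p + 1 := by ring
    rwa [h3] at h2
  have hDy' : ((l - r) ^ (2 * p)) y =
      ∑ α, Th l r (s + 2 * p) ((X - 1) ^ (2 * p) * f α) (E.g α) := by
    rw [hy, map_sum]
    apply Finset.sum_congr rfl
    intro α _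
    rw [← Module.End.mul_apply, Th_pow E.comm _ _ _ (hfd α)]
  have hf0 : ∀ α, f α = 0 := by
    intro α
    apply lef_poly p s (f α) (hfd α)
    intro i hi1 hi2
    have h1 := hDy (⟨i, by omega⟩, ⟨s + 2 * p - i, by omega⟩, α) (by simp only; omega)
    rw [hDy', sum_Th_repr E, if_pos (by simp only; omega)] at h1
    exact h1
  have hy0 : y = 0 := by
    rw [hy]
    apply Finset.sum_eq_zero
    intro α _
    rw [hf0 α]
    unfold Th
    simp
  rw [hy0, sub_zero] at hxy
  exact hxy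

/-- Surjectivity in the Lefschetz property. -/
theorem lef_surj {s p : ℕ} (hsp : s + p + 1 = k) {y : V} (hy : y ∈ Fl E.b (s + 2 * p)) :
    ∃ x ∈ Fl E.b s, y - ((l - r) ^ (2 * p)) x ∈ Fl E.b (s + 2 * p + 1) := by
  obtain ⟨fc, hfc⟩ : ∃ fc : (Fin (s + 1) → F) → F[X],
      fc = fun c => ∑ i : Fin (s + 1), C (c i) * X ^ (i : ℕ) := ⟨_, rfl⟩
  have hfd : ∀ c, (fc c).natDegree ≤ s := by
    intro c
    rw [hfc]
    apply natDegree_sum_le_of_forall_le
    intro i _
    refine (natDegree_C_mul_X_pow_le _ _).trans ?_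
    omega
  have hfcc : ∀ (c : Fin (s + 1) → F) (i : ℕ) (hi : i < s + 1), (fc c).coeff i = c ⟨i, hi⟩ := by
    intro c i hi
    rw [hfc]
    simp only [finsetSum_coeff, coeff_C_mul, coeff_X_pow, mul_ite, mul_one, mul_zero]
    rw [Finset.sum_eq_single (⟨i, hi⟩ : Fin (s + 1))]
    · rw [if_pos rfl]
    · intro c _ hc
      rw [if_neg]
      intro h1
      exact hc (Fin.ext h1.symm)
    · intro hc
      exact absurd (Finset.mem_univ _) hc
  have hadd : ∀ c d, fc (c + d) = fc c + fc d := by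
    intro c d
    rw [hfc]
    simp only [Pi.add_apply, map_add, add_mul, Finset.sum_add_distrib]
  have hsmul : ∀ (a : F) c, fc (a • c) = a • fc c := by
    intro a c
    rw [hfc]
    simp only [Pi.smul_apply, smul_eq_mul, map_mul, Finset.smul_sum]
    apply Finset.sum_congr rfl
    intro i _
    rw [mul_assoc, ← smul_eq_C_mul]
  let Φ : (Fin (s + 1) → F) →ₗ[F] (Fin (s + 1) → F) :=
    { toFun := fun c i => ((X - 1) ^ (2 * p) * fc c).coeff (p + i)
      map_add' := by
        intro c d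
        funext i
        rw [hadd, mul_add, coeff_add]
        rfl
      map_smul' := by
        intro a c
        funext i
        rw [hsmul, mul_smul_comm, coeff_smul]
        rfl }
  have hΦ : ∀ c i, Φ c i = ((X - 1) ^ (2 * p) * fc c).coeff (p + i) := fun _ _ => rfl
  have hinj : Function.Injective Φ := by
    rw [← LinearMap.ker_eq_bot, LinearMap.ker_eq_bot']
    intro c hc
    have h1 : fc c = 0 := by
      apply lef_poly p s (fc c) (hfd c)
      intro i hi1 hi2
      have h2 := congrFun hc ⟨i - p, by omega⟩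
      rw [hΦ] at h2
      have h3 : p + (i - p) = i := by omega
      simp only [h3] at h2
      exact h2
    funext i
    rw [Pi.zero_apply, ← hfcc c i i.2, h1, coeff_zero]
  have hsurj : Function.Surjective Φ := LinearMap.injective_iff_surjective.1 hinj
  have hex : ∀ α : ι, ∃ c, Φ c = fun i : Fin (s + 1) =>
      E.b.repr y (⟨p + i, by omega⟩, ⟨s + p - i, by omega⟩, α) := fun α => hsurj _
  choose c hc using hex
  refine ⟨∑ α, Th l r s (fc (c α)) (E.g α), ?_, ?_⟩
  · intro q hq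
    rw [sum_Th_repr E, if_neg (by omega)]
  · intro q hq
    rw [map_sum, map_sub, Finsupp.sub_apply]
    have h1 : ∑ α, ((l - r) ^ (2 * p)) (Th l r s (fc (c α)) (E.g α)) =
        ∑ α, Th l r (s + 2 * p) ((X - 1) ^ (2 * p) * fc (c α)) (E.g α) := by
      apply Finset.sum_congr rfl
      intro α _
      rw [← Module.End.mul_apply, Th_pow E.comm _ _ _ (hfd _)]
    rw [h1, sum_Th_repr E]
    have hq1 := q.1.2
    have hq2 := q.2.1.2
    split_ifs with h2
    · have h3 := congrFun (hc q.2.2) ⟨(q.1 : ℕ) - p, by omega⟩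
      rw [hΦ] at h3
      have h4 : p + ((q.1 : ℕ) - p) = q.1 := by omega
      simp only [h4] at h3
      rw [h3, sub_eq_zero]
      congr 1
      refine Prod.ext rfl (Prod.ext (Fin.ext ?_) rfl)
      change (q.2.1 : ℕ) = s + p - ((q.1 : ℕ) - p)
      omega
    · rw [hy q (by omega), sub_zero]

/-- The filtration is invariant under every operator commuting with `(l - r)^2`. -/
theorem Fl_stable {S : Module.End F V} (hS : Commute ((l - r) ^ 2) S) (s : ℕ) (hs : s ≤ 2 * k - 1) :
    ∀ x ∈ Fl E.b s, S x ∈ Fl E.b s := by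
  have hSp : ∀ p : ℕ, ∀ x, S (((l - r) ^ (2 * p)) x) = ((l - r) ^ (2 * p)) (S x) := by
    intro p x
    have h1 := (hS.pow_left p).eq
    rw [← pow_mul] at h1
    rw [← Module.End.mul_apply, ← h1, Module.End.mul_apply]
  have key : ∀ s, s ≤ k → (∀ x ∈ Fl E.b s, S x ∈ Fl E.b s) ∧
      (∀ x ∈ Fl E.b (2 * k - 1 - s), S x ∈ Fl E.b (2 * k - 1 - s)) := by
    intro s
    induction s with
    | zero =>
      intro _
      refine ⟨fun x _ => Fl_zero E _, ?_⟩
      intro x hx
      rw [Nat.sub_zero] at hx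
      rw [Fl_last E hx, map_zero]
      exact Submodule.zero_mem _
    | succ s ih =>
      intro hsk
      obtain ⟨h1, h2⟩ := ih (by omega)
      obtain ⟨p, hp⟩ : ∃ p, s + p + 1 = k := ⟨k - 1 - s, by omega⟩
      have h3 : 2 * k - 1 - s = s + 2 * p + 1 := by omega
      rw [h3] at h2
      constructor
      · intro x hx
        apply lef_inj E hp (h1 x (Fl_mono E (Nat.le_succ s) hx))
        rw [← hSp]
        apply h2
        have h4 := Fl_pow E hx (2 * p)
        have h5 : s + 1 + 2 * p = s + 2 * p + 1 := by ring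
        rwa [h5] at h4
      · have h4 : 2 * k - 1 - (s + 1) = s + 2 * p := by omega
        rw [h4]
        intro y hy
        obtain ⟨x, hx, hxy⟩ := lef_surj E hp hy
        have h5 : y = ((l - r) ^ (2 * p)) x + (y - ((l - r) ^ (2 * p)) x) := by abel
        rw [h5, map_add, hSp]
        apply Submodule.add_mem
        · exact Fl_pow E (h1 x hx) (2 * p)
        · exact Fl_mono E (Nat.le_succ _) (h2 _ hxy)
  by_cases h1 : s ≤ k
  · exact (key s h1).1
  · have h2 := (key (2 * k - 1 - s) (by omega)).2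
    have h3 : 2 * k - 1 - (2 * k - 1 - s) = s := by omega
    rwa [h3] at h2

end

end Pool.Agent.MP_f4742e_al
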