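import Mathlib

/-!
A Rota-Baxter operator of weight zero on `M_{m+1}(F)` with nonzero `2m`-th power.
-/

set_option autoImplicit false

namespace Pool.Agent.MP_f4742e_al

open Matrix

section

variable (F : Type*) [Field F] (m : ℕ)

/-- The lower shift matrix. -/
def Jl : Matrix (Fin (m + 1)) (Fin (m + 1)) F := Matrix.of fun i j => if (i : ℕ) = j + 1 then 1 else 0

/-- The projection to the span of the first `m` basis vectors. -/
def El : Matrix (Fin (m + 1)) (Fin (m + 1)) F :=
  Matrix.diagonal fun i => if (i : ℕ) = m then 0 else 1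

variable {F m}

theorem Jl_mul_zero (Y : Matrix (Fin (m + 1)) (Fin (m + 1)) F) (j : Fin (m + 1)) :
    (Jl F m * Y) 0 j = 0 := by
  rw [Matrix.mul_apply]
  apply Finset.sum_eq_zero
  intro l _
  unfold Jl
  rw [Matrix.of_apply, if_neg, zero_mul]
  rw [Fin.val_zero]
  omega

theorem Jl_mul_succ (Y : Matrix (Fin (m + 1)) (Fin (m + 1)) F) (i : ℕ) (hi : i + 1 < m + 1)
    (j : Fin (m + 1)) : (Jl F m * Y) ⟨i + 1, hi⟩ j = Y ⟨i, by omega⟩ j := by
  rw [Matrix.mul_apply, Finset.sum_eq_single (⟨i, by omega⟩ : Fin (m + 1))]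
  · unfold Jl
    rw [Matrix.of_apply, if_pos rfl, one_mul]
  · intro l _ hl
    unfold Jl
    rw [Matrix.of_apply, if_neg, zero_mul]
    intro h
    apply hl
    apply Fin.ext
    simp only at h ⊢
    omega
  · intro hcon
    exact absurd (Finset.mem_univ _) hcon

theorem mul_Jl_lt (Y : Matrix (Fin (m + 1)) (Fin (m + 1)) F) (i : Fin (m + 1)) (j : ℕ)
    (hj : j < m) : (Y * Jl F m) i ⟨j, by omega⟩ = Y i ⟨j + 1, by omega⟩ := by
  rw [Matrix.mul_apply, Finset.sum_eq_single (⟨j + 1, by omega⟩ : Fin (m + 1))]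
  · unfold Jl
    rw [Matrix.of_apply, if_pos rfl, mul_one]
  · intro l _ hl
    unfold Jl
    rw [Matrix.of_apply, if_neg, mul_zero]
    intro h
    apply hl
    apply Fin.ext
    exact h
  · intro hcon
    exact absurd (Finset.mem_univ _) hcon

theorem mul_El_apply (Y : Matrix (Fin (m + 1)) (Fin (m + 1)) F) (i j : Fin (m + 1)) :
    (Y * El F m) i j = if (j : ℕ) = m then 0 else Y i j := by
  unfold El
  rw [Matrix.mul_diagonal]
  split_ifs
  · rw [mul_zero]
  · rw [mul_one]

theorem El_mul_apply (Y : Matrix (Fin (m + 1)) (Fin (m + 1)) F) (i j : Fin (m + 1)) :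
    (El F m * Y) i j = if (i : ℕ) = m then 0 else Y i j := by
  unfold El
  rw [Matrix.diagonal_mul]
  split_ifs
  · rw [zero_mul]
  · rw [one_mul]

theorem El_mul_El : El F m * El F m = El F m := by
  unfold El
  rw [Matrix.diagonal_mul_diagonal]
  congr 1
  funext i
  split_ifs <;> simp

theorem El_transpose : (El F m)ᵀ = El F m := by
  unfold El
  rw [Matrix.diagonal_transpose]

/-- The defining relation of the operator. -/
def PP (X Y : Matrix (Fin (m + 1)) (Fin (m + 1)) F) : Prop :=
  El F m * Y = Y ∧ (Jl F m * Y - Y * Jl F m) * El F m = X * El F m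

theorem PP_iff (X Y : Matrix (Fin (m + 1)) (Fin (m + 1)) F) : PP X Y ↔
    (∀ j, Y ⟨m, by omega⟩ j = 0) ∧
    (∀ j (hj : j < m), -Y 0 ⟨j + 1, by omega⟩ = X 0 ⟨j, by omega⟩) ∧
    (∀ i (hi : i < m) j (hj : j < m), Y ⟨i, by omega⟩ ⟨j, by omega⟩ -
      Y ⟨i + 1, by omega⟩ ⟨j + 1, by omega⟩ = X ⟨i + 1, by omega⟩ ⟨j, by omega⟩) := by
  constructor
  · rintro ⟨h1, h2⟩
    refine ⟨?_, ?_, ?_⟩
    · intro j
      rw [← h1, El_mul_apply, if_pos rfl]
    · intro j hj
      have h3 := congrFun (congrFun h2 0) (⟨j, by omega⟩ : Fin (m + 1))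
      rw [mul_El_apply, mul_El_apply, if_neg (by simp only; omega), if_neg (by simp only; omega),
        Matrix.sub_apply, Jl_mul_zero, mul_Jl_lt _ _ j hj, zero_sub] at h3
      exact h3
    · intro i hi j hj
      have h3 := congrFun (congrFun h2 (⟨i + 1, by omega⟩ : Fin (m + 1)))
        (⟨j, by omega⟩ : Fin (m + 1))
      rw [mul_El_apply, mul_El_apply, if_neg (by simp only; omega), if_neg (by simp only; omega),
        Matrix.sub_apply, Jl_mul_succ, mul_Jl_lt _ _ j hj] at h3
      exact h3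
  · rintro ⟨h1, h2, h3⟩
    refine ⟨?_, ?_⟩
    · ext i j
      rw [El_mul_apply]
      split_ifs with h4
      · have h5 : i = ⟨m, by omega⟩ := Fin.ext h4
        rw [h5, h1]
      · rfl
    · ext i j
      rw [mul_El_apply, mul_El_apply]
      split_ifs with h4
      · rfl
      · have hj : (j : ℕ) < m := by omega
        rw [Matrix.sub_apply]
        obtain ⟨j', hj'⟩ : ∃ j' : ℕ, j' = (j : ℕ) := ⟨_, rfl⟩
        have hj'' : j' < m := by omega
        have hj3 : j = ⟨j', by omega⟩ := Fin.ext hj'.symm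
        rw [hj3, mul_Jl_lt _ _ j' hj'']
        rcases Nat.eq_zero_or_pos (i : ℕ) with h5 | h5
        · have h6 : i = 0 := Fin.ext h5
          rw [h6, Jl_mul_zero, zero_sub, h2 j' hj'']
        · obtain ⟨i', hi'⟩ : ∃ i' : ℕ, i' = (i : ℕ) - 1 := ⟨_, rfl⟩
          have hi2 := i.2
          have hi'' : i' < m := by omega
          have hi3 : i = ⟨i' + 1, by omega⟩ := Fin.ext (by simp only; omega)
          rw [hi3, Jl_mul_succ, h3 i' hi'' j' hj'']

theorem PP_zero {Y : Matrix (Fin (m + 1)) (Fin (m + 1)) F} (h : PP 0 Y) : Y = 0 := by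
  rw [PP_iff] at h
  obtain ⟨h1, h2, h3⟩ := h
  have key1 : ∀ i j (hi : i < m + 1) (hj : j < m + 1), i < j → Y ⟨i, hi⟩ ⟨j, hj⟩ = 0 := by
    intro i
    induction i with
    | zero =>
      intro j hi hj hij
      have h4 := h2 (j - 1) (by omega)
      rw [Matrix.zero_apply, neg_eq_zero] at h4
      have h5 : (⟨j - 1 + 1, by omega⟩ : Fin (m + 1)) = ⟨j, hj⟩ := Fin.ext (by simp only; omega)
      rw [h5] at h4
      exact h4
    | succ i ih =>
      intro j hi hj hij
      have h4 := h3 i (by omega) (j - 1) (by omega)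
      rw [Matrix.zero_apply, ih (j - 1) (by omega) (by omega) (by omega), zero_sub,
        neg_eq_zero] at h4
      have h5 : (⟨j - 1 + 1, by omega⟩ : Fin (m + 1)) = ⟨j, hj⟩ := Fin.ext (by simp only; omega)
      rw [h5] at h4
      exact h4
  have key2 : ∀ d i j (hi : i < m + 1) (hj : j < m + 1), i + d = m → j ≤ i →
      Y ⟨i, hi⟩ ⟨j, hj⟩ = 0 := by
    intro d
    induction d with
    | zero =>
      intro i j hi hj hid hij
      have h4 := h1 ⟨j, hj⟩
      have h5 : (⟨m, by omega⟩ : Fin (m + 1)) = ⟨i, hi⟩ := Fin.ext (by simp only; omega)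
      rw [h5] at h4
      exact h4
    | succ d ih =>
      intro i j hi hj hid hij
      have h4 := h3 i (by omega) j (by omega)
      rw [Matrix.zero_apply, ih (i + 1) (j + 1) (by omega) (by omega) (by omega) (by omega),
        sub_zero] at h4
      exact h4
  ext i j
  rw [Matrix.zero_apply]
  by_cases hij : (i : ℕ) < j
  · exact key1 i j i.2 j.2 hij
  · exact key2 (m - i) i j i.2 j.2 (by omega) (by omega)

theorem PP_sub {X X' Y Y' : Matrix (Fin (m + 1)) (Fin (m + 1)) F} (h : PP X Y) (h' : PP X' Y') :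
    PP (X - X') (Y - Y') := by
  obtain ⟨h1, h2⟩ := h
  obtain ⟨h1', h2'⟩ := h'
  refine ⟨by rw [Matrix.mul_sub, h1, h1'], ?_⟩
  rw [Matrix.sub_mul X, ← h2, ← h2', Matrix.mul_sub, Matrix.sub_mul Y]
  noncomm_ring

theorem PP_add {X X' Y Y' : Matrix (Fin (m + 1)) (Fin (m + 1)) F} (h : PP X Y) (h' : PP X' Y') :
    PP (X + X') (Y + Y') := by
  obtain ⟨h1, h2⟩ := h
  obtain ⟨h1', h2'⟩ := h'
  refine ⟨by rw [Matrix.mul_add, h1, h1'], ?_⟩
  rw [Matrix.add_mul X, ← h2, ← h2', Matrix.mul_add, Matrix.add_mul Y]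
  noncomm_ring

theorem PP_smul {X Y : Matrix (Fin (m + 1)) (Fin (m + 1)) F} (c : F) (h : PP X Y) :
    PP (c • X) (c • Y) := by
  obtain ⟨h1, h2⟩ := h
  refine ⟨by rw [Matrix.mul_smul, h1], ?_⟩
  rw [Matrix.smul_mul c X, ← h2, Matrix.mul_smul, Matrix.smul_mul c Y, ← smul_sub,
    Matrix.smul_mul]

theorem PP_unique {X Y Y' : Matrix (Fin (m + 1)) (Fin (m + 1)) F} (h : PP X Y) (h' : PP X Y') :
    Y = Y' := by
  have h1 := PP_sub h h'
  rw [sub_self] at h1
  exact sub_eq_zero.1 (PP_zero h1)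

/-- The space of matrices with zero last row. -/
def UU (F : Type*) [Field F] (m : ℕ) : Submodule F (Matrix (Fin (m + 1)) (Fin (m + 1)) F) where
  carrier := {Y | El F m * Y = Y}
  add_mem' := by
    intro a b ha hb
    change El F m * (a + b) = a + b
    rw [Matrix.mul_add, ha, hb]
  zero_mem' := Matrix.mul_zero _
  smul_mem' := by
    intro c a ha
    change El F m * (c • a) = c • a
    rw [Matrix.mul_smul, ha]

theorem exists_PP (X : Matrix (Fin (m + 1)) (Fin (m + 1)) F) : ∃ Y, PP X Y := by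
  let T : UU F m →ₗ[F] UU F m :=
    { toFun := fun Y => ⟨((Jl F m * Y.1 - Y.1 * Jl F m) * El F m)ᵀ, by
        change El F m * ((Jl F m * Y.1 - Y.1 * Jl F m) * El F m)ᵀ =
          ((Jl F m * Y.1 - Y.1 * Jl F m) * El F m)ᵀ
        rw [transpose_mul, El_transpose, ← Matrix.mul_assoc, El_mul_El]⟩
      map_add' := by
        intro Y Y'
        apply Subtype.ext
        change ((Jl F m * (Y.1 + Y'.1) - (Y.1 + Y'.1) * Jl F m) * El F m)ᵀ =
          ((Jl F m * Y.1 - Y.1 * Jl F m) * El F m)ᵀ + ((Jl F m * Y'.1 - Y'.1 * Jl F m) * El F m)ᵀ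
        rw [← transpose_add]
        congr 1
        noncomm_ring
      map_smul' := by
        intro c Y
        apply Subtype.ext
        change ((Jl F m * (c • Y.1) - (c • Y.1) * Jl F m) * El F m)ᵀ =
          c • ((Jl F m * Y.1 - Y.1 * Jl F m) * El F m)ᵀ
        rw [← transpose_smul, Matrix.mul_smul, Matrix.smul_mul, ← smul_sub, Matrix.smul_mul] }
  have hT : ∀ Y : UU F m, (T Y).1 = ((Jl F m * Y.1 - Y.1 * Jl F m) * El F m)ᵀ := fun _ => rfl
  have hinj : Function.Injective T := by
    rw [← LinearMap.ker_eq_bot, LinearMap.ker_eq_bot']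
    intro Y hY
    apply Subtype.ext
    apply PP_zero
    refine ⟨Y.2, ?_⟩
    have h1 := congrArg Subtype.val hY
    rw [hT] at h1
    rw [Matrix.zero_mul]
    have h2 := congrArg Matrix.transpose h1
    rw [transpose_transpose] at h2
    exact h2
  have hsurj : Function.Surjective T := LinearMap.injective_iff_surjective.1 hinj
  obtain ⟨Y, hY⟩ := hsurj ⟨(X * El F m)ᵀ, by
    change El F m * (X * El F m)ᵀ = (X * El F m)ᵀ
    rw [transpose_mul, El_transpose, ← Matrix.mul_assoc, El_mul_El]⟩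
  refine ⟨Y.1, Y.2, ?_⟩
  have h1 := congrArg Subtype.val hY
  rw [hT] at h1
  exact Matrix.transpose_injective h1

/-- The operator. -/
noncomputable def RR (F : Type*) [Field F] (m : ℕ) :
    Matrix (Fin (m + 1)) (Fin (m + 1)) F →ₗ[F] Matrix (Fin (m + 1)) (Fin (m + 1)) F where
  toFun X := (exists_PP X).choose
  map_add' X X' := PP_unique (exists_PP (X + X')).choose_spec
    (PP_add (exists_PP X).choose_spec (exists_PP X').choose_spec)
  map_smul' c X := PP_unique (exists_PP (c • X)).choose_spec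
    (PP_smul c (exists_PP X).choose_spec)

theorem RR_spec (X : Matrix (Fin (m + 1)) (Fin (m + 1)) F) : PP X (RR F m X) :=
  (exists_PP X).choose_spec

theorem RR_eq {X Y : Matrix (Fin (m + 1)) (Fin (m + 1)) F} (h : PP X Y) : RR F m X = Y :=
  PP_unique (RR_spec X) h

theorem RR_rb (X Y : Matrix (Fin (m + 1)) (Fin (m + 1)) F) :
    RR F m X * RR F m Y = RR F m (RR F m X * Y + X * RR F m Y) := by
  symm
  apply RR_eq
  obtain ⟨h1, h2⟩ := RR_spec X
  obtain ⟨h3, h4⟩ := RR_spec Y
  refine ⟨by rw [← Matrix.mul_assoc, h1], ?_⟩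
  have h5 : (Jl F m * (RR F m X * RR F m Y) - RR F m X * RR F m Y * Jl F m) * El F m =
      ((Jl F m * RR F m X - RR F m X * Jl F m) * El F m) * (RR F m Y * El F m) +
        RR F m X * ((Jl F m * RR F m Y - RR F m Y * Jl F m) * El F m) := by
    have h6 : ((Jl F m * RR F m X - RR F m X * Jl F m) * El F m) * (RR F m Y * El F m) =
        (Jl F m * RR F m X - RR F m X * Jl F m) * (El F m * RR F m Y) * El F m := by
      simp only [Matrix.mul_assoc]
    rw [h6, h3]
    noncomm_ring
  rw [h5, h2, h4]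
  have h7 : X * El F m * (RR F m Y * El F m) = X * (El F m * RR F m Y) * El F m := by
    simp only [Matrix.mul_assoc]
  rw [h7, h3]
  noncomm_ring

theorem RR_single (i : ℕ) (hi : i < m) :
    RR F m (Matrix.single (⟨i + 1, by omega⟩ : Fin (m + 1)) 0 1) =
      Matrix.single (⟨i, by omega⟩ : Fin (m + 1)) 0 1 := by
  apply RR_eq
  rw [PP_iff]
  refine ⟨?_, ?_, ?_⟩
  · intro j
    rw [Matrix.single_apply, if_neg]
    rintro ⟨h1, _⟩
    rw [Fin.ext_iff] at h1
    simp only at h1
    omega
  · intro j hj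
    rw [Matrix.single_apply, Matrix.single_apply, if_neg, if_neg, neg_zero]
    · rintro ⟨h1, _⟩
      rw [Fin.ext_iff, Fin.val_zero] at h1
      simp only at h1
      omega
    · rintro ⟨_, h1⟩
      rw [Fin.ext_iff, Fin.val_zero] at h1
      simp only at h1
      omega
  · intro i' hi' j hj
    rw [Matrix.single_apply, Matrix.single_apply, Matrix.single_apply]
    have h1 : ¬ ((⟨i, by omega⟩ : Fin (m + 1)) = ⟨i' + 1, by omega⟩ ∧
        (0 : Fin (m + 1)) = ⟨j + 1, by omega⟩) := by
      rintro ⟨_, h1⟩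
      rw [Fin.ext_iff, Fin.val_zero] at h1
      simp only at h1
      omega
    rw [if_neg h1, sub_zero]
    simp only [Fin.ext_iff, Nat.add_right_cancel_iff]

theorem RR_pow_single (i : ℕ) (hi : i < m + 1) :
    ((RR F m) ^ i) (Matrix.single (⟨i, hi⟩ : Fin (m + 1)) 0 1) = Matrix.single 0 0 1 := by
  induction i with
  | zero => rfl
  | succ i ih =>
    rw [pow_succ, Module.End.mul_apply, RR_single i (by omega), ih (by omega)]

/-- The iterates of the second part. -/
def ZZ (F : Type*) [Field F] (m : ℕ) : ℕ → Matrix (Fin (m + 1)) (Fin (m + 1)) F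
  | 0 => Matrix.single 0 0 1
  | k + 1 => Matrix.of fun i j => if (j : ℕ) = i + k + 1 then
      (-1) ^ (k + 1) * (((i : ℕ) + k).choose k : F) else 0

theorem RR_ZZ (k : ℕ) : RR F m (ZZ F m k) = ZZ F m (k + 1) := by
  apply RR_eq
  rw [PP_iff]
  refine ⟨?_, ?_, ?_⟩
  · intro j
    rw [ZZ, Matrix.of_apply, if_neg]
    simp only
    omega
  · intro j hj
    cases k with
    | zero =>
      rw [ZZ, ZZ, Matrix.of_apply, Matrix.single_apply]
      rcases Nat.eq_zero_or_pos j with h1 | h1
      · rw [if_pos (by simp only [Fin.val_zero]; omega), if_pos]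
        · simp
        · exact ⟨rfl, Fin.ext h1.symm⟩
      · rw [if_neg (by simp only [Fin.val_zero]; omega), if_neg, neg_zero]
        rintro ⟨_, h2⟩
        rw [Fin.ext_iff, Fin.val_zero] at h2
        simp only at h2
        omega
    | succ k =>
      rw [ZZ, ZZ, Matrix.of_apply, Matrix.of_apply]
      simp only [Fin.val_zero, zero_add, Nat.choose_self, Nat.cast_one, mul_one]
      by_cases h1 : j = k + 1
      · rw [if_pos (by omega), if_pos (by omega), pow_succ _ (k + 1)]
        ring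
      · rw [if_neg (by omega), if_neg (by omega), neg_zero]
  · intro i hi j hj
    cases k with
    | zero =>
      rw [ZZ, ZZ, Matrix.of_apply, Matrix.of_apply, Matrix.single_apply]
      have h2 : ¬ ((0 : Fin (m + 1)) = ⟨i + 1, by omega⟩ ∧ (0 : Fin (m + 1)) = ⟨j, by omega⟩) := by
        rintro ⟨h2, _⟩
        rw [Fin.ext_iff, Fin.val_zero] at h2
        simp only at h2
        omega
      rw [if_neg h2]
      by_cases h1 : j = i + 1
      · rw [if_pos (by simp only; omega), if_pos (by simp only; omega)]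
        simp
      · rw [if_neg (by simp only; omega), if_neg (by simp only; omega), sub_zero]
    | succ k =>
      rw [ZZ, ZZ, Matrix.of_apply, Matrix.of_apply, Matrix.of_apply]
      by_cases h1 : j = i + k + 2
      · rw [if_pos (by simp only; omega), if_pos (by simp only; omega),
          if_pos (by simp only; omega)]
        simp only
        have h2 : i + 1 + (k + 1) = (i + (k + 1)) + 1 := by ring
        have h3 : i + 1 + k = i + (k + 1) := by ring
        rw [h2, h3, Nat.choose_succ_succ (i + (k + 1)) k]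
        push_cast
        ring
      · rw [if_neg (by simp only; omega), if_neg (by simp only; omega),
          if_neg (by simp only; omega), sub_zero]

theorem RR_pow_ZZ (k : ℕ) : ((RR F m) ^ k) (Matrix.single 0 0 1) = ZZ F m k := by
  induction k with
  | zero => rfl
  | succ k ih => rw [pow_succ', Module.End.mul_apply, ih, RR_ZZ]

theorem RR_pow_ne : (RR F m) ^ (2 * m) ≠ 0 := by
  intro h
  have h1 := congrArg (fun T : Module.End F (Matrix (Fin (m + 1)) (Fin (m + 1)) F) =>
    T (Matrix.single (⟨m, by omega⟩ : Fin (m + 1)) 0 1) 0 ⟨m, by omega⟩) h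
  simp only at h1
  rw [two_mul, pow_add, Module.End.mul_apply, RR_pow_single, RR_pow_ZZ, LinearMap.zero_apply,
    Matrix.zero_apply] at h1
  cases m with
  | zero =>
    rw [ZZ, Matrix.single_apply, if_pos ⟨rfl, rfl⟩] at h1
    exact one_ne_zero h1
  | succ k =>
    rw [ZZ, Matrix.of_apply, if_pos (by simp)] at h1
    simp at h1

end

end Pool.Agent.MP_f4742e_al
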