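import Pool.Agent.Lib.MP_f4742e_al.Upper

/-!
The upper bound `2n - 1` for the Jordan algebra of symmetric elements of `M_{2n}(F)` under the
symplectic involution.
-/

set_option autoImplicit false

namespace Pool.Agent.MP_f4742e_al

open Matrix

section

variable {F : Type*} [Field F] {n : Type*} [Fintype n] [DecidableEq n]

/-- Symmetric elements of the symplectic involution. -/
def SympSym (x : Matrix (n ⊕ n) (n ⊕ n) F) : Prop := xᵀ * J n F = J n F * x

theorem SympSym.pow {a : Matrix (n ⊕ n) (n ⊕ n) F} (ha : SympSym a) (i : ℕ) :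
    SympSym (a ^ i) := by
  unfold SympSym at ha ⊢
  induction i with
  | zero => rw [pow_zero, transpose_one, Matrix.one_mul, Matrix.mul_one]
  | succ i ih =>
    rw [pow_succ, transpose_mul, Matrix.mul_assoc, ih, ← Matrix.mul_assoc, ha, Matrix.mul_assoc,
      ← pow_succ', pow_succ]

theorem SympSym.skew {x : Matrix (n ⊕ n) (n ⊕ n) F} (hx : SympSym x) (i j : n ⊕ n) :
    (J n F * x) i j = -(J n F * x) j i := by
  unfold SympSym at hx
  have h1 : (J n F * x)ᵀ = -(J n F * x) := by
    rw [transpose_mul, J_transpose, Matrix.mul_neg, hx]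
  have h2 := congrFun (congrFun h1 j) i
  rw [transpose_apply, Matrix.neg_apply] at h2
  exact h2

theorem J_mul_ne_zero {x : Matrix (n ⊕ n) (n ⊕ n) F} (hx : x ≠ 0) : J n F * x ≠ 0 := by
  intro h
  apply hx
  have h1 : J n F * (J n F * x) = -x := by
    rw [← Matrix.mul_assoc, J_squared, Matrix.neg_mul, Matrix.one_mul]
  rw [h, Matrix.mul_zero] at h1
  exact (neg_eq_zero.1 h1.symm)

theorem mul_single_mul (B : Matrix (n ⊕ n) (n ⊕ n) F) (i j x y : n ⊕ n) :
    (B * Matrix.single i j (1 : F) * B : Matrix (n ⊕ n) (n ⊕ n) F) x y = B x i * B j y := by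
  rw [Matrix.mul_apply, Finset.sum_eq_single j]
  · rw [Matrix.mul_single_apply_same, mul_one]
  · intro c _ hc
    rw [Matrix.mul_single_apply_of_ne _ _ _ _ _ hc, zero_mul]
  · intro hcon
    exact absurd (Finset.mem_univ _) hcon

/-- Two-element index set of rows. -/
def vv (p q : n ⊕ n) (s : Bool) : n ⊕ n := cond s p q

/-- The four matrices. -/
noncomputable def GG (p q : n ⊕ n) (st : Bool × Bool) : Matrix (n ⊕ n) (n ⊕ n) F :=
  Matrix.single (vv p q st.1) (vv p q st.2) 1 * J n F

theorem comb_apply {B : Matrix (n ⊕ n) (n ⊕ n) F} {p q : n ⊕ n} (h1 : B p p = 0) (h2 : B q q = 0)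
    (c : Bool × Bool → F) (s t : Bool) :
    (∑ st : Bool × Bool, c st •
      (B * Matrix.single (vv p q st.1) (vv p q st.2) (1 : F) * B) : Matrix (n ⊕ n) (n ⊕ n) F)
      (vv p q !s) (vv p q !t) =
      c (s, t) * (B (vv p q !s) (vv p q s) * B (vv p q t) (vv p q !t)) := by
  have hz : ∀ b, B (vv p q b) (vv p q b) = 0 := by
    intro b
    cases b
    · exact h2
    · exact h1
  rw [Matrix.sum_apply]
  simp only [Matrix.smul_apply, mul_single_mul, smul_eq_mul]
  rw [Finset.sum_eq_single (s, t)]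
  · rintro ⟨s', t'⟩ _ hne
    by_cases hs : s' = s
    · have ht : t' = !t := by
        rw [hs] at hne
        have : t' ≠ t := fun h => hne (by rw [h])
        cases t <;> cases t' <;> simp_all
      simp only [ht, hz, mul_zero]
    · have hs' : s' = !s := by
        cases s <;> cases s' <;> simp_all
      simp only [hs', hz, zero_mul, mul_zero]
  · intro hcon
    exact absurd (Finset.mem_univ _) hcon

variable [CharZero F]

theorem SympSym.diag {x : Matrix (n ⊕ n) (n ⊕ n) F} (hx : SympSym x) (i : n ⊕ n) :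
    (J n F * x) i i = 0 := by
  have h1 := hx.skew i i
  have h2 : (2 : F) * (J n F * x) i i = 0 := by
    rw [two_mul]
    nth_rewrite 1 [h1]
    exact neg_add_cancel _
  exact (mul_eq_zero.1 h2).resolve_left two_ne_zero

omit [CharZero F] in
theorem J_mul_GG (e : Matrix (n ⊕ n) (n ⊕ n) F) (p q : n ⊕ n) (st : Bool × Bool) :
    J n F * (e * GG p q st * e) =
      (J n F * e) * Matrix.single (vv p q st.1) (vv p q st.2) 1 * (J n F * e) := by
  unfold GG
  simp only [Matrix.mul_assoc]

omit [CharZero F] in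
theorem J_mul_comb (e : Matrix (n ⊕ n) (n ⊕ n) F) (p q : n ⊕ n) (c : Bool × Bool → F) :
    J n F * (∑ st, c st • (e * GG p q st * e)) =
      ∑ st, c st • ((J n F * e) * Matrix.single (vv p q st.1) (vv p q st.2) 1 * (J n F * e)) := by
  rw [Matrix.mul_sum]
  apply Finset.sum_congr rfl
  intro st _
  rw [Matrix.mul_smul, J_mul_GG]

/-- The upper bound for the symplectic involution. -/
theorem upper_sympl (hn : 0 < Fintype.card n)
    {R : Matrix (n ⊕ n) (n ⊕ n) F →ₗ[F] Matrix (n ⊕ n) (n ⊕ n) F} (h : JRB R)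
    (hH : ∀ x, SympSym (R x)) : R ^ (2 * Fintype.card n - 1) = 0 := by
  obtain ⟨N, hN⟩ : ∃ N, N = Fintype.card n := ⟨_, rfl⟩
  rw [← hN] at hn ⊢
  have hnon : Nonempty n := Fintype.card_pos_iff.1 (hN ▸ hn)
  obtain ⟨k, hk, hk0, hk1⟩ := exists_index h.nilpotent_one one_ne_zero
  obtain ⟨e, he⟩ : ∃ e, e = (R 1) ^ (k - 1) := ⟨_, rfl⟩
  have heS : SympSym e := he ▸ (hH 1).pow (k - 1)
  rw [← he] at hk1
  obtain ⟨B, hB⟩ : ∃ B, B = J n F * e := ⟨_, rfl⟩
  have hB0 : B ≠ 0 := hB ▸ J_mul_ne_zero hk1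
  obtain ⟨p, q, hpq⟩ : ∃ p q, B p q ≠ 0 := by
    by_contra hcon
    push Not at hcon
    exact hB0 (Matrix.ext hcon)
  have hBd : ∀ i, B i i = 0 := fun i => hB ▸ heS.diag i
  have hBs : ∀ i j, B i j = -B j i := fun i j => hB ▸ heS.skew i j
  have hBne : ∀ s : Bool, B (vv p q !s) (vv p q s) ≠ 0 := by
    intro s
    cases s
    · exact hpq
    · change B q p ≠ 0
      rw [hBs q p]
      exact neg_ne_zero.2 hpq
  have hBne' : ∀ s t : Bool, B (vv p q !s) (vv p q s) * B (vv p q t) (vv p q !t) ≠ 0 := by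
    intro s t
    apply mul_ne_zero (hBne s)
    rw [hBs]
    exact neg_ne_zero.2 (hBne t)
  have hind : LinearIndependent F (fun st : Bool × Bool =>
      (R 1) ^ (k - 1) * GG p q st * (R 1) ^ (k - 1)) := by
    rw [← he, Fintype.linearIndependent_iff]
    rintro c hc ⟨s, t⟩
    have h1 := J_mul_comb e p q c
    rw [hc, Matrix.mul_zero, ← hB] at h1
    have h2 := comb_apply (hBd p) (hBd q) c s t
    rw [← h1, Matrix.zero_apply] at h2
    exact (mul_eq_zero.1 h2.symm).resolve_right (hBne' s t)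
  have hcard := card_le hk0 hind
  have hcB : Fintype.card (Bool × Bool) = 4 := rfl
  rw [Module.finrank_matrix, Module.finrank_self, hcB, Fintype.card_sum, mul_one, ← hN] at hcard
  have hkn : k ≤ N := by
    by_contra hcon
    have h1 : N * N < k * k := Nat.mul_self_lt_mul_self (by omega)
    have h2 : k * (k * 4) = 4 * (k * k) := by ring
    have h3 : (N + N) * (N + N) = 4 * (N * N) := by ring
    rw [h2, h3] at hcard
    omega
  by_cases hlt : k < N
  · exact pow_zero_of_le h hk0 (by omega)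
  have hkn' : k = N := by omega
  rw [← hkn']
  let E := mkEqBlock hk hk0 hind (by
    rw [Module.finrank_matrix, Module.finrank_self, hcB, Fintype.card_sum, mul_one, ← hN, hkn']
    ring)
  apply EqBlock.conclude h hk (he ▸ hk1) E
  intro x hx
  have hEg : E.g = GG p q := rfl
  obtain ⟨c, hc⟩ := Fl_last_span E hk hx
  have h1 : R 1 * (R 1) ^ (k - 1) = 0 := by
    rw [← pow_succ']
    have : k - 1 + 1 = k := by omega
    rw [this, hk0]
  have h2 : (R 1) ^ (k - 1) * R 1 = 0 := by
    rw [← pow_succ]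
    have : k - 1 + 1 = k := by omega
    rw [this, hk0]
  obtain ⟨d, hd⟩ := Fl_last_span E hk (mem_Fl_last E h1 h2)
  rw [hEg, ← he] at hc hd
  have key : ∀ (c : Bool × Bool → F) (x : Matrix (n ⊕ n) (n ⊕ n) F), SympSym x →
      x = ∑ st, c st • (e * GG p q st * e) → ∀ s t, c (s, t) = -c (t, s) := by
    intro c x hxS hx s t
    have h3 := J_mul_comb e p q c
    rw [← hx, ← hB] at h3
    have h4 := comb_apply (hBd p) (hBd q) c s t
    have h5 := comb_apply (hBd p) (hBd q) c t s
    rw [← h3] at h4 h5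
    rw [hxS.skew, h5, hBs (vv p q s), hBs (vv p q t)] at h4
    have h6 : (c (s, t) + c (t, s)) *
        (B (vv p q !s) (vv p q s) * B (vv p q !t) (vv p q t)) = 0 := by
      linear_combination h4
    have h7 := (mul_eq_zero.1 h6).resolve_right (mul_ne_zero (hBne s) (hBne t))
    exact eq_neg_of_add_eq_zero_left h7
  have hcs := key c (R x) (hH x) hc
  have hds := key d e heS hd
  have hz : ∀ (c : Bool × Bool → F), (∀ s t, c (s, t) = -c (t, s)) → ∀ s, c (s, s) = 0 := by
    intro c hc s
    have h3 := hc s s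
    have h4 : (2 : F) * c (s, s) = 0 := by
      rw [two_mul]
      nth_rewrite 1 [h3]
      exact neg_add_cancel _
    exact (mul_eq_zero.1 h4).resolve_left two_ne_zero
  have hd0 : d (true, false) ≠ 0 := by
    intro hd0
    have h3 : ∀ st, d st = 0 := by
      rintro ⟨s, t⟩
      cases s <;> cases t
      · exact hz d hds false
      · rw [hds, hd0, neg_zero]
      · exact hd0
      · exact hz d hds true
    apply hk1
    rw [hd]
    apply Finset.sum_eq_zero
    intro st _
    rw [h3, zero_smul]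
  refine ⟨c (true, false) * (d (true, false))⁻¹, ?_⟩
  rw [hc, ← he]
  conv_rhs => rw [hd]
  rw [Finset.smul_sum]
  apply Finset.sum_congr rfl
  rintro ⟨s, t⟩ _
  rw [smul_smul]
  congr 1
  cases s <;> cases t
  · rw [hz c hcs, hz d hds, mul_zero]
  · rw [hcs, hds false true]
    field_simp
  · field_simp
  · rw [hz c hcs, hz d hds, mul_zero]

end

end Pool.Agent.MP_f4742e_al
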