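import Pool.Agent.Lib.MP_f4742e_al.Defs
import Pool.Agent.Lib.MP_f4742e_al.Sympl
import Pool.Agent.Lib.MP_f4742e_al.Lower

/-!
Transfer between Jordan algebras of Hermitian type and matrix algebras.
-/

set_option autoImplicit false

namespace Pool.Agent.MP_f4742e_al

open Matrix SymAlg

section

variable {F A B : Type*} [Field F] [NonUnitalNonAssocRing A] [Module F A]
  [NonUnitalNonAssocRing B] [Module F B]

/-- Transport of a Rota-Baxter operator from a subalgebra which is a bimodule direct summand. -/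
theorem transport (i : B →ₗ[F] A) (p : A →ₗ[F] B) (hpi : ∀ u, p (i u) = u)
    (hi : ∀ u v, i (u * v) = i u * i v) (h1 : ∀ u y, p (i u * y) = u * p y)
    (h2 : ∀ u y, p (y * i u) = p y * u) {R : B →ₗ[F] B} (hR : IsRotaBaxter R) {N : ℕ}
    (hN : R ^ N ≠ 0) : ∃ S : A →ₗ[F] A, IsRotaBaxter S ∧ S ^ N ≠ 0 := by
  refine ⟨i ∘ₗ R ∘ₗ p, ?_, ?_⟩
  · intro x y
    simp only [LinearMap.comp_apply]
    rw [map_add p, h1, h2, ← hR, hi]
  · intro h
    apply hN
    apply LinearMap.ext
    intro u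
    have h3 : ∀ N : ℕ, ((i ∘ₗ R ∘ₗ p : A →ₗ[F] A) ^ N) (i u) = i ((R ^ N) u) := by
      intro N
      induction N with
      | zero => rfl
      | succ N ih =>
        rw [pow_succ', Module.End.mul_apply, ih, pow_succ', Module.End.mul_apply,
          LinearMap.comp_apply, LinearMap.comp_apply, hpi]
    have h4 := h3 N
    rw [h, LinearMap.zero_apply] at h4
    have h5 := congrArg p h4
    rw [map_zero, hpi] at h5
    rw [← h5, LinearMap.zero_apply]

end

section

variable {F : Type*} [Field F] [CharZero F] {m : Type*} [Fintype m] [DecidableEq m]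

/-- The identity map to the Jordan algebra as a linear equivalence. -/
def symL : Matrix m m F ≃ₗ[F] (Matrix m m F)ˢʸᵐ where
  toFun := sym
  invFun := unsym
  left_inv := fun _ => rfl
  right_inv := fun _ => rfl
  map_add' := fun _ _ => rfl
  map_smul' := fun _ _ => rfl

/-- Rota-Baxter operators on a Jordan subalgebra `H` which has a complement stable under
multiplication by `H` extend to operators on the matrix algebra. -/
theorem extend (H : NonUnitalSubalgebra F (Matrix m m F)ˢʸᵐ)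
    (p : Matrix m m F →ₗ[F] H) (hp : ∀ u : H, p (unsym u.1) = u)
    (h1 : ∀ (u : H) (y : Matrix m m F), p ((2⁻¹ : F) • (unsym u.1 * y + y * unsym u.1)) = u * p y)
    (R : H →ₗ[F] H) (hR : IsRotaBaxter R) :
    ∃ S : Matrix m m F →ₗ[F] Matrix m m F, JRB S ∧ (∀ x, ∃ u : H, S x = unsym u.1) ∧
      ∀ N : ℕ, S ^ N = 0 → R ^ N = 0 := by
  have hcomm : ∀ u v : H, u * v = v * u := by
    intro u v
    apply Subtype.ext
    exact SymAlg.mul_comm _ _
  refine ⟨symL.symm.toLinearMap ∘ₗ H.toSubmodule.subtype ∘ₗ R ∘ₗ p, ?_, ?_, ?_⟩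
  · intro x y
    change jp (unsym (R (p x)).1) (unsym (R (p y)).1) =
      unsym (R (p (jp (unsym (R (p x)).1) y + jp x (unsym (R (p y)).1)))).1
    have h3 : ∀ (u : H) (y : Matrix m m F), p (jp (unsym u.1) y) = (2 : F) • (u * p y) := by
      intro u y
      rw [← h1, ← map_smul, smul_smul, mul_inv_cancel₀ two_ne_zero, one_smul]
      rfl
    have h4 : jp x (unsym (R (p y)).1) = jp (unsym (R (p y)).1) x := jp_comm _ _
    rw [map_add p, h4, h3, h3, hcomm (R (p y)) (p x), ← smul_add, map_smul, ← hR]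
    change _ = (2 : F) • unsym ((R (p x)).1 * (R (p y)).1)
    rw [unsym_mul_eq, smul_smul, mul_inv_cancel₀ two_ne_zero, one_smul]
    rfl
  · intro x
    exact ⟨R (p x), rfl⟩
  · intro N hN
    have h3 : ∀ (N : ℕ) (u : H), ((symL.symm.toLinearMap ∘ₗ H.toSubmodule.subtype ∘ₗ R ∘ₗ p :
        Matrix m m F →ₗ[F] Matrix m m F) ^ N) (unsym u.1) = unsym ((R ^ N) u).1 := by
      intro N u
      induction N with
      | zero => rfl
      | succ N ih =>
        rw [pow_succ', Module.End.mul_apply, ih, pow_succ', Module.End.mul_apply]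
        change unsym (R (p (unsym ((R ^ N) u).1))).1 = _
        rw [hp]
    apply LinearMap.ext
    intro u
    have h4 := h3 N u
    rw [hN, LinearMap.zero_apply] at h4
    apply Subtype.ext
    rw [LinearMap.zero_apply]
    exact h4.symm

end

section

variable {F : Type*} [Field F] [CharZero F]

theorem upper_MPlus (n : ℕ) (hn : 0 < n) (R : MPlus n F →ₗ[F] MPlus n F) (hR : IsRotaBaxter R) :
    R ^ (2 * n - 1) = 0 := by
  let S : Matrix (Fin n) (Fin n) F →ₗ[F] Matrix (Fin n) (Fin n) F :=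
    symL.symm.toLinearMap ∘ₗ R ∘ₗ symL.toLinearMap
  have hS : ∀ x, S x = unsym (R (sym x)) := fun _ => rfl
  have hJ : JRB S := by
    intro x y
    have h1 := congrArg unsym (hR (sym x) (sym y))
    rw [unsym_mul_eq] at h1
    have h2 : (R (sym x) * sym y + sym x * R (sym y)) =
        sym ((2⁻¹ : F) • (jp (S x) y + jp x (S y))) := by
      apply unsym_injective
      rw [unsym_add, unsym_mul_eq, unsym_mul_eq, ← smul_add]
      rfl
    rw [h2, sym_smul, map_smul, unsym_smul, ← hS] at h1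
    have h3 := smul_right_injective (Matrix (Fin n) (Fin n) F)
      (inv_ne_zero (two_ne_zero (α := F))) h1
    exact h3
  have h1 := upper_matrix (by rw [Fintype.card_fin]; exact hn) hJ
  rw [Fintype.card_fin] at h1
  have h3 : ∀ (N : ℕ) (u : MPlus n F), (S ^ N) (unsym u) = unsym ((R ^ N) u) := by
    intro N u
    induction N with
    | zero => rfl
    | succ N ih =>
      rw [pow_succ', Module.End.mul_apply, ih, pow_succ', Module.End.mul_apply, hS]
      rfl
  apply LinearMap.ext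
  intro u
  have h4 := h3 (2 * n - 1) u
  rw [h1, LinearMap.zero_apply] at h4
  apply unsym_injective
  rw [LinearMap.zero_apply]
  exact h4.symm

theorem lower_MPlus (m : ℕ) : ∃ R : MPlus (m + 1) F →ₗ[F] MPlus (m + 1) F,
    IsRotaBaxter R ∧ R ^ (2 * m) ≠ 0 := by
  let S : MPlus (m + 1) F →ₗ[F] MPlus (m + 1) F := symL.toLinearMap ∘ₗ RR F m ∘ₗ symL.symm.toLinearMap
  have hS : ∀ x, S x = sym (RR F m (unsym x)) := fun _ => rfl
  refine ⟨S, ?_, ?_⟩
  · intro x y
    apply unsym_injective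
    rw [unsym_mul_eq, hS x, hS y, hS, unsym_sym, unsym_sym, unsym_sym, unsym_add, unsym_mul_eq,
      unsym_mul_eq, unsym_sym, unsym_sym, RR_rb, RR_rb (unsym y), ← smul_add, map_smul]
    congr 1
    rw [← map_add]
    congr 1
    abel
  · intro h
    apply RR_pow_ne (F := F) (m := m)
    have h3 : ∀ (N : ℕ) (u : MPlus (m + 1) F), unsym ((S ^ N) u) = ((RR F m) ^ N) (unsym u) := by
      intro N u
      induction N with
      | zero => rfl
      | succ N ih =>
        rw [pow_succ', Module.End.mul_apply, hS, unsym_sym, ih, pow_succ', Module.End.mul_apply]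
    apply LinearMap.ext
    intro u
    have h4 := h3 (2 * m) (sym u)
    rw [h, LinearMap.zero_apply, unsym_zero, unsym_sym] at h4
    rw [← h4, LinearMap.zero_apply]

/-- `rb(M_n(F)^+) = 2n - 1`. -/
theorem rb_MPlus (n : ℕ) (hn : 0 < n) : HasRBIndex F (MPlus n F) (2 * n - 1) := by
  constructor
  · intro R hR
    exact upper_MPlus n hn R hR
  · intro N hN
    by_contra hcon
    obtain ⟨m, rfl⟩ : ∃ m, n = m + 1 := ⟨n - 1, by omega⟩
    obtain ⟨R, hR, hne⟩ := lower_MPlus (F := F) m
    apply hne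
    exact pow_eq_zero_of_le (by omega) (hN R hR)

end

section

variable {F : Type*} [Field F] [CharZero F] {n : ℕ}

omit [CharZero F] in
theorem sympInv_add (x y : Matrix (Fin n ⊕ Fin n) (Fin n ⊕ Fin n) F) :
    sympInv n F (x + y) = sympInv n F x + sympInv n F y := by
  unfold sympInv
  rw [transpose_add, Matrix.mul_add, Matrix.add_mul, neg_add]

omit [CharZero F] in
theorem sympInv_smul (c : F) (x : Matrix (Fin n ⊕ Fin n) (Fin n ⊕ Fin n) F) :
    sympInv n F (c • x) = c • sympInv n F x := by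
  unfold sympInv
  rw [transpose_smul, Matrix.mul_smul, Matrix.smul_mul, smul_neg]

omit [CharZero F] in
theorem sympInv_mul (x y : Matrix (Fin n ⊕ Fin n) (Fin n ⊕ Fin n) F) :
    sympInv n F (x * y) = sympInv n F y * sympInv n F x := by
  unfold sympInv
  have h1 : J (Fin n) F * yᵀ * J (Fin n) F * (J (Fin n) F * xᵀ * J (Fin n) F) =
      J (Fin n) F * yᵀ * (J (Fin n) F * J (Fin n) F) * xᵀ * J (Fin n) F := by
    simp only [Matrix.mul_assoc]
  rw [transpose_mul, neg_mul_neg, h1, J_squared, Matrix.mul_neg, Matrix.mul_one, Matrix.neg_mul,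
    Matrix.neg_mul]
  simp only [Matrix.mul_assoc]

omit [CharZero F] in
theorem sympInv_sympInv (x : Matrix (Fin n ⊕ Fin n) (Fin n ⊕ Fin n) F) :
    sympInv n F (sympInv n F x) = x := by
  unfold sympInv
  rw [transpose_neg, transpose_mul, transpose_mul, J_transpose, transpose_transpose]
  have h1 : J (Fin n) F * -(-J (Fin n) F * (x * -J (Fin n) F)) * J (Fin n) F =
      -((J (Fin n) F * J (Fin n) F) * x * (J (Fin n) F * J (Fin n) F)) := by
    noncomm_ring
  rw [h1, J_squared, neg_neg, Matrix.neg_mul, Matrix.one_mul, neg_mul_neg, Matrix.mul_one]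

/-- The projection to the symmetric elements. -/
noncomputable def projSymp (n : ℕ) (F : Type*) [Field F] [CharZero F] :
    Matrix (Fin n ⊕ Fin n) (Fin n ⊕ Fin n) F →ₗ[F] HSymp n F where
  toFun x := ⟨sym ((2⁻¹ : F) • (x + sympInv n F x)), by
    change sympInv n F ((2⁻¹ : F) • (x + sympInv n F x)) = (2⁻¹ : F) • (x + sympInv n F x)
    rw [sympInv_smul, sympInv_add, sympInv_sympInv, add_comm]⟩
  map_add' x y := by
    apply Subtype.ext
    change (2⁻¹ : F) • (x + y + sympInv n F (x + y)) =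
      (2⁻¹ : F) • (x + sympInv n F x) + (2⁻¹ : F) • (y + sympInv n F y)
    rw [sympInv_add]
    module
  map_smul' c x := by
    apply Subtype.ext
    change (2⁻¹ : F) • (c • x + sympInv n F (c • x)) =
      c • ((2⁻¹ : F) • (x + sympInv n F x))
    rw [sympInv_smul]
    module

theorem upper_HSymp (hn : 0 < n) (R : HSymp n F →ₗ[F] HSymp n F) (hR : IsRotaBaxter R) :
    R ^ (2 * n - 1) = 0 := by
  have hfix : ∀ u : HSymp n F, sympInv n F (unsym u.1) = unsym u.1 := fun u => u.2
  have hp : ∀ u : HSymp n F, projSymp n F (unsym u.1) = u := by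
    intro u
    apply Subtype.ext
    change (2⁻¹ : F) • (unsym u.1 + sympInv n F (unsym u.1)) = unsym u.1
    rw [hfix, ← two_smul F, smul_smul, inv_mul_cancel₀ two_ne_zero, one_smul]
  have h1 : ∀ (u : HSymp n F) (y : Matrix (Fin n ⊕ Fin n) (Fin n ⊕ Fin n) F),
      projSymp n F ((2⁻¹ : F) • (unsym u.1 * y + y * unsym u.1)) = u * projSymp n F y := by
    intro u y
    apply Subtype.ext
    apply unsym_injective
    change (2⁻¹ : F) • ((2⁻¹ : F) • (unsym u.1 * y + y * unsym u.1) +
      sympInv n F ((2⁻¹ : F) • (unsym u.1 * y + y * unsym u.1))) =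
      unsym (u.1 * (projSymp n F y).1)
    rw [unsym_mul_eq, sympInv_smul, sympInv_add, sympInv_mul, sympInv_mul, hfix]
    change _ = (2⁻¹ : F) • (unsym u.1 * ((2⁻¹ : F) • (y + sympInv n F y)) +
      ((2⁻¹ : F) • (y + sympInv n F y)) * unsym u.1)
    rw [Matrix.mul_smul, Matrix.smul_mul, Matrix.mul_add, Matrix.add_mul]
    module
  obtain ⟨S, hS, hSu, hN⟩ := extend (HSymp n F) (projSymp n F) hp h1 R hR
  apply hN
  have h2 := upper_sympl (n := Fin n) (by rw [Fintype.card_fin]; exact hn) hS ?_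
  · rw [Fintype.card_fin] at h2
    exact h2
  · intro x
    obtain ⟨u, hu⟩ := hSu x
    rw [hu]
    exact (sympInv_eq_iff _).1 (hfix u)

/-- The embedding of `M_n(F)^+`. -/
noncomputable def embSymp (n : ℕ) (F : Type*) [Field F] [CharZero F] :
    MPlus n F →ₗ[F] HSymp n F where
  toFun x := ⟨sym (fromBlocks (unsym x) 0 0 (unsym x)ᵀ), by
    change sympInv n F (fromBlocks (unsym x) 0 0 (unsym x)ᵀ) = fromBlocks (unsym x) 0 0 (unsym x)ᵀ
    rw [sympInv_eq_iff, J, fromBlocks_transpose, fromBlocks_multiply, fromBlocks_multiply]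
    simp⟩
  map_add' x y := by
    apply Subtype.ext
    change fromBlocks (unsym x + unsym y) 0 0 (unsym x + unsym y)ᵀ =
      fromBlocks (unsym x) 0 0 (unsym x)ᵀ + fromBlocks (unsym y) 0 0 (unsym y)ᵀ
    rw [fromBlocks_add, transpose_add, add_zero]
  map_smul' c x := by
    apply Subtype.ext
    change fromBlocks (c • unsym x) 0 0 (c • unsym x)ᵀ =
      c • fromBlocks (unsym x) 0 0 (unsym x)ᵀ
    rw [fromBlocks_smul, transpose_smul, smul_zero]

theorem lower_HSymp (m : ℕ) : ∃ R : HSymp (m + 1) F →ₗ[F] HSymp (m + 1) F,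
    IsRotaBaxter R ∧ R ^ (2 * m) ≠ 0 := by
  obtain ⟨R, hR, hne⟩ := lower_MPlus (F := F) m
  let p : HSymp (m + 1) F →ₗ[F] MPlus (m + 1) F :=
    { toFun := fun x => sym ((unsym x.1).toBlocks₁₁)
      map_add' := fun _ _ => rfl
      map_smul' := fun _ _ => rfl }
  have hp : ∀ x, unsym (p x) = (unsym x.1).toBlocks₁₁ := fun _ => rfl
  have hi : ∀ x, unsym (embSymp (m + 1) F x).1 = fromBlocks (unsym x) 0 0 (unsym x)ᵀ :=
    fun _ => rfl
  have hb : ∀ (u : Matrix (Fin (m + 1)) (Fin (m + 1)) F)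
      (y : Matrix (Fin (m + 1) ⊕ Fin (m + 1)) (Fin (m + 1) ⊕ Fin (m + 1)) F),
      (fromBlocks u 0 0 uᵀ * y).toBlocks₁₁ = u * y.toBlocks₁₁ := by
    intro u y
    conv_lhs => rw [← fromBlocks_toBlocks y, fromBlocks_multiply]
    rw [toBlocks_fromBlocks₁₁, Matrix.zero_mul, add_zero]
  have hb' : ∀ (u : Matrix (Fin (m + 1)) (Fin (m + 1)) F)
      (y : Matrix (Fin (m + 1) ⊕ Fin (m + 1)) (Fin (m + 1) ⊕ Fin (m + 1)) F),
      (y * fromBlocks u 0 0 uᵀ).toBlocks₁₁ = y.toBlocks₁₁ * u := by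
    intro u y
    conv_lhs => rw [← fromBlocks_toBlocks y, fromBlocks_multiply]
    rw [toBlocks_fromBlocks₁₁, Matrix.mul_zero, add_zero]
  have hadd : ∀ (x y : Matrix (Fin (m + 1) ⊕ Fin (m + 1)) (Fin (m + 1) ⊕ Fin (m + 1)) F),
      (x + y).toBlocks₁₁ = x.toBlocks₁₁ + y.toBlocks₁₁ := fun _ _ => rfl
  have hsm : ∀ (c : F) (x : Matrix (Fin (m + 1) ⊕ Fin (m + 1)) (Fin (m + 1) ⊕ Fin (m + 1)) F),
      (c • x).toBlocks₁₁ = c • x.toBlocks₁₁ := fun _ _ => rfl
  refine transport (embSymp (m + 1) F) p ?_ ?_ ?_ ?_ hR hne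
  · intro u
    apply unsym_injective
    rw [hp, hi, toBlocks_fromBlocks₁₁]
  · intro u v
    apply Subtype.ext
    apply unsym_injective
    change fromBlocks (unsym (u * v)) 0 0 (unsym (u * v))ᵀ =
      unsym ((embSymp (m + 1) F u).1 * (embSymp (m + 1) F v).1)
    rw [unsym_mul_eq, unsym_mul_eq, hi, hi, fromBlocks_multiply, fromBlocks_multiply,
      fromBlocks_add, fromBlocks_smul, transpose_smul, transpose_add, transpose_mul,
      transpose_mul]
    simp [add_comm]
  · intro u y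
    apply unsym_injective
    rw [hp]
    change (unsym ((embSymp (m + 1) F u).1 * y.1)).toBlocks₁₁ = unsym (u * p y)
    rw [unsym_mul_eq, unsym_mul_eq, hi, hp, hsm, hadd, hb, hb']
  · intro u y
    apply unsym_injective
    rw [hp]
    change (unsym (y.1 * (embSymp (m + 1) F u).1)).toBlocks₁₁ = unsym (p y * u)
    rw [unsym_mul_eq, unsym_mul_eq, hi, hp, hsm, hadd, hb, hb']

/-- `rb(H_n(Q)) = 2n - 1`. -/
theorem rb_HSymp (n : ℕ) (hn : 0 < n) : HasRBIndex F (HSymp n F) (2 * n - 1) := by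
  constructor
  · intro R hR
    exact upper_HSymp hn R hR
  · intro N hN
    by_contra hcon
    obtain ⟨m, rfl⟩ : ∃ m, n = m + 1 := ⟨n - 1, by omega⟩
    obtain ⟨R, hR, hne⟩ := lower_HSymp (F := F) m
    apply hne
    exact pow_eq_zero_of_le (by omega) (hN R hR)

end

end Pool.Agent.MP_f4742e_al
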