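import Mathlib

/-!
Symmetric matrices of square zero: rank one, or rank at least two with a pair of isotropic
vectors.
-/

set_option autoImplicit false

namespace Pool.Agent.MP_f4742e_al.H67

open Matrix

section

variable {F : Type*} [Field F] [CharZero F] [IsAlgClosed F] {n : Type*} [Fintype n]
  [DecidableEq n]

omit [CharZero F] [IsAlgClosed F] [DecidableEq n] in
theorem dot_symm {a : Matrix n n F} (hs : aᵀ = a) (x y : n → F) :
    x ⬝ᵥ (a *ᵥ y) = y ⬝ᵥ (a *ᵥ x) := by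
  rw [dotProduct_mulVec, ← mulVec_transpose, hs, dotProduct_comm]

omit [CharZero F] [IsAlgClosed F] in
theorem eq_zero_of_dot {a : Matrix n n F} {y : n → F} (h : ∀ x, x ⬝ᵥ (a *ᵥ y) = 0) :
    a *ᵥ y = 0 := by
  funext i
  have := h (Pi.single i 1)
  rwa [single_one_dotProduct] at this

omit [CharZero F] in
theorem exists_scale {c d : F} (hc : c ≠ 0) : ∃ t : F, t * t * c = d := by
  obtain ⟨t, ht⟩ := IsAlgClosed.exists_pow_nat_eq (d / c) (n := 2) (by norm_num)
  refine ⟨t, ?_⟩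
  rw [← pow_two, ht, div_mul_cancel₀ _ hc]

/-- The trichotomy for symmetric matrices. -/
theorem sym_cases {a : Matrix n n F} (hs : aᵀ = a) : a = 0 ∨ (∃ f : n → F, a = vecMulVec f f) ∨
    ∃ f1 f2 : n → F, f1 ⬝ᵥ (a *ᵥ f1) = 0 ∧ f2 ⬝ᵥ (a *ᵥ f2) = 0 ∧ f1 ⬝ᵥ (a *ᵥ f2) = 1 := by
  by_cases h1 : ∀ x : n → F, x ⬝ᵥ (a *ᵥ x) = 0
  · left
    have h2 : ∀ y : n → F, a *ᵥ y = 0 := by
      intro y
      apply eq_zero_of_dot
      intro x
      have h3 := h1 (x + y)
      rw [mulVec_add, add_dotProduct, dotProduct_add, dotProduct_add, h1 x, h1 y,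
        dot_symm hs y x] at h3
      have h4 : 2 * (x ⬝ᵥ (a *ᵥ y)) = 0 := by linear_combination h3
      exact (mul_eq_zero.1 h4).resolve_left two_ne_zero
    ext i j
    have := congrFun (h2 (Pi.single j 1)) i
    rw [mulVec_single_one] at this
    exact this
  · right
    push Not at h1
    obtain ⟨x', hx'⟩ := h1
    obtain ⟨t, ht⟩ := exists_scale (d := (1 : F)) hx'
    obtain ⟨x, hx⟩ : ∃ x, x = t • x' := ⟨_, rfl⟩
    have hxx : x ⬝ᵥ (a *ᵥ x) = 1 := by
      rw [hx, mulVec_smul, smul_dotProduct, dotProduct_smul, smul_eq_mul, smul_eq_mul, ← ht]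
      ring
    by_cases h2 : ∀ y : n → F, x ⬝ᵥ (a *ᵥ y) = 0 → y ⬝ᵥ (a *ᵥ y) = 0
    · left
      refine ⟨a *ᵥ x, ?_⟩
      have h3 : ∀ y : n → F, x ⬝ᵥ (a *ᵥ y) = 0 → a *ᵥ y = 0 := by
        intro y hy
        apply eq_zero_of_dot
        intro w
        obtain ⟨w', hw'⟩ : ∃ w', w' = w - (x ⬝ᵥ (a *ᵥ w)) • x := ⟨_, rfl⟩
        have h4 : x ⬝ᵥ (a *ᵥ w') = 0 := by
          rw [hw', mulVec_sub, dotProduct_sub, mulVec_smul, dotProduct_smul, hxx, smul_eq_mul,
            mul_one, sub_self]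
        have h5 := h2 (w' + y) (by rw [mulVec_add, dotProduct_add, h4, hy, add_zero])
        rw [mulVec_add, add_dotProduct, dotProduct_add, dotProduct_add, h2 _ h4, h2 _ hy,
          dot_symm hs y w'] at h5
        have h6 : 2 * (w' ⬝ᵥ (a *ᵥ y)) = 0 := by linear_combination h5
        have h7 := (mul_eq_zero.1 h6).resolve_left two_ne_zero
        rw [hw', sub_dotProduct, smul_dotProduct, hy, smul_zero, sub_zero] at h7
        exact h7
      have h4 : ∀ w : n → F, a *ᵥ w = (x ⬝ᵥ (a *ᵥ w)) • (a *ᵥ x) := by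
        intro w
        have h5 := h3 (w - (x ⬝ᵥ (a *ᵥ w)) • x) (by
          rw [mulVec_sub, dotProduct_sub, mulVec_smul, dotProduct_smul, hxx, smul_eq_mul,
            mul_one, sub_self])
        rw [mulVec_sub, mulVec_smul, sub_eq_zero] at h5
        exact h5
      ext i j
      have h5 := congrFun (h4 (Pi.single j 1)) i
      have h6 : x ⬝ᵥ (a *ᵥ Pi.single j 1) = (a *ᵥ x) j := by
        rw [dot_symm hs, single_one_dotProduct]
      rw [h6, mulVec_single_one] at h5
      rw [vecMulVec_apply]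
      change a i j = (a *ᵥ x) j * (a *ᵥ x) i at h5
      rw [h5, mul_comm]
    · right
      push Not at h2
      obtain ⟨y', hy1, hy2⟩ := h2
      obtain ⟨t, ht⟩ := exists_scale (d := (-1 : F)) hy2
      obtain ⟨y, hy⟩ : ∃ y, y = t • y' := ⟨_, rfl⟩
      have hyy : y ⬝ᵥ (a *ᵥ y) = -1 := by
        rw [hy, mulVec_smul, smul_dotProduct, dotProduct_smul, smul_eq_mul, smul_eq_mul, ← ht]
        ring
      have hxy : x ⬝ᵥ (a *ᵥ y) = 0 := by
        rw [hy, mulVec_smul, dotProduct_smul, hy1, smul_zero]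
      have hyx : y ⬝ᵥ (a *ᵥ x) = 0 := by
        rw [dot_symm hs, hxy]
      refine ⟨(2 : F)⁻¹ • (x + y), x - y, ?_, ?_, ?_⟩
      · rw [mulVec_smul, smul_dotProduct, dotProduct_smul, mulVec_add, add_dotProduct,
          dotProduct_add, dotProduct_add, hxx, hyy, hxy, hyx]
        simp
      · rw [mulVec_sub, sub_dotProduct, dotProduct_sub, dotProduct_sub, hxx, hyy, hxy, hyx]
        simp
      · rw [smul_dotProduct, mulVec_sub, add_dotProduct, dotProduct_sub, dotProduct_sub, hxx, hyy,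
          hxy, hyx, smul_eq_mul]
        norm_num

end

end Pool.Agent.MP_f4742e_al.H67
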