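import Pool.Agent.Lib.MP_f4742e_al.H67FiveY

/-!
Rota-Baxter operators of weight zero on the self-adjoint `5 × 5` matrices in an adapted basis:
the case where the restriction to the top elements does not vanish.
-/

set_option autoImplicit false
set_option linter.unusedSectionVars false
set_option linter.unusedSimpArgs false

namespace Pool.Agent.MP_f4742e_al.H67

open Pool.Agent.MP_f4742e_al Matrix

section

variable {F : Type*} [Field F] [CharZero F]
  {R : Matrix (Fin 5) (Fin 5) F →ₗ[F] Matrix (Fin 5) (Fin 5) F}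

/-- The diagonal entry vanishes. -/
theorem Adapted.diag_zero (h : Adapted R) {Y x : Matrix (Fin 5) (Fin 5) F} (hY : Y = R (R x))
    (hq : Y 1 0 = 0) : Y 0 0 = 0 := by
  obtain ⟨h1, h2, h3, h4, h5⟩ := h.upper hY
  have hd := h.diag_eq hY
  have hs : SA Y := by
    rw [hY]
    exact h.im _
  obtain ⟨w, hw⟩ := sq_mem2 h.rb x
  rw [← hY] at hw
  have h6 : (2 * Y 0 0) • Y - Y * Y = R (R ((2 * Y 0 0) • x - w)) := by
    rw [map_sub, map_sub, map_smul, map_smul, ← hY, hw]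
  have h7 := h.R_Y_eq h6
  have e01 : ((2 * Y 0 0) • Y - Y * Y) 0 1 = 0 := by
    simp [mul_apply, Fin.sum_univ_five, h1, h2, h3, h4, h5, hd, hs.e40]
    ring
  have e10 : ((2 * Y 0 0) • Y - Y * Y) 1 0 = 0 := by
    simp [mul_apply, Fin.sum_univ_five, h1, h2, h3, h4, h5, hd, hs.e40, hq]
  have e00 : ((2 * Y 0 0) • Y - Y * Y) 0 0 = Y 0 0 * Y 0 0 := by
    simp [mul_apply, Fin.sum_univ_five, h1, h2, h3, h4, h5, hd, hs.e40, hq]
    ring
  rw [e01, e10, e00, zero_smul, zero_smul, zero_add, add_zero, ← h.one] at h7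
  exact mul_self_eq_zero.1 (h.not_scalar h6 _ h7)

section

variable (h : Adapted R) (h03 : R (single 0 3 1) = 0) {α : F} (hα : α ≠ 0)
  (h14 : R (single 1 4 1) = α • single 0 3 1)

include h h03 h14

theorem Adapted.al1 (X : Matrix (Fin 5) (Fin 5) F) :
    R X 4 1 = α * X 3 0 ∧ R X 3 1 = 0 ∧ R X 3 0 = 0 := by
  have h1 := h.RU_entries X
  rw [h03, h14] at h1
  simp at h1
  refine ⟨?_, h1.2.1, h1.2.2⟩
  rw [h1.1]
  ring

theorem Adapted.al2 (X : Matrix (Fin 5) (Fin 5) F) :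
    R X 2 0 = 0 ∧ R X 1 0 * R X 4 1 = 0 ∧
      R X 2 1 ^ 2 = 2 * α * X 3 0 * (R X 0 0 - R X 1 1) + α * R X 1 0 * (X 4 0 + X 3 1) := by
  have hs := h.im X
  obtain ⟨e1, e2, e3⟩ := h.al1 h03 h14 X
  obtain ⟨f1, f2, f3⟩ := h.al1 h03 h14 (jp (R X) X)
  rw [← sq_mem h.rb] at f1 f2 f3
  rw [mul_apply, Fin.sum_univ_five] at f1 f2 f3
  unfold jp at f1
  rw [Matrix.add_apply, mul_apply, mul_apply, Fin.sum_univ_five, Fin.sum_univ_five] at f1
  rw [hs.e32, hs.e34, hs.e40, e2, e3] at f3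
  have h20 : R X 2 0 = 0 := by
    have : R X 2 0 * R X 2 0 = 0 := by linear_combination f3
    exact mul_self_eq_zero.1 this
  rw [hs.e34, hs.e32, h20, e2, e3] at f2
  rw [hs.e40, hs.e42, hs.e44, hs.e43, e1, e2, e3, hs.e32, hs.e33, hs.e34, h20] at f1
  refine ⟨h20, ?_, ?_⟩
  · linear_combination f2
  · linear_combination f1

include hα

theorem Adapted.al3 (X : Matrix (Fin 5) (Fin 5) F) : R X 1 0 = 0 := by
  have key : ∀ Z : Matrix (Fin 5) (Fin 5) F, Z 3 0 = 1 → R Z 1 0 = 0 := by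
    intro Z hZ
    have h1 := (h.al2 h03 h14 Z).2.1
    rw [(h.al1 h03 h14 Z).1, hZ, mul_one] at h1
    exact (mul_eq_zero.1 h1).resolve_right hα
  have h1 := key (single 3 0 1) (by simp)
  have h2 := key (X + (1 - X 3 0) • single 3 0 1) (by simp)
  rw [map_add, map_smul, Matrix.add_apply, Matrix.smul_apply, h1, smul_zero, add_zero] at h2
  exact h2

theorem Adapted.al4 (X : Matrix (Fin 5) (Fin 5) F) :
    R X 2 1 ^ 2 = 2 * α * X 3 0 * (R X 0 0 - R X 1 1) := by
  rw [(h.al2 h03 h14 X).2.2, h.al3 h03 hα h14 X]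
  ring

/-- The entry `(2, 1)`. -/
theorem Adapted.al5 (X : Matrix (Fin 5) (Fin 5) F) :
    R X 2 1 = X 3 0 * R (single 3 0 1) 2 1 := by
  have key : ∀ Z : Matrix (Fin 5) (Fin 5) F, Z 3 0 = 0 → R Z 2 1 = 0 := by
    intro Z hZ
    have h1 := h.al4 h03 hα h14 Z
    rw [hZ, mul_zero, zero_mul] at h1
    exact pow_eq_zero_iff (two_ne_zero) |>.1 h1
  have h2 := key (X - X 3 0 • single 3 0 1) (by simp)
  rw [map_sub, map_smul, Matrix.sub_apply, Matrix.smul_apply, smul_eq_mul] at h2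
  linear_combination h2

/-- The difference of the diagonal entries. -/
theorem Adapted.al6 (X : Matrix (Fin 5) (Fin 5) F) :
    2 * α * (R X 0 0 - R X 1 1) = X 3 0 * R (single 3 0 1) 2 1 ^ 2 := by
  have key : ∀ Z : Matrix (Fin 5) (Fin 5) F, Z 3 0 = 1 →
      2 * α * (R Z 0 0 - R Z 1 1) = R (single 3 0 1) 2 1 ^ 2 := by
    intro Z hZ
    have h1 := h.al4 h03 hα h14 Z
    rw [h.al5 h03 hα h14 Z, hZ] at h1
    linear_combination -h1
  have h1 := key (single 3 0 1) (by simp)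
  have h2 := key (X + (1 - X 3 0) • single 3 0 1) (by simp)
  rw [map_add, map_smul, Matrix.add_apply, Matrix.smul_apply, Matrix.add_apply,
    Matrix.smul_apply, smul_eq_mul, smul_eq_mul] at h2
  linear_combination h2 - (1 - X 3 0) * h1

/-- The relation of `E_14` with `X`. -/
theorem Adapted.al7 (X : Matrix (Fin 5) (Fin 5) F) :
    (X 3 0 * R (single 3 0 1) 2 1 ^ 2) • (single 0 3 1 : Matrix (Fin 5) (Fin 5) F) =
      (2 * α * X 3 0) • (R (single 0 0 1) + R (single 1 1 1)) +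
      (α * (X 3 1 + X 4 0)) • R (single 0 1 1) + (α * (X 3 2 + X 2 0)) • R (single 0 2 1) +
      (2 * X 3 0 * R (single 3 0 1) 2 1) • R (single 1 2 1) := by
  have hs := h.im X
  obtain ⟨e1, e2, e3⟩ := h.al1 h03 h14 X
  have e4 := (h.al2 h03 h14 X).1
  have e5 := h.al3 h03 hα h14 X
  have e6 := h.al5 h03 hα h14 X
  have e7 := h.al6 h03 hα h14 X
  have h1 := h.rb (single 1 4 1) X
  rw [h14, map_add] at h1
  unfold jp at h1
  rw [smul_mul_assoc, mul_smul_comm, smul_mul_assoc, mul_smul_comm, map_add, map_smul, map_smul,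
    map_add, R_mul_single, R_single_mul, R_mul_single, R_single_mul, mul_single_sum,
    single_mul_sum] at h1
  simp only [Fin.sum_univ_five, hs.e33, hs.e34, hs.e32, hs.e40, hs.e42, hs.e43, hs.e44,
    e1, e2, e3, e4, e5, h03, h.R04, h14, h.R13, h.R43, h.R23, h.R33, h.R24, h.R44,
    zero_smul, smul_zero, add_zero, zero_add] at h1
  rw [e6] at h1
  rw [← e7]
  linear_combination (norm := module) h1

theorem Adapted.al8 : R (single 0 1 1) = 0 := by
  have h1 := h.al7 h03 hα h14 (single 3 1 1)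
  simp at h1
  exact (smul_eq_zero.1 h1.symm).resolve_left hα

theorem Adapted.al9 : R (single 0 2 1) = 0 := by
  have h1 := h.al7 h03 hα h14 (single 3 2 1)
  simp at h1
  exact (smul_eq_zero.1 h1.symm).resolve_left hα

theorem Adapted.al10 : (2 * α) • (R (single 0 0 1) + R (single 1 1 1)) +
    (2 * R (single 3 0 1) 2 1) • R (single 1 2 1) =
      (R (single 3 0 1) 2 1 ^ 2) • (single 0 3 1 : Matrix (Fin 5) (Fin 5) F) := by
  have h1 := h.al7 h03 hα h14 (single 3 0 1)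
  simp only [single_apply_same, one_mul, mul_one] at h1
  rw [h1]
  have e1 : (single 3 0 1 : Matrix (Fin 5) (Fin 5) F) 3 1 = 0 := by simp
  have e2 : (single 3 0 1 : Matrix (Fin 5) (Fin 5) F) 4 0 = 0 := by simp
  have e3 : (single 3 0 1 : Matrix (Fin 5) (Fin 5) F) 3 2 = 0 := by simp
  have e4 : (single 3 0 1 : Matrix (Fin 5) (Fin 5) F) 2 0 = 0 := by simp
  rw [e1, e2, e3, e4]
  module

/-- The case of nonzero `α` is impossible if the cube of `R` does not vanish. -/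
theorem Adapted.al_false {Y x : Matrix (Fin 5) (Fin 5) F} (hY : Y = R (R x))
    (hq : Y 1 0 = 0) (hp : Y 0 1 ≠ 0) : False := by
  have hs : SA Y := by
    rw [hY]
    exact h.im _
  obtain ⟨h1, h2, h3, h4, h5⟩ := h.upper hY
  have hy := h.diag_zero hY hq
  have hd := h.diag_eq hY
  rw [hy] at hd
  have r01 := h.al8 h03 hα h14
  have r02 := h.al9 h03 hα h14
  have r00 := h.al10 h03 hα h14
  obtain ⟨κ, hκ⟩ : ∃ κ, κ = R (single 3 0 1) 2 1 := ⟨_, rfl⟩
  rw [← hκ] at r00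
  obtain ⟨w2, hw2⟩ : ∃ w2, w2 = R (single 1 2 1) := ⟨_, rfl⟩
  rw [← hw2] at r00
  -- the image of `1`
  have q0 : R (single 2 2 1) = single 0 4 1 + single 1 3 1 -
      (2 : F) • (R (single 0 0 1) + R (single 1 1 1)) := by
    have h6 := R_sum R 1
    simp only [Fin.sum_univ_five] at h6
    simp [h.R33, h.R44] at h6
    rw [h.one] at h6
    rw [h6]
    module
  -- the image of `Y`
  have i1 := h.R_Y_eq hY
  have i2 := R_sum R Y
  simp only [Fin.sum_univ_five, h1, h2, h3, h4, h5, hs.e33, hs.e44, hs.e34, hs.e43, hs.e32, hs.e42,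
    hs.e40, hs.e13, hs.e23, hs.e24, hy, hd, hq, h03, h14, h.R04, h.R13, r01, r02, h.R43, h.R23,
    h.R24, ← hw2, zero_smul, smul_zero, add_zero, zero_add] at i1 i2
  rw [i1] at i2
  -- the element with image zero
  have k1 : R ((2 * α ^ 2) • (single 0 0 1 + single 1 1 1) + (2 * α * κ) • single 1 2 1 -
      κ ^ 2 • single 1 4 1) = 0 := by
    rw [map_sub, map_add, map_smul, map_smul, map_smul, map_add, ← hw2, h14]
    linear_combination (norm := module) α • r00
  have k2 := ker_one h.rb k1 (R x)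
  rw [← hY] at k2
  have k3 : jp ((2 * α ^ 2) • (single 0 0 1 + single 1 1 1) + (2 * α * κ) • single 1 2 1 -
      κ ^ 2 • single 1 4 1) Y = (2 * α ^ 2) • (single 0 0 1 * Y) + (2 * α ^ 2) •
      (Y * single 0 0 1) + (2 * α ^ 2) • (single 1 1 1 * Y) + (2 * α ^ 2) • (Y * single 1 1 1) +
      (2 * α * κ) • (single 1 2 1 * Y) + (2 * α * κ) • (Y * single 1 2 1) -
      κ ^ 2 • (single 1 4 1 * Y) - κ ^ 2 • (Y * single 1 4 1) := by
    unfold jp
    simp only [Matrix.add_mul, Matrix.mul_add, Matrix.sub_mul, Matrix.mul_sub, smul_mul_assoc,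
      mul_smul_comm]
    module
  rw [k3] at k2
  simp only [map_add, map_sub, map_smul, R_mul_single, R_single_mul, Fin.sum_univ_five, h1, h2, h3,
    h4, h5, hs.e33, hs.e44, hs.e34, hs.e43, hs.e32, hs.e42,
    hs.e40, hs.e13, hs.e23, hs.e24, hy, hd, hq, h03, h14, h.R04, h.R13, r01, r02, h.R43, h.R23,
    h.R24, ← hw2, zero_smul, smul_zero, add_zero, zero_add] at k2
  have e1 : (α * Y 0 1) • (single 0 3 1 : Matrix (Fin 5) (Fin 5) F) =
      (-(α ^ 2 * Y 1 4) - 2 * α * κ * Y 1 2 - κ ^ 2 * Y 2 2) • single 0 3 1 +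
      (α * Y 2 2) • (single 0 4 1 + single 1 3 1) := by
    rw [q0] at i2
    have k4 : α • ((2 * α * Y 1 2 + 2 * κ * Y 2 2) • w2 +
        (2 * α ^ 2 * Y 1 4 + 2 * α * κ * Y 1 2) • (single 0 3 1 : Matrix (Fin 5) (Fin 5) F)) =
        0 := by
      linear_combination (norm := module) k2
    have k5 := (smul_eq_zero.1 k4).resolve_left hα
    linear_combination (norm := module) α • i2 - Y 2 2 • r00 + k5
  have e2 : Y 2 2 = 0 := by
    have := congrFun (congrFun e1 0) 4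
    simp at this
    exact this.resolve_left hα
  have e3 : α * Y 0 1 = -(α ^ 2 * Y 1 4) - 2 * α * κ * Y 1 2 - κ ^ 2 * Y 2 2 := by
    have := congrFun (congrFun e1 0) 3
    simpa using this
  -- the square
  obtain ⟨w, hw⟩ := sq_mem2 h.rb x
  rw [← hY] at hw
  have hs' : SA (Y * Y) := by
    rw [hw]
    exact h.im _
  obtain ⟨f1, f2, f3, f4, f5⟩ := h.upper hw
  have g00 : (Y * Y) 0 0 = 0 := by
    simp [mul_apply, Fin.sum_univ_five, h1, h2, h3, h4, h5, hd, hy, hq, hs.e40]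
  have g01 : (Y * Y) 0 1 = 0 := by
    simp [mul_apply, Fin.sum_univ_five, h1, h2, h3, h4, h5, hd, hy, hq, hs.e40]
  have g10 : (Y * Y) 1 0 = 0 := by
    simp [mul_apply, Fin.sum_univ_five, h1, h2, h3, h4, h5, hd, hy, hq, hs.e40]
  have g11 : (Y * Y) 1 1 = 0 := by
    simp [mul_apply, Fin.sum_univ_five, h1, h2, h3, h4, h5, hd, hy, hq, hs.e40]
  have g12 : (Y * Y) 1 2 = 0 := by
    simp [mul_apply, Fin.sum_univ_five, h1, h2, h3, h4, h5, hd, hy, hq, hs.e40, e2, hs.e32,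
      hs.e42]
  have g22 : (Y * Y) 2 2 = 0 := by
    simp [mul_apply, Fin.sum_univ_five, h1, h2, h3, h4, h5, hd, hy, hq, hs.e40, e2, hs.e32,
      hs.e42]
  have g14 : (Y * Y) 1 4 = Y 1 2 * Y 1 2 := by
    simp [mul_apply, Fin.sum_univ_five, h1, h2, h3, h4, h5, hd, hy, hq, hs.e40, e2, hs.e32,
      hs.e42, hs.e24, hs.e34, hs.e44]
  have i3 := h.R_Y_eq hw
  have i4 := R_sum R (Y * Y)
  simp only [Fin.sum_univ_five, f1, f2, f3, f4, f5, hs'.e33, hs'.e44, hs'.e34, hs'.e43, hs'.e32,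
    hs'.e42, hs'.e40, hs'.e13, hs'.e23, hs'.e24, g00, g01, g10, g11, g12, g22, h03, h14, h.R04,
    h.R13, r01, r02, h.R43, h.R23, zero_smul, smul_zero, add_zero, zero_add] at i3 i4
  rw [i3, g14] at i4
  have e4 : Y 1 2 = 0 := by
    have := congrFun (congrFun i4 0) 3
    simp [hα] at this
    exact this
  rw [e2, e4] at k2 e3
  have e5 : Y 1 4 = 0 := by
    have := congrFun (congrFun k2 0) 3
    simp [hα] at this
    exact this
  rw [e5] at e3
  apply hp
  apply mul_left_cancel₀ hα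
  linear_combination e3

end

end

end Pool.Agent.MP_f4742e_al.H67
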