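import Pool.Agent.Lib.MP_f4742e_al.H67FiveY

/-!
Rota-Baxter operators of weight zero on the self-adjoint `5 × 5` matrices in an adapted basis:
the restriction to the top elements.
-/

set_option autoImplicit false
set_option linter.unusedSectionVars false
set_option linter.unusedSimpArgs false

namespace Pool.Agent.MP_f4742e_al.H67

open Pool.Agent.MP_f4742e_al Matrix

section

variable {F : Type*} [Field F] [CharZero F]
  {R : Matrix (Fin 5) (Fin 5) F →ₗ[F] Matrix (Fin 5) (Fin 5) F}

theorem Adapted.rho_cases (h : Adapted R) {Y x : Matrix (Fin 5) (Fin 5) F} (hY : Y = R (R x))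
    (hne : R Y ≠ 0) :
    (R (single 0 3 1) = 0 ∧ R (single 1 4 1) = 0) ∨
    (R (single 0 3 1) = 0 ∧ (∃ α : F, α ≠ 0 ∧ R (single 1 4 1) = α • single 0 3 1) ∧
      Y 1 0 = 0 ∧ Y 0 1 ≠ 0) ∨
    (R (single 1 4 1) = 0 ∧ (∃ α : F, α ≠ 0 ∧ R (single 0 3 1) = α • single 1 4 1) ∧
      Y 0 1 = 0 ∧ Y 1 0 ≠ 0) := by
  have hs : SA Y := by
    rw [hY]
    exact h.im _
  obtain ⟨h1, h2, h3, h4, h5⟩ := h.upper hY
  have hd := h.diag_eq hY
  obtain ⟨α1, β1, γ1, hR03⟩ : ∃ α1 β1 γ1 : F, R (single 0 3 1) = α1 • single 0 3 1 +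
      β1 • (single 0 4 1 + single 1 3 1) + γ1 • single 1 4 1 :=
    ⟨_, _, _, h.top 0 3 (Or.inl ⟨rfl, rfl⟩)⟩
  obtain ⟨α2, β2, γ2, hR14⟩ : ∃ α1 β1 γ1 : F, R (single 1 4 1) = α1 • single 0 3 1 +
      β1 • (single 0 4 1 + single 1 3 1) + γ1 • single 1 4 1 :=
    ⟨_, _, _, h.top 1 4 (Or.inr ⟨rfl, rfl⟩)⟩
  -- commutation
  have c1 := h.comm_top hY _ h.RR03
  have c2 := h.comm_top hY _ h.RR14
  unfold jp at c1 c2
  rw [map_add, R_mul_single, R_single_mul, Fin.sum_univ_five, Fin.sum_univ_five] at c1 c2
  simp only [h1, h2, h3, h4, h5, hs.e33, hs.e44, hs.e34, hs.e43, hs.e32, hs.e42, hs.e40, hs.e13,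
    hs.e23, hs.e24, h.R04, h.R13, zero_smul, smul_zero, add_zero, zero_add, hd] at c1 c2
  rw [hR03] at c1
  rw [hR14] at c2
  have c13 := congrFun (congrFun c1 0) 3
  have c14 := congrFun (congrFun c1 0) 4
  have c15 := congrFun (congrFun c1 1) 4
  have c23 := congrFun (congrFun c2 0) 3
  have c24 := congrFun (congrFun c2 0) 4
  have c25 := congrFun (congrFun c2 1) 4
  simp [mul_apply, Fin.sum_univ_five, h1, h2, h3, h4, h5, hs.e33, hs.e44, hs.e34, hs.e43, hs.e32,
    hs.e42, hs.e40, hd] at c13 c14 c15 c23 c24 c25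
  -- the image of `R Y`
  have r1 : R (R Y) = 0 := by
    rw [hY]
    exact R_four h.rb h.ha x
  rw [h.R_Y_eq hY, map_add, map_add, map_smul, map_smul, map_smul, map_add, h.R04, h.R13,
    add_zero, smul_zero, add_zero, hR03, hR14] at r1
  have r13 := congrFun (congrFun r1 0) 3
  have r15 := congrFun (congrFun r1 1) 4
  simp at r13 r15
  have s1 := h.RR03
  rw [hR03, map_add, map_add, map_smul, map_smul, map_smul, map_add, h.R04, h.R13,
    add_zero, smul_zero, add_zero, hR03, hR14] at s1
  have s13 := congrFun (congrFun s1 0) 3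
  have s15 := congrFun (congrFun s1 1) 4
  simp at s13 s15
  have s2 := h.RR14
  rw [hR14, map_add, map_add, map_smul, map_smul, map_smul, map_add, h.R04, h.R13,
    add_zero, smul_zero, add_zero, hR03, hR14] at s2
  have s23 := congrFun (congrFun s2 0) 3
  have s25 := congrFun (congrFun s2 1) 4
  simp at s23 s25
  have hpq : Y 0 1 ≠ 0 ∨ Y 1 0 ≠ 0 := by
    by_contra hcon
    push Not at hcon
    exact hne (h.not_diag hY hcon.1 hcon.2)
  obtain ⟨p, hp⟩ : ∃ p, p = Y 0 1 := ⟨_, rfl⟩
  obtain ⟨q, hq⟩ : ∃ q, q = Y 1 0 := ⟨_, rfl⟩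
  rw [← hp, ← hq] at hpq ⊢
  rw [← hp] at c13 c14 c23 c24 r13 r15
  rw [← hq] at c14 c15 c24 c25 r13 r15
  have two : (2 : F) ≠ 0 := two_ne_zero
  have hβ1 : β1 = 0 := by
    rcases hpq with h6 | h6
    · have : p * β1 = 0 := by
        apply mul_left_cancel₀ two
        linear_combination -c13
      exact (mul_eq_zero.1 this).resolve_left h6
    · have : q * β1 = 0 := by
        apply mul_left_cancel₀ two
        linear_combination -c15
      exact (mul_eq_zero.1 this).resolve_left h6
  have hβ2 : β2 = 0 := by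
    rcases hpq with h6 | h6
    · have : p * β2 = 0 := by
        apply mul_left_cancel₀ two
        linear_combination -c23
      exact (mul_eq_zero.1 this).resolve_left h6
    · have : q * β2 = 0 := by
        apply mul_left_cancel₀ two
        linear_combination -c25
      exact (mul_eq_zero.1 this).resolve_left h6
  subst hβ1
  subst hβ2
  have d1 : p * γ1 + q * α1 = 0 := by linear_combination -c14
  have d2 : p * γ2 + q * α2 = 0 := by linear_combination -c24
  by_cases hq0 : q = 0
  · -- `q = 0`
    have hp0 : p ≠ 0 := by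
      rcases hpq with h6 | h6
      · exact h6
      · exact absurd hq0 h6
    rw [hq0] at d1 d2 r13 r15
    have hγ1 : γ1 = 0 := by
      have : p * γ1 = 0 := by linear_combination d1
      exact (mul_eq_zero.1 this).resolve_left hp0
    have hγ2 : γ2 = 0 := by
      have : p * γ2 = 0 := by linear_combination d2
      exact (mul_eq_zero.1 this).resolve_left hp0
    have hα1 : α1 = 0 := by
      have : p * α1 = 0 := by linear_combination r13
      exact (mul_eq_zero.1 this).resolve_left hp0
    subst hγ1
    subst hγ2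
    subst hα1
    rw [zero_smul, zero_smul, zero_smul, add_zero, add_zero] at hR03
    rw [zero_smul, zero_smul, add_zero, add_zero] at hR14
    by_cases hα2 : α2 = 0
    · left
      rw [hα2, zero_smul] at hR14
      exact ⟨hR03, hR14⟩
    · right
      left
      exact ⟨hR03, ⟨α2, hα2, hR14⟩, hq0, hp0⟩
  · by_cases hp0 : p = 0
    · rw [hp0] at d1 d2 r13 r15
      have hα1 : α1 = 0 := by
        have : q * α1 = 0 := by linear_combination d1
        exact (mul_eq_zero.1 this).resolve_left hq0
      have hα2 : α2 = 0 := by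
        have : q * α2 = 0 := by linear_combination d2
        exact (mul_eq_zero.1 this).resolve_left hq0
      have hγ2 : γ2 = 0 := by
        have : q * γ2 = 0 := by linear_combination r15
        exact (mul_eq_zero.1 this).resolve_left hq0
      subst hγ2
      subst hα1
      subst hα2
      rw [zero_smul, zero_smul, zero_add, zero_add] at hR03
      rw [zero_smul, zero_smul, zero_smul, add_zero, add_zero] at hR14
      by_cases hγ1 : γ1 = 0
      · left
        rw [hγ1, zero_smul] at hR03
        exact ⟨hR03, hR14⟩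
      · right
        right
        exact ⟨hR14, ⟨γ1, hγ1, hR03⟩, hp0, hq0⟩
    · left
      have hα1 : q * α1 = -(p * γ1) := by linear_combination d1
      have hα2 : q * α2 = -(p * γ2) := by linear_combination d2
      have e1 : q * γ2 = -(p * γ1) := by linear_combination r15
      have e2 : q ^ 2 * α2 = p ^ 2 * γ1 := by linear_combination q * hα2 - p * e1
      have e3 : γ1 = 0 := by
        have e4 : 2 * p ^ 2 * (γ1 * γ1) = 0 := by
          linear_combination q ^ 2 * s13 - γ1 * e2 - (q * α1 - p * γ1) * hα1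
        have e5 : γ1 * γ1 = 0 := by
          apply (mul_eq_zero.1 e4).resolve_left
          exact mul_ne_zero two (pow_ne_zero 2 hp0)
        exact mul_self_eq_zero.1 e5
      subst e3
      have hα1' : α1 = 0 := by
        apply (mul_eq_zero.1 (show q * α1 = 0 by linear_combination hα1)).resolve_left hq0
      have hγ2' : γ2 = 0 := by
        apply (mul_eq_zero.1 (show q * γ2 = 0 by linear_combination e1)).resolve_left hq0
      have hα2' : α2 = 0 := by
        apply (mul_eq_zero.1 (show q ^ 2 * α2 = 0 by linear_combination e2)).resolve_left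
        exact pow_ne_zero 2 hq0
      subst hα1'
      subst hγ2'
      subst hα2'
      rw [zero_smul, zero_smul, zero_smul, add_zero, add_zero] at hR03
      rw [zero_smul, zero_smul, zero_smul, add_zero, add_zero] at hR14
      exact ⟨hR03, hR14⟩

end

end Pool.Agent.MP_f4742e_al.H67
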