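import Pool.Agent.Lib.MP_f4742e_al.H67FiveZero
import Pool.Agent.Lib.MP_f4742e_al.H67FiveRho
import Pool.Agent.Lib.MP_f4742e_al.H67FiveAlpha

/-!
Rota-Baxter operators of weight zero on the self-adjoint `5 × 5` matrices in an adapted basis:
the cube vanishes.
-/

set_option autoImplicit false
set_option linter.unusedSectionVars false
set_option linter.unusedSimpArgs false

namespace Pool.Agent.MP_f4742e_al.H67

open Pool.Agent.MP_f4742e_al Matrix Module

section

variable {F A B : Type*} [Field F] [Ring A] [Algebra F A] [Ring B] [Algebra F B]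

/-- Transport of a Rota-Baxter operator by an isomorphism of algebras. -/
theorem JRB_conj (φ : A ≃ₐ[F] B) {R : A →ₗ[F] A} (h : JRB R) :
    JRB (φ.toLinearMap ∘ₗ R ∘ₗ φ.symm.toLinearMap) := by
  intro x y
  simp only [LinearMap.comp_apply, AlgEquiv.toLinearMap_apply]
  have h1 : ∀ x y : A, jp (φ x) (φ y) = φ (jp x y) := by
    intro x y
    unfold jp
    rw [map_add, map_mul, map_mul]
  have h2 : φ.symm (jp (φ (R (φ.symm x))) y + jp x (φ (R (φ.symm y)))) =
      jp (R (φ.symm x)) (φ.symm y) + jp (φ.symm x) (R (φ.symm y)) := by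
    apply φ.injective
    rw [AlgEquiv.apply_symm_apply, map_add, ← h1, ← h1, AlgEquiv.apply_symm_apply,
      AlgEquiv.apply_symm_apply]
  rw [h2, h1, h]

end

section

variable {F : Type*} [Field F] [CharZero F]
  {R : Matrix (Fin 5) (Fin 5) F →ₗ[F] Matrix (Fin 5) (Fin 5) F}

/-- The permutation of the basis exchanging the two pairs. -/
def sw : Equiv.Perm (Fin 5) := ⟨![1, 0, 2, 4, 3], ![1, 0, 2, 4, 3], by decide, by decide⟩

/-- The automorphism of the matrix algebra exchanging the two pairs. -/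
def swA (F : Type*) [Field F] : Matrix (Fin 5) (Fin 5) F ≃ₐ[F] Matrix (Fin 5) (Fin 5) F :=
  Matrix.reindexAlgEquiv F F sw

theorem swA_apply (X : Matrix (Fin 5) (Fin 5) F) (i j : Fin 5) : swA F X i j = X (sw i) (sw j) :=
  rfl

theorem swA_symm_apply (X : Matrix (Fin 5) (Fin 5) F) (i j : Fin 5) :
    (swA F).symm X i j = X (sw i) (sw j) := rfl

theorem swA_symm_single (i j : Fin 5) : (swA F).symm (single i j (1 : F)) =
    single (sw i) (sw j) 1 := by
  ext k l
  rw [swA_symm_apply]
  have h1 : ∀ i k : Fin 5, (i = sw k) ↔ (sw i = k) := by decide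
  simp only [single_apply, h1]

theorem Adapted.swap (h : Adapted R) :
    Adapted ((swA F).toLinearMap ∘ₗ R ∘ₗ (swA F).symm.toLinearMap) := by
  refine ⟨JRB_conj (swA F) h.rb, ?_, ?_, ?_⟩
  · intro X i j
    simp only [LinearMap.comp_apply, AlgEquiv.toLinearMap_apply, swA_apply]
    rw [h.im]
    have h1 : ∀ i : Fin 5, sg (sw i) = sw (sg i) := by decide
    rw [h1, h1]
  · intro i j
    simp only [LinearMap.comp_apply, AlgEquiv.toLinearMap_apply, swA_symm_single]
    have h1 : ∀ i : Fin 5, sg (sw i) = sw (sg i) := by decide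
    rw [h.tr, h1, h1]
  · simp only [LinearMap.comp_apply, AlgEquiv.toLinearMap_apply, map_one]
    rw [h.one]
    ext i j
    rw [swA_apply]
    fin_cases i <;> fin_cases j <;> simp [sw]

/-- The cube of `R` vanishes. -/
theorem Adapted.cube (h : Adapted R) (x : Matrix (Fin 5) (Fin 5) F) : R (R (R x)) = 0 := by
  by_contra hne
  rcases h.rho_cases (Y := R (R x)) rfl hne with ⟨h1, h2⟩ | ⟨h1, ⟨α, hα, h2⟩, h3, h4⟩ |
    ⟨h1, ⟨α, hα, h2⟩, h3, h4⟩
  · exact h.zero_false h1 h2 rfl hne
  · exact h.al_false h1 hα h2 rfl h3 h4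
  · refine h.swap.al_false (Y := swA F (R (R x))) (x := swA F x) ?_ hα ?_ ?_ ?_ ?_
    · simp only [LinearMap.comp_apply, AlgEquiv.toLinearMap_apply, swA_symm_single]
      change swA F (R (single 1 4 1)) = 0
      rw [h1, map_zero]
    · simp only [LinearMap.comp_apply, AlgEquiv.toLinearMap_apply, swA_symm_single]
      change swA F (R (single 0 3 1)) = _
      rw [h2, map_smul]
      congr 1
      rw [← AlgEquiv.eq_symm_apply, swA_symm_single]
      rfl
    · simp only [LinearMap.comp_apply, AlgEquiv.toLinearMap_apply, AlgEquiv.symm_apply_apply]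
    · exact h3
    · exact h4

end

end Pool.Agent.MP_f4742e_al.H67
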