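import Pool.Agent.Lib.MP_f4742e_al.H67Gen

/-!
Rota-Baxter operators of weight zero with values in the symmetric matrices and with `R 1` of
rank one.
-/

set_option autoImplicit false

namespace Pool.Agent.MP_f4742e_al.H67

open Pool.Agent.MP_f4742e_al Matrix

section

variable {F : Type*} [Field F] [CharZero F] {n : Type*} [Fintype n] [DecidableEq n]
  {R : Matrix n n F →ₗ[F] Matrix n n F}

/-- If `R 1` is symmetric of rank one with square zero, then `R ^ 3 = 0`. -/
theorem rank_one (h : JRB R) (hs : ∀ x, (R x)ᵀ = R x) (ha : R 1 * R 1 = 0) (c : F) (f : n → F)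
    (hc : c ≠ 0) (hf : R 1 = c • vecMulVec f f) (x : Matrix n n F) : R (R (R x)) = 0 := by
  obtain ⟨Y, hY⟩ : ∃ Y, Y = R (R x) := ⟨_, rfl⟩
  have hYs : Yᵀ = Y := by rw [hY, hs]
  obtain ⟨g, hg⟩ : ∃ g, g = Y *ᵥ f := ⟨_, rfl⟩
  obtain ⟨k, hk⟩ : ∃ k, k = Y *ᵥ g := ⟨_, rfl⟩
  have hg' : f ᵥ* Y = g := by
    rw [hg, ← Matrix.mulVec_transpose, hYs]
  have hk' : g ᵥ* Y = k := by
    rw [hk, ← Matrix.mulVec_transpose, hYs]
  have haY : R 1 * Y = c • vecMulVec f g := by
    rw [hf, smul_mul_assoc, vecMulVec_mul, hg']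
  have hYa : Y * R 1 = c • vecMulVec g f := by
    rw [hf, mul_smul_comm, mul_vecMulVec, ← hg]
  have h1 := comm_sq h ha hY
  have h2 : R 1 * Y * Y = c • vecMulVec f k := by
    rw [haY, smul_mul_assoc, vecMulVec_mul, hk']
  have h3 : Y * Y * R 1 = c • vecMulVec k f := by
    rw [mul_assoc, hYa, mul_smul_comm, mul_vecMulVec, ← hk]
  have h4 : Y * R 1 * Y = c • vecMulVec g g := by
    rw [hYa, smul_mul_assoc, vecMulVec_mul, hg']
  rw [h2, h3, h4, smul_comm, ← smul_add] at h1
  have h5 := smul_right_injective _ hc h1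
  have h6 : ∀ i j, f i * k j + k i * f j = 2 * (g i * g j) := by
    intro i j
    have := congrFun (congrFun h5 i) j
    simpa [vecMulVec_apply] using this
  rw [← hY]
  by_cases hf0 : f = 0
  · have h7 : R 1 = 0 := by
      rw [hf, hf0, vecMulVec_zero, smul_zero]
    have h8 := rel2 h x
    rw [h7] at h8
    have h9 : ∀ y : Matrix n n F, jp 0 y = 0 := zero_jp
    rw [h9, h9, map_zero, sub_zero] at h8
    rw [hY, (smul_eq_zero.1 h8).resolve_left two_ne_zero, map_zero]
  obtain ⟨i, hi⟩ : ∃ i, f i ≠ 0 := by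
    by_contra hcon
    push Not at hcon
    exact hf0 (funext hcon)
  have hcol : ∀ j, g j = (g i / f i) * f j := by
    intro j
    have e1 := h6 i i
    have e2 := h6 i j
    have e3 := h6 j j
    have e4 : (f j * g i - g j * f i) ^ 2 = 0 := by
      linear_combination (-(f j) ^ 2 / 2) * e1 + (f i * f j) * e2 - (f i ^ 2 / 2) * e3
    have e5 := pow_eq_zero_iff (two_ne_zero) |>.1 e4
    field_simp
    linear_combination -e5
  obtain ⟨lam, hgf⟩ : ∃ lam : F, g = lam • f := by
    refine ⟨g i / f i, ?_⟩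
    funext j
    rw [Pi.smul_apply, smul_eq_mul, ← hcol]
  have h7 : (2 : F) • R Y = (2 : F) • (lam • R 1) := by
    have h8 := R_two h ha x
    rw [← hY] at h8
    rw [h8]
    unfold jp
    rw [haY, hYa, hgf, vecMulVec_smul, smul_vecMulVec, hf]
    module
  have h8 := two_inj h7
  by_contra hne
  have h9 : lam ≠ 0 := by
    intro h10
    apply hne
    rw [h8, h10, zero_smul]
  have h10 := not_range h 1 (by
    rw [pow_one, hf]
    intro h11
    rcases smul_eq_zero.1 h11 with h12 | h12
    · exact hc h12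
    · have := congrFun (congrFun h12 i) i
      rw [vecMulVec_apply, Matrix.zero_apply] at this
      exact hi (mul_self_eq_zero.1 this)) (lam⁻¹ • x)
  apply h10
  rw [pow_one, map_smul, pow_succ, pow_succ, pow_one, Module.End.mul_apply, Module.End.mul_apply,
    ← hY, h8, smul_smul, inv_mul_cancel₀ h9, one_smul]

end

end Pool.Agent.MP_f4742e_al.H67
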