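import Pool.Agent.Lib.MP_f4742e_al.H67Basis
import Pool.Agent.Lib.MP_f4742e_al.H67FiveMain
import Pool.Agent.Lib.MP_f4742e_al.H67RankOne

/-!
An adapted basis for a symmetric `5 × 5` matrix of square zero and rank two.
-/

set_option autoImplicit false
set_option linter.unusedSectionVars false
set_option linter.unusedSimpArgs false

namespace Pool.Agent.MP_f4742e_al.H67

open Pool.Agent.MP_f4742e_al Matrix Module

section

variable {F : Type*} [Field F] [CharZero F] [IsAlgClosed F]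

theorem exists_basis5 {a : Matrix (Fin 5) (Fin 5) F} (hs : aᵀ = a) (ha : a * a = 0)
    (g1 g2 : Fin 5 → F) (h11 : g1 ⬝ᵥ (a *ᵥ g1) = 0) (h22 : g2 ⬝ᵥ (a *ᵥ g2) = 0)
    (h12 : g1 ⬝ᵥ (a *ᵥ g2) = 1) : ∃ b : Fin 5 → (Fin 5 → F),
      (∀ i j, b (sg i) ⬝ᵥ b j = if i = j then 1 else 0) ∧ a *ᵥ b 0 = 0 ∧ a *ᵥ b 1 = 0 ∧
      a *ᵥ b 2 = 0 ∧ a *ᵥ b 3 = b 1 ∧ a *ᵥ b 4 = b 0 := by
  have haa : ∀ x, a *ᵥ (a *ᵥ x) = 0 := by
    intro x
    rw [mulVec_mulVec, ha, zero_mulVec]
  have h21 : g2 ⬝ᵥ (a *ᵥ g1) = 1 := by rw [dot_symm hs, h12]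
  have hE : ∀ x y, (a *ᵥ x) ⬝ᵥ (a *ᵥ y) = 0 := by
    intro x y
    rw [dotProduct_comm, dot_symm hs, haa, dotProduct_zero]
  have hc : ∀ x y : Fin 5 → F, (a *ᵥ x) ⬝ᵥ y = x ⬝ᵥ (a *ᵥ y) := by
    intro x y
    rw [dotProduct_comm, dot_symm hs]
  obtain ⟨v, hv⟩ : ∃ v, v = a *ᵥ g2 := ⟨_, rfl⟩
  obtain ⟨w, hw⟩ : ∃ w, w = a *ᵥ g1 := ⟨_, rfl⟩
  obtain ⟨f1, hf1⟩ : ∃ f1, f1 = g1 - ((2 : F)⁻¹ * (g1 ⬝ᵥ g1)) • v - (g1 ⬝ᵥ g2) • w := ⟨_, rfl⟩
  obtain ⟨f2, hf2⟩ : ∃ f2, f2 = g2 - ((2 : F)⁻¹ * (g2 ⬝ᵥ g2)) • w := ⟨_, rfl⟩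
  have av : a *ᵥ v = 0 := by rw [hv, haa]
  have aw : a *ᵥ w = 0 := by rw [hw, haa]
  have af1 : a *ᵥ f1 = w := by
    rw [hf1, mulVec_sub, mulVec_sub, mulVec_smul, mulVec_smul, av, aw, ← hw]
    simp
  have af2 : a *ᵥ f2 = v := by
    rw [hf2, mulVec_sub, mulVec_smul, aw, ← hv]
    simp
  have vv : v ⬝ᵥ v = 0 := by rw [hv, hE]
  have vw : v ⬝ᵥ w = 0 := by rw [hv, hw, hE]
  have wv : w ⬝ᵥ v = 0 := by rw [hv, hw, hE]
  have ww : w ⬝ᵥ w = 0 := by rw [hw, hE]
  have vg1 : v ⬝ᵥ g1 = 1 := by rw [hv, hc, h21]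
  have vg2 : v ⬝ᵥ g2 = 0 := by rw [hv, hc, h22]
  have wg1 : w ⬝ᵥ g1 = 0 := by rw [hw, hc, h11]
  have wg2 : w ⬝ᵥ g2 = 1 := by rw [hw, hc, h12]
  have vf1 : v ⬝ᵥ f1 = 1 := by
    rw [hf1, dotProduct_sub, dotProduct_sub, dotProduct_smul, dotProduct_smul, vg1, vv, vw]
    simp
  have wf1 : w ⬝ᵥ f1 = 0 := by
    rw [hf1, dotProduct_sub, dotProduct_sub, dotProduct_smul, dotProduct_smul, wg1, ww, wv]
    simp
  have vf2 : v ⬝ᵥ f2 = 0 := by
    rw [hf2, dotProduct_sub, dotProduct_smul, vg2, vw]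
    simp
  have wf2 : w ⬝ᵥ f2 = 1 := by
    rw [hf2, dotProduct_sub, dotProduct_smul, wg2, ww]
    simp
  have f1v : f1 ⬝ᵥ v = 1 := by rw [dotProduct_comm, vf1]
  have f1w : f1 ⬝ᵥ w = 0 := by rw [dotProduct_comm, wf1]
  have f2v : f2 ⬝ᵥ v = 0 := by rw [dotProduct_comm, vf2]
  have f2w : f2 ⬝ᵥ w = 1 := by rw [dotProduct_comm, wf2]
  have g1v : g1 ⬝ᵥ v = 1 := by rw [dotProduct_comm, vg1]
  have g2v : g2 ⬝ᵥ v = 0 := by rw [dotProduct_comm, vg2]
  have g1w : g1 ⬝ᵥ w = 0 := by rw [dotProduct_comm, wg1]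
  have g2w : g2 ⬝ᵥ w = 1 := by rw [dotProduct_comm, wg2]
  have f1f1 : f1 ⬝ᵥ f1 = 0 := by
    have : f1 ⬝ᵥ f1 = (g1 - ((2 : F)⁻¹ * (g1 ⬝ᵥ g1)) • v - (g1 ⬝ᵥ g2) • w) ⬝ᵥ f1 := by
      rw [← hf1]
    rw [this, sub_dotProduct, sub_dotProduct, smul_dotProduct, smul_dotProduct, vf1, wf1, hf1,
      dotProduct_sub, dotProduct_sub, dotProduct_smul, dotProduct_smul, g1v, g1w]
    simp only [smul_eq_mul]
    field_simp
    ring
  have f2f2 : f2 ⬝ᵥ f2 = 0 := by
    have : f2 ⬝ᵥ f2 = (g2 - ((2 : F)⁻¹ * (g2 ⬝ᵥ g2)) • w) ⬝ᵥ f2 := by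
      rw [← hf2]
    rw [this, sub_dotProduct, smul_dotProduct, wf2, hf2, dotProduct_sub, dotProduct_smul, g2w]
    simp only [smul_eq_mul]
    field_simp
    ring
  have f1f2 : f1 ⬝ᵥ f2 = 0 := by
    rw [hf1, sub_dotProduct, sub_dotProduct, smul_dotProduct, smul_dotProduct, vf2, wf2, hf2,
      dotProduct_sub, dotProduct_smul, g1w]
    simp
  have f2f1 : f2 ⬝ᵥ f1 = 0 := by rw [dotProduct_comm, f1f2]
  -- the orthogonal complement
  let T : (Fin 5 → F) →ₗ[F] (Fin 4 → F) :=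
    { toFun := fun x => ![v ⬝ᵥ x, w ⬝ᵥ x, f1 ⬝ᵥ x, f2 ⬝ᵥ x]
      map_add' := by
        intro x y
        ext i
        fin_cases i <;> simp [dotProduct_add]
      map_smul' := by
        intro c x
        ext i
        fin_cases i <;> simp [dotProduct_smul] }
  have hT : Function.Surjective T := by
    intro y
    refine ⟨y 2 • v + y 3 • w + y 0 • f1 + y 1 • f2, ?_⟩
    ext i
    fin_cases i
    · simp [T, dotProduct_add, dotProduct_smul, vv, vw, vf1, vf2]
    · simp [T, dotProduct_add, dotProduct_smul, wv, ww, wf1, wf2]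
    · simp [T, dotProduct_add, dotProduct_smul, f1v, f1w, f1f1, f1f2]
    · simp [T, dotProduct_add, dotProduct_smul, f2v, f2w, f2f1, f2f2]
  have hk : finrank F (LinearMap.ker T) = 1 := by
    have h1 := LinearMap.finrank_range_add_finrank_ker T
    rw [LinearMap.range_eq_top.2 hT, finrank_top, finrank_fin_fun, finrank_fin_fun] at h1
    omega
  rw [finrank_eq_one_iff'] at hk
  obtain ⟨⟨u', hu'⟩, hu'0, hu'1⟩ := hk
  have hker : ∀ x : Fin 5 → F, v ⬝ᵥ x = 0 → w ⬝ᵥ x = 0 → f1 ⬝ᵥ x = 0 → f2 ⬝ᵥ x = 0 →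
      ∃ c : F, c • u' = x := by
    intro x h1 h2 h3 h4
    have h5 : x ∈ LinearMap.ker T := by
      rw [LinearMap.mem_ker]
      ext i
      fin_cases i
      · exact h1
      · exact h2
      · exact h3
      · exact h4
    obtain ⟨c, hc'⟩ := hu'1 ⟨x, h5⟩
    exact ⟨c, congrArg Subtype.val hc'⟩
  rw [LinearMap.mem_ker] at hu'
  have vu' : v ⬝ᵥ u' = 0 := congrFun hu' 0
  have wu' : w ⬝ᵥ u' = 0 := congrFun hu' 1
  have f1u' : f1 ⬝ᵥ u' = 0 := congrFun hu' 2
  have f2u' : f2 ⬝ᵥ u' = 0 := congrFun hu' 3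
  have hu'ne : u' ≠ 0 := by
    intro h1
    apply hu'0
    apply Subtype.ext
    exact h1
  have huu : u' ⬝ᵥ u' ≠ 0 := by
    intro h1
    apply hu'ne
    have h2 : ∀ x : Fin 5 → F, x ⬝ᵥ u' = 0 := by
      intro x
      obtain ⟨c, hc'⟩ := hker (x - (f1 ⬝ᵥ x) • v - (f2 ⬝ᵥ x) • w - (v ⬝ᵥ x) • f1 -
        (w ⬝ᵥ x) • f2) (by
          simp [dotProduct_sub, dotProduct_smul, vv, vw, vf1, vf2]) (by
          simp [dotProduct_sub, dotProduct_smul, wv, ww, wf1, wf2]) (by
          simp [dotProduct_sub, dotProduct_smul, f1v, f1w, f1f1, f1f2]) (by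
          simp [dotProduct_sub, dotProduct_smul, f2v, f2w, f2f1, f2f2])
      have h3 : x = c • u' + (f1 ⬝ᵥ x) • v + (f2 ⬝ᵥ x) • w + (v ⬝ᵥ x) • f1 +
        (w ⬝ᵥ x) • f2 := by
        rw [hc']
        abel
      rw [h3]
      simp only [add_dotProduct, smul_dotProduct, h1, vu', wu', f1u', f2u', smul_zero, add_zero]
    funext i
    have := h2 (Pi.single i 1)
    rwa [single_one_dotProduct] at this
  obtain ⟨t, ht⟩ := exists_scale (d := (1 : F)) huu
  obtain ⟨u, hu⟩ : ∃ u, u = t • u' := ⟨_, rfl⟩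
  have uu : u ⬝ᵥ u = 1 := by
    rw [hu, smul_dotProduct, dotProduct_smul, smul_eq_mul, smul_eq_mul, ← ht]
    ring
  have vu : v ⬝ᵥ u = 0 := by rw [hu, dotProduct_smul, vu', smul_zero]
  have wu : w ⬝ᵥ u = 0 := by rw [hu, dotProduct_smul, wu', smul_zero]
  have f1u : f1 ⬝ᵥ u = 0 := by rw [hu, dotProduct_smul, f1u', smul_zero]
  have f2u : f2 ⬝ᵥ u = 0 := by rw [hu, dotProduct_smul, f2u', smul_zero]
  have uv : u ⬝ᵥ v = 0 := by rw [dotProduct_comm, vu]
  have uw : u ⬝ᵥ w = 0 := by rw [dotProduct_comm, wu]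
  have uf1 : u ⬝ᵥ f1 = 0 := by rw [dotProduct_comm, f1u]
  have uf2 : u ⬝ᵥ f2 = 0 := by rw [dotProduct_comm, f2u]
  have au : a *ᵥ u = 0 := by
    obtain ⟨c, hc'⟩ := hker (a *ᵥ u') (by rw [hv, hE]) (by rw [hw, hE])
      (by rw [dot_symm hs, af1, dotProduct_comm, wu']) (by
        rw [dot_symm hs, af2, dotProduct_comm, vu'])
    have h1 := haa u'
    rw [← hc', mulVec_smul, ← hc', smul_smul] at h1
    have h2 : c = 0 := by
      rcases smul_eq_zero.1 h1 with h3 | h3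
      · exact mul_self_eq_zero.1 h3
      · exact absurd h3 hu'ne
    rw [hu, mulVec_smul, ← hc', h2, zero_smul, smul_zero]
  refine ⟨![v, w, u, f1, f2], ?_, av, aw, au, af1, af2⟩
  intro i j
  fin_cases i <;> fin_cases j <;> simp [sg, vv, vw, wv, ww, uu, vf1, vf2, wf1, wf2, f1v, f1w, f2v,
    f2w, f1f1, f1f2, f2f1, f2f2, vu, wu, f1u, f2u, uv, uw, uf1, uf2]

/-- The cube of `R` vanishes for `5 × 5` matrices if the square of `R 1` vanishes. -/
theorem five {R : Matrix (Fin 5) (Fin 5) F →ₗ[F] Matrix (Fin 5) (Fin 5) F} (h : JRB R)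
    (hs : ∀ x, (R x)ᵀ = R x) (ht : ∀ x, R xᵀ = R x) (ha : R 1 * R 1 = 0)
    (x : Matrix (Fin 5) (Fin 5) F) : R (R (R x)) = 0 := by
  rcases sym_cases (hs 1) with h1 | ⟨f, hf⟩ | ⟨g1, g2, h11, h22, h12⟩
  · have h2 := rel2 h x
    have h3 : ∀ y : Matrix (Fin 5) (Fin 5) F, jp 0 y = 0 := zero_jp
    rw [h1, h3, h3, map_zero, sub_zero] at h2
    rw [(smul_eq_zero.1 h2).resolve_left two_ne_zero, map_zero]
  · exact Pool.Agent.MP_f4742e_al.H67.rank_one h hs ha 1 f one_ne_zero (by rw [one_smul, hf]) x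
  · obtain ⟨b, hb, b0, b1, b2, b3, b4⟩ := exists_basis5 (hs 1) ha g1 g2 h11 h22 h12
    obtain ⟨P, hP⟩ : ∃ P : Matrix (Fin 5) (Fin 5) F, P = Matrix.of fun i j => b j i := ⟨_, rfl⟩
    obtain ⟨Q, hQ⟩ : ∃ Q : Matrix (Fin 5) (Fin 5) F, Q = Matrix.of fun i j => b (sg i) j :=
      ⟨_, rfl⟩
    have hQP : Q * P = 1 := by
      ext i j
      rw [mul_apply, one_apply, ← hb i j, hP, hQ]
      rfl
    have hPQ : P * Q = 1 := mul_eq_one_comm.1 hQP
    have hPt : ∀ X : Matrix (Fin 5) (Fin 5) F, (P * X * Q)ᵀ = P * adj X * Q := by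
      intro X
      rw [transpose_mul, transpose_mul]
      ext i j
      rw [mul_apply, mul_apply]
      have e1 : ∀ k, Qᵀ i k = P i (sg k) := by
        intro k
        rw [hP, hQ]
        rfl
      have e2 : ∀ k, (Xᵀ * Pᵀ) k j = ∑ l, X l k * P j l := by
        intro k
        rw [mul_apply]
        rfl
      have e3 : ∀ k, (P * adj X) i k = ∑ l, P i l * X (sg k) (sg l) := by
        intro k
        rw [mul_apply]
        rfl
      have e4 : ∀ k, Q k j = P j (sg k) := by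
        intro k
        rw [hP, hQ]
        rfl
      simp only [e1, e2, e3, e4]
      rw [← Equiv.sum_comp sgE]
      have e5 : ∀ k : Fin 5, sg (sgE k) = k := by decide
      simp only [e5, Finset.sum_mul, Finset.mul_sum]
      rw [Finset.sum_comm]
      rw [← Equiv.sum_comp sgE]
      refine Finset.sum_congr rfl fun l _ => ?_
      refine Finset.sum_congr rfl fun k _ => ?_
      change P i k * (X (sg l) (sg k) * P j (sg l)) = _
      ring
    let φ : Matrix (Fin 5) (Fin 5) F ≃ₐ[F] Matrix (Fin 5) (Fin 5) F :=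
      AlgEquiv.ofLinearEquiv
        { toFun := fun X => Q * X * P
          invFun := fun X => P * X * Q
          map_add' := by
            intro X Y
            rw [Matrix.mul_add, Matrix.add_mul]
          map_smul' := by
            intro c X
            rw [mul_smul_comm, smul_mul_assoc]
            rfl
          left_inv := by
            intro X
            change P * (Q * X * P) * Q = X
            rw [show P * (Q * X * P) * Q = (P * Q) * X * (P * Q) by noncomm_ring, hPQ, one_mul,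
              mul_one]
          right_inv := by
            intro X
            change Q * (P * X * Q) * P = X
            rw [show Q * (P * X * Q) * P = (Q * P) * X * (Q * P) by noncomm_ring, hQP, one_mul,
              mul_one] }
        (by
          change Q * 1 * P = 1
          rw [mul_one, hQP])
        (by
          intro X Y
          change Q * (X * Y) * P = (Q * X * P) * (Q * Y * P)
          rw [show (Q * X * P) * (Q * Y * P) = Q * X * (P * Q) * Y * P by noncomm_ring, hPQ,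
            mul_one, mul_assoc Q X Y])
    have hφ : ∀ X, φ X = Q * X * P := fun _ => rfl
    have hφ' : ∀ X, φ.symm X = P * X * Q := fun _ => rfl
    have hA : Adapted (φ.toLinearMap ∘ₗ R ∘ₗ φ.symm.toLinearMap) := by
      refine ⟨JRB_conj φ h, ?_, ?_, ?_⟩
      · intro X
        simp only [LinearMap.comp_apply, AlgEquiv.toLinearMap_apply]
        rw [SA_iff]
        apply φ.symm.injective
        rw [AlgEquiv.symm_apply_apply, hφ', ← hPt, ← hφ', AlgEquiv.symm_apply_apply, hs]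
      · intro i j
        simp only [LinearMap.comp_apply, AlgEquiv.toLinearMap_apply]
        congr 1
        rw [← ht, hφ', hφ', hPt]
        congr 3
        ext k l
        change (single i j 1 : Matrix (Fin 5) (Fin 5) F) (sg l) (sg k) = _
        have e1 : ∀ i k : Fin 5, (i = sg k) ↔ (sg i = k) := by decide
        simp only [single_apply, e1]
        congr 1
        rw [and_comm]
      · simp only [LinearMap.comp_apply, AlgEquiv.toLinearMap_apply, map_one]
        apply φ.symm.injective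
        rw [AlgEquiv.symm_apply_apply, hφ']
        have e1 : R 1 * P = P * (single 0 4 1 + single 1 3 1) := by
          ext i j
          have e2 : (R 1 * P) i j = (R 1 *ᵥ b j) i := by
            rw [hP]
            rfl
          rw [e2, Matrix.mul_add, Matrix.add_apply]
          have e3 : ∀ k l m : Fin 5, (P * single k l (1 : F)) i m = if l = m then P i k else 0 := by
            intro k l m
            by_cases hl : l = m
            · rw [if_pos hl, hl, Matrix.mul_single_apply_same, mul_one]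
            · rw [if_neg hl, Matrix.mul_single_apply_of_ne _ _ _ _ _ (Ne.symm hl)]
          rw [e3, e3, hP]
          fin_cases j
          · simp [b0]
          · simp [b1]
          · simp [b2]
          · simp [b3]
          · simp [b4]
        rw [← e1, mul_assoc, hPQ, mul_one]
    have h2 := hA.cube (φ x)
    simp only [LinearMap.comp_apply, AlgEquiv.toLinearMap_apply, AlgEquiv.symm_apply_apply] at h2
    rw [← map_zero φ] at h2
    exact φ.injective h2

end

end Pool.Agent.MP_f4742e_al.H67
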