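import Mathlib

/-!
A dimension count.
-/

set_option autoImplicit false

namespace Pool.Agent.MP_f4742e_al.H67

open Module

section

variable {F V : Type*} [Field F] [AddCommGroup V] [Module F V] [FiniteDimensional F V]

/-- The count: `R` and `L` are two operators with `R R = L R - R L` on `D`, `L - R` vanishes on
`P`, on `one` and on `R Q`, and `(R - L) (R + L) = - L L` is onto `P`. -/
theorem count (R L : V →ₗ[F] V) (D Q P : Submodule F V) (one : V)
    (hPQ : P ≤ Q) (hQD : Q ≤ D) (hRP : ∀ x ∈ P, R x = 0) (hLP : ∀ x ∈ P, L x = 0)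
    (hLQ : ∀ x ∈ Q, L x ∈ P) (hRQ : ∀ x ∈ D, R x ∈ Q) (hLD : ∀ x ∈ D, L x ∈ Q)
    (h1 : one ∈ Q) (hR1 : R one = L one) (h1P : ∀ x ∈ Q, one - R x ∉ P)
    (hrel : ∀ x ∈ D, R (R x) = L (R x) - R (L x))
    (hsurj : ∀ p ∈ P, ∃ x ∈ D, L (L x) = p) :
    2 * finrank F ((Q.map R).map P.mkQ) + 2 * finrank F P + 1 ≤ finrank F Q := by
  -- the kernel
  obtain ⟨K, hK⟩ : ∃ K : Submodule F V, K = Q ⊓ P.comap R := ⟨_, rfl⟩
  have hKQ : K ≤ Q := by
    rw [hK]
    exact inf_le_left
  have hKP : ∀ x ∈ K, R x ∈ P := by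
    intro x hx
    rw [hK] at hx
    exact hx.2
  have hK1 : finrank F ((Q.map R).map P.mkQ) + finrank F K = finrank F Q := by
    have h2 := LinearMap.finrank_range_add_finrank_ker ((P.mkQ ∘ₗ R) ∘ₗ Q.subtype)
    have h3 : LinearMap.range ((P.mkQ ∘ₗ R) ∘ₗ Q.subtype) = (Q.map R).map P.mkQ := by
      rw [LinearMap.range_comp, Submodule.range_subtype, Submodule.map_comp]
    have h4 : finrank F (LinearMap.ker ((P.mkQ ∘ₗ R) ∘ₗ Q.subtype)) = finrank F K := by
      have h5 : K = (LinearMap.ker ((P.mkQ ∘ₗ R) ∘ₗ Q.subtype)).map Q.subtype := by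
        ext x
        rw [hK, Submodule.mem_map]
        constructor
        · rintro ⟨hx, hx2⟩
          refine ⟨⟨x, hx⟩, ?_, rfl⟩
          rw [LinearMap.mem_ker, LinearMap.comp_apply, LinearMap.comp_apply,
            Submodule.subtype_apply, Submodule.mkQ_apply, Submodule.Quotient.mk_eq_zero]
          exact hx2
        · rintro ⟨y, hy, rfl⟩
          rw [LinearMap.mem_ker, LinearMap.comp_apply, LinearMap.comp_apply,
            Submodule.subtype_apply, Submodule.mkQ_apply, Submodule.Quotient.mk_eq_zero] at hy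
          exact ⟨y.2, hy⟩
      rw [h5, Submodule.finrank_map_subtype_eq]
    rw [h3, h4] at h2
    exact h2
  -- the difference
  obtain ⟨Z, hZ⟩ : ∃ Z : Submodule F V, Z = K ⊓ LinearMap.ker (R - L) := ⟨_, rfl⟩
  have hK2 : finrank F P + finrank F Z ≤ finrank F K := by
    have h2 := LinearMap.finrank_range_add_finrank_ker ((R - L) ∘ₗ K.subtype)
    have h3 : P ≤ LinearMap.range ((R - L) ∘ₗ K.subtype) := by
      intro p hp
      obtain ⟨x, hxD, hx⟩ := hsurj (-p) (P.neg_mem hp)
      have h4 : R x + L x ∈ K := by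
        rw [hK]
        refine Submodule.mem_inf.2 ⟨Q.add_mem (hRQ x hxD) (hLD x hxD), ?_⟩
        rw [Submodule.mem_comap, map_add, hrel x hxD, sub_add_cancel]
        exact hLQ _ (hRQ x hxD)
      refine ⟨⟨R x + L x, h4⟩, ?_⟩
      rw [LinearMap.comp_apply, Submodule.subtype_apply, LinearMap.sub_apply, map_add, map_add,
        hrel x hxD, hx]
      abel
    have h4 : finrank F (LinearMap.ker ((R - L) ∘ₗ K.subtype)) = finrank F Z := by
      have h5 : Z = (LinearMap.ker ((R - L) ∘ₗ K.subtype)).map K.subtype := by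
        ext x
        rw [hZ, Submodule.mem_map]
        constructor
        · rintro ⟨hx, hx2⟩
          exact ⟨⟨x, hx⟩, hx2, rfl⟩
        · rintro ⟨y, hy, rfl⟩
          exact ⟨y.2, hy⟩
      rw [h5, Submodule.finrank_map_subtype_eq]
    rw [h4] at h2
    rw [← h2]
    exact Nat.add_le_add_right (Submodule.finrank_mono h3) _
  -- the kernel of the difference
  have hK3 : finrank F P + 1 + finrank F ((Q.map R).map P.mkQ) ≤ finrank F Z := by
    have h2 : P ⊔ (Submodule.span F {one} ⊔ Q.map R) ≤ Z := by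
      rw [hZ, hK]
      refine sup_le ?_ (sup_le ?_ ?_)
      · intro x hx
        refine Submodule.mem_inf.2 ⟨Submodule.mem_inf.2 ⟨hPQ hx, ?_⟩, ?_⟩
        · rw [Submodule.mem_comap, hRP x hx]
          exact P.zero_mem
        · rw [LinearMap.mem_ker, LinearMap.sub_apply, hRP x hx, hLP x hx, sub_zero]
      · rw [Submodule.span_singleton_le_iff_mem]
        refine Submodule.mem_inf.2 ⟨Submodule.mem_inf.2 ⟨h1, ?_⟩, ?_⟩
        · rw [Submodule.mem_comap, hR1]
          exact hLQ _ h1
        · rw [LinearMap.mem_ker, LinearMap.sub_apply, hR1, sub_self]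
      · rintro _ ⟨x, hx, rfl⟩
        have hx' : x ∈ Q := hx
        have h3 : R (L x) = 0 := hRP _ (hLQ x hx')
        refine Submodule.mem_inf.2 ⟨Submodule.mem_inf.2 ⟨hRQ x (hQD hx'), ?_⟩, ?_⟩
        · rw [Submodule.mem_comap, hrel x (hQD hx'), h3, sub_zero]
          exact hLQ _ (hRQ x (hQD hx'))
        · rw [LinearMap.mem_ker, LinearMap.sub_apply, hrel x (hQD hx'), h3, sub_zero, sub_self]
    refine le_trans ?_ (Submodule.finrank_mono h2)
    have h3 := LinearMap.finrank_range_add_finrank_ker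
      (P.mkQ ∘ₗ (P ⊔ (Submodule.span F {one} ⊔ Q.map R)).subtype)
    have h4 : LinearMap.range (P.mkQ ∘ₗ (P ⊔ (Submodule.span F {one} ⊔ Q.map R)).subtype) =
        Submodule.span F {P.mkQ one} ⊔ (Q.map R).map P.mkQ := by
      rw [LinearMap.range_comp, Submodule.range_subtype, Submodule.map_sup, Submodule.map_sup,
        Submodule.map_span, Set.image_singleton]
      have h5 : P.map P.mkQ = ⊥ := by
        rw [eq_bot_iff, Submodule.map_le_iff_le_comap]
        intro x hx
        rw [Submodule.mem_comap, Submodule.mem_bot, Submodule.mkQ_apply,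
          Submodule.Quotient.mk_eq_zero]
        exact hx
      rw [h5, bot_sup_eq]
    have h5 : finrank F P ≤ finrank F (LinearMap.ker
        (P.mkQ ∘ₗ (P ⊔ (Submodule.span F {one} ⊔ Q.map R)).subtype)) := by
      have h6 : P ≤ (LinearMap.ker
          (P.mkQ ∘ₗ (P ⊔ (Submodule.span F {one} ⊔ Q.map R)).subtype)).map
          (P ⊔ (Submodule.span F {one} ⊔ Q.map R)).subtype := by
        intro x hx
        refine ⟨⟨x, (le_sup_left : P ≤ P ⊔ (Submodule.span F {one} ⊔ Q.map R)) hx⟩, ?_, rfl⟩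
        rw [SetLike.mem_coe, LinearMap.mem_ker, LinearMap.comp_apply, Submodule.subtype_apply,
          Submodule.mkQ_apply, Submodule.Quotient.mk_eq_zero]
        exact hx
      refine le_trans (Submodule.finrank_mono h6) ?_
      exact Submodule.finrank_map_le _ _
    have h6 : Submodule.span F {P.mkQ one} ⊓ (Q.map R).map P.mkQ = ⊥ := by
      rw [eq_bot_iff]
      rintro y ⟨hy1, hy2⟩
      obtain ⟨c, rfl⟩ := Submodule.mem_span_singleton.1 hy1
      rw [Submodule.mem_bot]
      by_cases hc : c = 0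
      · rw [hc, zero_smul]
      · exfalso
        obtain ⟨w, hw, hw2⟩ := hy2
        obtain ⟨x, hx, rfl⟩ := hw
        have hx' : x ∈ Q := hx
        apply h1P (c⁻¹ • x) (Q.smul_mem _ hx')
        rw [← Submodule.Quotient.mk_eq_zero, ← Submodule.mkQ_apply, map_sub, map_smul, map_smul,
          hw2, smul_smul, inv_mul_cancel₀ hc, one_smul, sub_self]
    have h7 : P.mkQ one ≠ 0 := by
      intro h8
      apply h1P 0 Q.zero_mem
      rw [map_zero, sub_zero, ← Submodule.Quotient.mk_eq_zero]
      exact h8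
    have h8 := Submodule.finrank_sup_add_finrank_inf_eq (Submodule.span F {P.mkQ one})
      ((Q.map R).map P.mkQ)
    rw [h6, finrank_bot, add_zero, finrank_span_singleton h7] at h8
    rw [h4, h8] at h3
    omega
  omega

end

end Pool.Agent.MP_f4742e_al.H67
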