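import Pool.Agent.Lib.MP_f4742e_al.H67Gen

/-!
Rota-Baxter operators of weight zero on the self-adjoint `5 × 5` matrices in an adapted basis:
basic relations.
-/

set_option autoImplicit false
set_option linter.unusedSectionVars false

namespace Pool.Agent.MP_f4742e_al.H67

open Pool.Agent.MP_f4742e_al Matrix

section

variable {F : Type*} [Field F]

/-- The pairing of the adapted basis. -/
def sg : Fin 5 → Fin 5 := ![3, 4, 2, 0, 1]

/-- Self-adjoint matrices in the adapted basis. -/
def SA (s : Matrix (Fin 5) (Fin 5) F) : Prop := ∀ i j, s i j = s (sg j) (sg i)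

theorem SA.e33 {s : Matrix (Fin 5) (Fin 5) F} (h : SA s) : s 3 3 = s 0 0 := h 3 3
theorem SA.e44 {s : Matrix (Fin 5) (Fin 5) F} (h : SA s) : s 4 4 = s 1 1 := h 4 4
theorem SA.e34 {s : Matrix (Fin 5) (Fin 5) F} (h : SA s) : s 3 4 = s 1 0 := h 3 4
theorem SA.e43 {s : Matrix (Fin 5) (Fin 5) F} (h : SA s) : s 4 3 = s 0 1 := h 4 3
theorem SA.e32 {s : Matrix (Fin 5) (Fin 5) F} (h : SA s) : s 3 2 = s 2 0 := h 3 2
theorem SA.e42 {s : Matrix (Fin 5) (Fin 5) F} (h : SA s) : s 4 2 = s 2 1 := h 4 2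
theorem SA.e23 {s : Matrix (Fin 5) (Fin 5) F} (h : SA s) : s 2 3 = s 0 2 := h 2 3
theorem SA.e24 {s : Matrix (Fin 5) (Fin 5) F} (h : SA s) : s 2 4 = s 1 2 := h 2 4
theorem SA.e13 {s : Matrix (Fin 5) (Fin 5) F} (h : SA s) : s 1 3 = s 0 4 := h 1 3
theorem SA.e40 {s : Matrix (Fin 5) (Fin 5) F} (h : SA s) : s 4 0 = s 3 1 := h 4 0

/-- A Rota-Baxter operator on the self-adjoint matrices in an adapted basis. -/
structure Adapted (R : Matrix (Fin 5) (Fin 5) F →ₗ[F] Matrix (Fin 5) (Fin 5) F) : Prop where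
  rb : JRB R
  im : ∀ X, SA (R X)
  tr : ∀ i j, R (single i j 1) = R (single (sg j) (sg i) 1)
  one : R 1 = single 0 4 1 + single 1 3 1

theorem single_eq_smul (i j : Fin 5) (c : F) : (single i j c : Matrix (Fin 5) (Fin 5) F) =
    c • single i j 1 := by
  rw [smul_single, smul_eq_mul, mul_one]

theorem mul_single_sum (s : Matrix (Fin 5) (Fin 5) F) (k l : Fin 5) :
    s * single k l 1 = ∑ i, s i k • single i l 1 := by
  ext i j
  rw [Matrix.sum_apply]
  simp only [Matrix.smul_apply, smul_eq_mul]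
  by_cases hj : j = l
  · subst hj
    rw [Matrix.mul_single_apply_same, mul_one, Finset.sum_eq_single i]
    · rw [single_apply_same, mul_one]
    · intro b _ hb
      rw [single_apply_of_row_ne hb, mul_zero]
    · intro h
      exact absurd (Finset.mem_univ _) h
  · rw [Matrix.mul_single_apply_of_ne _ _ _ _ _ hj, Finset.sum_eq_zero]
    intro b _
    rw [single_apply_of_col_ne _ _ (Ne.symm hj), mul_zero]

theorem single_mul_sum (s : Matrix (Fin 5) (Fin 5) F) (k l : Fin 5) :
    single k l 1 * s = ∑ j, s l j • single k j 1 := by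
  ext i j
  rw [Matrix.sum_apply]
  simp only [Matrix.smul_apply, smul_eq_mul]
  by_cases hi : i = k
  · subst hi
    rw [Matrix.single_mul_apply_same, one_mul, Finset.sum_eq_single j]
    · rw [single_apply_same, mul_one]
    · intro b _ hb
      rw [single_apply_of_col_ne _ _ hb, mul_zero]
    · intro h
      exact absurd (Finset.mem_univ _) h
  · rw [Matrix.single_mul_apply_of_ne _ _ _ _ _ hi, Finset.sum_eq_zero]
    intro b _
    rw [single_apply_of_row_ne (Ne.symm hi), mul_zero]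

variable {R : Matrix (Fin 5) (Fin 5) F →ₗ[F] Matrix (Fin 5) (Fin 5) F}

theorem R_mul_single (R : Matrix (Fin 5) (Fin 5) F →ₗ[F] Matrix (Fin 5) (Fin 5) F)
    (s : Matrix (Fin 5) (Fin 5) F) (k l : Fin 5) :
    R (s * single k l 1) = ∑ i, s i k • R (single i l 1) := by
  rw [mul_single_sum, map_sum]
  simp only [map_smul]

theorem R_single_mul (R : Matrix (Fin 5) (Fin 5) F →ₗ[F] Matrix (Fin 5) (Fin 5) F)
    (s : Matrix (Fin 5) (Fin 5) F) (k l : Fin 5) :
    R (single k l 1 * s) = ∑ j, s l j • R (single k j 1) := by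
  rw [single_mul_sum, map_sum]
  simp only [map_smul]

theorem R_sum (R : Matrix (Fin 5) (Fin 5) F →ₗ[F] Matrix (Fin 5) (Fin 5) F)
    (s : Matrix (Fin 5) (Fin 5) F) :
    R s = ∑ i, ∑ j, s i j • R (single i j 1) := by
  conv_lhs => rw [matrix_eq_sum_single s]
  rw [map_sum]
  refine Finset.sum_congr rfl fun i _ => ?_
  rw [map_sum]
  refine Finset.sum_congr rfl fun j _ => ?_
  rw [single_eq_smul, map_smul]

/-- The nilpotent matrix. -/
theorem a_mul_a : ((single 0 4 1 + single 1 3 1 : Matrix (Fin 5) (Fin 5) F)) *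
    (single 0 4 1 + single 1 3 1) = 0 := by
  rw [Matrix.add_mul, Matrix.mul_add, Matrix.mul_add,
    single_mul_single_of_ne _ _ _ _ (by decide), single_mul_single_of_ne _ _ _ _ (by decide),
    single_mul_single_of_ne _ _ _ _ (by decide), single_mul_single_of_ne _ _ _ _ (by decide)]
  simp

theorem a_mul_mul_a (x : Matrix (Fin 5) (Fin 5) F) :
    (single 0 4 1 + single 1 3 1 : Matrix (Fin 5) (Fin 5) F) * x *
    (single 0 4 1 + single 1 3 1) = x 4 1 • single 0 3 1 + x 4 0 • single 0 4 1 +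
      x 3 1 • single 1 3 1 + x 3 0 • single 1 4 1 := by
  rw [Matrix.add_mul, Matrix.mul_add, Matrix.add_mul, Matrix.add_mul]
  rw [single_mul_mul_single, single_mul_mul_single, single_mul_mul_single, single_mul_mul_single]
  simp only [one_mul, mul_one]
  rw [single_eq_smul, single_eq_smul 1 4, single_eq_smul 0 3, single_eq_smul 1 3]
  abel

end

section

variable {F : Type*} [Field F] [CharZero F]
  {R : Matrix (Fin 5) (Fin 5) F →ₗ[F] Matrix (Fin 5) (Fin 5) F}

theorem Adapted.ha (h : Adapted R) : R 1 * R 1 = 0 := by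
  rw [h.one]
  exact a_mul_a

theorem Adapted.R04 (h : Adapted R) : R (single 0 4 1) = 0 := by
  have h1 := R_a h.rb h.ha
  rw [h.one, map_add] at h1
  have h2 : R (single 0 4 1) = R (single 1 3 1) := h.tr 0 4
  rw [← h2, ← two_smul F] at h1
  exact (smul_eq_zero.1 h1).resolve_left two_ne_zero

theorem Adapted.R13 (h : Adapted R) : R (single 1 3 1) = 0 := by
  have h2 : R (single 0 4 1) = R (single 1 3 1) := h.tr 0 4
  rw [← h2, h.R04]

theorem Adapted.R33 (h : Adapted R) : R (single 3 3 1) = R (single 0 0 1) := h.tr 3 3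
theorem Adapted.R44 (h : Adapted R) : R (single 4 4 1) = R (single 1 1 1) := h.tr 4 4
theorem Adapted.R34 (h : Adapted R) : R (single 3 4 1) = R (single 1 0 1) := h.tr 3 4
theorem Adapted.R43 (h : Adapted R) : R (single 4 3 1) = R (single 0 1 1) := h.tr 4 3
theorem Adapted.R32 (h : Adapted R) : R (single 3 2 1) = R (single 2 0 1) := h.tr 3 2
theorem Adapted.R42 (h : Adapted R) : R (single 4 2 1) = R (single 2 1 1) := h.tr 4 2
theorem Adapted.R23 (h : Adapted R) : R (single 2 3 1) = R (single 0 2 1) := h.tr 2 3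
theorem Adapted.R24 (h : Adapted R) : R (single 2 4 1) = R (single 1 2 1) := h.tr 2 4
theorem Adapted.R40 (h : Adapted R) : R (single 4 0 1) = R (single 3 1 1) := h.tr 4 0

/-- The relation `R (a X a) = a (R X) a`. -/
theorem Adapted.RU (h : Adapted R) (X : Matrix (Fin 5) (Fin 5) F) :
    X 4 1 • R (single 0 3 1) + X 3 0 • R (single 1 4 1) =
      R X 4 1 • single 0 3 1 + R X 4 0 • single 0 4 1 + R X 3 1 • single 1 3 1 +
        R X 3 0 • single 1 4 1 := by
  have h1 := R_U h.rb h.ha X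
  rw [h.one, a_mul_mul_a, a_mul_mul_a, map_add, map_add, map_add, map_smul, map_smul, map_smul,
    map_smul, h.R04, h.R13, smul_zero, smul_zero, add_zero, add_zero] at h1
  exact h1

/-- Entries of the relation `R (a X a) = a (R X) a`. -/
theorem Adapted.RU_entries (h : Adapted R) (X : Matrix (Fin 5) (Fin 5) F) :
    R X 4 1 = X 4 1 * R (single 0 3 1) 0 3 + X 3 0 * R (single 1 4 1) 0 3 ∧
    R X 3 1 = X 4 1 * R (single 0 3 1) 0 4 + X 3 0 * R (single 1 4 1) 0 4 ∧
    R X 3 0 = X 4 1 * R (single 0 3 1) 1 4 + X 3 0 * R (single 1 4 1) 1 4 := by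
  have h1 := h.RU X
  have h2 := congrFun (congrFun h1 0) 3
  have h3 := congrFun (congrFun h1 0) 4
  have h4 := congrFun (congrFun h1 1) 4
  simp at h2 h3 h4
  refine ⟨h2.symm, ?_, h4.symm⟩
  rw [h3, (h.im X).e40]

/-- The shape of the images of the top elements. -/
theorem Adapted.top (h : Adapted R) (i j : Fin 5) (hij : (i = 0 ∧ j = 3) ∨ (i = 1 ∧ j = 4)) :
    R (single i j 1) = R (single i j 1) 0 3 • single 0 3 1 +
      R (single i j 1) 0 4 • (single 0 4 1 + single 1 3 1) +
      R (single i j 1) 1 4 • single 1 4 1 := by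
  rcases hij with ⟨rfl, rfl⟩ | ⟨rfl, rfl⟩
  · have h1 := h.RU (single 4 1 1)
    have h2 := h.RU_entries (single 4 1 1)
    simp at h1 h2
    rw [h2.1, h2.2.1, (h.im _).e40, h2.2.1, h2.2.2] at h1
    rw [smul_add, ← add_assoc]
    simpa using h1
  · have h1 := h.RU (single 3 0 1)
    have h2 := h.RU_entries (single 3 0 1)
    simp at h1 h2
    rw [h2.1, h2.2.1, (h.im _).e40, h2.2.1, h2.2.2] at h1
    rw [smul_add, ← add_assoc]
    simpa using h1

end

end Pool.Agent.MP_f4742e_al.H67
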