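import Pool.Agent.Lib.MP_f4742e_al.H67FiveY
import Pool.Agent.Lib.MP_f4742e_al.H67Count

/-!
Self-adjoint `5 × 5` matrices in an adapted basis: the upper triangular and the top elements.
-/

set_option autoImplicit false
set_option linter.unusedSectionVars false
set_option linter.unusedSimpArgs false

namespace Pool.Agent.MP_f4742e_al.H67

open Pool.Agent.MP_f4742e_al Matrix Module

section

variable {F : Type*} [Field F]

/-- The pairing as a permutation. -/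
def sgE : Equiv.Perm (Fin 5) := ⟨sg, sg, by decide, by decide⟩

/-- The adjoint in the adapted basis. -/
def adj (s : Matrix (Fin 5) (Fin 5) F) : Matrix (Fin 5) (Fin 5) F :=
  Matrix.of fun i j => s (sg j) (sg i)

theorem adj_mul (x y : Matrix (Fin 5) (Fin 5) F) : adj (x * y) = adj y * adj x := by
  ext i j
  rw [mul_apply]
  change (x * y) (sg j) (sg i) = ∑ k, y (sg k) (sg i) * x (sg j) (sg k)
  rw [mul_apply, ← Equiv.sum_comp sgE]
  refine Finset.sum_congr rfl fun k _ => ?_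
  rw [mul_comm]
  rfl

theorem adj_add (x y : Matrix (Fin 5) (Fin 5) F) : adj (x + y) = adj x + adj y := rfl

theorem SA_iff (x : Matrix (Fin 5) (Fin 5) F) : SA x ↔ adj x = x := by
  constructor
  · intro h
    ext i j
    exact (h i j).symm
  · intro h i j
    conv_lhs => rw [← h]
    rfl

theorem SA.jp {x y : Matrix (Fin 5) (Fin 5) F} (hx : SA x) (hy : SA y) :
    SA (Pool.Agent.MP_f4742e_al.jp x y) := by
  rw [SA_iff] at hx hy ⊢
  unfold Pool.Agent.MP_f4742e_al.jp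
  rw [adj_add, adj_mul, adj_mul, hx, hy, add_comm]

theorem SA.mul3 {x y : Matrix (Fin 5) (Fin 5) F} (hx : SA x) (hy : SA y) : SA (x * y * x) := by
  rw [SA_iff] at hx hy ⊢
  rw [adj_mul, adj_mul, hx, hy, mul_assoc]

theorem SA.add {x y : Matrix (Fin 5) (Fin 5) F} (hx : SA x) (hy : SA y) : SA (x + y) := by
  intro i j
  rw [Matrix.add_apply, Matrix.add_apply, hx i j, hy i j]

theorem SA.smul {x : Matrix (Fin 5) (Fin 5) F} (c : F) (hx : SA x) : SA (c • x) := by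
  intro i j
  rw [Matrix.smul_apply, Matrix.smul_apply, hx i j]

theorem SA.zero : SA (0 : Matrix (Fin 5) (Fin 5) F) := by
  intro i j
  rfl

/-- The self-adjoint matrices. -/
def Dm (F : Type*) [Field F] : Submodule F (Matrix (Fin 5) (Fin 5) F) where
  carrier := {s | SA s}
  add_mem' := fun hx hy => SA.add hx hy
  zero_mem' := SA.zero
  smul_mem' := fun c _ hx => SA.smul c hx

/-- The upper triangular self-adjoint matrices. -/
def Qm (F : Type*) [Field F] : Submodule F (Matrix (Fin 5) (Fin 5) F) where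
  carrier := {s | SA s ∧ s 2 0 = 0 ∧ s 2 1 = 0 ∧ s 3 0 = 0 ∧ s 3 1 = 0 ∧ s 4 1 = 0}
  add_mem' := by
    rintro x y ⟨hx, h1, h2, h3, h4, h5⟩ ⟨hy, k1, k2, k3, k4, k5⟩
    refine ⟨SA.add hx hy, ?_⟩
    simp [h1, h2, h3, h4, h5, k1, k2, k3, k4, k5]
  zero_mem' := ⟨SA.zero, rfl, rfl, rfl, rfl, rfl⟩
  smul_mem' := by
    rintro c x ⟨hx, h1, h2, h3, h4, h5⟩
    refine ⟨SA.smul c hx, ?_⟩
    simp [h1, h2, h3, h4, h5]

/-- The top elements. -/
def Pm (F : Type*) [Field F] : Submodule F (Matrix (Fin 5) (Fin 5) F) where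
  carrier := {s | s ∈ Qm F ∧ s 0 0 = 0 ∧ s 0 1 = 0 ∧ s 1 0 = 0 ∧ s 1 1 = 0 ∧ s 2 2 = 0 ∧
    s 0 2 = 0 ∧ s 1 2 = 0}
  add_mem' := by
    rintro x y ⟨hx, h1, h2, h3, h4, h5, h6, h7⟩ ⟨hy, k1, k2, k3, k4, k5, k6, k7⟩
    refine ⟨(Qm F).add_mem hx hy, ?_⟩
    simp [h1, h2, h3, h4, h5, h6, h7, k1, k2, k3, k4, k5, k6, k7]
  zero_mem' := ⟨(Qm F).zero_mem, rfl, rfl, rfl, rfl, rfl, rfl, rfl⟩
  smul_mem' := by
    rintro c x ⟨hx, h1, h2, h3, h4, h5, h6, h7⟩
    refine ⟨(Qm F).smul_mem c hx, ?_⟩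
    simp [h1, h2, h3, h4, h5, h6, h7]

theorem mem_Qm {s : Matrix (Fin 5) (Fin 5) F} : s ∈ Qm F ↔ SA s ∧ s 2 0 = 0 ∧ s 2 1 = 0 ∧
    s 3 0 = 0 ∧ s 3 1 = 0 ∧ s 4 1 = 0 := Iff.rfl

theorem mem_Pm {s : Matrix (Fin 5) (Fin 5) F} : s ∈ Pm F ↔ s ∈ Qm F ∧ s 0 0 = 0 ∧ s 0 1 = 0 ∧
    s 1 0 = 0 ∧ s 1 1 = 0 ∧ s 2 2 = 0 ∧ s 0 2 = 0 ∧ s 1 2 = 0 := Iff.rfl

theorem Pm_le_Qm : Pm F ≤ Qm F := fun _ h => h.1

theorem Qm_le_Dm : Qm F ≤ Dm F := fun _ h => h.1

/-- Top elements in terms of matrix units. -/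
theorem Pm_eq {s : Matrix (Fin 5) (Fin 5) F} (h : s ∈ Pm F) : s = s 0 3 • single 0 3 1 +
    s 0 4 • (single 0 4 1 + single 1 3 1) + s 1 4 • single 1 4 1 := by
  obtain ⟨⟨hs, h1, h2, h3, h4, h5⟩, k1, k2, k3, k4, k5, k6, k7⟩ := h
  ext i j
  fin_cases i <;> fin_cases j <;>
    simp [h1, h2, h3, h4, h5, k1, k2, k3, k4, k5, k6, k7, hs.e33, hs.e44, hs.e34, hs.e43, hs.e32,
      hs.e42, hs.e40, hs.e13, hs.e23, hs.e24]

theorem jp_mem_Qm {x y : Matrix (Fin 5) (Fin 5) F} (hx : x ∈ Qm F) (hy : y ∈ Qm F) :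
    jp x y ∈ Qm F := by
  obtain ⟨hs, h1, h2, h3, h4, h5⟩ := hx
  obtain ⟨ks, k1, k2, k3, k4, k5⟩ := hy
  refine ⟨hs.jp ks, ?_⟩
  unfold jp
  simp [mul_apply, Fin.sum_univ_five, h1, h2, h3, h4, h5, k1, k2, k3, k4, k5, hs.e32, hs.e42,
    hs.e40, ks.e32, ks.e42, ks.e40]

theorem jp_mem_Pm {x y : Matrix (Fin 5) (Fin 5) F} (hx : x ∈ Qm F) (hy : y ∈ Pm F) :
    jp x y ∈ Pm F := by
  refine ⟨jp_mem_Qm hx (Pm_le_Qm hy), ?_⟩
  obtain ⟨hs, h1, h2, h3, h4, h5⟩ := hx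
  obtain ⟨⟨ks, k1, k2, k3, k4, k5⟩, l1, l2, l3, l4, l5, l6, l7⟩ := hy
  unfold jp
  simp [mul_apply, Fin.sum_univ_five, h1, h2, h3, h4, h5, k1, k2, k3, k4, k5, hs.e32, hs.e42,
    hs.e40, ks.e32, ks.e42, ks.e40, l1, l2, l3, l4, l5, l6, l7]

/-- The products of top elements vanish. -/
theorem Pm_mul_self {x : Matrix (Fin 5) (Fin 5) F} (hx : x ∈ Pm F) : x * x = 0 := by
  have h := Pm_eq hx
  rw [h]
  ext i j
  fin_cases i <;> fin_cases j <;> simp [mul_apply, Fin.sum_univ_five]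

theorem Pm_mul_a {x : Matrix (Fin 5) (Fin 5) F} (hx : x ∈ Pm F) :
    x * (single 0 4 1 + single 1 3 1) = 0 := by
  have h := Pm_eq hx
  rw [h]
  ext i j
  fin_cases i <;> fin_cases j <;> simp [mul_apply, Fin.sum_univ_five]

theorem a_mul_Pm {x : Matrix (Fin 5) (Fin 5) F} (hx : x ∈ Pm F) :
    (single 0 4 1 + single 1 3 1) * x = 0 := by
  have h := Pm_eq hx
  rw [h]
  ext i j
  fin_cases i <;> fin_cases j <;> simp [mul_apply, Fin.sum_univ_five]

theorem a_mem_Pm : (single 0 4 1 + single 1 3 1 : Matrix (Fin 5) (Fin 5) F) ∈ Pm F := by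
  refine ⟨⟨?_, ?_⟩, ?_⟩
  · intro i j
    fin_cases i <;> fin_cases j <;> simp [sg]
  · simp
  · simp

theorem finrank_Qm : finrank F (Qm F) ≤ 10 := by
  let c : Qm F →ₗ[F] (Fin 10 → F) :=
    { toFun := fun s => ![s.1 0 0, s.1 0 1, s.1 1 0, s.1 1 1, s.1 2 2, s.1 0 2, s.1 1 2, s.1 0 3,
        s.1 0 4, s.1 1 4]
      map_add' := by
        intro x y
        ext i
        fin_cases i <;> rfl
      map_smul' := by
        intro r x
        ext i
        fin_cases i <;> rfl }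
  have hc : Function.Injective c := by
    rw [← LinearMap.ker_eq_bot, eq_bot_iff]
    intro s hs
    rw [LinearMap.mem_ker] at hs
    have h0 : s.1 0 0 = 0 := congrFun hs 0
    have h1 : s.1 0 1 = 0 := congrFun hs 1
    have h2 : s.1 1 0 = 0 := congrFun hs 2
    have h3 : s.1 1 1 = 0 := congrFun hs 3
    have h4 : s.1 2 2 = 0 := congrFun hs 4
    have h5 : s.1 0 2 = 0 := congrFun hs 5
    have h6 : s.1 1 2 = 0 := congrFun hs 6
    have h7 : s.1 0 3 = 0 := congrFun hs 7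
    have h8 : s.1 0 4 = 0 := congrFun hs 8
    have h9 : s.1 1 4 = 0 := congrFun hs 9
    rw [Submodule.mem_bot]
    apply Subtype.ext
    rw [Pm_eq (s := s.1) ⟨s.2, h0, h1, h2, h3, h4, h5, h6⟩, h7, h8, h9]
    simp
  have := LinearMap.finrank_le_finrank_of_injective hc
  rwa [finrank_fin_fun] at this

theorem finrank_Pm : 3 ≤ finrank F (Pm F) := by
  let c : (Fin 3 → F) →ₗ[F] Pm F :=
    { toFun := fun v => ⟨v 0 • single 0 3 1 + v 1 • (single 0 4 1 + single 1 3 1) +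
        v 2 • single 1 4 1, by
          refine ⟨⟨?_, ?_⟩, ?_⟩
          · intro i j
            fin_cases i <;> fin_cases j <;> simp [sg]
          · simp
          · simp⟩
      map_add' := by
        intro x y
        apply Subtype.ext
        simp only [Pi.add_apply, Submodule.coe_add]
        module
      map_smul' := by
        intro r x
        apply Subtype.ext
        simp only [Pi.smul_apply, smul_eq_mul, RingHom.id_apply, Submodule.coe_smul]
        module }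
  have hc : Function.Injective c := by
    intro v w hvw
    have h1 : (c v).1 = (c w).1 := by rw [hvw]
    have e0 := congrFun (congrFun h1 0) 3
    have e1 := congrFun (congrFun h1 0) 4
    have e2 := congrFun (congrFun h1 1) 4
    simp [c] at e0 e1 e2
    ext i
    fin_cases i
    · exact e0
    · exact e1
    · exact e2
  have := LinearMap.finrank_le_finrank_of_injective hc
  rwa [finrank_fin_fun] at this

end

end Pool.Agent.MP_f4742e_al.H67
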