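import Pool.Agent.Lib.MP_f4742e_al.H67Five

/-!
Rota-Baxter operators of weight zero on the self-adjoint `5 × 5` matrices in an adapted basis:
the elements of the image of `R R`.
-/

set_option autoImplicit false
set_option linter.unusedSectionVars false

namespace Pool.Agent.MP_f4742e_al.H67

open Pool.Agent.MP_f4742e_al Matrix

section

variable {F : Type*} [Field F] [CharZero F]
  {R : Matrix (Fin 5) (Fin 5) F →ₗ[F] Matrix (Fin 5) (Fin 5) F}

theorem Adapted.low_zero (h : Adapted R) {Y x : Matrix (Fin 5) (Fin 5) F} (hY : Y = R (R x)) :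
    Y 3 0 = 0 ∧ Y 3 1 = 0 ∧ Y 4 1 = 0 := by
  have h1 := U_two h.rb h.ha x
  rw [← hY, h.one, a_mul_mul_a] at h1
  have h2 := congrFun (congrFun h1 0) 3
  have h3 := congrFun (congrFun h1 1) 3
  have h4 := congrFun (congrFun h1 1) 4
  simp at h2 h3 h4
  exact ⟨h4, h3, h2⟩

/-- Elements of the image of `R R` are upper triangular. -/
theorem Adapted.upper (h : Adapted R) {Y x : Matrix (Fin 5) (Fin 5) F} (hY : Y = R (R x)) :
    Y 3 0 = 0 ∧ Y 3 1 = 0 ∧ Y 4 1 = 0 ∧ Y 2 0 = 0 ∧ Y 2 1 = 0 := by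
  have hs : SA Y := by
    rw [hY]
    exact h.im _
  obtain ⟨h1, h2, h3⟩ := h.low_zero hY
  obtain ⟨w, hw⟩ := sq_mem2 h.rb x
  rw [← hY] at hw
  obtain ⟨h4, -, h6⟩ := h.low_zero hw
  rw [mul_apply, Fin.sum_univ_five, h1, h2, hs.e32, hs.e34, hs.e40, h2] at h4
  rw [mul_apply, Fin.sum_univ_five, h3, h2, hs.e40, h2, hs.e42] at h6
  refine ⟨h1, h2, h3, ?_, ?_⟩
  · have : Y 2 0 * Y 2 0 = 0 := by linear_combination h4
    exact mul_self_eq_zero.1 this
  · have : Y 2 1 * Y 2 1 = 0 := by linear_combination h6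
    exact mul_self_eq_zero.1 this

/-- Elements of the image of `R R` commute with `a`. -/
theorem Adapted.diag_eq (h : Adapted R) {Y x : Matrix (Fin 5) (Fin 5) F} (hY : Y = R (R x)) :
    Y 1 1 = Y 0 0 := by
  have hs : SA Y := by
    rw [hY]
    exact h.im _
  obtain ⟨h1, h2, h3, h4, h5⟩ := h.upper hY
  have h6 := comm_sq h.rb h.ha hY
  rw [h.one] at h6
  have h7 := congrFun (congrFun h6 0) 4
  simp [mul_apply, Fin.sum_univ_five, Matrix.add_mul, Matrix.mul_add,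
    h1, h2, h3, h4, h5, hs.e33, hs.e44, hs.e34, hs.e43, hs.e32, hs.e42, hs.e40] at h7
  have h8 : (Y 1 1 - Y 0 0) * (Y 1 1 - Y 0 0) = 0 := by linear_combination h7
  exact sub_eq_zero.1 (mul_self_eq_zero.1 h8)

/-- The product of `a` with an upper triangular self-adjoint matrix. -/
theorem a_mul_upper {Y : Matrix (Fin 5) (Fin 5) F} (hs : SA Y) (h1 : Y 3 0 = 0)
    (h2 : Y 3 1 = 0) (h3 : Y 4 1 = 0) (h4 : Y 2 0 = 0) (h5 : Y 2 1 = 0) :
    (single 0 4 1 + single 1 3 1 : Matrix (Fin 5) (Fin 5) F) * Y =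
      Y 0 1 • single 0 3 1 + Y 1 1 • single 0 4 1 + Y 0 0 • single 1 3 1 +
        Y 1 0 • single 1 4 1 := by
  rw [Matrix.add_mul, single_mul_sum, single_mul_sum, Fin.sum_univ_five, Fin.sum_univ_five,
    h1, h2, h3, hs.e40, h2, hs.e42, h5, hs.e32, h4, hs.e43, hs.e44, hs.e33, hs.e34]
  module

theorem upper_mul_a {Y : Matrix (Fin 5) (Fin 5) F} (hs : SA Y) (h1 : Y 3 0 = 0)
    (h2 : Y 3 1 = 0) (h3 : Y 4 1 = 0) (h4 : Y 2 0 = 0) (h5 : Y 2 1 = 0) :
    Y * (single 0 4 1 + single 1 3 1 : Matrix (Fin 5) (Fin 5) F) =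
      Y 0 1 • single 0 3 1 + Y 0 0 • single 0 4 1 + Y 1 1 • single 1 3 1 +
        Y 1 0 • single 1 4 1 := by
  rw [Matrix.mul_add, mul_single_sum, mul_single_sum, Fin.sum_univ_five, Fin.sum_univ_five,
    h1, h2, h3, hs.e40, h2, h4, h5]
  module

theorem Adapted.comm (h : Adapted R) {Y x : Matrix (Fin 5) (Fin 5) F} (hY : Y = R (R x)) :
    R 1 * Y = Y * R 1 := by
  have hs : SA Y := by
    rw [hY]
    exact h.im _
  obtain ⟨h1, h2, h3, h4, h5⟩ := h.upper hY
  rw [h.one, a_mul_upper hs h1 h2 h3 h4 h5, upper_mul_a hs h1 h2 h3 h4 h5, h.diag_eq hY]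

theorem Adapted.R_Y (h : Adapted R) {Y x : Matrix (Fin 5) (Fin 5) F} (hY : Y = R (R x)) :
    R Y = R 1 * Y := by
  have h1 := R_two h.rb h.ha x
  rw [← hY] at h1
  unfold jp at h1
  rw [← h.comm hY, ← two_smul F] at h1
  exact two_inj h1

/-- `R Y` for `Y` in the image of `R R`. -/
theorem Adapted.R_Y_eq (h : Adapted R) {Y x : Matrix (Fin 5) (Fin 5) F} (hY : Y = R (R x)) :
    R Y = Y 0 1 • single 0 3 1 + Y 0 0 • (single 0 4 1 + single 1 3 1) +
      Y 1 0 • single 1 4 1 := by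
  have hs : SA Y := by
    rw [hY]
    exact h.im _
  obtain ⟨h1, h2, h3, h4, h5⟩ := h.upper hY
  rw [h.R_Y hY, h.one, a_mul_upper hs h1 h2 h3 h4 h5, h.diag_eq hY]
  module

/-- A consequence of `not_range`. -/
theorem Adapted.not_scalar (h : Adapted R) {Y x : Matrix (Fin 5) (Fin 5) F} (hY : Y = R (R x))
    (c : F) (hc : R Y = c • R 1) : c = 0 := by
  by_contra hne
  have h10 := not_range h.rb 1 (by
    rw [pow_one, h.one]
    intro h11
    have h12 := congrFun (congrFun h11 0) 4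
    simp at h12) (c⁻¹ • x)
  apply h10
  rw [pow_one, map_smul, pow_succ, pow_succ, pow_one, Module.End.mul_apply, Module.End.mul_apply,
    ← hY, hc, smul_smul, inv_mul_cancel₀ hne, one_smul]

theorem Adapted.not_diag (h : Adapted R) {Y x : Matrix (Fin 5) (Fin 5) F} (hY : Y = R (R x))
    (h01 : Y 0 1 = 0) (h10 : Y 1 0 = 0) : R Y = 0 := by
  have h1 := h.R_Y_eq hY
  rw [h01, h10, zero_smul, zero_smul, zero_add, add_zero, ← h.one] at h1
  rw [h1, h.not_scalar hY _ h1, zero_smul]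

/-- `R` commutes with multiplication by `Y` on the top elements. -/
theorem Adapted.comm_top (h : Adapted R) {Y x : Matrix (Fin 5) (Fin 5) F} (hY : Y = R (R x))
    (t : Matrix (Fin 5) (Fin 5) F) (ht : R (R t) = 0) : R (jp Y t) = jp Y (R t) := by
  have h1 := h.rb (R x) t
  rw [← hY, map_add, jp_comm (R x) (R t), ker_one h.rb ht, add_zero] at h1
  exact h1.symm

theorem Adapted.RR03 (h : Adapted R) : R (R (single 0 3 1)) = 0 := by
  have h1 := R_R_U h.rb h.ha (single 4 1 1)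
  rw [h.one, a_mul_mul_a] at h1
  simpa using h1

theorem Adapted.RR14 (h : Adapted R) : R (R (single 1 4 1)) = 0 := by
  have h1 := R_R_U h.rb h.ha (single 3 0 1)
  rw [h.one, a_mul_mul_a] at h1
  simpa using h1

end

end Pool.Agent.MP_f4742e_al.H67
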