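import Pool.Agent.Lib.MP_f4742e_al.H67FiveSub

/-!
Rota-Baxter operators of weight zero on the self-adjoint `5 × 5` matrices in an adapted basis:
the case where the restriction to the top elements vanishes.
-/

set_option autoImplicit false
set_option linter.unusedSectionVars false
set_option linter.unusedSimpArgs false

namespace Pool.Agent.MP_f4742e_al.H67

open Pool.Agent.MP_f4742e_al Matrix Module

section

variable {F : Type*} [Field F] [CharZero F]
  {R : Matrix (Fin 5) (Fin 5) F →ₗ[F] Matrix (Fin 5) (Fin 5) F}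

/-- Half of the Jordan multiplication by `a`. -/
def La (F : Type*) [Field F] : Matrix (Fin 5) (Fin 5) F →ₗ[F] Matrix (Fin 5) (Fin 5) F :=
  (2 : F)⁻¹ • (LinearMap.mulLeft F (single 0 4 1 + single 1 3 1) +
    LinearMap.mulRight F (single 0 4 1 + single 1 3 1))

omit [CharZero F] in
theorem La_apply (x : Matrix (Fin 5) (Fin 5) F) :
    La F x = (2 : F)⁻¹ • jp (single 0 4 1 + single 1 3 1) x := rfl

omit [CharZero F] in
theorem La_mem_Qm {x : Matrix (Fin 5) (Fin 5) F} (hx : SA x) : La F x ∈ Qm F := by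
  rw [La_apply]
  apply Submodule.smul_mem
  refine ⟨a_mem_Pm.1.1.jp hx, ?_⟩
  unfold jp
  simp [mul_apply, Fin.sum_univ_five]

omit [CharZero F] in
theorem La_mem_Pm {x : Matrix (Fin 5) (Fin 5) F} (hx : x ∈ Qm F) : La F x ∈ Pm F := by
  rw [La_apply]
  apply Submodule.smul_mem
  rw [jp_comm]
  exact jp_mem_Pm hx a_mem_Pm

theorem La_La (x : Matrix (Fin 5) (Fin 5) F) : La F (La F x) =
    (2 : F)⁻¹ • ((single 0 4 1 + single 1 3 1) * x * (single 0 4 1 + single 1 3 1)) := by
  rw [La_apply, La_apply]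
  have h1 : ∀ a : Matrix (Fin 5) (Fin 5) F, a * a = 0 → jp a (jp a x) = (2 : F) • (a * x * a) := by
    intro a ha
    unfold jp
    have e1 : a * (a * x + x * a) + (a * x + x * a) * a =
        (a * a) * x + (a * x * a + a * x * a) + x * (a * a) := by noncomm_ring
    rw [e1, ha, zero_mul, mul_zero, zero_add, add_zero, two_smul]
  rw [jp_smul, h1 _ a_mul_a, smul_smul, smul_smul]
  norm_num

section

variable (h : Adapted R) (h03 : R (single 0 3 1) = 0) (h14 : R (single 1 4 1) = 0)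

include h h03 h14

theorem Adapted.z1 (X : Matrix (Fin 5) (Fin 5) F) : R X ∈ Qm F := by
  have hs := h.im X
  have key : ∀ Z : Matrix (Fin 5) (Fin 5) F, R Z 4 1 = 0 ∧ R Z 3 1 = 0 ∧ R Z 3 0 = 0 := by
    intro Z
    have h1 := h.RU_entries Z
    rw [h03, h14] at h1
    simpa using h1
  obtain ⟨h1, h2, h3⟩ := key X
  obtain ⟨k1, k2, k3⟩ := key (jp (R X) X)
  rw [← sq_mem h.rb, mul_apply, Fin.sum_univ_five] at k1 k3
  rw [h1, h2, hs.e40, h2, hs.e42] at k1
  rw [h2, h3, hs.e40, h2, hs.e32] at k3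
  refine ⟨hs, ?_, ?_, h3, h2, h1⟩
  · have : R X 2 0 * R X 2 0 = 0 := by linear_combination k3
    exact mul_self_eq_zero.1 this
  · have : R X 2 1 * R X 2 1 = 0 := by linear_combination k1
    exact mul_self_eq_zero.1 this

theorem Adapted.z2 {x : Matrix (Fin 5) (Fin 5) F} (hx : x ∈ Pm F) : R x = 0 := by
  have h1 := Pm_eq hx
  rw [h1, map_add, map_add, map_smul, map_smul, map_smul, map_add, h03, h14, h.R04, h.R13]
  simp

theorem Adapted.z3 (x : Matrix (Fin 5) (Fin 5) F) :
    R (R x) = La F (R x) - R (La F x) := by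
  have h1 := rel2 h.rb x
  rw [h.one] at h1
  apply two_inj (F := F)
  rw [h1, La_apply, La_apply, map_smul, smul_sub, smul_smul, smul_smul,
    mul_inv_cancel₀ two_ne_zero, one_smul, one_smul]

/-- The dimension count. -/
theorem Adapted.z4 : finrank F (((Qm F).map R).map (Pm F).mkQ) ≤ 1 := by
  have h1 := count R (La F) (Dm F) (Qm F) (Pm F) 1 Pm_le_Qm Qm_le_Dm
    (fun x hx => h.z2 h03 h14 hx) ?_ (fun x hx => La_mem_Pm hx) (fun x _ => h.z1 h03 h14 x)
    (fun x hx => La_mem_Qm hx) ?_ ?_ ?_ (fun x _ => h.z3 h03 h14 x) ?_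
  · have h2 := finrank_Qm (F := F)
    have h3 := finrank_Pm (F := F)
    omega
  · intro x hx
    rw [La_apply]
    unfold jp
    rw [Pm_mul_a hx, a_mul_Pm hx, add_zero, smul_zero]
  · refine ⟨?_, ?_⟩
    · intro i j
      fin_cases i <;> fin_cases j <;> simp [sg, one_apply]
    · simp [one_apply]
  · rw [h.one, La_apply, jp_one, ← two_smul F, smul_smul, inv_mul_cancel₀ two_ne_zero, one_smul]
  · intro x _ hx
    obtain ⟨p, hp⟩ : ∃ p, p = 1 - R x := ⟨_, rfl⟩
    rw [← hp] at hx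
    have h2 := Pm_mul_self hx
    have h3 : R x = 1 - p := by rw [hp]; abel
    have h4 : (1 : Matrix (Fin 5) (Fin 5) F) = R ((2 : F) • x - jp (R x) x) := by
      have e1 : (1 - p) * (1 - p) = 1 - p - p + p * p := by noncomm_ring
      rw [map_sub, map_smul, ← sq_mem h.rb, h3, e1, h2, two_smul]
      abel
    have h5 := sq_mem h.rb ((2 : F) • x - jp (R x) x)
    rw [← h4, one_jp, map_add, ← h4, one_mul] at h5
    have h6 := congrFun (congrFun h5 0) 0
    simp at h6
  · intro p hp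
    refine ⟨(2 : F) • (p 0 3 • single 4 1 1 + p 0 4 • (single 4 0 1 + single 3 1 1) +
      p 1 4 • single 3 0 1), ?_, ?_⟩
    · intro i j
      fin_cases i <;> fin_cases j <;> simp [sg]
    · rw [La_La, a_mul_mul_a]
      conv_rhs => rw [Pm_eq hp]
      simp
      rw [add_assoc]

/-- The images of upper triangular elements are multiples of one of them, up to top elements. -/
theorem Adapted.z5 {Y x : Matrix (Fin 5) (Fin 5) F} (hY : Y = R (R x)) (hne : R Y ≠ 0)
    {q : Matrix (Fin 5) (Fin 5) F} (hq : q ∈ Qm F) : ∃ c : F, R q - c • Y ∈ Pm F := by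
  have h1 := h.z4 h03 h14
  rw [finrank_le_one_iff] at h1
  obtain ⟨v, hv⟩ := h1
  have hYm : (Pm F).mkQ Y ∈ ((Qm F).map R).map (Pm F).mkQ := by
    refine ⟨Y, ⟨R x, h.z1 h03 h14 x, hY.symm⟩, rfl⟩
  have hqm : (Pm F).mkQ (R q) ∈ ((Qm F).map R).map (Pm F).mkQ := ⟨R q, ⟨q, hq, rfl⟩, rfl⟩
  obtain ⟨c1, hc1⟩ := hv ⟨_, hYm⟩
  obtain ⟨c2, hc2⟩ := hv ⟨_, hqm⟩
  have hc1' : c1 • v.1 = (Pm F).mkQ Y := congrArg Subtype.val hc1
  have hc2' : c2 • v.1 = (Pm F).mkQ (R q) := congrArg Subtype.val hc2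
  have hc0 : c1 ≠ 0 := by
    rintro rfl
    rw [zero_smul] at hc1'
    apply hne
    apply h.z2 h03 h14
    rw [← Submodule.Quotient.mk_eq_zero, ← Submodule.mkQ_apply, ← hc1']
  refine ⟨c2 * c1⁻¹, ?_⟩
  rw [← Submodule.Quotient.mk_eq_zero, ← Submodule.mkQ_apply, map_sub, map_smul, ← hc1', ← hc2',
    smul_smul, mul_assoc, inv_mul_cancel₀ hc0, mul_one, sub_self]

/-- Multiplication by `Y` commutes with `R` on the elements with image in the top. -/
theorem Adapted.z6 {Y x : Matrix (Fin 5) (Fin 5) F} (hY : Y = R (R x))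
    {u : Matrix (Fin 5) (Fin 5) F} (hRu : R u ∈ Pm F) : R (jp Y u) = jp Y (R u) := by
  have h1 := h.rb (R x) u
  rw [← hY, map_add, h.z2 h03 h14 (jp_mem_Pm (h.z1 h03 h14 x) hRu), add_zero] at h1
  exact h1.symm

theorem Adapted.z7 {Y x : Matrix (Fin 5) (Fin 5) F} (hY : Y = R (R x))
    {u : Matrix (Fin 5) (Fin 5) F} (hRu : R u ∈ Pm F) : R (Y * u * Y) = Y * R u * Y := by
  have h1 := h.z6 h03 h14 hY hRu
  have hYQ : Y ∈ Qm F := by
    rw [hY]
    exact h.z1 h03 h14 _
  have h2 : R (jp Y (jp Y u)) = jp Y (jp Y (R u)) := by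
    rw [h.z6 h03 h14 hY, h1]
    rw [h1]
    exact jp_mem_Pm hYQ hRu
  obtain ⟨w, hw⟩ := sq_mem2 h.rb x
  rw [← hY] at hw
  have h3 : R (jp (Y * Y) u) = jp (Y * Y) (R u) := h.z6 h03 h14 hw hRu
  have h4 : ∀ v : Matrix (Fin 5) (Fin 5) F, (2 : F) • (Y * v * Y) =
      jp Y (jp Y v) - jp (Y * Y) v := by
    intro v
    unfold jp
    rw [two_smul]
    noncomm_ring
  apply two_inj (F := F)
  rw [← map_smul, h4, h4, map_sub, h2, h3]

/-- The final contradiction. -/
theorem Adapted.z8 {k : Matrix (Fin 5) (Fin 5) F} (hk : k ∈ Qm F) (hk22 : k 2 2 = 0) (η : F)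
    (hsq : k * k - η • k ∈ Pm F) (hd : k 1 1 = k 0 0) (hne : k 0 1 ≠ 0 ∨ k 1 0 ≠ 0)
    (hRk : R k = R 1 * k) (hU : ∀ u ∈ Qm F, R u ∈ Pm F → R (k * u * k) = k * R u * k) :
    False := by
  obtain ⟨ks, k1, k2, k3, k4, k5⟩ := hk
  obtain ⟨hk', e1, e2, e3, e4, e5, e6, e7⟩ := hsq
  simp [mul_apply, Fin.sum_univ_five, k1, k2, k3, k4, k5, hk22, ks.e32, ks.e42, ks.e40, hd] at e1 e2 e3 e4 e6 e7
  have hη : η = 2 * k 0 0 := by
    rcases hne with h1 | h1
    · apply mul_right_cancel₀ h1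
      linear_combination -e2
    · apply mul_right_cancel₀ h1
      linear_combination -e3
  rw [hη] at e1 e2 e3 e4 e6 e7
  have hpq : k 0 1 * k 1 0 = k 0 0 * k 0 0 := by linear_combination e1
  have h02 : k 0 1 * k 1 2 = k 0 0 * k 0 2 := by linear_combination e6
  have h12 : k 1 0 * k 0 2 = k 0 0 * k 1 2 := by linear_combination e7
  -- the quadratic operator
  have key : ∀ u ∈ Qm F, ∃ c : F, k * u * k - c • k ∈ Pm F := by
    rintro u ⟨us, u1, u2, u3, u4, u5⟩
    refine ⟨k 0 0 * u 0 0 + k 1 0 * u 0 1 + k 0 1 * u 1 0 + k 0 0 * u 1 1, ⟨?_, ?_⟩, ?_⟩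
    · intro i j
      have f1 := (ks.mul3 us) i j
      have f2 := ks i j
      rw [Matrix.sub_apply, Matrix.sub_apply, Matrix.smul_apply, Matrix.smul_apply, f1, f2]
    · simp [mul_apply, Fin.sum_univ_five, k1, k2, k3, k4, k5, hk22, ks.e32, ks.e42, ks.e40, hd,
        u1, u2, u3, u4, u5, us.e32, us.e42, us.e40]
    · simp only [Matrix.sub_apply, Matrix.smul_apply, mul_apply, Fin.sum_univ_five, k1, k2, k3, k4,
        k5, hk22, ks.e32, ks.e42, ks.e40, hd, u1, u2, u3, u4, u5, us.e32, us.e42, us.e40,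
        smul_eq_mul]
      refine ⟨?_, ?_, ?_, ?_, ?_, ?_, ?_⟩
      · linear_combination (u 1 1) * hpq
      · linear_combination (-(u 0 1)) * hpq
      · linear_combination (-(u 1 0)) * hpq
      · linear_combination (u 0 0) * hpq
      · ring
      · linear_combination (-(u 0 1)) * h12 + u 1 1 * h02
      · linear_combination (u 0 0) * h12 - u 1 0 * h02
  -- the product with `a`
  obtain ⟨a, ha⟩ : ∃ a : Matrix (Fin 5) (Fin 5) F, a = single 0 4 1 + single 1 3 1 := ⟨_, rfl⟩
  have haa : a * a = 0 := by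
    rw [ha]
    exact a_mul_a
  have hak : a * k = k 0 1 • single 0 3 1 + k 0 0 • single 0 4 1 + k 0 0 • single 1 3 1 +
      k 1 0 • single 1 4 1 := by
    rw [ha, a_mul_upper ks k3 k4 k5 k1 k2, hd]
  have hka : k * a = a * k := by
    rw [hak, ha, upper_mul_a ks k3 k4 k5 k1 k2, hd]
  obtain ⟨z, hz⟩ : ∃ z, z = a * k := ⟨_, rfl⟩
  have haz : a * z = 0 := by rw [hz, ← mul_assoc, haa, zero_mul]
  have hza : z * a = 0 := by rw [hz, mul_assoc, hka, ← mul_assoc, haa, zero_mul]
  have hzfz : ∀ f : Matrix (Fin 5) (Fin 5) F, SA f → z * f * z = 0 := by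
    intro f hf
    obtain ⟨W, hW⟩ : ∃ W, W = R f := ⟨_, rfl⟩
    have hWQ : W ∈ Qm F := by
      rw [hW]
      exact h.z1 h03 h14 f
    have hu : (2 : F) • W + jp a f ∈ Qm F := by
      apply Submodule.add_mem _ (Submodule.smul_mem _ _ hWQ)
      have h1 := La_mem_Qm hf
      rw [La_apply, ← ha] at h1
      have h2 := Submodule.smul_mem _ (2 : F) h1
      rwa [smul_smul, mul_inv_cancel₀ two_ne_zero, one_smul] at h2
    have hRu : R ((2 : F) • W + jp a f) = jp a W := by
      have h1 := rel2 h.rb f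
      rw [h.one, ← ha, ← hW] at h1
      rw [map_add, map_smul, h1, sub_add_cancel]
    have hRuP : R ((2 : F) • W + jp a f) ∈ Pm F := by
      rw [hRu, jp_comm, ha]
      exact jp_mem_Pm hWQ a_mem_Pm
    obtain ⟨c, hc⟩ := key _ hu
    have hA := hU _ hu hRuP
    have hA1 : R (k * ((2 : F) • W + jp a f) * k) = c • z := by
      have h1 := h.z2 h03 h14 hc
      rw [map_sub, map_smul, hRk, h.one, ← ha, ← hz, sub_eq_zero] at h1
      exact h1
    rw [hA1, hRu] at hA
    have hB := Pm_mul_a hc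
    have hC := a_mul_Pm hc
    rw [← ha] at hB hC
    have e8 : c • z = z * W * k + k * W * z := by
      rw [hA]
      unfold jp
      have : k * (a * W + W * a) * k = (k * a) * W * k + k * W * (a * k) := by noncomm_ring
      rw [this, hka, ← hz]
    have e9 : c • z = (2 : F) • (k * W * z) + z * f * z := by
      have h1 : (k * ((2 : F) • W + jp a f) * k - c • k) * a =
          (2 : F) • (k * W * (k * a)) + (k * a) * f * (k * a) + k * f * (a * (k * a)) -
          c • (k * a) := by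
        unfold jp
        simp only [Matrix.sub_mul, Matrix.mul_add, Matrix.add_mul, smul_mul_assoc, mul_smul_comm,
          mul_assoc]
        abel
      rw [h1, hka, ← hz, haz, mul_zero, add_zero, sub_eq_zero] at hB
      exact hB.symm
    have e10 : c • z = (2 : F) • (z * W * k) + z * f * z := by
      have h1 : a * (k * ((2 : F) • W + jp a f) * k - c • k) =
          (2 : F) • ((a * k) * W * k) + ((a * k) * a) * f * k + (a * k) * f * (a * k) -
          c • (a * k) := by
        unfold jp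
        simp only [Matrix.mul_sub, Matrix.mul_add, Matrix.add_mul, smul_mul_assoc, mul_smul_comm,
          mul_assoc]
        abel
      rw [h1, ← hz, hza, zero_mul, zero_mul, add_zero, sub_eq_zero] at hC
      exact hC.symm
    apply two_inj (F := F)
    rw [smul_zero]
    linear_combination (norm := module) (2 : F) • e8 - e9 - e10
  have g1 := hzfz (single 3 0 1) (by
    intro i j
    fin_cases i <;> fin_cases j <;> simp [sg])
  have g2 := hzfz (single 4 1 1) (by
    intro i j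
    fin_cases i <;> fin_cases j <;> simp [sg])
  rw [hz, hak] at g1 g2
  have g3 := congrFun (congrFun g1 0) 3
  have g4 := congrFun (congrFun g2 1) 4
  simp [mul_apply, Fin.sum_univ_five] at g3 g4
  rcases hne with h1 | h1
  · exact h1 g3
  · exact h1 g4

/-- The case where `R` vanishes on the top elements is impossible if `R R R` does not vanish. -/
theorem Adapted.zero_false {Y x : Matrix (Fin 5) (Fin 5) F} (hY : Y = R (R x)) (hne : R Y ≠ 0) :
    False := by
  have hpq : Y 0 1 ≠ 0 ∨ Y 1 0 ≠ 0 := by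
    by_contra hcon
    push Not at hcon
    exact hne (h.not_diag hY hcon.1 hcon.2)
  have hYQ : Y ∈ Qm F := by
    rw [hY]
    exact h.z1 h03 h14 _
  obtain ⟨w, hw⟩ := sq_mem2 h.rb x
  rw [← hY] at hw
  obtain ⟨η, hη⟩ := h.z5 h03 h14 hY hne (h.z1 h03 h14 w)
  rw [← hw] at hη
  by_cases h22 : Y 2 2 = 0
  · exact h.z8 h03 h14 hYQ h22 η hη (h.diag_eq hY) hpq (h.R_Y hY)
      (fun u _ hRu => h.z7 h03 h14 hY hRu)
  · have h1 : Y 2 2 = η := by
      have h2 := hη.2.2.2.2.2.1
      simp [mul_apply, Fin.sum_univ_five, hYQ.2.1, hYQ.2.2.1, hYQ.1.e32, hYQ.1.e42] at h2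
      apply mul_right_cancel₀ h22
      linear_combination h2
    have h1Q : (1 : Matrix (Fin 5) (Fin 5) F) ∈ Qm F := by
      refine ⟨?_, ?_⟩
      · intro i j
        fin_cases i <;> fin_cases j <;> simp [sg, one_apply]
      · simp [one_apply]
    refine h.z8 h03 h14 (k := η • 1 - Y) ?_ ?_ η ?_ ?_ ?_ ?_ ?_
    · exact Submodule.sub_mem _ (Submodule.smul_mem _ _ h1Q) hYQ
    · simp [h1]
    · have h2 : (η • 1 - Y) * (η • 1 - Y) - η • (η • 1 - Y) = Y * Y - η • Y := by
        simp only [Matrix.sub_mul, Matrix.mul_sub, smul_mul_assoc, mul_smul_comm, one_mul, mul_one]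
        module
      rw [h2]
      exact hη
    · simp [h.diag_eq hY]
    · simpa using hpq
    · rw [map_sub, map_smul, h.R_Y hY, Matrix.mul_sub, mul_smul_comm, mul_one]
    · intro u _ hRu
      have h2 : ∀ v : Matrix (Fin 5) (Fin 5) F, (η • 1 - Y) * v * (η • 1 - Y) =
          (η ^ 2) • v - η • jp Y v + Y * v * Y := by
        intro v
        unfold jp
        simp only [Matrix.sub_mul, Matrix.mul_sub, smul_mul_assoc, mul_smul_comm, one_mul, mul_one]
        module
      rw [h2, h2, map_add, map_sub, map_smul, map_smul, h.z6 h03 h14 hY hRu,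
        h.z7 h03 h14 hY hRu]

end

end

end Pool.Agent.MP_f4742e_al.H67
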