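import Pool.Agent.Lib.MP_f4742e_al.H67Basis5

/-!
The cube of `R` vanishes for `4 × 4` matrices if the square of `R 1` vanishes.
-/

set_option autoImplicit false

namespace Pool.Agent.MP_f4742e_al.H67

open Pool.Agent.MP_f4742e_al Matrix Module

section

variable {F : Type*} [Field F] [CharZero F] [IsAlgClosed F]

/-- The identification of the index types. -/
def e45 : Fin 4 ⊕ Fin 1 ≃ Fin 5 := finSumFinEquiv

/-- The cube of `R` vanishes for `4 × 4` matrices if the square of `R 1` vanishes. -/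
theorem four {R : Matrix (Fin 4) (Fin 4) F →ₗ[F] Matrix (Fin 4) (Fin 4) F} (h : JRB R)
    (hs : ∀ x, (R x)ᵀ = R x) (ht : ∀ x, R xᵀ = R x) (ha : R 1 * R 1 = 0)
    (x : Matrix (Fin 4) (Fin 4) F) : R (R (R x)) = 0 := by
  let i : Matrix (Fin 4) (Fin 4) F →ₗ[F] Matrix (Fin 4 ⊕ Fin 1) (Fin 4 ⊕ Fin 1) F :=
    { toFun := fun u => fromBlocks u 0 0 0
      map_add' := by
        intro u v
        rw [fromBlocks_add, add_zero, add_zero, add_zero]
      map_smul' := by
        intro c u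
        rw [fromBlocks_smul, smul_zero, smul_zero, smul_zero]
        rfl }
  let p : Matrix (Fin 4 ⊕ Fin 1) (Fin 4 ⊕ Fin 1) F →ₗ[F] Matrix (Fin 4) (Fin 4) F :=
    { toFun := fun y => y.toBlocks₁₁
      map_add' := fun _ _ => rfl
      map_smul' := fun _ _ => rfl }
  have hpi : ∀ u, p (i u) = u := fun u => toBlocks_fromBlocks₁₁ _ _ _ _
  have hi : ∀ u v, i (jp u v) = jp (i u) (i v) := by
    intro u v
    change fromBlocks (jp u v) 0 0 0 = jp (fromBlocks u 0 0 0) (fromBlocks v 0 0 0)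
    unfold jp
    rw [fromBlocks_multiply, fromBlocks_multiply, fromBlocks_add]
    simp
  have h1 : ∀ u y, p (jp (i u) y) = jp u (p y) := by
    intro u y
    change (jp (fromBlocks u 0 0 0) y).toBlocks₁₁ = jp u y.toBlocks₁₁
    conv_lhs => rw [← fromBlocks_toBlocks y]
    unfold jp
    rw [fromBlocks_multiply, fromBlocks_multiply, fromBlocks_add, toBlocks_fromBlocks₁₁]
    simp
  have hS : JRB (i ∘ₗ R ∘ₗ p) := by
    intro y z
    simp only [LinearMap.comp_apply]
    rw [map_add p, h1, jp_comm y, h1, jp_comm (R (p z)) (p y), ← h, hi]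
  let φ : Matrix (Fin 4 ⊕ Fin 1) (Fin 4 ⊕ Fin 1) F ≃ₐ[F] Matrix (Fin 5) (Fin 5) F :=
    Matrix.reindexAlgEquiv F F e45
  have hφt : ∀ y, φ yᵀ = (φ y)ᵀ := fun _ => rfl
  have hφt' : ∀ y, φ.symm yᵀ = (φ.symm y)ᵀ := fun _ => rfl
  have hS' := JRB_conj φ hS
  have hpt : ∀ y, p yᵀ = (p y)ᵀ := fun _ => rfl
  have hit : ∀ u, i uᵀ = (i u)ᵀ := by
    intro u
    change fromBlocks uᵀ 0 0 0 = (fromBlocks u 0 0 0)ᵀ
    rw [fromBlocks_transpose, transpose_zero, transpose_zero, transpose_zero]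
  have hp1 : p 1 = 1 := by
    ext k l
    change (1 : Matrix (Fin 4 ⊕ Fin 1) (Fin 4 ⊕ Fin 1) F) (Sum.inl k) (Sum.inl l) = _
    rw [one_apply, one_apply]
    simp
  have hmul : ∀ u v, i u * i v = i (u * v) := by
    intro u v
    change fromBlocks u 0 0 0 * fromBlocks v 0 0 0 = fromBlocks (u * v) 0 0 0
    rw [fromBlocks_multiply]
    simp
  have h2 := five hS' ?_ ?_ ?_ (φ (i x))
  · simp only [LinearMap.comp_apply, AlgEquiv.toLinearMap_apply, AlgEquiv.symm_apply_apply,
      hpi] at h2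
    rw [← map_zero φ] at h2
    have h3 := congrArg p (φ.injective h2)
    rw [hpi, map_zero] at h3
    exact h3
  · intro y
    simp only [LinearMap.comp_apply, AlgEquiv.toLinearMap_apply]
    rw [← hφt, ← hit, hs]
  · intro y
    simp only [LinearMap.comp_apply, AlgEquiv.toLinearMap_apply]
    rw [hφt', hpt, ht]
  · simp only [LinearMap.comp_apply, AlgEquiv.toLinearMap_apply, map_one]
    rw [hp1, ← map_mul, hmul, ha, map_zero, map_zero]

end

end Pool.Agent.MP_f4742e_al.H67
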