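import Pool.Agent.Lib.MP_f4742e_al.Idem

/-!
Rota-Baxter operators of weight zero with `(R 1) ^ 2 = 0`: general relations.
-/

set_option autoImplicit false

namespace Pool.Agent.MP_f4742e_al.H67

open Pool.Agent.MP_f4742e_al

section

variable {F A : Type*} [Field F] [CharZero F] [Ring A] [Algebra F A] {R : A →ₗ[F] A}

theorem two_inj {x y : A} (h : (2 : F) • x = (2 : F) • y) : x = y :=
  smul_right_injective A (two_ne_zero (α := F)) h

variable (h : JRB R) (ha : R 1 * R 1 = 0)

include h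

omit [CharZero F] in
/-- `2 R R x = {a, R x} - R {a, x}`. -/
theorem rel2 (x : A) : (2 : F) • R (R x) = jp (R 1) (R x) - R (jp (R 1) x) := by
  have h1 := rel_pow h 1 x
  simp only [pow_one, Nat.cast_one, mul_one] at h1
  rw [h1]
  rw [pow_succ, pow_one, Module.End.mul_apply]
  abel

theorem sq_mem (x : A) : R x * R x = R (jp (R x) x) := by
  have h1 := h x x
  rw [jp_comm x (R x), ← two_smul F (jp (R x) x), map_smul] at h1
  unfold jp at h1 ⊢
  rw [← two_smul F] at h1
  exact two_inj h1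

theorem sq_mem2 (x : A) : ∃ w, R (R x) * R (R x) = R (R w) := by
  obtain ⟨z, hz⟩ := range_jp h 2 x x
  refine ⟨(2 : F)⁻¹ • z, ?_⟩
  rw [pow_two, Module.End.mul_apply] at hz
  rw [Module.End.mul_apply] at hz
  rw [map_smul, map_smul, ← hz]
  unfold jp
  rw [← two_smul F, smul_smul, inv_mul_cancel₀ two_ne_zero, one_smul]

omit [CharZero F] in
theorem ker_one {x : A} (hx : R x = 0) (w : A) : R (jp x (R w)) = 0 := by
  have h1 := ker_jp h 1 x w
  simp only [pow_one] at h1
  exact h1 hx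

include ha

theorem R_a : R (R 1) = 0 := by
  have h1 := R_pow h 1
  rw [pow_one, Nat.cast_one, pow_two, ha] at h1
  rcases smul_eq_zero.1 h1 with h2 | h2
  · exfalso
    have : (1 : F) + 1 = 2 := one_add_one_eq_two
    rw [this] at h2
    exact two_ne_zero h2
  · exact h2

theorem R_jp_a (x : A) : R (jp (R 1) (R x)) = 0 := ker_one h (R_a h ha) x

/-- `2 R y = {a, y}` for `y` in the image of `R R`. -/
theorem R_two (x : A) : (2 : F) • R (R (R x)) = jp (R 1) (R (R x)) := by
  rw [rel2 h, R_jp_a h ha, sub_zero]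

theorem R_four (x : A) : R (R (R (R x))) = 0 := by
  have h1 : (2 : F) • R (R (R (R x))) = 0 := by
    rw [← map_smul, R_two h ha, R_jp_a h ha]
  exact (smul_eq_zero.1 h1).resolve_left two_ne_zero

theorem R_U (x : A) : R (R 1 * x * R 1) = R 1 * R x * R 1 := by
  have h1 := rel_D h x
  rw [pow_two, ha, zero_mul, mul_zero, zero_mul, mul_zero, add_zero, add_zero, zero_sub,
    zero_sub, map_neg, map_smul, neg_inj] at h1
  exact two_inj h1

theorem R_R_U (x : A) : R (R (R 1 * x * R 1)) = 0 := by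
  have h1 := rel2 h (R 1 * x * R 1)
  have h2 : jp (R 1) (R 1 * x * R 1) = 0 := by
    unfold jp
    rw [mul_assoc (R 1 * x), ha, mul_zero, add_zero, mul_assoc, ← mul_assoc, ha, zero_mul]
  have h3 : jp (R 1) (R (R 1 * x * R 1)) = 0 := by
    rw [R_U h ha]
    unfold jp
    rw [mul_assoc (R 1 * R x), ha, mul_zero, add_zero, mul_assoc, ← mul_assoc, ha, zero_mul]
  rw [h2, h3, map_zero, sub_zero] at h1
  exact (smul_eq_zero.1 h1).resolve_left two_ne_zero

theorem U_two (x : A) : R 1 * R (R x) * R 1 = 0 := by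
  rw [← R_U h ha, ← R_U h ha, R_R_U h ha]

/-- For `Y` in the image of `R R`: `a Y Y + Y Y a = 2 Y a Y`. -/
theorem comm_sq {Y x : A} (hY : Y = R (R x)) : R 1 * Y * Y + Y * Y * R 1 =
    (2 : F) • (Y * R 1 * Y) := by
  have h1 : (2 : F) • R Y = jp (R 1) Y := by rw [hY]; exact R_two h ha x
  have h2 : R (R Y) = 0 := by
    have h3 : (2 : F) • R (R Y) = 0 := by
      rw [← map_smul, h1, hY, R_jp_a h ha]
    exact (smul_eq_zero.1 h3).resolve_left two_ne_zero
  have h3 : R (jp (R x) (R Y)) = 0 := by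
    rw [jp_comm]
    exact ker_one h h2 x
  have h4 : jp Y (R Y) = R (jp Y Y) := by
    have h5 := h (R x) Y
    rw [← hY, map_add, h3, add_zero] at h5
    exact h5
  obtain ⟨w, hw⟩ := sq_mem2 h x
  rw [← hY] at hw
  have h5 : (2 : F) • R (Y * Y) = jp (R 1) (Y * Y) := by
    rw [hw]
    exact R_two h ha w
  have h6 : R (jp Y Y) = jp (R 1) (Y * Y) := by
    rw [← h5, ← map_smul]
    unfold jp
    rw [two_smul]
  have h7 : jp Y (jp (R 1) Y) = (2 : F) • jp (R 1) (Y * Y) := by
    rw [← h1, jp_smul, h4, h6]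
  unfold jp at h7
  rw [two_smul] at h7 ⊢
  have h8 : Y * (R 1 * Y + Y * R 1) + (R 1 * Y + Y * R 1) * Y =
      (Y * R 1 * Y + Y * R 1 * Y) + (R 1 * Y * Y + Y * Y * R 1) := by
    noncomm_ring
  have h9 : R 1 * (Y * Y) + Y * Y * R 1 + (R 1 * (Y * Y) + Y * Y * R 1) =
      (R 1 * Y * Y + Y * Y * R 1) + (R 1 * Y * Y + Y * Y * R 1) := by
    noncomm_ring
  rw [h8, h9] at h7
  exact (add_right_cancel h7).symm

end

end Pool.Agent.MP_f4742e_al.H67
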