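import Pool.Agent.Lib.MP_f4742e_al.HCore

/-!
Symmetric-valued Rota-Baxter operators on matrices: the form `Bf`, and isotropy.
-/

set_option autoImplicit false

namespace Pool.Agent.MP_f4742e_al

open Matrix

section

variable {F : Type*} [Field F] {n : ℕ}

/-- A Rota-Baxter operator for the Jordan product on matrices, with symmetric values and
vanishing on skew-symmetric matrices. -/
structure SRB (R : Matrix (Fin n) (Fin n) F →ₗ[F] Matrix (Fin n) (Fin n) F) : Prop where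
  rb : JRB R
  tr : ∀ x, (R x)ᵀ = R x
  ti : ∀ x, R xᵀ = R x

/-- The symmetric bilinear map `(y, z) ↦ R (y zᵀ)`. -/
def Bf (R : Matrix (Fin n) (Fin n) F →ₗ[F] Matrix (Fin n) (Fin n) F) :
    (Fin n → F) →ₗ[F] (Fin n → F) →ₗ[F] Matrix (Fin n) (Fin n) F :=
  LinearMap.mk₂ F (fun y z => R (vecMulVec y z))
    (fun y y' z => by rw [add_vecMulVec, map_add])
    (fun c y z => by rw [smul_vecMulVec, map_smul])
    (fun y z z' => by rw [vecMulVec_add, map_add])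
    (fun c y z => by rw [vecMulVec_smul, map_smul])

theorem Bf_apply (R : Matrix (Fin n) (Fin n) F →ₗ[F] Matrix (Fin n) (Fin n) F) (y z : Fin n → F) :
    Bf R y z = R (vecMulVec y z) := rfl

theorem Bf_comm {R : Matrix (Fin n) (Fin n) F →ₗ[F] Matrix (Fin n) (Fin n) F} (hR : SRB R)
    (y z : Fin n → F) : Bf R y z = Bf R z y := by
  rw [Bf_apply, Bf_apply, ← hR.ti, transpose_vecMulVec]

/-- `(y zᵀ) x = (z ⬝ x) y`. -/
theorem vmv_mulVec (y z x : Fin n → F) : vecMulVec y z *ᵥ x = (z ⬝ᵥ x) • y := by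
  rw [vecMulVec_mulVec, op_smul_eq_smul]

theorem vmv_mul {c : Matrix (Fin n) (Fin n) F} (hc : cᵀ = c) (y z : Fin n → F) :
    vecMulVec y z * c = vecMulVec y (c *ᵥ z) := by
  rw [vecMulVec_mul, ← mulVec_transpose, hc]

/-- A symmetric matrix is self-adjoint for the dot product. -/
theorem dot_symm {c : Matrix (Fin n) (Fin n) F} (hc : cᵀ = c) (y z : Fin n → F) :
    (c *ᵥ y) ⬝ᵥ z = y ⬝ᵥ (c *ᵥ z) := by
  rw [dotProduct_mulVec, ← mulVec_transpose, hc]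

theorem dot_symm' {c : Matrix (Fin n) (Fin n) F} (hc : cᵀ = c) (y z : Fin n → F) :
    y ⬝ᵥ (c *ᵥ z) = z ⬝ᵥ (c *ᵥ y) := by
  rw [← dot_symm hc, dotProduct_comm]

theorem pow_tr {c : Matrix (Fin n) (Fin n) F} (hc : cᵀ = c) (j : ℕ) : (c ^ j)ᵀ = c ^ j := by
  rw [transpose_pow, hc]

end

section

variable {F : Type*} [Field F] [CharZero F] {n : ℕ}
  {R : Matrix (Fin n) (Fin n) F →ₗ[F] Matrix (Fin n) (Fin n) F} (hR : SRB R)

include hR

omit [CharZero F] in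
theorem SRB.a_tr (j : ℕ) : ((R 1) ^ j)ᵀ = (R 1) ^ j := pow_tr (hR.tr 1) j

omit [CharZero F] in
theorem SRB.R_tp {c s k : Matrix (Fin n) (Fin n) F} (hc : cᵀ = c) (hs : sᵀ = s) (hk : kᵀ = k) :
    R (tp c s k) = (2 : F) • R (c * s * k) := by
  have h1 : k * s * c = (c * s * k)ᵀ := by
    rw [transpose_mul, transpose_mul, hc, hs, hk, Matrix.mul_assoc]
  unfold tp
  rw [map_add, h1, hR.ti, two_smul]

omit [CharZero F] in
/-- Swapping the outer factors. -/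
theorem SRB.R_swap {c s k : Matrix (Fin n) (Fin n) F} (hc : cᵀ = c) (hs : sᵀ = s) (hk : kᵀ = k) :
    R (k * s * c) = R (c * s * k) := by
  have h1 : k * s * c = (c * s * k)ᵀ := by
    rw [transpose_mul, transpose_mul, hc, hs, hk, Matrix.mul_assoc]
  rw [h1, hR.ti]

/-- Stability of the kernel. -/
theorem SRB.K {k : Matrix (Fin n) (Fin n) F} (hks : kᵀ = k) (hk : R k = 0) (j : ℕ)
    (x : Matrix (Fin n) (Fin n) F) : R ((R 1) ^ j * R x * k) = 0 := by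
  have h1 := Kj hR.rb hk j x
  rw [hR.R_tp (hR.a_tr j) (hR.tr x) hks] at h1
  exact (smul_eq_zero.1 h1).resolve_left two_ne_zero

/-- The main identity. -/
theorem SRB.T1 (j : ℕ) {x z ζ : Matrix (Fin n) (Fin n) F} (hx : xᵀ = x) (hz : R z = 0)
    (hζs : ζᵀ = ζ) (hζ : R ζ = z) : (R 1) ^ j * R x * z + z * R x * (R 1) ^ j =
      (2 : F) • (R ((R 1) ^ j * x * z) + R ((R 1) ^ j * R x * ζ)) := by
  have h1 := T1g hR.rb j x hz hζ
  have hzs : zᵀ = z := by rw [← hζ, hR.tr]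
  rw [map_add, hR.R_tp (hR.a_tr j) hx hzs, hR.R_tp (hR.a_tr j) (hR.tr x) hζs, ← smul_add] at h1
  exact h1

/-- Products `s a^j s' + s' a^j s`. -/
theorem SRB.cl (j : ℕ) {x y : Matrix (Fin n) (Fin n) F} (hx : xᵀ = x) (hy : yᵀ = y) :
    R x * (R 1) ^ j * R y + R y * (R 1) ^ j * R x =
      (2 : F) • (R (x * (R 1) ^ j * R y) + R (R x * (R 1) ^ j * y) +
        (j : F) • R (R x * (R 1) ^ (j - 1) * R y)) := by
  have h1 := closure hR.rb j x y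
  rw [map_add, map_add, map_smul, hR.R_tp hx (hR.a_tr j) (hR.tr y),
    hR.R_tp (hR.tr x) (hR.a_tr j) hy, hR.R_tp (hR.tr x) (hR.a_tr (j - 1)) (hR.tr y)] at h1
  unfold tp at h1
  rw [h1]
  module

/-- The case `x = y`. -/
theorem SRB.cl_sq (j : ℕ) {x : Matrix (Fin n) (Fin n) F} (hx : xᵀ = x) :
    R x * (R 1) ^ j * R x =
      R ((2 : F) • (R x * (R 1) ^ j * x) + (j : F) • (R x * (R 1) ^ (j - 1) * R x)) := by
  rw [closure_sq hR.rb, map_add, map_add, map_add, map_smul, map_smul,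
    hR.R_swap (hR.tr x) (hR.a_tr j) hx, two_smul]

/-- `a^{j+1} s a^{j+1}`. -/
theorem SRB.aba (j : ℕ) {x : Matrix (Fin n) (Fin n) F} :
    (R 1) ^ (j + 1) * R x * (R 1) ^ (j + 1) = R ((R 1) ^ (j + 1) * x * (R 1) ^ (j + 1)) +
      (2 * ((j : F) + 1)) • R ((R 1) ^ j * R x * (R 1) ^ (j + 1)) := by
  have h1 := rb_tp hR.rb (((j : F) + 1) • (R 1) ^ j) x (((j : F) + 1) • (R 1) ^ j)
  rw [← a_pow_succ hR.rb j, tp_comm ((R 1) ^ (j + 1)) (R x) (((j : F) + 1) • (R 1) ^ j),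
    tp_smul_left, map_add, map_add, map_smul,
    hR.R_tp (hR.a_tr j) (hR.tr x) (hR.a_tr (j + 1))] at h1
  have h3 : ∀ y : Matrix (Fin n) (Fin n) F, tp ((R 1) ^ (j + 1)) y ((R 1) ^ (j + 1)) =
      (2 : F) • ((R 1) ^ (j + 1) * y * (R 1) ^ (j + 1)) := by
    intro y
    unfold tp
    rw [two_smul]
  rw [h3, h3, map_smul] at h1
  have h4 := smul_right_injective (Matrix (Fin n) (Fin n) F) (two_ne_zero (α := F))
  apply h4
  change (2 : F) • _ = (2 : F) • _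
  rw [h1]
  module

/-- Isotropy: if `ε' ⬝ (R x) ε = 0` for all `x`, then the images are orthogonal. -/
theorem SRB.S1 {ε ε' : Fin n → F} (h0 : ∀ x, ε' ⬝ᵥ (R x *ᵥ ε) = 0) (j : ℕ)
    (x y : Matrix (Fin n) (Fin n) F) :
    (R y *ᵥ ε') ⬝ᵥ ((R 1) ^ j *ᵥ (R x *ᵥ ε)) + (R x *ᵥ ε') ⬝ᵥ ((R 1) ^ j *ᵥ (R y *ᵥ ε)) = 0 := by
  have h1 := congrArg (fun M => ε' ⬝ᵥ (M *ᵥ ε)) (closure hR.rb j y x)
  simp only [h0] at h1
  unfold tp at h1
  rw [add_mulVec, dotProduct_add, ← mulVec_mulVec, ← mulVec_mulVec, ← mulVec_mulVec,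
    ← mulVec_mulVec] at h1
  rw [dot_symm (hR.tr y), dot_symm (hR.tr x)]
  exact h1

theorem SRB.S1_same {ε ε' : Fin n → F} (h0 : ∀ x, ε' ⬝ᵥ (R x *ᵥ ε) = 0) (j : ℕ)
    (x : Matrix (Fin n) (Fin n) F) : (R x *ᵥ ε') ⬝ᵥ ((R 1) ^ j *ᵥ (R x *ᵥ ε)) = 0 := by
  have h1 := hR.S1 h0 j x x
  rw [← two_mul] at h1
  exact (mul_eq_zero.1 h1).resolve_left two_ne_zero

theorem SRB.S1_diag {ε : Fin n → F} (h0 : ∀ x, ε ⬝ᵥ (R x *ᵥ ε) = 0) (j : ℕ)
    (x y : Matrix (Fin n) (Fin n) F) : (R y *ᵥ ε) ⬝ᵥ ((R 1) ^ j *ᵥ (R x *ᵥ ε)) = 0 := by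
  have h1 := hR.S1 h0 j x y
  have h2 : (R x *ᵥ ε) ⬝ᵥ ((R 1) ^ j *ᵥ (R y *ᵥ ε)) =
      (R y *ᵥ ε) ⬝ᵥ ((R 1) ^ j *ᵥ (R x *ᵥ ε)) := dot_symm' (hR.a_tr j) _ _
  rw [h2, ← two_mul] at h1
  exact (mul_eq_zero.1 h1).resolve_left two_ne_zero

end

end Pool.Agent.MP_f4742e_al
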