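import Pool.Agent.Lib.MP_f4742e_al.H67Four
import Pool.Agent.Lib.MP_f4742e_al.HMat

/-!
The cube of `R` vanishes for `4 × 4` and `5 × 5` matrices if the square of `R 1` vanishes.
-/

set_option autoImplicit false

namespace Pool.Agent.MP_f4742e_al

open Matrix

section

variable {F : Type*} [Field F] [CharZero F] [IsAlgClosed F]

/-- The case of `4 × 4` matrices with `(R 1) ^ 2 = 0`. -/
theorem index_two_four {R : Matrix (Fin 4) (Fin 4) F →ₗ[F] Matrix (Fin 4) (Fin 4) F}
    (hR : SRB R) (ha : (R 1) ^ 2 = 0) : R ^ 3 = 0 := by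
  apply LinearMap.ext
  intro x
  rw [pow_succ, pow_succ, pow_one, Module.End.mul_apply, Module.End.mul_apply,
    LinearMap.zero_apply]
  exact H67.four hR.rb hR.tr hR.ti (by rw [← pow_two, ha]) x

/-- The case of `5 × 5` matrices with `(R 1) ^ 2 = 0`. -/
theorem index_two_five {R : Matrix (Fin 5) (Fin 5) F →ₗ[F] Matrix (Fin 5) (Fin 5) F}
    (hR : SRB R) (ha : (R 1) ^ 2 = 0) : R ^ 3 = 0 := by
  apply LinearMap.ext
  intro x
  rw [pow_succ, pow_succ, pow_one, Module.End.mul_apply, Module.End.mul_apply,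
    LinearMap.zero_apply]
  exact H67.five hR.rb hR.tr hR.ti (by rw [← pow_two, ha]) x

end

end Pool.Agent.MP_f4742e_al
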