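import Pool.Agent.Lib.MP_f4742e_al.HOp

/-!
The case where `a^(m-1)` has rank one.
-/

set_option autoImplicit false

namespace Pool.Agent.MP_f4742e_al

open Matrix

section

variable {F : Type*} [Field F] [CharZero F] {n : ℕ}

/-- If `v rᵀ + r vᵀ = 2 p pᵀ` then `p` is a multiple of `v`. -/
theorem par_of_rank {v r p : Fin n → F} (hv : v ≠ 0)
    (h : vecMulVec v r + vecMulVec r v = (2 : F) • vecMulVec p p) : ∃ χ : F, p = χ • v := by
  obtain ⟨i, hi⟩ : ∃ i, v i ≠ 0 := by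
    by_contra hcon
    push Not at hcon
    exact hv (funext hcon)
  refine ⟨p i / v i, ?_⟩
  have key : ∀ a b : Fin n, v a * r b + r a * v b = 2 * (p a * p b) := by
    intro a b
    have h1 := congrFun (congrFun h a) b
    simpa [vecMulVec_apply] using h1
  have h2 : ∀ j, (p j * v i - p i * v j) ^ 2 = 0 := by
    intro j
    have h3 := key i i
    have h4 := key i j
    have h5 := key j j
    have h6 : 2 * (p j * v i - p i * v j) ^ 2 = 0 := by
      linear_combination (-(v i ^ 2)) * h5 + (2 * v i * v j) * h4 + (-(v j ^ 2)) * h3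
    exact (mul_eq_zero.1 h6).resolve_left two_ne_zero
  funext j
  have h3 := pow_eq_zero_iff (two_ne_zero) |>.1 (h2 j)
  rw [Pi.smul_apply, smul_eq_mul]
  field_simp
  linear_combination h3

omit [CharZero F] in
theorem exists_ne {v : Fin n → F} (hv : v ≠ 0) : ∃ x : Matrix (Fin n) (Fin n) F, xᵀ = x ∧
    v ⬝ᵥ (x *ᵥ v) = 1 := by
  obtain ⟨i, hi⟩ : ∃ i, v i ≠ 0 := by
    by_contra hcon
    push Not at hcon
    exact hv (funext hcon)
  refine ⟨vecMulVec (Pi.single i (v i)⁻¹) (Pi.single i (v i)⁻¹), ?_, ?_⟩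
  · rw [transpose_vecMulVec]
  · rw [vmv_mulVec, dotProduct_smul, single_dotProduct, dotProduct_single, smul_eq_mul]
    field_simp

variable {R : Matrix (Fin n) (Fin n) F →ₗ[F] Matrix (Fin n) (Fin n) F} (hR : SRB R) {m : ℕ}
  {v v1 : Fin n → F}

include hR

theorem mu1 (hm : 2 ≤ m) (ha : (R 1) ^ m = 0) (hv : v ≠ 0)
    (he : (R 1) ^ (m - 1) = vecMulVec v v) : R ^ (2 * m - 1) = 0 := by
  apply LinearMap.ext
  intro x
  rw [LinearMap.zero_apply]
  have hqs : ((R ^ m) x)ᵀ = (R ^ m) x := by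
    have h1 : (R ^ m) x = R ((R ^ (m - 1)) x) := by
      rw [← Module.End.mul_apply, ← pow_succ']
      congr 2
      omega
    rw [h1, hR.tr]
  have h1 := F_rel hR.rb (by omega) ha x
  rw [he, vmv_mul (by rw [transpose_mul, hqs]), mul_vecMulVec, mul_vecMulVec, vmv_mul hqs] at h1
  obtain ⟨χ, hχ⟩ := par_of_rank hv h1
  have h2 : jp ((R 1) ^ (m - 1)) ((R ^ m) x) = (2 * χ) • (R 1) ^ (m - 1) := by
    unfold jp
    rw [he, vmv_mul hqs, mul_vecMulVec, hχ, smul_vecMulVec, vecMulVec_smul]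
    module
  have he0 : (R 1) ^ (m - 1) ≠ 0 := by
    rw [he]
    exact vecMulVec_ne_zero hv hv
  have h3 := jp_e_ne hR.rb (by omega) ha he0 x h2
  rw [h3, zero_smul] at h2
  exact last_zero hR.rb (by omega) ha x h2

theorem b0_false (hm : 3 ≤ m) (ha : (R 1) ^ m = 0) (hv : v ≠ 0)
    (he : (R 1) ^ (m - 1) = vecMulVec v v)
    (hb : (R 1) ^ (m - 2) = vecMulVec v v1 + vecMulVec v1 v) : False := by
  obtain ⟨x, hx, hx1⟩ := exists_ne hv
  have hm1 : (m : F) - 1 ≠ 0 := by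
    have : (m : F) ≠ 1 := by
      have : m ≠ 1 := by omega
      exact_mod_cast this
    exact sub_ne_zero.2 this
  have hRe := R_e hR.rb (by omega : 1 ≤ m) ha
  have hRb := R_b hR.rb (by omega : 2 ≤ m)
  rw [he] at hRe
  rw [he, hb, map_add, ← Bf_apply, ← Bf_apply, Bf_comm hR v1 v, ← two_smul F] at hRb
  have hB : Bf R v v1 = (2⁻¹ * ((m : F) - 1)⁻¹) • vecMulVec v v := by
    rw [mul_smul, ← hRb, smul_smul, inv_mul_cancel₀ two_ne_zero, one_smul]
  have hBvv : Bf R v v = 0 := hRe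
  -- v ⬝ s v = 0
  have h3 := R_exe hR.rb (by omega) ha x
  rw [he, mul_assoc, mul_vecMulVec, vecMulVec_mul_vecMulVec, vecMulVec_smul, map_smul, hRe,
    smul_zero, mul_assoc, mul_vecMulVec, vecMulVec_mul_vecMulVec, vecMulVec_smul] at h3
  have h4 : v ⬝ᵥ (R x *ᵥ v) = 0 := by
    rcases smul_eq_zero.1 h3.symm with h5 | h5
    · exact h5
    · exact absurd h5 (vecMulVec_ne_zero hv hv)
  have hζ : R (((m : F) - 1) • (R 1) ^ (m - 2)) = (R 1) ^ (m - 1) := by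
    rw [map_smul, R_b hR.rb (by omega : 2 ≤ m), smul_smul, mul_inv_cancel₀ hm1, one_smul]
  have h5 := hR.T1 (m - 2) hx (R_e hR.rb (by omega : 1 ≤ m) ha)
    (by rw [transpose_smul, hR.a_tr]) hζ
  have hbs : ∀ y : Matrix (Fin n) (Fin n) F, ∀ t : Fin n → F, (R 1) ^ (m - 2) *ᵥ (y *ᵥ t) =
      (v1 ⬝ᵥ (y *ᵥ t)) • v + (v ⬝ᵥ (y *ᵥ t)) • v1 := by
    intro y t
    rw [hb, add_mulVec, vmv_mulVec, vmv_mulVec]
  have e1 : (R 1) ^ (m - 2) * R x * (R 1) ^ (m - 1) = (v1 ⬝ᵥ (R x *ᵥ v)) • vecMulVec v v := by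
    rw [he, mul_vecMulVec, ← mulVec_mulVec, hbs, h4, zero_smul, add_zero, smul_vecMulVec]
  have e2 : (R 1) ^ (m - 1) * R x * (R 1) ^ (m - 2) = (v1 ⬝ᵥ (R x *ᵥ v)) • vecMulVec v v := by
    have h6 : (R 1) ^ (m - 1) * R x * (R 1) ^ (m - 2) =
        ((R 1) ^ (m - 2) * R x * (R 1) ^ (m - 1))ᵀ := by
      rw [transpose_mul, transpose_mul, hR.a_tr, hR.a_tr, hR.tr, Matrix.mul_assoc]
    rw [h6, e1, transpose_smul, transpose_vecMulVec]
  have e3 : R ((R 1) ^ (m - 2) * x * (R 1) ^ (m - 1)) =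
      (2⁻¹ * ((m : F) - 1)⁻¹) • vecMulVec v v := by
    rw [he, mul_vecMulVec, ← mulVec_mulVec, hbs, hx1, one_smul, ← Bf_apply, map_add,
      LinearMap.add_apply, map_smul, LinearMap.smul_apply, hBvv, smul_zero, zero_add,
      Bf_comm hR v1 v, hB]
  have e4 : R ((R 1) ^ (m - 2) * R x * (((m : F) - 1) • (R 1) ^ (m - 2))) =
      (v1 ⬝ᵥ (R x *ᵥ v)) • vecMulVec v v := by
    have h7 : v ⬝ᵥ (R x *ᵥ v1) = v1 ⬝ᵥ (R x *ᵥ v) := dot_symm' (hR.tr x) _ _
    rw [mul_smul_comm, map_smul]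
    conv_lhs => rw [hb, ← hb, Matrix.mul_assoc]
    have h8 : (R 1) ^ (m - 2) * (R x * (R 1) ^ (m - 2)) =
        vecMulVec ((R 1) ^ (m - 2) *ᵥ (R x *ᵥ v)) v1 +
          vecMulVec ((R 1) ^ (m - 2) *ᵥ (R x *ᵥ v1)) v := by
      conv_lhs => rw [← Matrix.mul_assoc]
      nth_rw 2 [hb]
      rw [Matrix.mul_add, mul_vecMulVec, mul_vecMulVec, ← mulVec_mulVec, ← mulVec_mulVec]
    rw [h8, hbs, hbs, h4, h7, zero_smul, add_zero, map_add, ← Bf_apply, ← Bf_apply]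
    simp only [map_add, map_smul, LinearMap.add_apply, LinearMap.smul_apply, hBvv,
      Bf_comm hR v1 v, hB, smul_zero, zero_add]
    have h9 : ((m : F) - 1) * (v1 ⬝ᵥ (R x *ᵥ v)) * (2⁻¹ * ((m : F) - 1)⁻¹) +
      ((m : F) - 1) * (v1 ⬝ᵥ (R x *ᵥ v)) * (2⁻¹ * ((m : F) - 1)⁻¹) = v1 ⬝ᵥ (R x *ᵥ v) := by
      field_simp
      ring
    rw [smul_add, smul_smul, smul_smul, ← add_smul, h9]
  rw [e1, e2, e3, e4] at h5
  have h6 : ((m : F) - 1)⁻¹ • vecMulVec v v = (0 : Matrix (Fin n) (Fin n) F) := by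
    have h7 : (2 : F) • (2⁻¹ * ((m : F) - 1)⁻¹) • vecMulVec v v =
        ((m : F) - 1)⁻¹ • vecMulVec v v := by
      rw [smul_smul, ← mul_assoc, mul_inv_cancel₀ two_ne_zero, one_mul]
    rw [smul_add, h7, ← two_smul F] at h5
    exact (add_eq_right.1 h5.symm)
  rcases smul_eq_zero.1 h6 with h7 | h7
  · exact (inv_ne_zero hm1) h7
  · exact vecMulVec_ne_zero hv hv h7

end

end Pool.Agent.MP_f4742e_al
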