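import Pool.Agent.Lib.MP_f4742e_al.HLA
import Pool.Agent.Lib.MP_f4742e_al.HMu1

/-!
The case `n = 3`, `(R 1)^2 = 0`: then `R^2 = 0`.
-/

set_option autoImplicit false

namespace Pool.Agent.MP_f4742e_al

open Matrix

section Gen

variable {F : Type*} [Field F] [CharZero F] {n : ℕ}
  {R : Matrix (Fin n) (Fin n) F →ₗ[F] Matrix (Fin n) (Fin n) F} (hR : SRB R)

include hR

omit [CharZero F] in
/-- The Rota-Baxter identity on rank one matrices. -/
theorem rbB (y z y' z' : Fin n → F) : jp (Bf R y z) (Bf R y' z') =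
    Bf R (Bf R y z *ᵥ y') z' + Bf R y' (Bf R y z *ᵥ z') +
      (Bf R (Bf R y' z' *ᵥ y) z + Bf R y (Bf R y' z' *ᵥ z)) := by
  have h1 := hR.rb (vecMulVec y z) (vecMulVec y' z')
  rw [← Bf_apply, ← Bf_apply] at h1
  rw [h1]
  have h2 : (Bf R y z)ᵀ = Bf R y z := hR.tr _
  have h3 : (Bf R y' z')ᵀ = Bf R y' z' := hR.tr _
  unfold jp
  rw [mul_vecMulVec, vmv_mul h2, mul_vecMulVec, vmv_mul h3, map_add, map_add, map_add]
  simp only [Bf_apply]
  abel

omit [CharZero F] in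
theorem rbB_x (y z : Fin n → F) (x : Matrix (Fin n) (Fin n) F) : jp (Bf R y z) (R x) =
    R (jp (Bf R y z) x) + (Bf R (R x *ᵥ y) z + Bf R y (R x *ᵥ z)) := by
  have h1 := hR.rb (vecMulVec y z) x
  rw [← Bf_apply] at h1
  rw [h1]
  unfold jp
  rw [mul_vecMulVec, vmv_mul (hR.tr x), map_add, map_add (f := R) (vecMulVec y (R x *ᵥ z))]
  simp only [Bf_apply]
  abel

/-- No invertible element in the image. -/
theorem det_R (x : Matrix (Fin n) (Fin n) F) (hn : 0 < n) : (R x).det = 0 := by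
  by_contra hdet
  -- powers lie in the image
  have hpow : ∀ k : ℕ, ∃ y, (R x) ^ (k + 1) = R y := by
    intro k
    induction k with
    | zero => exact ⟨x, by rw [zero_add, pow_one]⟩
    | succ k ih =>
      obtain ⟨y, hy⟩ := ih
      refine ⟨(2⁻¹ : F) • (jp (R x) y + jp x (R y)), ?_⟩
      rw [map_smul, ← hR.rb, ← hy]
      unfold jp
      rw [← pow_succ, ← pow_succ', ← two_smul F, smul_smul, inv_mul_cancel₀ two_ne_zero, one_smul]
  have hpol : ∀ p : Polynomial F, ∃ y, Polynomial.aeval (R x) (p * Polynomial.X) = R y := by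
    intro p
    induction p using Polynomial.induction_on' with
    | add p q hp hq =>
      obtain ⟨y, hy⟩ := hp
      obtain ⟨z, hz⟩ := hq
      exact ⟨y + z, by rw [add_mul, map_add, hy, hz, map_add]⟩
    | monomial k c =>
      obtain ⟨y, hy⟩ := hpow k
      refine ⟨c • y, ?_⟩
      rw [map_smul, ← hy, ← Polynomial.C_mul_X_pow_eq_monomial, mul_assoc, ← pow_succ, map_mul,
        Polynomial.aeval_C, map_pow, Polynomial.aeval_X, ← Algebra.smul_def]
  obtain ⟨y, hy⟩ := hpol ((R x).charpoly.divX)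
  have h1 := Matrix.aeval_self_charpoly (R x)
  rw [← Polynomial.divX_mul_X_add (R x).charpoly, map_add, hy, Polynomial.aeval_C] at h1
  have h2 : (R x).charpoly.coeff 0 ≠ 0 := by
    intro h2
    apply hdet
    rw [Matrix.det_eq_sign_charpoly_coeff, h2, mul_zero]
  obtain ⟨c, hc⟩ : ∃ c, c = (R x).charpoly.coeff 0 := ⟨_, rfl⟩
  rw [← hc, Algebra.algebraMap_eq_smul_one] at h1
  have h3 : R (-(c⁻¹) • y) = 1 := by
    rw [map_smul, eq_neg_of_add_eq_zero_left h1, smul_neg, neg_smul, neg_neg, smul_smul,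
      inv_mul_cancel₀ (by rw [hc]; exact h2), one_smul]
  obtain ⟨z, hz⟩ : ∃ z, R z = 1 := ⟨_, h3⟩
  have h4 := hR.rb z z
  rw [hz, jp_one, one_jp, jp_one, map_add, map_add, hz] at h4
  have h5 : (1 : Matrix (Fin n) (Fin n) F) = 0 := by
    have h6 : (1 + 1 : Matrix (Fin n) (Fin n) F) = 0 := by
      have h7 : (1 + 1 : Matrix (Fin n) (Fin n) F) + (1 + 1) = (1 + 1) + 0 := by
        rw [add_zero]
        exact h4.symm
      exact add_left_cancel h7
    rw [← two_smul F] at h6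
    exact (smul_eq_zero.1 h6).resolve_left two_ne_zero
  have h6 := congrFun (congrFun h5 ⟨0, hn⟩) ⟨0, hn⟩
  rw [Matrix.one_apply_eq, Matrix.zero_apply] at h6
  exact one_ne_zero h6

end Gen

/-- A hyperbolic pair and a unit vector. -/
structure B3 {F : Type*} [Field F] (f g u : Fin 3 → F) : Prop where
  ff : f ⬝ᵥ f = 0
  gg : g ⬝ᵥ g = 0
  fg : f ⬝ᵥ g = 1
  uf : u ⬝ᵥ f = 0
  ug : u ⬝ᵥ g = 0
  uu : u ⬝ᵥ u = 1

namespace B3

variable {F : Type*} [Field F] {f g u : Fin 3 → F} (b : B3 f g u)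

include b

theorem gf : g ⬝ᵥ f = 1 := by rw [dotProduct_comm, b.fg]
theorem fu : f ⬝ᵥ u = 0 := by rw [dotProduct_comm, b.uf]
theorem gu : g ⬝ᵥ u = 0 := by rw [dotProduct_comm, b.ug]

theorem one : vecMulVec f g + vecMulVec g f + vecMulVec u u = 1 := by
  have h1 : (Matrix.of ![f, g, u] : Matrix (Fin 3) (Fin 3) F) *
      ((Matrix.of ![f, g, u] : Matrix (Fin 3) (Fin 3) F)ᵀ *
        !![0, 1, 0; 1, 0, 0; 0, 0, 1]) = 1 := by
    rw [← Matrix.mul_assoc]
    have h2 : (Matrix.of ![f, g, u] : Matrix (Fin 3) (Fin 3) F) *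
      (Matrix.of ![f, g, u] : Matrix (Fin 3) (Fin 3) F)ᵀ = !![0, 1, 0; 1, 0, 0; 0, 0, 1] := by
      ext i j
      change ![f, g, u] i ⬝ᵥ ![f, g, u] j = _
      fin_cases i <;> fin_cases j <;> simp [b.ff, b.gg, b.fg, b.uf, b.ug, b.uu, b.gf, b.fu, b.gu]
    rw [h2]
    ext i j
    fin_cases i <;> fin_cases j <;> simp [Matrix.mul_apply, Fin.sum_univ_three]
  have h3 := mul_eq_one_comm.1 h1
  rw [← h3]
  ext i j
  simp [Matrix.mul_apply, Fin.sum_univ_three, vecMulVec_apply]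
  ring

/-- Expansion of vectors. -/
theorem exp (y : Fin 3 → F) : y = (g ⬝ᵥ y) • f + (f ⬝ᵥ y) • g + (u ⬝ᵥ y) • u := by
  have h1 : y = (vecMulVec f g + vecMulVec g f + vecMulVec u u) *ᵥ y := by
    rw [b.one, one_mulVec]
  rw [add_mulVec, add_mulVec, vmv_mulVec, vmv_mulVec, vmv_mulVec] at h1
  exact h1

variable {R : Matrix (Fin 3) (Fin 3) F →ₗ[F] Matrix (Fin 3) (Fin 3) F}

/-- Expansion of the values of `R`. -/
theorem R_exp (x : Matrix (Fin 3) (Fin 3) F) : R x =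
    Bf R (x *ᵥ f) g + Bf R (x *ᵥ g) f + Bf R (x *ᵥ u) u := by
  have h1 : x = x * (vecMulVec f g + vecMulVec g f + vecMulVec u u) := by
    rw [b.one, Matrix.mul_one]
  conv_lhs => rw [h1]
  rw [Matrix.mul_add, Matrix.mul_add, mul_vecMulVec, mul_vecMulVec, mul_vecMulVec, map_add,
    map_add]
  rfl

end B3

/-- Every isotropic vector is part of such a basis. -/
theorem exists_B3 {F : Type*} [Field F] [CharZero F] [IsAlgClosed F] {f : Fin 3 → F} (hf : f ≠ 0)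
    (hff : f ⬝ᵥ f = 0) : ∃ g u, B3 f g u := by
  obtain ⟨t, ht⟩ : ∃ t : Fin 3 → F, f ⬝ᵥ t = 1 := by
    obtain ⟨i, hi⟩ : ∃ i, f i ≠ 0 := by
      by_contra hcon
      push Not at hcon
      exact hf (funext hcon)
    refine ⟨Pi.single i (f i)⁻¹, ?_⟩
    rw [dotProduct_single, mul_inv_cancel₀ hi]
  obtain ⟨g, hg⟩ : ∃ g, g = t - ((t ⬝ᵥ t) / 2) • f := ⟨_, rfl⟩
  have hfg : f ⬝ᵥ g = 1 := by
    rw [hg, dotProduct_sub, dotProduct_smul, hff, ht, smul_zero, sub_zero]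
  have hgg : g ⬝ᵥ g = 0 := by
    have h1 : t ⬝ᵥ f = 1 := by rw [dotProduct_comm, ht]
    rw [hg]
    simp only [dotProduct_sub, sub_dotProduct, dotProduct_smul, smul_dotProduct, hff, ht, h1,
      smul_eq_mul]
    ring
  obtain ⟨i, hi⟩ := IsAlgClosed.exists_pow_nat_eq (-1 : F) (n := 2) (by norm_num)
  refine ⟨g, i • crossProduct f g, ⟨hff, hgg, hfg, ?_, ?_, ?_⟩⟩
  · rw [smul_dotProduct, dotProduct_comm, dot_self_cross, smul_zero]
  · rw [smul_dotProduct, dotProduct_comm, dot_cross_self, smul_zero]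
  · rw [smul_dotProduct, dotProduct_smul, cross_dot_cross, hff, hgg, hfg, dotProduct_comm g f, hfg]
    simp only [smul_eq_mul]
    linear_combination (-1 : F) * hi

section Main

variable {F : Type*} [Field F] [CharZero F] {f g u : Fin 3 → F} (b : B3 f g u)
  {R : Matrix (Fin 3) (Fin 3) F →ₗ[F] Matrix (Fin 3) (Fin 3) F} (hR : SRB R)
  (ha : R 1 = vecMulVec f f)

include b hR ha

theorem H3_sq : (R 1) ^ 2 = 0 := by
  rw [ha, pow_two, mul_vecMulVec, vmv_mulVec, b.ff, zero_smul, zero_vecMulVec]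

theorem H3_Bff : Bf R f f = 0 := by
  have h1 := R_e hR.rb (m := 2) (by norm_num) (H3_sq b hR ha)
  have h2 : 2 - 1 = 1 := rfl
  rw [h2, pow_one] at h1
  rw [Bf_apply, ← ha, h1]

theorem H3_cube : R ^ 3 = 0 := by
  have hf : f ≠ 0 := by
    intro h
    have h1 := b.fg
    rw [h, zero_dotProduct] at h1
    exact zero_ne_one h1
  have h1 := mu1 hR (m := 2) (le_refl 2) (H3_sq b hR ha) hf (by
    have h2 : 2 - 1 = 1 := rfl
    rw [h2, pow_one, ha])
  exact h1

theorem H3_fRf (x : Matrix (Fin 3) (Fin 3) F) : f ⬝ᵥ (R x *ᵥ f) = 0 := by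
  have h1 := R_exe hR.rb (m := 2) (le_refl 2) (H3_sq b hR ha) x
  have h2 : 2 - 1 = 1 := rfl
  have h4 : ∀ y : Matrix (Fin 3) (Fin 3) F, vecMulVec f f * y * vecMulVec f f =
      (f ⬝ᵥ (y *ᵥ f)) • vecMulVec f f := by
    intro y
    rw [mul_vecMulVec, ← mulVec_mulVec, vmv_mulVec, smul_vecMulVec]
  rw [h2, pow_one, ha, h4, h4, map_smul, ← Bf_apply, H3_Bff b hR ha, smul_zero] at h1
  have h5 : vecMulVec f f *ᵥ g = f := by rw [vmv_mulVec, b.fg, one_smul]
  have h6 := congrArg (fun M => g ⬝ᵥ (M *ᵥ g)) h1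
  simp only [zero_mulVec, dotProduct_zero, smul_mulVec, h5, dotProduct_smul, b.gf, smul_eq_mul,
    mul_one] at h6
  exact h6.symm

theorem H3_Rf (x : Matrix (Fin 3) (Fin 3) F) : R x *ᵥ f = (g ⬝ᵥ (R x *ᵥ f)) • f := by
  have h1 := hR.S1_diag (H3_fRf b hR ha) 0 x x
  rw [pow_zero, one_mulVec] at h1
  have h2 := b.exp (R x *ᵥ f)
  rw [H3_fRf b hR ha, zero_smul, add_zero] at h2
  have h3 : (u ⬝ᵥ (R x *ᵥ f)) * (u ⬝ᵥ (R x *ᵥ f)) = 0 := by
    rw [← h1]
    conv_rhs => rw [h2]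
    simp only [dotProduct_add, add_dotProduct, dotProduct_smul, smul_dotProduct, b.ff, b.uu, b.uf,
      b.fu, smul_eq_mul]
    ring
  have h4 := mul_self_eq_zero.1 h3
  rw [h4, zero_smul, add_zero] at h2
  exact h2

/-- The square of `R`. -/
theorem H3_RR {x : Matrix (Fin 3) (Fin 3) F} (hx : xᵀ = x) :
    R (R x) = (g ⬝ᵥ (R x *ᵥ f)) • vecMulVec f f - Bf R (x *ᵥ f) f := by
  have h1 := rel_one hR.rb x
  have h2 : jp (R x) (R 1) = (2 : F) • ((g ⬝ᵥ (R x *ᵥ f)) • vecMulVec f f) := by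
    unfold jp
    rw [ha, mul_vecMulVec, vmv_mul (hR.tr x), H3_Rf b hR ha x, smul_vecMulVec, vecMulVec_smul,
      dotProduct_smul, b.gf, smul_eq_mul, mul_one, two_smul]
  have h3 : R (jp x (R 1)) = (2 : F) • Bf R (x *ᵥ f) f := by
    unfold jp
    rw [ha, mul_vecMulVec, vmv_mul hx, map_add, ← Bf_apply, ← Bf_apply, Bf_comm hR f, two_smul]
  rw [h2, h3, map_add, ← two_smul F (R (R x))] at h1
  have h4 : (2 : F) • R (R x) = (2 : F) • ((g ⬝ᵥ (R x *ᵥ f)) • vecMulVec f f -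
      Bf R (x *ᵥ f) f) := by
    rw [smul_sub, h1, add_sub_cancel_right]
  exact smul_right_injective _ (two_ne_zero (α := F)) h4

theorem H3_sum : (2 : F) • Bf R f g + Bf R u u = vecMulVec f f := by
  rw [← ha, ← b.one, map_add, map_add, ← Bf_apply, ← Bf_apply, ← Bf_apply, Bf_comm hR g f,
    two_smul]

theorem H3_Buu : Bf R u u = vecMulVec f f - (2 : F) • Bf R f g := by
  rw [← H3_sum b hR ha, add_sub_cancel_left]

/-- Values on basis vectors. -/
theorem H3_val (x : Matrix (Fin 3) (Fin 3) F) :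
    R x *ᵥ u = (g ⬝ᵥ (R x *ᵥ u)) • f + (u ⬝ᵥ (R x *ᵥ u)) • u ∧
    R x *ᵥ g = (g ⬝ᵥ (R x *ᵥ g)) • f + (g ⬝ᵥ (R x *ᵥ f)) • g + (g ⬝ᵥ (R x *ᵥ u)) • u := by
  constructor
  · have h1 := b.exp (R x *ᵥ u)
    have h2 : f ⬝ᵥ (R x *ᵥ u) = 0 := by
      rw [dot_symm' (hR.tr x), H3_Rf b hR ha, dotProduct_smul, b.uf, smul_zero]
    rw [h2, zero_smul, add_zero] at h1
    exact h1
  · have h1 := b.exp (R x *ᵥ g)
    rw [dot_symm' (hR.tr x) f g, dot_symm' (hR.tr x) u g] at h1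
    exact h1

/-- `R` of elements of the image. -/
theorem H3_Rs (x : Matrix (Fin 3) (Fin 3) F) : R (R x) =
    (2 * (g ⬝ᵥ (R x *ᵥ f))) • Bf R f g + (2 * (g ⬝ᵥ (R x *ᵥ u))) • Bf R f u +
      (u ⬝ᵥ (R x *ᵥ u)) • Bf R u u := by
  obtain ⟨h1, h2⟩ := H3_val b hR ha x
  rw [b.R_exp (R x)]
  rw [H3_Rf b hR ha x, h1, h2]
  simp only [map_add, map_smul, LinearMap.add_apply, LinearMap.smul_apply, dotProduct_smul,
    dotProduct_add, b.gf, b.gu, b.uf, b.uu, b.ug, b.gg, smul_eq_mul]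
  rw [H3_Bff b hR ha, Bf_comm hR g f, Bf_comm hR u f]
  module

omit [CharZero F] hR ha in
theorem H3_vv {y z y' z' : Fin 3 → F} : y ⬝ᵥ (vecMulVec f f *ᵥ z) = (f ⬝ᵥ z) * (y ⬝ᵥ f) := by
  rw [vmv_mulVec, dotProduct_smul, smul_eq_mul]

/-- `B(f,g)` and `B(f,u)` are multiples of `a`. -/
theorem H3_PU : ∃ p q : F, Bf R f g = p • vecMulVec f f ∧ Bf R f u = q • vecMulVec f f := by
  have hcube : ∀ x, R (R (R x)) = 0 := by
    intro x
    have h1 := congrArg (fun T : Module.End F (Matrix (Fin 3) (Fin 3) F) => T x) (H3_cube b hR ha)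
    exact h1
  have hRa : R (vecMulVec f f) = 0 := H3_Bff b hR ha
  have hRB : ∀ x : Matrix (Fin 3) (Fin 3) F, xᵀ = x → R (Bf R (x *ᵥ f) f) = 0 := by
    intro x hx
    have h1 := congrArg R (H3_RR b hR ha hx)
    rw [hcube, map_sub, map_smul, hRa, smul_zero, zero_sub] at h1
    exact neg_eq_zero.1 h1.symm
  have hRP : R (Bf R f g) = 0 := by
    have h1 := hRB (vecMulVec g g) (transpose_vecMulVec _ _)
    rw [vmv_mulVec, b.gf, one_smul, Bf_comm hR g f] at h1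
    exact h1
  have hRU : R (Bf R f u) = 0 := by
    have h1 := hRB (vecMulVec u g + vecMulVec g u) (by
      rw [transpose_add, transpose_vecMulVec, transpose_vecMulVec, add_comm])
    rw [add_mulVec, vmv_mulVec, vmv_mulVec, b.gf, b.uf, one_smul, zero_smul, add_zero,
      Bf_comm hR u f] at h1
    exact h1
  have hPs : (Bf R f g)ᵀ = Bf R f g := hR.tr _
  have hUs : (Bf R f u)ᵀ = Bf R f u := hR.tr _
  have hane : vecMulVec f f ≠ 0 := by
    intro h
    have h1 : vecMulVec f f *ᵥ g = f := by rw [vmv_mulVec, b.fg, one_smul]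
    rw [h, zero_mulVec] at h1
    have h2 := b.fg
    rw [← h1, zero_dotProduct] at h2
    exact zero_ne_one h2
  -- the eigenvalues on `f`
  have hPf : g ⬝ᵥ (Bf R f g *ᵥ f) = 0 := by
    have h1 := H3_RR b hR ha (x := vecMulVec f g + vecMulVec g f) (by
      rw [transpose_add, transpose_vecMulVec, transpose_vecMulVec, add_comm])
    have h2 : R (vecMulVec f g + vecMulVec g f) = (2 : F) • Bf R f g := by
      rw [map_add, ← Bf_apply, ← Bf_apply, Bf_comm hR g f, two_smul]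
    have h3 : (vecMulVec f g + vecMulVec g f) *ᵥ f = f := by
      rw [add_mulVec, vmv_mulVec, vmv_mulVec, b.gf, b.ff, one_smul, zero_smul, add_zero]
    rw [h2, h3, map_smul, hRP, smul_zero, H3_Bff b hR ha, sub_zero] at h1
    have h4 := (smul_eq_zero.1 h1.symm).resolve_right hane
    rw [smul_mulVec, dotProduct_smul, smul_eq_mul] at h4
    exact (mul_eq_zero.1 h4).resolve_left two_ne_zero
  have hUf : g ⬝ᵥ (Bf R f u *ᵥ f) = 0 := by
    have h1 := H3_RR b hR ha (x := vecMulVec f u + vecMulVec u f) (by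
      rw [transpose_add, transpose_vecMulVec, transpose_vecMulVec, add_comm])
    have h2 : R (vecMulVec f u + vecMulVec u f) = (2 : F) • Bf R f u := by
      rw [map_add, ← Bf_apply, ← Bf_apply, Bf_comm hR u f, two_smul]
    have h3 : (vecMulVec f u + vecMulVec u f) *ᵥ f = 0 := by
      rw [add_mulVec, vmv_mulVec, vmv_mulVec, b.uf, b.ff, zero_smul, zero_smul, add_zero]
    rw [h2, h3, map_smul, hRU, smul_zero, map_zero, LinearMap.zero_apply, sub_zero] at h1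
    have h4 := (smul_eq_zero.1 h1.symm).resolve_right hane
    rw [smul_mulVec, dotProduct_smul, smul_eq_mul] at h4
    exact (mul_eq_zero.1 h4).resolve_left two_ne_zero
  obtain ⟨w, hw⟩ : ∃ w, w = Bf R g g := ⟨_, rfl⟩
  have hws : wᵀ = w := by rw [hw]; exact hR.tr _
  have hRw : R w = (g ⬝ᵥ (w *ᵥ f)) • vecMulVec f f - Bf R f g := by
    have h1 := H3_RR b hR ha (x := vecMulVec g g) (transpose_vecMulVec _ _)
    rw [vmv_mulVec, b.gf, one_smul, Bf_comm hR g f, ← Bf_apply, ← hw] at h1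
    exact h1
  -- the three relations
  have E1 := H3_Rs b hR ha (vecMulVec f g)
  have E2 := H3_Rs b hR ha (vecMulVec f u)
  have E3 := H3_Rs b hR ha (vecMulVec g g)
  rw [← Bf_apply, hRP, hPf, H3_Buu b hR ha] at E1
  rw [← Bf_apply, hRU, hUf, H3_Buu b hR ha] at E2
  rw [← Bf_apply, ← hw, hRw, H3_Buu b hR ha] at E3
  obtain ⟨P, hP⟩ : ∃ P, P = Bf R f g := ⟨_, rfl⟩
  obtain ⟨U, hU⟩ : ∃ U, U = Bf R f u := ⟨_, rfl⟩
  rw [← hP] at E1 E2 E3 hPf hPs
  rw [← hU] at E1 E2 E3 hUf hUs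
  have hPv := H3_val b hR ha (vecMulVec f g)
  have hUv := H3_val b hR ha (vecMulVec f u)
  rw [← Bf_apply, ← hP, hPf] at hPv
  rw [← Bf_apply, ← hU, hUf] at hUv
  obtain ⟨x1, hx1⟩ : ∃ x1, x1 = g ⬝ᵥ (P *ᵥ u) := ⟨_, rfl⟩
  obtain ⟨x2, hx2⟩ : ∃ x2, x2 = u ⬝ᵥ (P *ᵥ u) := ⟨_, rfl⟩
  obtain ⟨x3, hx3⟩ : ∃ x3, x3 = g ⬝ᵥ (P *ᵥ g) := ⟨_, rfl⟩
  obtain ⟨y1, hy1⟩ : ∃ y1, y1 = g ⬝ᵥ (U *ᵥ u) := ⟨_, rfl⟩
  obtain ⟨y2, hy2⟩ : ∃ y2, y2 = u ⬝ᵥ (U *ᵥ u) := ⟨_, rfl⟩
  obtain ⟨y3, hy3⟩ : ∃ y3, y3 = g ⬝ᵥ (U *ᵥ g) := ⟨_, rfl⟩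
  obtain ⟨l, hl⟩ : ∃ l, l = g ⬝ᵥ (w *ᵥ f) := ⟨_, rfl⟩
  obtain ⟨W, hW⟩ : ∃ W, W = g ⬝ᵥ (w *ᵥ u) := ⟨_, rfl⟩
  obtain ⟨d, hd⟩ : ∃ d, d = u ⬝ᵥ (w *ᵥ u) := ⟨_, rfl⟩
  rw [← hx1, ← hx2, ← hx3] at hPv
  rw [← hy1, ← hy2, ← hy3] at hUv
  rw [← hx1, ← hx2] at E1
  rw [← hy1, ← hy2] at E2
  rw [← hl, ← hW, ← hd] at E3
  have ev : ∀ (p q : Fin 3 → F) (c1 c2 c3 : F), 
      p ⬝ᵥ ((c1 • P + c2 • U + c3 • (vecMulVec f f - (2 : F) • P)) *ᵥ q) =
      (c1 - 2 * c3) * (p ⬝ᵥ (P *ᵥ q)) + c2 * (p ⬝ᵥ (U *ᵥ q)) + c3 * ((f ⬝ᵥ q) * (p ⬝ᵥ f)) := by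
    intro p q c1 c2 c3
    simp only [add_mulVec, sub_mulVec, smul_mulVec, dotProduct_add, dotProduct_sub,
      dotProduct_smul, vmv_mulVec, smul_eq_mul]
    ring
  have ap : ∀ {c1 c2 c3 : F} {M : Matrix (Fin 3) (Fin 3) F}
      (_ : M = c1 • P + c2 • U + c3 • (vecMulVec f f - (2 : F) • P)) (p q : Fin 3 → F),
      p ⬝ᵥ (M *ᵥ q) =
      (c1 - 2 * c3) * (p ⬝ᵥ (P *ᵥ q)) + c2 * (p ⬝ᵥ (U *ᵥ q)) + c3 * ((f ⬝ᵥ q) * (p ⬝ᵥ f)) := by
    intro c1 c2 c3 M hM p q
    rw [hM, ev]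
  have a1 := ap E1 g u
  have a2 := ap E1 u u
  have a3 := ap E1 g g
  have b1 := ap E2 g u
  have b2 := ap E2 u u
  have b3 := ap E2 g g
  have c1 := ap E3 g u
  have c2 := ap E3 u u
  have c3 := ap E3 g g
  have hM : ∀ p q : Fin 3 → F, p ⬝ᵥ ((l • vecMulVec f f - P) *ᵥ q) =
      l * ((f ⬝ᵥ q) * (p ⬝ᵥ f)) - p ⬝ᵥ (P *ᵥ q) := by
    intro p q
    simp only [sub_mulVec, smul_mulVec, dotProduct_sub, dotProduct_smul, vmv_mulVec, smul_eq_mul]
  rw [hM] at c1 c2 c3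
  rw [← hx1, ← hy1, b.fu] at a1 b1 c1
  rw [← hx2, ← hy2, b.fu] at a2 b2 c2
  rw [← hx3, ← hy3, b.fg, b.gf] at a3 b3 c3
  rw [zero_mulVec, dotProduct_zero] at a1 a2 a3 b1 b2 b3
  -- the algebra
  obtain ⟨v, hv⟩ : ∃ v, v = 2 * l + 1 - 2 * d := ⟨_, rfl⟩
  obtain ⟨D, hD⟩ : ∃ D, D = 1 - 2 * x3 := ⟨_, rfl⟩
  have e1 : x1 * y1 - x2 * x1 = 0 := by linear_combination (-1/2 : F) * a1
  have e2 : x1 * y2 - x2 * x2 = 0 := by linear_combination (-1/2 : F) * a2
  have e3 : 2 * x1 * y3 + x2 * D = 0 := by rw [hD]; linear_combination (-1 : F) * a3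
  have e4 : y1 * y1 - y2 * x1 = 0 := by linear_combination (-1/2 : F) * b1
  have e5 : y1 * y2 - y2 * x2 = 0 := by linear_combination (-1/2 : F) * b2
  have e6 : 2 * y1 * y3 + y2 * D = 0 := by rw [hD]; linear_combination (-1 : F) * b3
  have e7 : v * x1 + 2 * W * y1 = 0 := by rw [hv]; linear_combination (-1 : F) * c1
  have e8 : v * x2 + 2 * W * y2 = 0 := by rw [hv]; linear_combination (-1 : F) * c2
  have e9 : v * D - 4 * W * y3 = 1 := by rw [hv, hD]; linear_combination (2 : F) * c3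
  have det : y1 * x2 - y2 * x1 = 0 := by
    have d1 : v * (y1 * x2 - y2 * x1) = 0 := by linear_combination y1 * e8 - y2 * e7
    have d2 : 2 * W * (y1 * x2 - y2 * x1) = 0 := by linear_combination x2 * e7 - x1 * e8
    have d3 : (v * D - 4 * W * y3) * (y1 * x2 - y2 * x1) = 0 := by
      linear_combination D * d1 - 2 * y3 * d2
    rw [e9, one_mul] at d3
    exact d3
  have c0 : y1 - x2 = 0 := by
    have d1 : (y1 - x2) * (y1 - x2) = 0 := by linear_combination e4 - e2 - 2 * det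
    exact mul_self_eq_zero.1 d1
  have z1 : x1 = 0 := by
    have d1 : (v * D - 4 * W * y3) * x1 = 0 := by
      linear_combination D * e7 - 2 * W * e3 - 2 * W * D * c0
    rw [e9, one_mul] at d1
    exact d1
  have z2 : x2 = 0 := by
    have d1 : (v * D - 4 * W * y3) * x2 = 0 := by
      linear_combination D * e8 - 2 * W * e6 + 4 * W * y3 * c0
    rw [e9, one_mul] at d1
    exact d1
  have z3 : y1 = 0 := by rw [z2, sub_zero] at c0; exact c0
  have z4 : y2 = 0 := by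
    have d1 : (v * D - 4 * W * y3) * y2 = 0 := by
      rw [z3] at e6
      rw [z2] at e8
      linear_combination v * e6 - 2 * y3 * e8
    rw [e9, one_mul] at d1
    exact d1
  rw [z1, z2] at hPv
  rw [z3, z4] at hUv
  have hPf' : P *ᵥ f = 0 := by
    rw [hP, Bf_apply, H3_Rf b hR ha, ← Bf_apply, ← hP, hPf, zero_smul]
  have hUf' : U *ᵥ f = 0 := by
    rw [hU, Bf_apply, H3_Rf b hR ha, ← Bf_apply, ← hU, hUf, zero_smul]
  have fin : ∀ (M : Matrix (Fin 3) (Fin 3) F) (c : F), M *ᵥ f = 0 → M *ᵥ u = 0 → M *ᵥ g = c • f →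
      M = c • vecMulVec f f := by
    intro M c h1 h2 h3
    have h4 : M = M * (vecMulVec f g + vecMulVec g f + vecMulVec u u) := by
      rw [b.one, Matrix.mul_one]
    rw [h4, Matrix.mul_add, Matrix.mul_add, mul_vecMulVec, mul_vecMulVec, mul_vecMulVec, h1, h2,
      h3, zero_vecMulVec, zero_vecMulVec, zero_add, add_zero, smul_vecMulVec]
  refine ⟨x3, y3, ?_, ?_⟩
  · rw [← hP]
    apply fin _ _ hPf'
    · rw [hPv.1, zero_smul, zero_smul, add_zero]
    · rw [hPv.2, zero_smul, zero_smul, add_zero, add_zero]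
  · rw [← hU]
    apply fin _ _ hUf'
    · rw [hUv.1, zero_smul, zero_smul, add_zero]
    · rw [hUv.2, zero_smul, zero_smul, add_zero, add_zero]

/-- The expansion of `R x` for symmetric `x`. -/
theorem H3_Rx {x : Matrix (Fin 3) (Fin 3) F} (hx : xᵀ = x) : R x =
    (2 * (g ⬝ᵥ (x *ᵥ f))) • Bf R f g + (f ⬝ᵥ (x *ᵥ f)) • Bf R g g +
      (2 * (f ⬝ᵥ (x *ᵥ u))) • Bf R g u + (2 * (g ⬝ᵥ (x *ᵥ u))) • Bf R f u +
      (u ⬝ᵥ (x *ᵥ u)) • Bf R u u := by
  rw [b.R_exp x, b.exp (x *ᵥ f), b.exp (x *ᵥ g), b.exp (x *ᵥ u)]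
  simp only [map_add, map_smul, LinearMap.add_apply, LinearMap.smul_apply, dotProduct_smul,
    dotProduct_add, b.gf, b.gu, b.fg, b.fu, b.ff, b.uf, b.uu, b.ug, b.gg, smul_eq_mul]
  rw [H3_Bff b hR ha, Bf_comm hR u g, Bf_comm hR u f, Bf_comm hR g f, dot_symm' hx f g,
    dot_symm' hx u f, dot_symm' hx u g]
  module

omit [CharZero F] hR ha in
/-- A matrix is determined by its action on the basis. -/
theorem H3_ext {M N : Matrix (Fin 3) (Fin 3) F} (h1 : M *ᵥ f = N *ᵥ f) (h2 : M *ᵥ u = N *ᵥ u)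
    (h3 : M *ᵥ g = N *ᵥ g) : M = N := by
  have h4 : M = M * (vecMulVec f g + vecMulVec g f + vecMulVec u u) := by
    rw [b.one, Matrix.mul_one]
  have h5 : N = N * (vecMulVec f g + vecMulVec g f + vecMulVec u u) := by
    rw [b.one, Matrix.mul_one]
  rw [h4, h5, Matrix.mul_add, Matrix.mul_add, mul_vecMulVec, mul_vecMulVec, mul_vecMulVec, h1, h2,
    h3, Matrix.mul_add, Matrix.mul_add, mul_vecMulVec, mul_vecMulVec, mul_vecMulVec]

omit [CharZero F] hR ha in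
theorem H3_fne : f ≠ 0 := by
  intro h
  have h1 := b.fg
  rw [h, zero_dotProduct] at h1
  exact zero_ne_one h1

omit [CharZero F] hR ha in
theorem H3_ane : vecMulVec f f ≠ 0 := vecMulVec_ne_zero (H3_fne b) (H3_fne b)

theorem H3_caseA (hU : Bf R f u = 0) (hP : Bf R f g = (2⁻¹ : F) • vecMulVec f f)
    {x : Matrix (Fin 3) (Fin 3) F} (hx : xᵀ = x) (hx1 : R x = vecMulVec f g + vecMulVec g f) :
    False := by
  obtain ⟨e, he⟩ : ∃ e, e = vecMulVec f g + vecMulVec g f := ⟨_, rfl⟩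
  rw [← he] at hx1
  have het : eᵀ = e := by rw [← hx1, hR.tr]
  have hef : e *ᵥ f = f := by
    rw [he, add_mulVec, vmv_mulVec, vmv_mulVec, b.gf, b.ff, one_smul, zero_smul, add_zero]
  have heg : e *ᵥ g = g := by
    rw [he, add_mulVec, vmv_mulVec, vmv_mulVec, b.gg, b.fg, one_smul, zero_smul, zero_add]
  have heu : e *ᵥ u = 0 := by
    rw [he, add_mulVec, vmv_mulVec, vmv_mulVec, b.gu, b.fu, zero_smul, zero_smul, add_zero]
  have hee : e * e = e := by
    apply H3_ext b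
    · rw [← mulVec_mulVec, hef]
      rw [hef]
    · rw [← mulVec_mulVec, heu, mulVec_zero]
    · rw [← mulVec_mulVec, heg]
      rw [heg]
  have hBuu : Bf R u u = 0 := by
    rw [H3_Buu b hR ha, hP, smul_smul, mul_inv_cancel₀ two_ne_zero, one_smul, sub_self]
  -- the element `k`
  have hk : R (jp e x - x) = 0 := by
    have h1 := hR.rb x x
    rw [hx1, jp_comm x e, ← two_smul F (jp e x), map_smul] at h1
    have h2 : jp e e = (2 : F) • e := by
      unfold jp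
      rw [hee, two_smul]
    rw [h2] at h1
    rw [map_sub, hx1, ← smul_right_injective _ (two_ne_zero (α := F)) h1, sub_self]
  have hks : (jp e x - x)ᵀ = jp e x - x := by
    unfold jp
    rw [transpose_sub, transpose_add, transpose_mul, transpose_mul, hx, het, add_comm]
  have hkv : ∀ p q : Fin 3 → F, p ⬝ᵥ ((jp e x - x) *ᵥ q) =
      (e *ᵥ p) ⬝ᵥ (x *ᵥ q) + p ⬝ᵥ (x *ᵥ (e *ᵥ q)) - p ⬝ᵥ (x *ᵥ q) := by
    intro p q
    unfold jp
    rw [sub_mulVec, add_mulVec, dotProduct_sub, dotProduct_add, ← mulVec_mulVec, ← mulVec_mulVec,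
      dot_symm het]
  have h1 := H3_Rx b hR ha hks
  rw [hk, hU, hBuu, hkv g f, hkv f f, hkv f u, hef, heg, heu, mulVec_zero, dotProduct_zero,
    smul_zero, smul_zero, add_zero, add_zero, add_sub_cancel_right, add_sub_cancel_right, add_zero,
    sub_self, mul_zero, zero_smul, add_zero] at h1
  have h2 := H3_Rx b hR ha hx
  rw [hU, hBuu, smul_zero, smul_zero, add_zero, add_zero, ← h1, zero_add, hx1] at h2
  obtain ⟨c, hc⟩ : ∃ c, c = 2 * (f ⬝ᵥ (x *ᵥ u)) := ⟨_, rfl⟩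
  rw [← hc] at h2
  have hc0 : c ≠ 0 := by
    intro h0
    rw [h0, zero_smul] at h2
    rw [h2, zero_mulVec] at hef
    exact H3_fne b hef.symm
  have hK : Bf R g u = c⁻¹ • e := by
    rw [h2, smul_smul, inv_mul_cancel₀ hc0, one_smul]
  -- the operator on `g gᵀ`
  obtain ⟨w, hw⟩ : ∃ w, w = Bf R g g := ⟨_, rfl⟩
  have hws : wᵀ = w := by rw [hw]; exact hR.tr _
  obtain ⟨hwu, hwg⟩ := H3_val b hR ha (vecMulVec g g)
  have hwf := H3_Rf b hR ha (vecMulVec g g)
  rw [← Bf_apply, ← hw] at hwu hwg hwf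
  obtain ⟨α, hα⟩ : ∃ α, α = g ⬝ᵥ (w *ᵥ g) := ⟨_, rfl⟩
  obtain ⟨l, hl⟩ : ∃ l, l = g ⬝ᵥ (w *ᵥ f) := ⟨_, rfl⟩
  obtain ⟨β, hβ⟩ : ∃ β, β = g ⬝ᵥ (w *ᵥ u) := ⟨_, rfl⟩
  obtain ⟨d, hd⟩ : ∃ d, d = u ⬝ᵥ (w *ᵥ u) := ⟨_, rfl⟩
  rw [← hβ, ← hd] at hwu
  rw [← hα, ← hl, ← hβ] at hwg
  rw [← hl] at hwf
  have h3 := rbB hR g u g g
  rw [hK, ← hw, smul_mulVec, heg, smul_jp, hwu, hwg] at h3
  simp only [map_add, map_smul, LinearMap.add_apply, LinearMap.smul_apply] at h3
  rw [← hw, hU, hBuu, hK, Bf_comm hR g f, hP] at h3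
  have h4 : ∀ p q : Fin 3 → F, c⁻¹ * ((e *ᵥ p) ⬝ᵥ (w *ᵥ q) + p ⬝ᵥ (w *ᵥ (e *ᵥ q))) =
      2 * (c⁻¹ * (p ⬝ᵥ (w *ᵥ q))) + (l + d) * (c⁻¹ * (p ⬝ᵥ (e *ᵥ q))) +
        β * (2⁻¹ * ((f ⬝ᵥ q) * (p ⬝ᵥ f))) := by
    intro p q
    have h5 := congrArg (fun M => p ⬝ᵥ (M *ᵥ q)) h3
    unfold jp at h5
    simp only [add_mulVec, smul_mulVec, dotProduct_add, dotProduct_smul, smul_eq_mul, smul_zero,
      zero_mulVec, dotProduct_zero, ← mulVec_mulVec, vmv_mulVec] at h5
    rw [dot_symm het]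
    linear_combination h5
  have k1 := h4 u u
  have k2 := h4 g u
  have k3 := h4 g f
  rw [heu, mulVec_zero, zero_dotProduct, dotProduct_zero, ← hd, b.fu] at k1
  rw [heu, heg, mulVec_zero, dotProduct_zero, ← hβ, b.fu] at k2
  rw [heg, hef, ← hl, b.ff, b.gf] at k3
  have hci : c⁻¹ ≠ 0 := inv_ne_zero hc0
  have d0 : d = 0 := by
    have h5 : c⁻¹ * d = 0 := by linear_combination (-1/2 : F) * k1
    exact (mul_eq_zero.1 h5).resolve_left hci
  have β0 : β = 0 := by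
    have h5 : c⁻¹ * β = 0 := by linear_combination (-1 : F) * k2
    exact (mul_eq_zero.1 h5).resolve_left hci
  have l0 : l = 0 := by
    have h5 : c⁻¹ * l = 0 := by
      rw [d0] at k3
      linear_combination (-1 : F) * k3
    exact (mul_eq_zero.1 h5).resolve_left hci
  have hwa : w = α • vecMulVec f f := by
    apply H3_ext b
    · rw [hwf, l0, zero_smul, smul_mulVec, vmv_mulVec, b.ff, zero_smul, smul_zero]
    · rw [hwu, β0, d0, zero_smul, zero_smul, add_zero, smul_mulVec, vmv_mulVec, b.fu, zero_smul,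
        smul_zero]
    · rw [hwg, l0, β0, zero_smul, zero_smul, add_zero, add_zero, smul_mulVec, vmv_mulVec, b.fg,
        one_smul]
  have h6 := rbB hR g g g g
  rw [← hw, hwg, l0, β0, zero_smul, zero_smul, add_zero, add_zero, map_smul, map_smul,
    LinearMap.smul_apply, Bf_comm hR g f, hP] at h6
  have h7 : jp w w = 0 := by
    unfold jp
    rw [hwa, Matrix.smul_mul, Matrix.mul_smul, mul_vecMulVec, vmv_mulVec, b.ff, zero_smul,
      zero_vecMulVec, smul_zero, smul_zero, add_zero]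
  have h8 : (2 * α) • vecMulVec f f = 0 := by
    rw [← h7, h6]
    module
  have h9 := (smul_eq_zero.1 h8).resolve_right (H3_ane b)
  have α0 : α = 0 := (mul_eq_zero.1 h9).resolve_left two_ne_zero
  rw [α0, zero_smul] at hwa
  have h10 := H3_RR b hR ha (x := vecMulVec g g) (transpose_vecMulVec _ _)
  rw [← Bf_apply, ← hw, hwa, map_zero, zero_mulVec, dotProduct_zero, zero_smul, zero_sub,
    vmv_mulVec, b.gf, one_smul, Bf_comm hR g f, hP] at h10
  have h11 := neg_eq_zero.1 h10.symm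
  exact H3_ane b ((smul_eq_zero.1 h11).resolve_left (inv_ne_zero two_ne_zero))

theorem H3_caseB (hU : Bf R f u = 0) (hP : Bf R f g = 0)
    {x : Matrix (Fin 3) (Fin 3) F} (hx : xᵀ = x) (hx1 : R x = vecMulVec u u) : False := by
  obtain ⟨e, he⟩ : ∃ e, e = vecMulVec u u := ⟨_, rfl⟩
  rw [← he] at hx1
  have het : eᵀ = e := by rw [← hx1, hR.tr]
  have hef : e *ᵥ f = 0 := by rw [he, vmv_mulVec, b.uf, zero_smul]
  have heg : e *ᵥ g = 0 := by rw [he, vmv_mulVec, b.ug, zero_smul]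
  have heu : e *ᵥ u = u := by rw [he, vmv_mulVec, b.uu, one_smul]
  have hee : e * e = e := by
    apply H3_ext b
    · rw [← mulVec_mulVec, hef, mulVec_zero]
    · rw [← mulVec_mulVec, heu]
      rw [heu]
    · rw [← mulVec_mulVec, heg, mulVec_zero]
  have hBuu : Bf R u u = vecMulVec f f := by
    rw [H3_Buu b hR ha, hP, smul_zero, sub_zero]
  have hk : R (jp e x - x) = 0 := by
    have h1 := hR.rb x x
    rw [hx1, jp_comm x e, ← two_smul F (jp e x), map_smul] at h1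
    have h2 : jp e e = (2 : F) • e := by
      unfold jp
      rw [hee, two_smul]
    rw [h2] at h1
    rw [map_sub, hx1, ← smul_right_injective _ (two_ne_zero (α := F)) h1, sub_self]
  have hks : (jp e x - x)ᵀ = jp e x - x := by
    unfold jp
    rw [transpose_sub, transpose_add, transpose_mul, transpose_mul, hx, het, add_comm]
  obtain ⟨k, hkk⟩ : ∃ k, k = jp e x - x := ⟨_, rfl⟩
  have hkv : ∀ p q : Fin 3 → F, p ⬝ᵥ (k *ᵥ q) =
      (e *ᵥ p) ⬝ᵥ (x *ᵥ q) + p ⬝ᵥ (x *ᵥ (e *ᵥ q)) - p ⬝ᵥ (x *ᵥ q) := by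
    intro p q
    rw [hkk]
    unfold jp
    rw [sub_mulVec, add_mulVec, dotProduct_sub, dotProduct_add, ← mulVec_mulVec, ← mulVec_mulVec,
      dot_symm het]
  rw [← hkk] at hk hks
  have hk2 : R (jp e k) = 0 := by
    rw [← hx1]
    exact K0 hR.rb hk x
  have hk2s : (jp e k)ᵀ = jp e k := by
    unfold jp
    rw [transpose_add, transpose_mul, transpose_mul, hks, het, add_comm]
  have hk2v : ∀ p q : Fin 3 → F, p ⬝ᵥ (jp e k *ᵥ q) =
      (e *ᵥ p) ⬝ᵥ (k *ᵥ q) + p ⬝ᵥ (k *ᵥ (e *ᵥ q)) := by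
    intro p q
    unfold jp
    rw [add_mulVec, dotProduct_add, ← mulVec_mulVec, ← mulVec_mulVec, dot_symm het]
  have kff := hkv f f
  have kfu := hkv f u
  have kuu := hkv u u
  rw [hef, mulVec_zero, zero_dotProduct, dotProduct_zero, add_zero, zero_sub] at kff
  rw [hef, heu, zero_dotProduct, zero_add, sub_self] at kfu
  rw [heu, add_sub_cancel_right] at kuu
  have h1 := H3_Rx b hR ha hks
  rw [hk, hU, hP, hBuu, kff, kfu, kuu, smul_zero, smul_zero, mul_zero, zero_smul, zero_add,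
    add_zero, add_zero] at h1
  have h2 := H3_Rx b hR ha hk2s
  rw [hk2, hU, hP, hBuu, hk2v f f, hk2v f u, hk2v u u, hef, heu, kuu, kfu, mulVec_zero,
    dotProduct_zero, zero_dotProduct, zero_dotProduct, smul_zero, smul_zero] at h2
  simp only [add_zero, mul_zero, zero_smul, zero_add] at h2
  have huu : u ⬝ᵥ (x *ᵥ u) = 0 := by
    have h3 := (smul_eq_zero.1 h2.symm).resolve_right (H3_ane b)
    rw [← two_mul] at h3
    exact (mul_eq_zero.1 h3).resolve_left two_ne_zero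
  rw [huu, zero_smul, add_zero, neg_smul] at h1
  have h3 := neg_eq_zero.1 h1.symm
  have h4 := H3_Rx b hR ha hx
  rw [hU, hP, huu, smul_zero, smul_zero, zero_smul, h3, zero_add, zero_add, add_zero, add_zero,
    hx1] at h4
  obtain ⟨c, hc⟩ : ∃ c, c = 2 * (f ⬝ᵥ (x *ᵥ u)) := ⟨_, rfl⟩
  rw [← hc] at h4
  have hune : u ≠ 0 := by
    intro h0
    have h5 := b.uu
    rw [h0, zero_dotProduct] at h5
    exact zero_ne_one h5
  have hc0 : c ≠ 0 := by
    intro h0
    rw [h0, zero_smul] at h4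
    rw [h4, zero_mulVec] at heu
    exact hune heu.symm
  have hK : Bf R g u = c⁻¹ • e := by
    rw [h4, smul_smul, inv_mul_cancel₀ hc0, one_smul]
  have h6 := rbB hR u u g u
  rw [hK, hBuu, smul_mulVec, heu, vmv_mulVec, b.fg, one_smul, vmv_mulVec, b.fu, zero_smul,
    map_zero, hU, map_smul, map_smul, LinearMap.smul_apply, hBuu, add_zero, zero_add] at h6
  have h7 : jp (vecMulVec f f) (c⁻¹ • e) = 0 := by
    rw [jp_smul]
    unfold jp
    rw [vmv_mul het, mul_vecMulVec, hef, zero_vecMulVec, vecMulVec_zero, add_zero, smul_zero]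
  rw [h7, ← two_smul F, smul_smul] at h6
  have h8 := (smul_eq_zero.1 h6.symm).resolve_right (H3_ane b)
  exact mul_ne_zero two_ne_zero (inv_ne_zero hc0) h8

end Main

/-- The case `n = 3`, `(R 1)^2 = 0`. -/
theorem H3_upper {F : Type*} [Field F] [CharZero F] [IsAlgClosed F]
    {R : Matrix (Fin 3) (Fin 3) F →ₗ[F] Matrix (Fin 3) (Fin 3) F} (hR : SRB R)
    (h0 : (R 1) ^ 2 = 0) : R ^ 2 = 0 := by
  by_cases ha0 : R 1 = 0
  · have h1 := pow_two_mul_eq_zero hR.rb 1 (by rw [pow_one]; exact ha0)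
    exact h1
  -- `R 1` has rank one
  obtain ⟨f, hf, hff, ha⟩ : ∃ f : Fin 3 → F, f ≠ 0 ∧ f ⬝ᵥ f = 0 ∧ R 1 = vecMulVec f f := by
    obtain ⟨r, y, hy, hay⟩ := symm_decomp (hR.tr 1)
    have hiso : ∀ i j, y i ⬝ᵥ y j = 0 := by
      obtain ⟨h, hh⟩ := exists_dual hy
      have h1 : ∀ i, R 1 *ᵥ h i = y i := by
        intro i
        rw [hay, Matrix.sum_mulVec, Finset.sum_eq_single i]
        · rw [vmv_mulVec, dotProduct_comm, hh, if_pos rfl, one_smul]
        · intro j _ hj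
          rw [vmv_mulVec, dotProduct_comm, hh, if_neg (Ne.symm hj), zero_smul]
        · intro hcon
          exact absurd (Finset.mem_univ _) hcon
      intro i j
      rw [← h1 i, ← h1 j, dot_symm (hR.tr 1), mulVec_mulVec, ← pow_two, h0, zero_mulVec,
        dotProduct_zero]
    have hr := iso_card hy hiso
    have hr2 : r ≠ 0 := by
      rintro rfl
      apply ha0
      rw [hay, Finset.univ_eq_empty, Finset.sum_empty]
    obtain rfl : r = 1 := by omega
    refine ⟨y 0, hy.ne_zero 0, hiso 0 0, ?_⟩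
    rw [hay, Fin.sum_univ_one]
  obtain ⟨g, u, b⟩ := exists_B3 hf hff
  by_contra hcon
  obtain ⟨p, q, hP, hU⟩ := H3_PU b hR ha
  have hane := H3_ane b
  have hBuu : Bf R u u = (1 - 2 * p) • vecMulVec f f := by
    rw [H3_Buu b hR ha, hP]
    module
  -- an element with `R (R x) = a`
  obtain ⟨x, hx, hRR⟩ : ∃ x : Matrix (Fin 3) (Fin 3) F, xᵀ = x ∧ R (R x) = vecMulVec f f := by
    obtain ⟨y, hy⟩ : ∃ y, R (R y) ≠ 0 := by
      by_contra hc
      push Not at hc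
      apply hcon
      apply LinearMap.ext
      intro y
      exact hc y
    have hys : (y + yᵀ)ᵀ = y + yᵀ := by rw [transpose_add, transpose_transpose, add_comm]
    have hy2 : R (R (y + yᵀ)) ≠ 0 := by
      rw [map_add, hR.ti, ← two_smul F, map_smul]
      exact smul_ne_zero two_ne_zero hy
    have hT : ∀ z : Matrix (Fin 3) (Fin 3) F, zᵀ = z → R (R z) =
        ((g ⬝ᵥ (R z *ᵥ f)) - (f ⬝ᵥ (z *ᵥ f)) * p - (u ⬝ᵥ (z *ᵥ f)) * q) • vecMulVec f f := by
      intro z hz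
      rw [H3_RR b hR ha hz]
      obtain ⟨ζ, hζ⟩ : ∃ ζ, ζ = z *ᵥ f := ⟨_, rfl⟩
      rw [← hζ]
      conv_lhs => rw [b.exp ζ]
      simp only [map_add, map_smul, LinearMap.add_apply, LinearMap.smul_apply]
      rw [H3_Bff b hR ha, Bf_comm hR g f, hP, Bf_comm hR u f, hU]
      module
    obtain ⟨τ, hτ⟩ : ∃ τ : F, R (R (y + yᵀ)) = τ • vecMulVec f f := ⟨_, hT _ hys⟩
    have hτ0 : τ ≠ 0 := by
      intro h
      rw [hτ, h, zero_smul] at hy2
      exact hy2 rfl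
    refine ⟨τ⁻¹ • (y + yᵀ), by rw [transpose_smul, hys], ?_⟩
    rw [map_smul, map_smul, hτ, smul_smul, inv_mul_cancel₀ hτ0, one_smul]
  obtain ⟨s, hs⟩ : ∃ s, s = R x := ⟨_, rfl⟩
  have hsf := H3_Rf b hR ha x
  obtain ⟨hsu, hsg⟩ := H3_val b hR ha x
  rw [← hs] at hsf hsu hsg
  have hst : sᵀ = s := by rw [hs, hR.tr]
  obtain ⟨l, hl⟩ : ∃ l, l = g ⬝ᵥ (s *ᵥ f) := ⟨_, rfl⟩
  obtain ⟨β, hβ⟩ : ∃ β, β = g ⬝ᵥ (s *ᵥ u) := ⟨_, rfl⟩
  obtain ⟨α, hα⟩ : ∃ α, α = g ⬝ᵥ (s *ᵥ g) := ⟨_, rfl⟩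
  obtain ⟨d, hd⟩ : ∃ d, d = u ⬝ᵥ (s *ᵥ u) := ⟨_, rfl⟩
  rw [← hl] at hsf
  rw [← hβ, ← hd] at hsu
  rw [← hα, ← hl, ← hβ] at hsg
  have hxf : Bf R (x *ᵥ f) f = (l - 1) • vecMulVec f f := by
    have h1 := H3_RR b hR ha hx
    rw [hRR, ← hs, ← hl] at h1
    rw [sub_smul, one_smul]
    nth_rewrite 2 [h1]
    rw [sub_sub_cancel]
  have key : ∀ (y z : Fin 3 → F) (μ : F), Bf R y z = μ • vecMulVec f f →
      Bf R (s *ᵥ y) z + Bf R y (s *ᵥ z) = (2 * μ) • vecMulVec f f := by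
    intro y z μ hμ
    have h1 := rbB_x hR y z x
    rw [hμ, ← hs, smul_jp, smul_jp, map_smul] at h1
    have h2 : jp (vecMulVec f f) s = (2 * l) • vecMulVec f f := by
      unfold jp
      rw [vmv_mul hst, mul_vecMulVec, hsf, vecMulVec_smul, smul_vecMulVec]
      module
    have h3 : R (jp (vecMulVec f f) x) = (2 * (l - 1)) • vecMulVec f f := by
      unfold jp
      rw [vmv_mul hx, mul_vecMulVec, map_add, ← Bf_apply, ← Bf_apply, Bf_comm hR f, hxf]
      module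
    rw [h2, h3] at h1
    have h4 : Bf R (s *ᵥ y) z + Bf R y (s *ᵥ z) = μ • (2 * l) • vecMulVec f f -
        μ • (2 * (l - 1)) • vecMulVec f f := by
      rw [h1, add_sub_cancel_left]
    rw [h4]
    module
  have coef : ∀ {c d : F}, c • vecMulVec f f = d • vecMulVec f f → c = d := by
    intro c d h
    have h1 : (c - d) • vecMulVec f f = 0 := by rw [sub_smul, h, sub_self]
    exact sub_eq_zero.1 ((smul_eq_zero.1 h1).resolve_right hane)
  have h1 : (l + d) * q = 2 * q := by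
    apply coef
    rw [← key f u q hU, hsf, hsu]
    simp only [map_add, map_smul, LinearMap.smul_apply]
    rw [H3_Bff b hR ha, hU]
    module
  have h2 : 2 * l * p + β * q = 2 * p := by
    apply coef
    rw [← key f g p hP, hsf, hsg]
    simp only [map_add, map_smul, LinearMap.smul_apply]
    rw [H3_Bff b hR ha, hU, hP]
    module
  have h3 : 2 * (β * q + d * (1 - 2 * p)) = 2 * (1 - 2 * p) := by
    apply coef
    rw [← key u u _ hBuu, hsu]
    simp only [map_add, map_smul, LinearMap.smul_apply, LinearMap.add_apply]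
    rw [Bf_comm hR u f, hU, hBuu]
    module
  have hdet : l = 0 ∨ d = 0 := by
    by_contra hc
    push Not at hc
    obtain ⟨hl0, hd0⟩ := hc
    have h4 := det_R hR x (by norm_num)
    obtain ⟨v, hv, hv0⟩ := Matrix.exists_mulVec_eq_zero_iff.2 h4
    rw [← hs] at hv0
    have h5 : ∀ p : Fin 3 → F, p ⬝ᵥ (s *ᵥ v) = 0 := by
      intro p
      rw [hv0, dotProduct_zero]
    have e1 := h5 f
    have e2 := h5 u
    have e3 := h5 g
    rw [dot_symm' hst, hsf, dotProduct_smul, smul_eq_mul, dotProduct_comm] at e1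
    have e1' := (mul_eq_zero.1 e1).resolve_left hl0
    rw [dot_symm' hst, hsu, dotProduct_add, dotProduct_smul, dotProduct_smul, dotProduct_comm v f,
      e1', smul_zero, zero_add, smul_eq_mul, dotProduct_comm] at e2
    have e2' := (mul_eq_zero.1 e2).resolve_left hd0
    rw [dot_symm' hst, hsg, dotProduct_add, dotProduct_add, dotProduct_smul, dotProduct_smul,
      dotProduct_smul, dotProduct_comm v f, e1', smul_zero, zero_add, dotProduct_comm v u, e2',
      smul_zero, add_zero, smul_eq_mul, dotProduct_comm] at e3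
    have e3' := (mul_eq_zero.1 e3).resolve_left hl0
    apply hv
    rw [b.exp v, e1', e2', e3']
    simp
  by_cases hl0 : l = 0
  · -- case B
    rw [hl0] at h1 h2
    have hq : q = 0 := by
      by_contra hq
      have h4 : d = 2 := by
        have h5 : (d - 2) * q = 0 := by linear_combination h1
        exact sub_eq_zero.1 ((mul_eq_zero.1 h5).resolve_right hq)
      rw [h4] at h3
      have h5 : (2 : F) = 0 := by linear_combination h3 - 2 * h2
      exact two_ne_zero h5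
    have hp : p = 0 := by
      rw [hq] at h2
      have h5 : 2 * p = 0 := by linear_combination (-1 : F) * h2
      exact (mul_eq_zero.1 h5).resolve_left two_ne_zero
    have hd1 : d = 1 := by
      rw [hq, hp] at h3
      have h5 : 2 * (d - 1) = 0 := by linear_combination h3
      exact sub_eq_zero.1 ((mul_eq_zero.1 h5).resolve_left two_ne_zero)
    have b' : B3 f (g - β • u - (β * β / 2) • f) (u + β • f) := by
      refine ⟨b.ff, ?_, ?_, ?_, ?_, ?_⟩ <;>
      · simp only [dotProduct_sub, sub_dotProduct, dotProduct_add, add_dotProduct,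
          dotProduct_smul, smul_dotProduct, b.ff, b.gg, b.fg, b.gf, b.uf, b.ug, b.uu, b.fu, b.gu,
          smul_eq_mul]
        ring
    refine H3_caseB b' hR ha (x := x - (α - β * β) • 1) ?_ ?_ ?_ ?_
    · rw [map_add, map_smul, hU, H3_Bff b hR ha, hq]
      simp
    · rw [map_sub, map_sub, map_smul, map_smul, hU, hP, H3_Bff b hR ha, hq, hp]
      simp
    · rw [transpose_sub, transpose_smul, transpose_one, hx]
    · rw [map_sub, map_smul, ha, ← hs]
      apply H3_ext b'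
      · rw [sub_mulVec, smul_mulVec, vmv_mulVec, b.ff, hsf, hl0, vmv_mulVec, b'.uf]
        simp
      · rw [sub_mulVec, smul_mulVec, vmv_mulVec, b'.fu, vmv_mulVec, b'.uu, mulVec_add,
          mulVec_smul, hsf, hsu, hl0, hd1]
        simp [add_comm]
      · rw [sub_mulVec, smul_mulVec, vmv_mulVec, b'.fg, vmv_mulVec, b'.ug, mulVec_sub,
          mulVec_sub, mulVec_smul, mulVec_smul, hsf, hsu, hsg, hl0, hd1]
        module
  · -- case A
    have hd0 : d = 0 := hdet.resolve_left hl0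
    rw [hd0] at h1 h3
    have hq : q = 0 := by
      by_contra hq
      have h4 : l = 2 := by
        have h5 : (l - 2) * q = 0 := by linear_combination h1
        exact sub_eq_zero.1 ((mul_eq_zero.1 h5).resolve_right hq)
      rw [h4] at h2
      have h5 : (2 : F) = 0 := by linear_combination 2 * h2 - h3
      exact two_ne_zero h5
    have hp : p = 2⁻¹ := by
      rw [hq] at h3
      have h5 : 2 * p = 1 := by linear_combination (1/2 : F) * h3
      field_simp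
      linear_combination h5
    have hl1 : l = 1 := by
      rw [hq, hp] at h2
      have h5 : l = 1 := by
        field_simp at h2
        linear_combination h2
      exact h5
    have b' : B3 f (g + β • u - (β * β / 2) • f) (u - β • f) := by
      refine ⟨b.ff, ?_, ?_, ?_, ?_, ?_⟩ <;>
      · simp only [dotProduct_sub, sub_dotProduct, dotProduct_add, add_dotProduct,
          dotProduct_smul, smul_dotProduct, b.ff, b.gg, b.fg, b.gf, b.uf, b.ug, b.uu, b.fu, b.gu,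
          smul_eq_mul]
        ring
    refine H3_caseA b' hR ha (x := x - (α + β * β) • 1) ?_ ?_ ?_ ?_
    · rw [map_sub, map_smul, hU, H3_Bff b hR ha, hq]
      simp
    · rw [map_sub, map_add, map_smul, map_smul, hU, hP, H3_Bff b hR ha, hq, hp]
      simp
    · rw [transpose_sub, transpose_smul, transpose_one, hx]
    · rw [map_sub, map_smul, ha, ← hs]
      apply H3_ext b'
      · rw [sub_mulVec, smul_mulVec, vmv_mulVec, b.ff, hsf, hl1, add_mulVec, vmv_mulVec,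
          vmv_mulVec, b.ff, b'.gf]
        simp
      · rw [sub_mulVec, smul_mulVec, vmv_mulVec, b'.fu, add_mulVec, vmv_mulVec, vmv_mulVec,
          b'.gu, b'.fu, mulVec_sub, mulVec_smul, hsf, hsu, hl1, hd0]
        simp
      · rw [sub_mulVec, smul_mulVec, vmv_mulVec, b'.fg, add_mulVec, vmv_mulVec, vmv_mulVec,
          b'.gg, b'.fg, mulVec_sub, mulVec_add, mulVec_smul, mulVec_smul, hsf, hsu, hsg, hl1, hd0]
        module

end Pool.Agent.MP_f4742e_al
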