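import Mathlib

/-!
MP_f4742e_al, module LA: elementary linear algebra over `Fin n → F`.
-/

set_option autoImplicit false

namespace Pool.Agent.MP_f4742e_al

open Matrix

section LA

variable {F : Type*} [Field F] {n : ℕ}

/-- every functional is a dot product. -/
lemma LA.exists_dot (φ : (Fin n → F) →ₗ[F] F) : ∃ h : Fin n → F, ∀ y, φ y = h ⬝ᵥ y := by
  refine ⟨(dotProductEquiv F (Fin n)).symm φ, fun y => ?_⟩
  have := LinearMap.congr_fun ((dotProductEquiv F (Fin n)).apply_symm_apply φ) y
  rw [← this]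
  rfl

theorem exists_dual {r : ℕ} {g : Fin r → (Fin n → F)} (hg : LinearIndependent F g) :
    ∃ h : Fin r → (Fin n → F), ∀ i j, h i ⬝ᵥ g j = if i = j then 1 else 0 := by
  classical
  have hinj : LinearMap.ker (Fintype.linearCombination F g) = ⊥ :=
    LinearMap.ker_eq_bot.2 (linearIndependent_iff_injective_fintypeLinearCombination.1 hg)
  obtain ⟨ψ, hψ⟩ := LinearMap.exists_leftInverse_of_injective _ hinj
  have key : ∀ i : Fin r, ∃ h : Fin n → F, ∀ y, ψ y i = h ⬝ᵥ y := fun i =>
    LA.exists_dot ((LinearMap.proj i).comp ψ)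
  choose h hh using key
  refine ⟨h, fun i j => ?_⟩
  rw [← hh]
  have h1 : g j = Fintype.linearCombination F g (Pi.single j 1) := by
    rw [Fintype.linearCombination_apply_single, one_smul]
  rw [h1]
  have h2 := LinearMap.congr_fun hψ (Pi.single j (1 : F))
  rw [LinearMap.comp_apply, LinearMap.id_apply] at h2
  rw [h2, Pi.single_apply]

theorem iso_card {p : ℕ} {g : Fin p → (Fin n → F)} (hg : LinearIndependent F g)
    (h0 : ∀ i j, g i ⬝ᵥ g j = 0) : 2 * p ≤ n := by
  classical
  obtain ⟨h, hh⟩ := exists_dual hg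
  let Φ : (Fin n → F) →ₗ[F] (Fin p → F) := (Matrix.of g).mulVecLin
  have hΦ : ∀ y i, Φ y i = g i ⬝ᵥ y := fun y i => rfl
  have hsurj : Function.Surjective Φ := by
    intro c
    refine ⟨∑ j, c j • h j, ?_⟩
    ext i
    rw [hΦ, dotProduct_sum]
    rw [Finset.sum_eq_single i]
    · rw [dotProduct_smul, dotProduct_comm, hh, if_pos rfl, smul_eq_mul, mul_one]
    · intro j _ hji
      rw [dotProduct_smul, dotProduct_comm, hh, if_neg hji, smul_zero]
    · intro hi; exact absurd (Finset.mem_univ i) hi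
  have h1 := LinearMap.finrank_range_add_finrank_ker Φ
  rw [LinearMap.range_eq_top.2 hsurj, finrank_top, Module.finrank_fin_fun,
    Module.finrank_fin_fun] at h1
  have h2 : p ≤ Module.finrank F (LinearMap.ker Φ) := by
    have h3 : ∀ j, g j ∈ LinearMap.ker Φ := by
      intro j
      rw [LinearMap.mem_ker]
      ext i
      exact h0 i j
    have h4 : LinearIndependent F (fun j => (⟨g j, h3 j⟩ : LinearMap.ker Φ)) :=
      LinearIndependent.of_comp (LinearMap.ker Φ).subtype hg
    simpa using h4.fintype_card_le_finrank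
  omega

/-- the same for any finite index type -/
theorem iso_card' {ι : Type*} [Fintype ι] {g : ι → (Fin n → F)} (hg : LinearIndependent F g)
    (h0 : ∀ i j, g i ⬝ᵥ g j = 0) : 2 * Fintype.card ι ≤ n :=
  iso_card (hg.comp _ (Fintype.equivFin ι).symm.injective) fun _ _ => h0 _ _

theorem mem_range_of_orth {a : Matrix (Fin n) (Fin n) F} (ha : aᵀ = a) {y : Fin n → F}
    (hy : ∀ k, a *ᵥ k = 0 → k ⬝ᵥ y = 0) : ∃ t, y = a *ᵥ t := by
  have h1 : dotProductEquiv F (Fin n) y ∈ (LinearMap.ker a.mulVecLin).dualAnnihilator := by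
    rw [Submodule.mem_dualAnnihilator]
    intro k hk
    have := hy k (by simpa using hk)
    rw [dotProduct_comm] at this
    exact this
  rw [← LinearMap.range_dualMap_eq_dualAnnihilator_ker] at h1
  obtain ⟨φ, hφ⟩ := h1
  obtain ⟨t, ht⟩ := LA.exists_dot φ
  refine ⟨t, ?_⟩
  refine dotProduct_eq _ _ fun z => ?_
  have h2 := LinearMap.congr_fun hφ z
  rw [LinearMap.dualMap_apply, ht, Matrix.mulVecLin_apply] at h2
  have h3 : (dotProductEquiv F (Fin n) y) z = y ⬝ᵥ z := rfl
  rw [h3] at h2
  rw [← h2, Matrix.dotProduct_mulVec, ← Matrix.mulVec_transpose, ha]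

/-- chains: `a^(l j) y_j` independent and killed by `a` -/
theorem chain_indep {a : Matrix (Fin n) (Fin n) F} {ι : Type*} [Fintype ι] {y : ι → (Fin n → F)}
    {l : ι → ℕ} (h1 : ∀ j, a ^ (l j + 1) *ᵥ y j = 0)
    (h2 : LinearIndependent F fun j => a ^ (l j) *ᵥ y j) :
    LinearIndependent F fun p : Σ j : ι, Fin (l j + 1) => a ^ (p.2 : ℕ) *ᵥ y p.1 := by
  classical
  rw [Fintype.linearIndependent_iff]
  intro c hc
  by_contra hcon
  push Not at hcon
  obtain ⟨p0, hp0⟩ := hcon
  obtain ⟨q, hq, hmax⟩ := Finset.exists_max_image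
    (Finset.univ.filter fun p : Σ j : ι, Fin (l j + 1) => c p ≠ 0)
    (fun p => l p.1 - (p.2 : ℕ)) ⟨p0, by simpa using hp0⟩
  rw [Finset.mem_filter] at hq
  set d := l q.1 - (q.2 : ℕ) with hd
  have hkill : ∀ (j : ι) (e : ℕ), l j + 1 ≤ e → a ^ e *ᵥ y j = 0 := by
    intro j e he
    obtain ⟨f, rfl⟩ := Nat.exists_eq_add_of_le' he
    rw [pow_add, ← Matrix.mulVec_mulVec, h1, Matrix.mulVec_zero]
  have h3 : ∑ p : Σ j : ι, Fin (l j + 1), c p • (a ^ (d + (p.2 : ℕ)) *ᵥ y p.1) = 0 := by
    have := congrArg (fun v => a ^ d *ᵥ v) hc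
    simp only [Matrix.mulVec_zero, Matrix.mulVec_sum, Matrix.mulVec_smul,
      Matrix.mulVec_mulVec, ← pow_add] at this
    exact this
  -- the coefficients of the surviving terms
  let c' : ι → F := fun j => if h : d ≤ l j then c ⟨j, ⟨l j - d, by omega⟩⟩ else 0
  have h4 : ∑ j, c' j • (a ^ (l j) *ᵥ y j) = 0 := by
    rw [← h3, Fintype.sum_sigma]
    refine Finset.sum_congr rfl fun j _ => ?_
    by_cases hj : d ≤ l j
    · rw [Finset.sum_eq_single (⟨l j - d, by omega⟩ : Fin (l j + 1))]
      · simp only [c', dif_pos hj]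
        congr 3
        omega
      · intro b _ hb
        have hb' : (b : ℕ) ≠ l j - d := fun h => hb (Fin.ext h)
        rcases lt_or_gt_of_ne hb' with hlt | hgt
        · by_cases hcb : c ⟨j, b⟩ = 0
          · rw [hcb, zero_smul]
          · have hm : l j - (b : ℕ) ≤ d := hmax ⟨j, b⟩ (by simpa using hcb)
            omega
        · change c _ • (a ^ (d + (b : ℕ)) *ᵥ y j) = 0
          rw [hkill j _ (by omega), smul_zero]
      · intro h; exact absurd (Finset.mem_univ _) h
    · simp only [c', dif_neg hj, zero_smul]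
      symm
      refine Finset.sum_eq_zero fun b _ => ?_
      change c _ • (a ^ (d + (b : ℕ)) *ᵥ y j) = 0
      rw [hkill j _ (by omega), smul_zero]
  have h5 := Fintype.linearIndependent_iff.1 h2 c' h4 q.1
  have hqlt := q.2.2
  have h6 : c' q.1 = c q := by
    simp only [c']
    rw [dif_pos (by omega)]
    congr 1
    refine Sigma.ext rfl ?_
    refine heq_of_eq (Fin.ext ?_)
    simp only
    omega
  rw [h6] at h5
  exact hq.2 h5

theorem chain_card {a : Matrix (Fin n) (Fin n) F} {ι : Type*} [Fintype ι] {y : ι → (Fin n → F)}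
    {l : ι → ℕ} (h1 : ∀ j, a ^ (l j + 1) *ᵥ y j = 0)
    (h2 : LinearIndependent F fun j => a ^ (l j) *ᵥ y j) : ∑ j, (l j + 1) ≤ n := by
  have h := (chain_indep h1 h2).fintype_card_le_finrank
  rw [Module.finrank_fin_fun, Fintype.card_sigma] at h
  simpa using h

lemma LA.vecMulVec_mulVec (u v x : Fin n → F) : vecMulVec u v *ᵥ x = (v ⬝ᵥ x) • u := by
  ext i
  simp only [Matrix.mulVec, vecMulVec_apply, dotProduct, Pi.smul_apply, smul_eq_mul,
    Finset.sum_mul]
  exact Finset.sum_congr rfl fun k _ => by ring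

lemma LA.symm_dot {e : Matrix (Fin n) (Fin n) F} (he : eᵀ = e) (x y : Fin n → F) :
    x ⬝ᵥ (e *ᵥ y) = (e *ᵥ x) ⬝ᵥ y := by
  rw [Matrix.dotProduct_mulVec, ← Matrix.mulVec_transpose, he]

lemma LA.exists_aniso [CharZero F] {e : Matrix (Fin n) (Fin n) F} (he : eᵀ = e) (h0 : e ≠ 0) :
    ∃ y, y ⬝ᵥ (e *ᵥ y) ≠ 0 := by
  by_contra hcon
  push Not at hcon
  apply h0
  have h1 : ∀ x y, x ⬝ᵥ (e *ᵥ y) = 0 := by
    intro x y
    have h2 := hcon (x + y)
    rw [Matrix.mulVec_add, add_dotProduct, dotProduct_add, dotProduct_add, hcon x, hcon y,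
      zero_add, add_zero] at h2
    have h3 : y ⬝ᵥ (e *ᵥ x) = x ⬝ᵥ (e *ᵥ y) := by
      rw [LA.symm_dot he, dotProduct_comm]
    rw [h3] at h2
    have h4 : (2 : F) * (x ⬝ᵥ (e *ᵥ y)) = 0 := by linear_combination h2
    rcases mul_eq_zero.1 h4 with h5 | h5
    · exact absurd h5 two_ne_zero
    · exact h5
  ext i j
  have := h1 (Pi.single i 1) (Pi.single j 1)
  simpa using this

lemma LA.symm_decomp_aux [IsAlgClosed F] [CharZero F] (k : ℕ) :
    ∀ (e : Matrix (Fin n) (Fin n) F), eᵀ = e →
      n ≤ Module.finrank F (LinearMap.ker e.mulVecLin) + k →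
    ∃ (r : ℕ) (y : Fin r → (Fin n → F)), LinearIndependent F y ∧
      e = ∑ i, vecMulVec (y i) (y i) := by
  induction k with
  | zero =>
    intro e he hk
    have h1 : LinearMap.ker e.mulVecLin = ⊤ := by
      apply Submodule.eq_top_of_finrank_eq
      rw [Module.finrank_fin_fun]
      have := Submodule.finrank_le (LinearMap.ker e.mulVecLin)
      rw [Module.finrank_fin_fun] at this
      omega
    have h2 : e = 0 := by
      ext i j
      have h3 : (Pi.single j 1 : Fin n → F) ∈ LinearMap.ker e.mulVecLin := by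
        rw [h1]; exact Submodule.mem_top
      rw [LinearMap.mem_ker, Matrix.mulVecLin_apply] at h3
      have := congrFun h3 i
      simpa using this
    exact ⟨0, Fin.elim0, linearIndependent_empty_type, by rw [h2]; simp⟩
  | succ k ih =>
    intro e he hk
    by_cases h0 : e = 0
    · exact ⟨0, Fin.elim0, linearIndependent_empty_type, by rw [h0]; simp⟩
    obtain ⟨y, hy⟩ := LA.exists_aniso he h0
    set c := y ⬝ᵥ (e *ᵥ y) with hc
    obtain ⟨z, hz⟩ := IsAlgClosed.exists_pow_nat_eq c (n := 2) (by norm_num)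
    have hz0 : z ≠ 0 := by
      intro h; rw [h] at hz; apply hy; rw [← hz]; ring
    set w := z⁻¹ • (e *ᵥ y) with hw
    set e' := e - vecMulVec w w with he'
    have hsymm : e'ᵀ = e' := by
      rw [he', Matrix.transpose_sub, he, Matrix.transpose_vecMulVec]
    have hwy : w ⬝ᵥ y = z := by
      rw [hw, smul_dotProduct, dotProduct_comm, ← hc, ← hz, smul_eq_mul]
      field_simp
    have he'y : e' *ᵥ y = 0 := by
      rw [he', Matrix.sub_mulVec, LA.vecMulVec_mulVec, hwy, hw, smul_smul,
        mul_inv_cancel₀ hz0, one_smul, sub_self]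
    have hker : LinearMap.ker e.mulVecLin < LinearMap.ker e'.mulVecLin := by
      refine lt_of_le_of_ne ?_ ?_
      · intro x hx
        rw [LinearMap.mem_ker, Matrix.mulVecLin_apply] at hx ⊢
        have h1 : w ⬝ᵥ x = 0 := by
          rw [hw, smul_dotProduct, ← LA.symm_dot he, hx, dotProduct_zero, smul_zero]
        rw [he', Matrix.sub_mulVec, LA.vecMulVec_mulVec, h1, hx, zero_smul, sub_zero]
      · intro h
        have h1 : y ∈ LinearMap.ker e'.mulVecLin := by
          rw [LinearMap.mem_ker, Matrix.mulVecLin_apply]; exact he'y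
        rw [← h, LinearMap.mem_ker, Matrix.mulVecLin_apply] at h1
        apply hy
        rw [hc, h1, dotProduct_zero]
    have hlt := Submodule.finrank_lt_finrank_of_lt hker
    obtain ⟨r, g, hg, hsum⟩ := ih e' hsymm (by omega)
    have hdot : ∀ i, g i ⬝ᵥ y = 0 := by
      intro i
      obtain ⟨h, hh⟩ := exists_dual hg
      have h2 : e' *ᵥ h i = g i := by
        rw [hsum, Matrix.sum_mulVec, Finset.sum_eq_single i]
        · rw [LA.vecMulVec_mulVec, dotProduct_comm, hh, if_pos rfl, one_smul]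
        · intro j _ hji
          rw [LA.vecMulVec_mulVec, dotProduct_comm, hh, if_neg (Ne.symm hji), zero_smul]
        · intro h; exact absurd (Finset.mem_univ _) h
      rw [← h2, ← LA.symm_dot hsymm, he'y, dotProduct_zero]
    refine ⟨r + 1, Fin.cons w g, ?_, ?_⟩
    · rw [linearIndependent_finCons]
      refine ⟨hg, fun hmem => ?_⟩
      have h3 : ∀ x ∈ Submodule.span F (Set.range g), x ⬝ᵥ y = 0 := by
        intro x hx
        induction hx using Submodule.span_induction with
        | mem x hx => obtain ⟨i, rfl⟩ := hx; exact hdot i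
        | zero => exact zero_dotProduct y
        | add a b _ _ ha hb => rw [add_dotProduct, ha, hb, add_zero]
        | smul c a _ ha => rw [smul_dotProduct, ha, smul_zero]
      have h4 := h3 w hmem
      rw [hwy] at h4
      exact hz0 h4
    · rw [Fin.sum_univ_succ]
      simp only [Fin.cons_zero, Fin.cons_succ]
      rw [← hsum, he']
      abel

theorem symm_decomp [IsAlgClosed F] [CharZero F] {e : Matrix (Fin n) (Fin n) F} (he : eᵀ = e) :
    ∃ (r : ℕ) (y : Fin r → (Fin n → F)), LinearIndependent F y ∧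
      e = ∑ i, vecMulVec (y i) (y i) :=
  LA.symm_decomp_aux n e he (by omega)

end LA

end Pool.Agent.MP_f4742e_al
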