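import Pool.Agent.Lib.MP_f4742e_al.HMu1

/-!
The type `(m, m-1)` is impossible.
-/

set_option autoImplicit false

namespace Pool.Agent.MP_f4742e_al

open Matrix

section

variable {F : Type*} [Field F] [CharZero F] {n : ℕ}
  {R : Matrix (Fin n) (Fin n) F →ₗ[F] Matrix (Fin n) (Fin n) F} (hR : SRB R) {m : ℕ}
  {v v1 v2 u u1 v0 u0 : Fin n → F} (D : BBData (R 1) m v v1 v2 u u1 v0 u0)

namespace BBData

include D

omit [CharZero F] in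
theorem b_mulVec (y : Fin n → F) : (R 1) ^ (m - 2) *ᵥ y =
    (v1 ⬝ᵥ y) • v + (v ⬝ᵥ y) • v1 + (u ⬝ᵥ y) • u := by
  rw [D.b, add_mulVec, add_mulVec, vmv_mulVec, vmv_mulVec, vmv_mulVec]

omit [CharZero F] in
theorem b3_mulVec (y : Fin n → F) : (R 1) ^ (m - 3) *ᵥ y =
    (v2 ⬝ᵥ y) • v + (v ⬝ᵥ y) • v2 + (v1 ⬝ᵥ y) • v1 + (u1 ⬝ᵥ y) • u + (u ⬝ᵥ y) • u1 := by
  rw [D.b3, add_mulVec, add_mulVec, add_mulVec, add_mulVec, vmv_mulVec, vmv_mulVec, vmv_mulVec,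
    vmv_mulVec, vmv_mulVec]

omit [CharZero F] in
theorem v_ne : v ≠ 0 := by
  rintro rfl
  have := D.v0v
  rw [dotProduct_zero] at this
  exact zero_ne_one this

omit [CharZero F] in
theorem e_ne : vecMulVec v v ≠ (0 : Matrix (Fin n) (Fin n) F) :=
  vecMulVec_ne_zero D.v_ne D.v_ne

theorem M_ne : (m : F) - 1 ≠ 0 := by
  have : (m : F) ≠ 1 := by
    have := D.hm
    have : m ≠ 1 := by omega
    exact_mod_cast this
  exact sub_ne_zero.2 this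

include hR

theorem Re : R (vecMulVec v v) = 0 := by
  have hm := D.hm
  have h := R_e hR.rb (by omega : 1 ≤ m) D.am
  rwa [D.e] at h

/-- `v ⬝ s v = 0`. -/
theorem vsv (x : Matrix (Fin n) (Fin n) F) : v ⬝ᵥ (R x *ᵥ v) = 0 := by
  have hm := D.hm
  have h3 := R_exe hR.rb (by omega) D.am x
  rw [D.e, mul_assoc, mul_vecMulVec, vecMulVec_mul_vecMulVec, vecMulVec_smul, map_smul, D.Re hR,
    smul_zero, mul_assoc, mul_vecMulVec, vecMulVec_mul_vecMulVec, vecMulVec_smul] at h3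
  rcases smul_eq_zero.1 h3.symm with h5 | h5
  · exact h5
  · exact absurd h5 D.e_ne

/-- `u ⬝ s v = 0`. -/
theorem usv (x : Matrix (Fin n) (Fin n) F) : u ⬝ᵥ (R x *ᵥ v) = 0 := by
  have h1 := hR.S1_diag (D.vsv hR) (m - 2) x x
  rw [D.b_mulVec] at h1
  simp only [dotProduct_add, dotProduct_smul, smul_eq_mul] at h1
  rw [dotProduct_comm _ v, dotProduct_comm _ u, D.vsv hR x] at h1
  have h2 : (u ⬝ᵥ (R x *ᵥ v)) ^ 2 = 0 := by linear_combination h1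
  exact pow_eq_zero_iff (two_ne_zero) |>.1 h2

/-- `v1 ⬝ s v = 0`. -/
theorem v1sv (x : Matrix (Fin n) (Fin n) F) : v1 ⬝ᵥ (R x *ᵥ v) = 0 := by
  have h1 := hR.S1_diag (D.vsv hR) (m - 3) x x
  rw [D.b3_mulVec] at h1
  simp only [dotProduct_add, dotProduct_smul, smul_eq_mul] at h1
  rw [dotProduct_comm _ v, dotProduct_comm _ u, dotProduct_comm _ v1, D.vsv hR x,
    D.usv hR x] at h1
  have h2 : (v1 ⬝ᵥ (R x *ᵥ v)) ^ 2 = 0 := by linear_combination h1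
  exact pow_eq_zero_iff (two_ne_zero) |>.1 h2

theorem vsu (x : Matrix (Fin n) (Fin n) F) : v ⬝ᵥ (R x *ᵥ u) = 0 := by
  rw [dot_symm' (hR.tr x), D.usv hR]

theorem vsv1 (x : Matrix (Fin n) (Fin n) F) : v ⬝ᵥ (R x *ᵥ v1) = 0 := by
  rw [dot_symm' (hR.tr x), D.v1sv hR]

theorem bsv (x : Matrix (Fin n) (Fin n) F) : (R 1) ^ (m - 2) *ᵥ (R x *ᵥ v) = 0 := by
  rw [D.b_mulVec, D.vsv hR, D.usv hR, D.v1sv hR]
  simp

theorem bsu (x : Matrix (Fin n) (Fin n) F) : (R 1) ^ (m - 2) *ᵥ (R x *ᵥ u) =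
    (v1 ⬝ᵥ (R x *ᵥ u)) • v + (u ⬝ᵥ (R x *ᵥ u)) • u := by
  rw [D.b_mulVec, D.vsu hR, zero_smul, add_zero]

/-- `R b = e / (m-1)`. -/
theorem Rb : (2 : F) • Bf R v v1 + Bf R u u = ((m : F) - 1)⁻¹ • vecMulVec v v := by
  have hm := D.hm
  have h := R_b hR.rb (by omega : 2 ≤ m)
  rw [D.e, D.b, map_add, map_add, ← Bf_apply, ← Bf_apply, ← Bf_apply, Bf_comm hR v1 v,
    ← two_smul F] at h
  exact h

/-- The value `R (b s b)`. -/
theorem Rbsb (x : Matrix (Fin n) (Fin n) F) :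
    R ((R 1) ^ (m - 2) * R x * (R 1) ^ (m - 2)) =
      (2 * (v1 ⬝ᵥ (R x *ᵥ u))) • Bf R u v + (u ⬝ᵥ (R x *ᵥ u)) • Bf R u u := by
  have h1 : (R 1) ^ (m - 2) * R x * (R 1) ^ (m - 2) =
      vecMulVec ((R 1) ^ (m - 2) *ᵥ (R x *ᵥ v)) v1 +
        vecMulVec ((R 1) ^ (m - 2) *ᵥ (R x *ᵥ v1)) v +
        vecMulVec ((R 1) ^ (m - 2) *ᵥ (R x *ᵥ u)) u := by
    nth_rw 2 [D.b]
    rw [Matrix.mul_add, Matrix.mul_add, mul_vecMulVec, mul_vecMulVec, mul_vecMulVec,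
      ← mulVec_mulVec, ← mulVec_mulVec, ← mulVec_mulVec]
  have h2 : u ⬝ᵥ (R x *ᵥ v1) = v1 ⬝ᵥ (R x *ᵥ u) := dot_symm' (hR.tr x) _ _
  rw [h1, D.bsv hR, D.bsu hR, D.b_mulVec, D.vsv1 hR, h2, zero_vecMulVec, zero_add, map_add,
    ← Bf_apply, ← Bf_apply]
  have h3 : Bf R v v = 0 := D.Re hR
  simp only [map_add, map_smul, LinearMap.add_apply, LinearMap.smul_apply, zero_smul, h3,
    smul_zero, zero_add, add_zero, Bf_comm hR v u]
  module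

/-- The linear relation (LB). -/
theorem LB {x : Matrix (Fin n) (Fin n) F} (hx : xᵀ = x) :
    (v ⬝ᵥ (x *ᵥ v)) • Bf R v v1 + (u ⬝ᵥ (x *ᵥ v)) • Bf R u v +
      ((m : F) - 1) • ((2 * (v1 ⬝ᵥ (R x *ᵥ u))) • Bf R u v +
        (u ⬝ᵥ (R x *ᵥ u)) • Bf R u u) = 0 := by
  have hm := D.hm
  have hM := D.M_ne
  have hζ : R (((m : F) - 1) • (R 1) ^ (m - 2)) = (R 1) ^ (m - 1) := by
    rw [map_smul, R_b hR.rb (by omega : 2 ≤ m), smul_smul, mul_inv_cancel₀ hM, one_smul]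
  have h5 := hR.T1 (m - 2) hx (R_e hR.rb (by omega : 1 ≤ m) D.am)
    (by rw [transpose_smul, hR.a_tr]) hζ
  have e1 : (R 1) ^ (m - 2) * R x * (R 1) ^ (m - 1) = 0 := by
    rw [D.e, mul_vecMulVec, ← mulVec_mulVec, D.bsv hR, zero_vecMulVec]
  have e2 : (R 1) ^ (m - 1) * R x * (R 1) ^ (m - 2) = 0 := by
    have h6 : (R 1) ^ (m - 1) * R x * (R 1) ^ (m - 2) =
        ((R 1) ^ (m - 2) * R x * (R 1) ^ (m - 1))ᵀ := by
      rw [transpose_mul, transpose_mul, hR.a_tr, hR.a_tr, hR.tr, Matrix.mul_assoc]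
    rw [h6, e1, transpose_zero]
  have hvv : Bf R v v = 0 := D.Re hR
  have e3 : R ((R 1) ^ (m - 2) * x * (R 1) ^ (m - 1)) =
      (v ⬝ᵥ (x *ᵥ v)) • Bf R v v1 + (u ⬝ᵥ (x *ᵥ v)) • Bf R u v := by
    rw [D.e, mul_vecMulVec, ← mulVec_mulVec, D.b_mulVec, ← Bf_apply]
    simp only [map_add, map_smul, LinearMap.add_apply, LinearMap.smul_apply, hvv, smul_zero,
      zero_add, Bf_comm hR v1 v]
  rw [e1, e2, e3, mul_smul_comm, map_smul, D.Rbsb hR, add_zero] at h5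
  exact (smul_eq_zero.1 h5.symm).resolve_left two_ne_zero

/-- The quadratic relation. -/
theorem QR {x : Matrix (Fin n) (Fin n) F} (hx : xᵀ = x) (x' : Matrix (Fin n) (Fin n) F) :
    (((m : F) - 1) * (u ⬝ᵥ (R x *ᵥ u)) * (u ⬝ᵥ (R x' *ᵥ u))) • Bf R u u +
      ((v ⬝ᵥ (x *ᵥ v)) / 2 * (v1 ⬝ᵥ (R x' *ᵥ u)) + (u ⬝ᵥ (x *ᵥ v)) / 2 * (u ⬝ᵥ (R x' *ᵥ u)) +
        ((m : F) - 1) * ((v1 ⬝ᵥ (R x *ᵥ u)) * (u ⬝ᵥ (R x' *ᵥ u)) +
          (u ⬝ᵥ (R x *ᵥ u)) * (v1 ⬝ᵥ (R x' *ᵥ u)))) • Bf R u v = 0 := by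
  have hL := D.LB hR hx
  obtain ⟨g, hg⟩ : ∃ g, g = v ⬝ᵥ (x *ᵥ v) := ⟨_, rfl⟩
  obtain ⟨d, hd⟩ : ∃ d, d = u ⬝ᵥ (x *ᵥ v) := ⟨_, rfl⟩
  obtain ⟨C, hC⟩ : ∃ C, C = v1 ⬝ᵥ (R x *ᵥ u) := ⟨_, rfl⟩
  obtain ⟨G, hG⟩ : ∃ G, G = u ⬝ᵥ (R x *ᵥ u) := ⟨_, rfl⟩
  rw [← hg, ← hd, ← hC, ← hG] at hL ⊢
  obtain ⟨k, hk⟩ : ∃ k : Matrix (Fin n) (Fin n) F, k = (g / 2) • (vecMulVec v v1 + vecMulVec v1 v) +
      (d / 2 + ((m : F) - 1) * C) • (vecMulVec u v + vecMulVec v u) +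
      (((m : F) - 1) * G) • vecMulVec u u := ⟨_, rfl⟩
  have hkt : kᵀ = k := by
    rw [hk]
    simp only [transpose_add, transpose_smul, transpose_vecMulVec]
    abel_nf
  have hRk : R k = 0 := by
    rw [← hL, hk]
    simp only [map_add, map_smul, ← Bf_apply, Bf_comm hR v1 v, Bf_comm hR v u]
    module
  have h1 := hR.K hkt hRk (m - 2) x'
  have h2 : u ⬝ᵥ (R x' *ᵥ v1) = v1 ⬝ᵥ (R x' *ᵥ u) := dot_symm' (hR.tr x') _ _
  have hvv : Bf R v v = 0 := D.Re hR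
  have hbv1 : (R 1) ^ (m - 2) *ᵥ (R x' *ᵥ v1) =
      (v1 ⬝ᵥ (R x' *ᵥ v1)) • v + (v1 ⬝ᵥ (R x' *ᵥ u)) • u := by
    rw [D.b_mulVec, D.vsv1 hR, h2, zero_smul, add_zero]
  rw [hk] at h1
  simp only [Matrix.mul_add, mul_smul_comm, mul_vecMulVec, ← mulVec_mulVec, D.bsv hR, D.bsu hR,
    hbv1, map_add, map_smul, ← Bf_apply, LinearMap.add_apply, LinearMap.smul_apply, map_zero,
    LinearMap.zero_apply, hvv, smul_zero, zero_add, add_zero, Bf_comm hR v u] at h1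
  rw [← h1]
  module

omit [CharZero F] hR in
/-- The element `x1 = v0 u0ᵀ + u0 v0ᵀ`. -/
theorem x1_spec : ∃ x : Matrix (Fin n) (Fin n) F, xᵀ = x ∧ v ⬝ᵥ (x *ᵥ v) = 0 ∧
    u ⬝ᵥ (x *ᵥ v) = 1 := by
  refine ⟨vecMulVec v0 u0 + vecMulVec u0 v0, ?_, ?_, ?_⟩
  · rw [transpose_add, transpose_vecMulVec, transpose_vecMulVec, add_comm]
  · rw [add_mulVec, vmv_mulVec, vmv_mulVec, D.u0v, dotProduct_add, dotProduct_smul,
      dotProduct_smul, dotProduct_comm v u0, D.u0v]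
    simp
  · rw [add_mulVec, vmv_mulVec, vmv_mulVec, D.u0v, D.v0v, dotProduct_add, dotProduct_smul,
      dotProduct_smul, dotProduct_comm u u0, D.u0u]
    simp

omit [CharZero F] hR in
theorem x2_spec : ∃ x : Matrix (Fin n) (Fin n) F, xᵀ = x ∧ v ⬝ᵥ (x *ᵥ v) = 1 ∧
    u ⬝ᵥ (x *ᵥ v) = 0 := by
  refine ⟨vecMulVec v0 v0, ?_, ?_, ?_⟩
  · rw [transpose_vecMulVec]
  · rw [vmv_mulVec, D.v0v, dotProduct_smul, dotProduct_comm v v0, D.v0v]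
    simp
  · rw [vmv_mulVec, D.v0v, dotProduct_smul, dotProduct_comm u v0, D.v0u]
    simp

/-- `R (u vᵀ) = 0`. -/
theorem y2_zero : Bf R u v = 0 := by
  by_contra hy
  have hM := D.M_ne
  -- (i)
  have hi : ∀ x : Matrix (Fin n) (Fin n) F, xᵀ = x → v ⬝ᵥ (x *ᵥ v) = 0 →
      (u ⬝ᵥ (x *ᵥ v)) * (u ⬝ᵥ (R x *ᵥ u)) = 0 := by
    intro x hx hg
    have h1 := D.LB hR hx
    have h2 := D.QR hR hx x
    rw [hg] at h1 h2
    generalize u ⬝ᵥ (x *ᵥ v) = d at h1 h2 ⊢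
    generalize u ⬝ᵥ (R x *ᵥ u) = G at h1 h2 ⊢
    generalize v1 ⬝ᵥ (R x *ᵥ u) = C at h1 h2 ⊢
    have h3 : (2⁻¹ * (d * G)) • Bf R u v = 0 := by
      have h4 : (2⁻¹ * (d * G)) • Bf R u v = G • ((0 : F) • Bf R v v1 + d • Bf R u v +
          ((m : F) - 1) • ((2 * C) • Bf R u v + G • Bf R u u)) -
          ((((m : F) - 1) * G * G) • Bf R u u + (0 / 2 * C + d / 2 * G +
            ((m : F) - 1) * (C * G + G * C)) • Bf R u v) := by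
        module
      rw [h4, h1, h2, smul_zero, sub_zero]
    have h4 := (smul_eq_zero.1 h3).resolve_right hy
    exact (mul_eq_zero.1 h4).resolve_left (inv_ne_zero two_ne_zero)
  obtain ⟨x1, hx1, hg1, hd1⟩ := D.x1_spec
  obtain ⟨x2, hx2, hg2, hd2⟩ := D.x2_spec
  have hG1 : u ⬝ᵥ (R x1 *ᵥ u) = 0 := by
    have h1 := hi x1 hx1 hg1
    rwa [hd1, one_mul] at h1
  have hC1 : ((m : F) - 1) * (2 * (v1 ⬝ᵥ (R x1 *ᵥ u))) = -1 := by
    have h1 := D.LB hR hx1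
    rw [hg1, hd1, hG1] at h1
    have h2 : (1 + ((m : F) - 1) * (2 * (v1 ⬝ᵥ (R x1 *ᵥ u)))) • Bf R u v = 0 := by
      rw [← h1]
      module
    have h3 := (smul_eq_zero.1 h2).resolve_right hy
    linear_combination h3
  have h1 := D.QR hR hx2 x1
  have h2 := D.QR hR hx2 x2
  have h3 := D.LB hR hx2
  have h4 := D.Rb hR
  rw [hg2, hd2, hG1] at h1
  rw [hg2, hd2] at h2 h3
  generalize u ⬝ᵥ (R x2 *ᵥ u) = τ at h1 h2 h3
  generalize v1 ⬝ᵥ (R x2 *ᵥ u) = σ at h1 h2 h3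
  generalize v1 ⬝ᵥ (R x1 *ᵥ u) = C at hC1 h1
  have h5 : (1 / 2 * C + ((m : F) - 1) * (τ * C)) • Bf R u v = 0 := by
    rw [← h1]
    module
  have h6 := (smul_eq_zero.1 h5).resolve_right hy
  have h7 : ((m : F) - 1) * (2 * τ) = -1 := by
    linear_combination (-(2 * ((m : F) - 1) * 2) * h6 + (1 + 2 * ((m : F) - 1) * τ) * hC1)
  apply D.e_ne
  have h8 : ((m : F) - 1)⁻¹ • vecMulVec v v = (0 : Matrix (Fin n) (Fin n) F) := by
    rw [← h4]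
    have h9 : (2 : F) • Bf R v v1 + Bf R u u = (2 : F) • ((1 : F) • Bf R v v1 +
        (0 : F) • Bf R u v + ((m : F) - 1) • ((2 * σ) • Bf R u v + τ • Bf R u u)) +
        (1 - 2 * ((m : F) - 1) * τ) • Bf R u u - (4 * ((m : F) - 1) * σ) • Bf R u v := by
      module
    have h10 : (1 - 2 * ((m : F) - 1) * τ) • Bf R u u - (4 * ((m : F) - 1) * σ) • Bf R u v =
        (8 * ((m : F) - 1)) • ((((m : F) - 1) * τ * τ) • Bf R u u + (1 / 2 * σ + 0 / 2 * τ +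
            ((m : F) - 1) * (σ * τ + τ * σ)) • Bf R u v) := by
      have e1 : (8 * ((m : F) - 1)) * (((m : F) - 1) * τ * τ) = 1 - 2 * ((m : F) - 1) * τ := by
        linear_combination (4 * ((m : F) - 1) * τ - 1) * h7
      have e2 : (8 * ((m : F) - 1)) * (1 / 2 * σ + 0 / 2 * τ +
            ((m : F) - 1) * (σ * τ + τ * σ)) = -(4 * ((m : F) - 1) * σ) := by
        linear_combination (8 * ((m : F) - 1) * σ) * h7
      rw [smul_add, smul_smul, smul_smul, e1, e2, neg_smul, sub_eq_add_neg]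
    rw [h9, h3, smul_zero, zero_add, h10, h2, smul_zero]
  exact (smul_eq_zero.1 h8).resolve_left (inv_ne_zero hM)

theorem QR0 {x : Matrix (Fin n) (Fin n) F} (hx : xᵀ = x) :
    (v ⬝ᵥ (x *ᵥ v)) • Bf R v v1 + (((m : F) - 1) * (u ⬝ᵥ (R x *ᵥ u))) • Bf R u u = 0 := by
  have h1 := D.LB hR hx
  rw [D.y2_zero hR, smul_zero, smul_zero, zero_add, add_zero, smul_smul] at h1
  exact h1

theorem usu_symm {x : Matrix (Fin n) (Fin n) F} (hx : xᵀ = x) : u ⬝ᵥ (R x *ᵥ u) = 0 := by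
  have hM := D.M_ne
  have h1 := D.QR hR hx x
  rw [D.y2_zero hR, smul_zero, add_zero] at h1
  rcases smul_eq_zero.1 h1 with h2 | h2
  · have h3 : (u ⬝ᵥ (R x *ᵥ u)) ^ 2 = 0 := by
      rw [mul_assoc] at h2
      have h4 := (mul_eq_zero.1 h2).resolve_left hM
      rw [pow_two, h4]
    exact pow_eq_zero_iff (two_ne_zero) |>.1 h3
  · exfalso
    obtain ⟨x2, hx2, hg2, -⟩ := D.x2_spec
    have h3 := D.QR0 hR hx2
    have h4 := D.Rb hR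
    rw [hg2, one_smul, h2, smul_zero, add_zero] at h3
    rw [h3, h2, smul_zero, add_zero] at h4
    rcases smul_eq_zero.1 h4.symm with h5 | h5
    · exact (inv_ne_zero hM) h5
    · exact D.e_ne h5

theorem usu (x : Matrix (Fin n) (Fin n) F) : u ⬝ᵥ (R x *ᵥ u) = 0 := by
  have h1 : u ⬝ᵥ (R (x + xᵀ) *ᵥ u) = 0 := D.usu_symm hR (by
    rw [transpose_add, transpose_transpose, add_comm])
  rw [map_add, hR.ti, ← two_smul F, smul_mulVec, dotProduct_smul, smul_eq_mul] at h1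
  exact (mul_eq_zero.1 h1).resolve_left two_ne_zero

theorem vv1_zero : Bf R v v1 = 0 := by
  obtain ⟨x2, hx2, hg2, -⟩ := D.x2_spec
  have h3 := D.QR0 hR hx2
  rw [hg2, one_smul, D.usu hR, mul_zero, zero_smul, add_zero] at h3
  exact h3

theorem y1_eq : Bf R u u = ((m : F) - 1)⁻¹ • vecMulVec v v := by
  have h1 := D.Rb hR
  rw [D.vv1_zero hR, smul_zero, zero_add] at h1
  exact h1

theorem v1su (x : Matrix (Fin n) (Fin n) F) : v1 ⬝ᵥ (R x *ᵥ u) = 0 := by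
  have h1 := hR.S1_diag (D.usu hR) (m - 3) x x
  rw [D.b3_mulVec] at h1
  simp only [dotProduct_add, dotProduct_smul, smul_eq_mul] at h1
  rw [dotProduct_comm _ v, dotProduct_comm _ u, dotProduct_comm _ v1, D.vsu hR x,
    D.usu hR x] at h1
  have h2 : (v1 ⬝ᵥ (R x *ᵥ u)) ^ 2 = 0 := by linear_combination h1
  exact pow_eq_zero_iff (two_ne_zero) |>.1 h2

theorem usv1 (x : Matrix (Fin n) (Fin n) F) : u ⬝ᵥ (R x *ᵥ v1) = 0 := by
  rw [dot_symm' (hR.tr x), D.v1su hR]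

theorem b3sv' (x : Matrix (Fin n) (Fin n) F) : (R 1) ^ (m - 3) *ᵥ (R x *ᵥ v) =
    (v2 ⬝ᵥ (R x *ᵥ v)) • v + (u1 ⬝ᵥ (R x *ᵥ v)) • u := by
  rw [D.b3_mulVec, D.vsv hR, D.v1sv hR, D.usv hR]
  module

theorem b3su (x : Matrix (Fin n) (Fin n) F) : (R 1) ^ (m - 3) *ᵥ (R x *ᵥ u) =
    (v2 ⬝ᵥ (R x *ᵥ u)) • v + (u1 ⬝ᵥ (R x *ᵥ u)) • u := by
  rw [D.b3_mulVec, D.vsu hR, D.v1su hR, D.usu hR]
  module

/-- `u1 ⬝ s v = 0`. -/
theorem u1sv (x : Matrix (Fin n) (Fin n) F) : u1 ⬝ᵥ (R x *ᵥ v) = 0 := by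
  have hk : (vecMulVec u v + vecMulVec v u)ᵀ = vecMulVec u v + vecMulVec v u := by
    rw [transpose_add, transpose_vecMulVec, transpose_vecMulVec, add_comm]
  have hRk : R (vecMulVec u v + vecMulVec v u) = 0 := by
    rw [map_add, ← Bf_apply, ← Bf_apply, Bf_comm hR v u, D.y2_zero hR, add_zero]
  have h1 := hR.K hk hRk (m - 3) x
  have hvv : Bf R v v = 0 := D.Re hR
  simp only [Matrix.mul_add, mul_vecMulVec, ← mulVec_mulVec, D.b3sv' hR, D.b3su hR, map_add,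
    ← Bf_apply, LinearMap.add_apply, map_smul, LinearMap.smul_apply, hvv, Bf_comm hR v u,
    D.y2_zero hR, smul_zero, zero_add, D.y1_eq hR] at h1
  rw [smul_smul] at h1
  have h2 := (smul_eq_zero.1 h1).resolve_right D.e_ne
  exact (mul_eq_zero.1 h2).resolve_right (inv_ne_zero D.M_ne)

theorem b3sv (x : Matrix (Fin n) (Fin n) F) : (R 1) ^ (m - 3) *ᵥ (R x *ᵥ v) =
    (v2 ⬝ᵥ (R x *ᵥ v)) • v := by
  rw [D.b3sv' hR, D.u1sv hR, zero_smul, add_zero]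

/-- (E5) for `x` killing `v`. -/
theorem E5 {x : Matrix (Fin n) (Fin n) F} (hx : xᵀ = x) (hxv : x *ᵥ v = 0) :
    v2 ⬝ᵥ (R x *ᵥ v) = u1 ⬝ᵥ (R x *ᵥ u) := by
  have hm := D.hm
  have hM := D.M_ne
  have hζ : R (((m : F) - 1) • vecMulVec u u) = (R 1) ^ (m - 1) := by
    rw [map_smul, ← Bf_apply, D.y1_eq hR, smul_smul, mul_inv_cancel₀ hM, one_smul, D.e]
  have h5 := hR.T1 (m - 3) hx (R_e hR.rb (by omega : 1 ≤ m) D.am)
    (by rw [transpose_smul, transpose_vecMulVec]) hζ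
  have e1 : (R 1) ^ (m - 3) * R x * (R 1) ^ (m - 1) = (v2 ⬝ᵥ (R x *ᵥ v)) • vecMulVec v v := by
    rw [D.e, mul_vecMulVec, ← mulVec_mulVec, D.b3sv hR, smul_vecMulVec]
  have e2 : (R 1) ^ (m - 1) * R x * (R 1) ^ (m - 3) = (v2 ⬝ᵥ (R x *ᵥ v)) • vecMulVec v v := by
    have h6 : (R 1) ^ (m - 1) * R x * (R 1) ^ (m - 3) =
        ((R 1) ^ (m - 3) * R x * (R 1) ^ (m - 1))ᵀ := by
      rw [transpose_mul, transpose_mul, hR.a_tr, hR.a_tr, hR.tr, Matrix.mul_assoc]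
    rw [h6, e1, transpose_smul, transpose_vecMulVec]
  have e3 : R ((R 1) ^ (m - 3) * x * (R 1) ^ (m - 1)) = 0 := by
    rw [D.e, mul_vecMulVec, ← mulVec_mulVec, hxv, mulVec_zero, zero_vecMulVec, map_zero]
  have e4 : R ((R 1) ^ (m - 3) * R x * (((m : F) - 1) • vecMulVec u u)) =
      (u1 ⬝ᵥ (R x *ᵥ u)) • vecMulVec v v := by
    rw [mul_smul_comm, map_smul, mul_vecMulVec, ← mulVec_mulVec, D.b3su hR, ← Bf_apply]
    simp only [map_add, map_smul, LinearMap.add_apply, LinearMap.smul_apply, Bf_comm hR v u,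
      D.y2_zero hR, smul_zero, zero_add, D.y1_eq hR]
    rw [smul_smul, smul_smul]
    congr 1
    field_simp
  rw [e1, e2, e3, e4, zero_add, ← two_smul F] at h5
  have h6 := smul_right_injective (Matrix (Fin n) (Fin n) F) (two_ne_zero (α := F)) h5
  exact smul_left_injective F D.e_ne h6

/-- (ρ) for `x` with `v ⬝ x v = u ⬝ x v = 0`. -/
theorem rho {x : Matrix (Fin n) (Fin n) F} (hx : xᵀ = x) (hg : v ⬝ᵥ (x *ᵥ v) = 0)
    (hd : u ⬝ᵥ (x *ᵥ v) = 0) : ((m : F) - 1) * (v1 ⬝ᵥ (R x *ᵥ v1)) =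
      u ⬝ᵥ (x *ᵥ u) + 2 * ((m : F) - 2) * (u1 ⬝ᵥ (R x *ᵥ u)) := by
  have hm := D.hm
  have hM := D.M_ne
  have h1 := hR.aba (m - 3) (x := x)
  have h2 : m - 3 + 1 = m - 2 := by omega
  rw [h2] at h1
  have hbv1 : (R 1) ^ (m - 2) *ᵥ (R x *ᵥ v1) = (v1 ⬝ᵥ (R x *ᵥ v1)) • v := by
    rw [D.b_mulVec, D.vsv1 hR, D.usv1 hR]
    module
  have hbu : (R 1) ^ (m - 2) *ᵥ (R x *ᵥ u) = 0 := by
    rw [D.bsu hR, D.v1su hR, D.usu hR]
    module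
  have hspl : ∀ y : Matrix (Fin n) (Fin n) F, y * (R 1) ^ (m - 2) =
      vecMulVec (y *ᵥ v) v1 + vecMulVec (y *ᵥ v1) v + vecMulVec (y *ᵥ u) u := by
    intro y
    rw [D.b, Matrix.mul_add, Matrix.mul_add, mul_vecMulVec, mul_vecMulVec, mul_vecMulVec]
  have hvv : Bf R v v = 0 := D.Re hR
  have e1 : (R 1) ^ (m - 2) * R x * (R 1) ^ (m - 2) =
      (v1 ⬝ᵥ (R x *ᵥ v1)) • vecMulVec v v := by
    rw [hspl, ← mulVec_mulVec, ← mulVec_mulVec, ← mulVec_mulVec, D.bsv hR, hbv1, hbu,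
      zero_vecMulVec, zero_vecMulVec, zero_add, add_zero, smul_vecMulVec]
  have hxv1 : v ⬝ᵥ (x *ᵥ u) = 0 := by
    rw [dot_symm' hx, hd]
  have e2 : R ((R 1) ^ (m - 2) * x * (R 1) ^ (m - 2)) =
      (u ⬝ᵥ (x *ᵥ u)) • ((m : F) - 1)⁻¹ • vecMulVec v v := by
    rw [hspl, ← mulVec_mulVec, ← mulVec_mulVec, ← mulVec_mulVec, D.b_mulVec, D.b_mulVec,
      D.b_mulVec, hg, hd, hxv1]
    simp only [map_add, ← Bf_apply, LinearMap.add_apply, map_smul, LinearMap.smul_apply, hvv,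
      D.vv1_zero hR, Bf_comm hR v u, Bf_comm hR v1 v, D.y2_zero hR, D.y1_eq hR, smul_zero,
      zero_smul, zero_add, add_zero]
  have hb3v1 : (R 1) ^ (m - 3) *ᵥ (R x *ᵥ v1) = (v2 ⬝ᵥ (R x *ᵥ v1)) • v +
      (v1 ⬝ᵥ (R x *ᵥ v1)) • v1 + (u1 ⬝ᵥ (R x *ᵥ v1)) • u := by
    rw [D.b3_mulVec, D.vsv1 hR, D.usv1 hR]
    module
  have e3 : R ((R 1) ^ (m - 3) * R x * (R 1) ^ (m - 2)) =
      (u1 ⬝ᵥ (R x *ᵥ u)) • ((m : F) - 1)⁻¹ • vecMulVec v v := by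
    rw [hspl, ← mulVec_mulVec, ← mulVec_mulVec, ← mulVec_mulVec, D.b3sv hR, D.b3su hR, hb3v1]
    simp only [map_add, ← Bf_apply, LinearMap.add_apply, map_smul, LinearMap.smul_apply, hvv,
      D.vv1_zero hR, Bf_comm hR v u, Bf_comm hR v1 v, D.y2_zero hR, D.y1_eq hR, smul_zero,
      zero_add, add_zero]
  rw [e1, e2, e3] at h1
  have h3 : ((m - 3 : ℕ) : F) + 1 = (m : F) - 2 := by
    have h4 : ((m - 3 : ℕ) : F) = (m : F) - 3 := by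
      rw [Nat.cast_sub (by omega)]
      norm_num
    rw [h4]
    ring
  rw [h3] at h1
  have h5 : (v1 ⬝ᵥ (R x *ᵥ v1)) • vecMulVec v v =
      ((u ⬝ᵥ (x *ᵥ u) + 2 * ((m : F) - 2) * (u1 ⬝ᵥ (R x *ᵥ u))) * ((m : F) - 1)⁻¹) •
        vecMulVec v v := by
    rw [h1]
    module
  have h6 := smul_left_injective F D.e_ne h5
  change v1 ⬝ᵥ (R x *ᵥ v1) = _ at h6
  rw [h6]
  field_simp

theorem false : False := by
  have hm := D.hm
  have hM := D.M_ne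
  obtain ⟨x, hxd⟩ : ∃ x : Matrix (Fin n) (Fin n) F, x = vecMulVec u0 u0 := ⟨_, rfl⟩
  have hx : xᵀ = x := by rw [hxd, transpose_vecMulVec]
  have hxv : x *ᵥ v = 0 := by rw [hxd, vmv_mulVec, D.u0v, zero_smul]
  have hxu : x *ᵥ u = u0 := by rw [hxd, vmv_mulVec, D.u0u, one_smul]
  have hE5 := D.E5 hR hx hxv
  have hr1 := D.rho hR hx (by rw [hxv, dotProduct_zero]) (by rw [hxv, dotProduct_zero])
  rw [hxu, dotProduct_comm u u0, D.u0u] at hr1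
  obtain ⟨y, hyd⟩ : ∃ y : Matrix (Fin n) (Fin n) F, y = x * (R 1) ^ (m - 3) * R x +
      R x * (R 1) ^ (m - 3) * x + ((m - 3 : ℕ) : F) • (R x * (R 1) ^ (m - 3 - 1) * R x) :=
    ⟨_, rfl⟩
  have hRy : R y = R x * (R 1) ^ (m - 3) * R x := by
    rw [closure_sq hR.rb, hyd]
  have hy : yᵀ = y := by
    rw [hyd]
    simp only [transpose_add, transpose_smul, transpose_mul, hx, hR.tr x, hR.a_tr,
      Matrix.mul_assoc]
    abel
  have hsx : ∀ t t' : Fin n → F, t ⬝ᵥ (x *ᵥ t') = (x *ᵥ t) ⬝ᵥ t' :=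
    fun t t' => (dot_symm hx t t').symm
  have hsR : ∀ t t' : Fin n → F, t ⬝ᵥ (R x *ᵥ t') = (R x *ᵥ t) ⬝ᵥ t' :=
    fun t t' => (dot_symm (hR.tr x) t t').symm
  have hyv : y *ᵥ v = (v2 ⬝ᵥ (R x *ᵥ v)) • (x *ᵥ v) +
      ((m - 3 : ℕ) : F) • (R x *ᵥ ((R 1) ^ (m - 3 - 1) *ᵥ (R x *ᵥ v))) := by
    rw [hyd]
    simp only [add_mulVec, smul_mulVec, ← mulVec_mulVec, hxv, mulVec_zero, add_zero, D.b3sv hR,
      mulVec_smul]
  have hg : v ⬝ᵥ (y *ᵥ v) = 0 := by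
    rw [hyv, hxv, smul_zero, zero_add, dotProduct_smul, hsR, hR.S1_diag (D.vsv hR), smul_zero]
  have hd : u ⬝ᵥ (y *ᵥ v) = 0 := by
    rw [hyv, hxv, smul_zero, zero_add, dotProduct_smul, hsR, hR.S1_same (D.usv hR), smul_zero]
  have hr2 := D.rho hR hy hg hd
  have huu : u ⬝ᵥ (y *ᵥ u) = 2 * (u1 ⬝ᵥ (R x *ᵥ u)) := by
    rw [hyd]
    simp only [add_mulVec, smul_mulVec, ← mulVec_mulVec, dotProduct_add, dotProduct_smul,
      D.b3su hR, hxu]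
    rw [hsx, hxu, hsR u ((R 1) ^ (m - 3) *ᵥ u0),
      hsR u ((R 1) ^ (m - 3 - 1) *ᵥ (R x *ᵥ u)), hR.S1_diag (D.usu hR),
      dot_symm' (hR.a_tr _) _ u0, D.b3su hR]
    simp only [dotProduct_add, dotProduct_smul, D.u0v, D.u0u, smul_eq_mul]
    ring
  have hc2 : u1 ⬝ᵥ (R y *ᵥ u) = (u1 ⬝ᵥ (R x *ᵥ u)) ^ 2 := by
    rw [hRy, ← mulVec_mulVec, ← mulVec_mulVec, D.b3su hR, mulVec_add, mulVec_smul, mulVec_smul,
      dotProduct_add, dotProduct_smul, dotProduct_smul, D.u1sv hR]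
    simp only [smul_eq_mul]
    ring
  have hr : v1 ⬝ᵥ (R y *ᵥ v1) = (v1 ⬝ᵥ (R x *ᵥ v1)) ^ 2 := by
    rw [hRy, ← mulVec_mulVec, ← mulVec_mulVec, D.b3_mulVec, D.vsv1 hR, D.usv1 hR]
    simp only [mulVec_add, mulVec_smul, dotProduct_add, dotProduct_smul, D.v1sv hR, D.v1su hR,
      smul_eq_mul]
    ring
  rw [huu, hc2, hr] at hr2
  generalize hc : u1 ⬝ᵥ (R x *ᵥ u) = c at hr1 hr2
  generalize v1 ⬝ᵥ (R x *ᵥ v1) = ρ at hr1 hr2
  -- the numerical relation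
  have h1 : 1 + (2 * (m : F) - 6) * c + ((m : F) - 2) * (2 * (m : F) - 6) * c ^ 2 = 0 := by
    linear_combination (-(((m : F) - 1) * ρ) - (1 + 2 * ((m : F) - 2) * c)) * hr1 +
      ((m : F) - 1) * hr2
  rcases Nat.eq_or_lt_of_le hm with h3 | h3
  · rw [← h3] at h1
    norm_num at h1
  · obtain ⟨t, ht⟩ := D.rg (R x *ᵥ u) (D.vsu hR x) (D.usu hR x)
    have h4 := hR.S1_diag (D.usu hR) (m - 3 - 1) x x
    have h5 : (R 1) ^ (m - 2) = R 1 * ((R 1) ^ (m - 3 - 1) * R 1) := by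
      rw [← pow_succ, ← pow_succ']
      congr 1
      omega
    have h6 : t ⬝ᵥ ((R 1) ^ (m - 2) *ᵥ t) = 0 := by
      rw [h5, ← mulVec_mulVec, ← mulVec_mulVec, ← dot_symm (hR.tr 1), ← ht]
      exact h4
    have h7 : v ⬝ᵥ t = 0 := by
      rw [← D.av1, dot_symm (hR.tr 1), ← ht, D.v1su hR]
    have h8 : u ⬝ᵥ t = c := by
      rw [← D.au1, dot_symm (hR.tr 1), ← ht, hc]
    rw [D.b_mulVec, h7, h8] at h6
    simp only [dotProduct_add, dotProduct_smul, zero_smul, add_zero] at h6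
    rw [dotProduct_comm t v, dotProduct_comm t u, h7, h8] at h6
    have h9 : c = 0 := by
      have h10 : c ^ 2 = 0 := by
        simp only [smul_eq_mul] at h6
        linear_combination h6
      exact pow_eq_zero_iff (two_ne_zero) |>.1 h10
    rw [h9] at h1
    norm_num at h1

end BBData

include hR in
theorem bb_false (D : BBData (R 1) m v v1 v2 u u1 v0 u0) : False := D.false hR

end

end Pool.Agent.MP_f4742e_al
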