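import Pool.Agent.Lib.MP_f4742e_al.HMat

/-!
Extension of scalars for symmetric-valued Rota-Baxter operators.
-/

set_option autoImplicit false

namespace Pool.Agent.MP_f4742e_al

open Matrix

section

variable {F K : Type*} [Field F] [Field K] [Algebra F K] {n : ℕ}

/-- Extension of scalars of a linear map on matrices. -/
noncomputable def baseR (K : Type*) [Field K] [Algebra F K]
    (R : Matrix (Fin n) (Fin n) F →ₗ[F] Matrix (Fin n) (Fin n) F) :
    Matrix (Fin n) (Fin n) K →ₗ[K] Matrix (Fin n) (Fin n) K where
  toFun Y := ∑ i, ∑ j, Y i j • (R (Matrix.single i j 1)).map (algebraMap F K)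
  map_add' := by
    intro X Y
    simp only [Matrix.add_apply, add_smul, Finset.sum_add_distrib]
  map_smul' := by
    intro c X
    simp only [Matrix.smul_apply, smul_eq_mul, mul_smul, Finset.smul_sum, RingHom.id_apply]

theorem baseR_map (R : Matrix (Fin n) (Fin n) F →ₗ[F] Matrix (Fin n) (Fin n) F)
    (x : Matrix (Fin n) (Fin n) F) :
    baseR K R (x.map (algebraMap F K)) = (R x).map (algebraMap F K) := by
  have h1 : R x = ∑ i, ∑ j, x i j • R (Matrix.single i j 1) := by
    conv_lhs => rw [Matrix.matrix_eq_sum_single x]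
    rw [map_sum]
    apply Finset.sum_congr rfl
    intro i _
    rw [map_sum]
    apply Finset.sum_congr rfl
    intro j _
    rw [← map_smul, Matrix.smul_single, smul_eq_mul, mul_one]
  have h2 : ∀ y : Matrix (Fin n) (Fin n) F, y.map (algebraMap F K) =
      (Algebra.ofId F K).mapMatrix y := fun _ => rfl
  rw [h1]
  change ∑ i, ∑ j, (x.map (algebraMap F K)) i j • (R (Matrix.single i j 1)).map (algebraMap F K) = _
  rw [h2 (∑ i, ∑ j, x i j • R (Matrix.single i j 1)), map_sum]
  apply Finset.sum_congr rfl
  intro i _
  rw [map_sum]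
  apply Finset.sum_congr rfl
  intro j _
  rw [map_smul, ← h2, Matrix.map_apply, algebraMap_smul]

theorem baseR_pow (R : Matrix (Fin n) (Fin n) F →ₗ[F] Matrix (Fin n) (Fin n) F) (N : ℕ)
    (x : Matrix (Fin n) (Fin n) F) :
    ((baseR K R) ^ N) (x.map (algebraMap F K)) = ((R ^ N) x).map (algebraMap F K) := by
  induction N with
  | zero => rfl
  | succ N ih => rw [pow_succ', Module.End.mul_apply, ih, baseR_map, pow_succ',
      Module.End.mul_apply]

theorem span_map {P : Matrix (Fin n) (Fin n) K → Prop}
    (h1 : ∀ x : Matrix (Fin n) (Fin n) F, P (x.map (algebraMap F K)))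
    (h2 : ∀ X Y, P X → P Y → P (X + Y)) (h3 : ∀ (c : K) X, P X → P (c • X))
    (X : Matrix (Fin n) (Fin n) K) : P X := by
  have h0 : P 0 := by
    have := h3 0 _ (h1 0)
    rwa [zero_smul] at this
  rw [Matrix.matrix_eq_sum_single X]
  refine Finset.sum_induction _ P h2 h0 ?_
  intro i _
  refine Finset.sum_induction _ P h2 h0 ?_
  intro j _
  have h4 : Matrix.single i j (X i j) =
      X i j • (Matrix.single i j (1 : F)).map (algebraMap F K) := by
    rw [Matrix.map_single _ _ _ (algebraMap F K), map_one, Matrix.smul_single, smul_eq_mul,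
      mul_one]
  rw [h4]
  exact h3 _ _ (h1 _)

theorem baseR_SRB {R : Matrix (Fin n) (Fin n) F →ₗ[F] Matrix (Fin n) (Fin n) F} (hR : SRB R) :
    SRB (baseR K R) where
  rb := by
    intro X Y
    revert Y
    refine span_map (F := F) (P := fun X => ∀ Y, jp (baseR K R X) (baseR K R Y) =
      baseR K R (jp (baseR K R X) Y + jp X (baseR K R Y))) ?_ ?_ ?_ X
    · intro x Y
      refine span_map (F := F) (P := fun Y => jp (baseR K R (x.map (algebraMap F K)))
        (baseR K R Y) = baseR K R (jp (baseR K R (x.map (algebraMap F K))) Y +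
          jp (x.map (algebraMap F K)) (baseR K R Y))) ?_ ?_ ?_ Y
      · intro y
        have h2 : ∀ y : Matrix (Fin n) (Fin n) F, y.map (algebraMap F K) =
            (Algebra.ofId F K).mapMatrix y := fun _ => rfl
        have h3 : ∀ y z : Matrix (Fin n) (Fin n) F, jp (y.map (algebraMap F K))
            (z.map (algebraMap F K)) = (jp y z).map (algebraMap F K) := by
          intro y z
          unfold jp
          rw [h2, h2, h2, map_add, map_mul, map_mul]
        rw [baseR_map, baseR_map, h3, h3, h3, hR.rb x y]
        have h4 : (jp (R x) y).map (algebraMap F K) + (jp x (R y)).map (algebraMap F K) =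
            (jp (R x) y + jp x (R y)).map (algebraMap F K) := by
          rw [h2, h2, h2, map_add]
        rw [h4, baseR_map]
      · intro X Y hX hY
        simp only [map_add, jp_add] at hX hY ⊢
        rw [hX, hY]
        abel
      · intro c Y hY
        simp only [map_smul, jp_smul, map_add, ← smul_add] at hY ⊢
        rw [hY]
    · intro X X' hX hX' Y
      have h1 := hX Y
      have h2 := hX' Y
      simp only [map_add, add_jp] at h1 h2 ⊢
      rw [h1, h2]
      abel
    · intro c X hX Y
      have h1 := hX Y
      simp only [map_smul, smul_jp, map_add, ← smul_add] at h1 ⊢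
      rw [h1]
  tr := by
    intro X
    refine span_map (F := F) (P := fun X => (baseR K R X)ᵀ = baseR K R X) ?_ ?_ ?_ X
    · intro x
      rw [baseR_map, ← Matrix.transpose_map, hR.tr]
    · intro X Y hX hY
      rw [map_add, transpose_add, hX, hY]
    · intro c X hX
      rw [map_smul, transpose_smul, hX]
  ti := by
    intro X
    refine span_map (F := F) (P := fun X => baseR K R Xᵀ = baseR K R X) ?_ ?_ ?_ X
    · intro x
      rw [← Matrix.transpose_map, baseR_map, baseR_map, hR.ti]
    · intro X Y hX hY
      rw [transpose_add, map_add, map_add, hX, hY]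
    · intro c X hX
      rw [transpose_smul, map_smul, map_smul, hX]

theorem baseR_pow_zero {R : Matrix (Fin n) (Fin n) F →ₗ[F] Matrix (Fin n) (Fin n) F} {N : ℕ}
    (h : (baseR K R) ^ N = 0) : R ^ N = 0 := by
  apply LinearMap.ext
  intro x
  have h1 := baseR_pow (K := K) R N x
  rw [h, LinearMap.zero_apply] at h1
  rw [LinearMap.zero_apply]
  ext i j
  have h2 := congrFun (congrFun h1 i) j
  rw [Matrix.zero_apply, Matrix.map_apply] at h2
  rw [Matrix.zero_apply]
  exact (map_eq_zero (algebraMap F K)).1 h2.symm

end

end Pool.Agent.MP_f4742e_al
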