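import Pool.Agent.Lib.MP_f4742e_al.Idem

/-!
Rota-Baxter operators of weight zero on the Jordan algebra of symmetric matrices: core identities.
-/

set_option autoImplicit false

namespace Pool.Agent.MP_f4742e_al

section general

variable {F A : Type*} [Field F] [Ring A] [Algebra F A]

/-- Twice the Jordan triple product. -/
def tp (x y z : A) : A := x * y * z + z * y * x

theorem tp_comm (x y z : A) : tp x y z = tp z y x := by
  unfold tp
  rw [add_comm]

theorem tp_add_left (x x' y z : A) : tp (x + x') y z = tp x y z + tp x' y z := by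
  unfold tp
  noncomm_ring

theorem tp_add_mid (x y y' z : A) : tp x (y + y') z = tp x y z + tp x y' z := by
  unfold tp
  noncomm_ring

theorem tp_add_right (x y z z' : A) : tp x y (z + z') = tp x y z + tp x y z' := by
  unfold tp
  noncomm_ring

theorem tp_smul_left (c : F) (x y z : A) : tp (c • x) y z = c • tp x y z := by
  unfold tp
  simp only [smul_mul_assoc, mul_smul_comm, smul_add]

theorem tp_smul_mid (c : F) (x y z : A) : tp x (c • y) z = c • tp x y z := by
  unfold tp
  simp only [smul_mul_assoc, mul_smul_comm, smul_add]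

theorem tp_smul_right (c : F) (x y z : A) : tp x y (c • z) = c • tp x y z := by
  unfold tp
  simp only [smul_mul_assoc, mul_smul_comm, smul_add]

theorem tp_zero_left (y z : A) : tp 0 y z = 0 := by
  unfold tp
  simp

theorem tp_zero_right (x y : A) : tp x y 0 = 0 := by
  unfold tp
  simp

theorem tp_one_left (y z : A) : tp 1 y z = jp y z := by
  unfold tp jp
  rw [one_mul, mul_one]

theorem tp_one_mid (x z : A) : tp x 1 z = jp x z := by
  unfold tp jp
  rw [mul_one, mul_one]

theorem two_tp (x y z : A) : (2 : F) • tp x y z =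
    jp (jp x y) z + jp x (jp y z) - jp (jp x z) y := by
  unfold tp jp
  rw [two_smul]
  noncomm_ring

variable [CharZero F] {R : A →ₗ[F] A} (h : JRB R)

include h

/-- The Rota-Baxter identity for the triple product. -/
theorem rb_tp (x y z : A) : tp (R x) (R y) (R z) =
    R (tp x (R y) (R z) + tp (R x) y (R z) + tp (R x) (R y) z) := by
  have h1 : ∀ x y z : A, jp (jp (R x) (R y)) (R z) =
      R (jp (jp x (R y)) (R z) + jp (jp (R x) y) (R z) + jp (jp (R x) (R y)) z) := by
    intro x y z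
    conv_lhs => rw [h x y, h]
    congr 1
    rw [← h x y, add_jp]
    abel
  have h2 : (2 : F) • tp (R x) (R y) (R z) =
      (2 : F) • R (tp x (R y) (R z) + tp (R x) y (R z) + tp (R x) (R y) z) := by
    rw [two_tp, jp_comm (R x) (jp (R y) (R z)), h1 x y z, h1 y z x, h1 x z y, ← map_add, ← map_sub,
      ← map_smul, smul_add, smul_add, two_tp, two_tp, two_tp]
    congr 1
    rw [jp_comm x (jp (R y) (R z)), jp_comm (R x) (jp y (R z)), jp_comm (R x) (jp (R y) z)]
    abel
  exact smul_right_injective A (two_ne_zero (α := F)) h2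

omit [CharZero F] in
theorem K0 {k : A} (hk : R k = 0) (x : A) : R (jp (R x) k) = 0 := by
  have h1 := h x k
  rw [hk, jp_zero, jp_zero, add_zero] at h1
  exact h1.symm

theorem K3 {k : A} (hk : R k = 0) (x y : A) : R (tp (R x) k (R y)) = 0 := by
  have h1 := rb_tp h x k y
  rw [hk] at h1
  have h2 : ∀ p q : A, tp p 0 q = 0 := by
    intro p q
    unfold tp
    simp
  rw [h2, h2, h2, zero_add, add_zero] at h1
  exact h1.symm

/-- Powers of `R 1` are images. -/
theorem a_pow_succ (j : ℕ) : (R 1) ^ (j + 1) = R (((j : F) + 1) • (R 1) ^ j) := by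
  rw [map_smul, R_pow h]

theorem Kj {k : A} (hk : R k = 0) (j : ℕ) (x : A) : R (tp ((R 1) ^ j) (R x) k) = 0 := by
  cases j with
  | zero => rw [pow_zero, tp_one_left, K0 h hk]
  | succ j =>
    have h1 := rb_tp h (((j : F) + 1) • (R 1) ^ j) x k
    rw [← a_pow_succ h j, hk, tp_zero_right, tp_zero_right, tp_zero_right, zero_add, zero_add] at h1
    exact h1.symm

/-- The main identity. -/
theorem T1g (j : ℕ) (x : A) {z ζ : A} (hz : R z = 0) (hζ : R ζ = z) :
    tp ((R 1) ^ j) (R x) z = R (tp ((R 1) ^ j) x z + tp ((R 1) ^ j) (R x) ζ) := by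
  cases j with
  | zero =>
    rw [pow_zero, tp_one_left, tp_one_left, tp_one_left, ← hζ, h x ζ, add_comm]
  | succ j =>
    have h1 := rb_tp h (((j : F) + 1) • (R 1) ^ j) x ζ
    rw [← a_pow_succ h j, hζ, tp_smul_left, map_add, map_add, map_smul, Kj h hz, smul_zero,
      zero_add, ← map_add] at h1
    exact h1

/-- Products `s a^j s' + s' a^j s` of images. -/
theorem closure (j : ℕ) (x y : A) : tp (R x) ((R 1) ^ j) (R y) =
    R (tp x ((R 1) ^ j) (R y) + tp (R x) ((R 1) ^ j) y +
      (j : F) • tp (R x) ((R 1) ^ (j - 1)) (R y)) := by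
  cases j with
  | zero =>
    rw [pow_zero, tp_one_mid, tp_one_mid, tp_one_mid, h x y, Nat.cast_zero, zero_smul, add_zero,
      add_comm]
  | succ j =>
    have h1 := rb_tp h x (((j : F) + 1) • (R 1) ^ j) y
    rw [← a_pow_succ h j, tp_smul_mid] at h1
    rw [h1, Nat.add_sub_cancel, Nat.cast_add, Nat.cast_one]
    congr 1
    abel

/-- The case `x = y`. -/
theorem closure_sq (j : ℕ) (x : A) : R x * (R 1) ^ j * R x =
    R (x * (R 1) ^ j * R x + R x * (R 1) ^ j * x +
      (j : F) • (R x * (R 1) ^ (j - 1) * R x)) := by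
  have h1 := closure h j x x
  have h2 : tp (R x) ((R 1) ^ j) (R x) = (2 : F) • (R x * (R 1) ^ j * R x) := by
    unfold tp
    rw [two_smul]
  have h3 : tp (R x) ((R 1) ^ (j - 1)) (R x) = (2 : F) • (R x * (R 1) ^ (j - 1) * R x) := by
    unfold tp
    rw [two_smul]
  have h4 : tp x ((R 1) ^ j) (R x) + tp (R x) ((R 1) ^ j) x =
      (2 : F) • (x * (R 1) ^ j * R x + R x * (R 1) ^ j * x) := by
    unfold tp
    rw [two_smul]
    abel
  rw [h2, h3, h4, smul_comm, ← smul_add, map_smul] at h1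
  exact smul_right_injective A (two_ne_zero (α := F)) h1

/-- `R (a^(m-1)) = 0`. -/
theorem R_e {m : ℕ} (hm : 1 ≤ m) (ha : (R 1) ^ m = 0) : R ((R 1) ^ (m - 1)) = 0 := by
  obtain ⟨l, rfl⟩ : ∃ l, m = l + 1 := ⟨m - 1, by omega⟩
  rw [Nat.add_sub_cancel]
  have h1 := R_pow h l
  rw [ha] at h1
  rcases smul_eq_zero.1 h1 with h2 | h2
  · exact absurd h2 (Nat.cast_add_one_ne_zero l)
  · exact h2

/-- `R (a^(m-2)) = (m-1)⁻¹ a^(m-1)`. -/
theorem R_b {m : ℕ} (hm : 2 ≤ m) : R ((R 1) ^ (m - 2)) = ((m : F) - 1)⁻¹ • (R 1) ^ (m - 1) := by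
  obtain ⟨l, rfl⟩ : ∃ l, m = l + 2 := ⟨m - 2, by omega⟩
  have h1 := R_pow h l
  have h2 : l + 2 - 1 = l + 1 := by omega
  have h3 : ((l : F) + 1) ≠ 0 := Nat.cast_add_one_ne_zero l
  have h4 : ((l + 2 : ℕ) : F) - 1 = (l : F) + 1 := by
    push_cast
    ring
  rw [Nat.add_sub_cancel, h2, h4, ← h1, smul_smul, inv_mul_cancel₀ h3, one_smul]

/-- `R (e x e) = e (R x) e`. -/
theorem R_exe {m : ℕ} (hm : 2 ≤ m) (ha : (R 1) ^ m = 0) (x : A) :
    R ((R 1) ^ (m - 1) * x * (R 1) ^ (m - 1)) = (R 1) ^ (m - 1) * R x * (R 1) ^ (m - 1) := by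
  have h0 := R_e h (by omega) ha
  obtain ⟨l, rfl⟩ : ∃ l, m = l + 2 := ⟨m - 2, by omega⟩
  have h2 : l + 2 - 1 = l + 1 := by omega
  rw [h2] at h0 ⊢
  have h1 := rb_tp h (((l : F) + 1) • (R 1) ^ l) x (((l : F) + 1) • (R 1) ^ l)
  rw [← a_pow_succ h l, tp_comm ((R 1) ^ (l + 1)) (R x) (((l : F) + 1) • (R 1) ^ l),
    tp_smul_left, map_add, map_add, map_smul, Kj h h0, smul_zero, zero_add, add_zero] at h1
  have h3 : ∀ y : A, tp ((R 1) ^ (l + 1)) y ((R 1) ^ (l + 1)) =
      (2 : F) • ((R 1) ^ (l + 1) * y * (R 1) ^ (l + 1)) := by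
    intro y
    unfold tp
    rw [two_smul]
  rw [h3, h3, map_smul] at h1
  exact (smul_right_injective A (two_ne_zero (α := F)) h1).symm

end general

end Pool.Agent.MP_f4742e_al
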