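import Pool.Agent.Lib.MP_f4742e_al.Lower
import Pool.Agent.Lib.MP_f4742e_al.HMat

/-!
Lower bounds for symmetric matrices: the operator of `M_k(F)^+` acts on `n × n` symmetric
matrices, `2 k ≤ n`, through a pair of complementary isotropic subspaces.
-/

set_option autoImplicit false

namespace Pool.Agent.MP_f4742e_al

open Matrix

section Lower

variable {F : Type*} [Field F] [CharZero F]

/-- The pair of matrices whose columns are dual isotropic families. -/
theorem exists_iso_pair {i : F} (hi : i * i = -1) (k n : ℕ) (hn : 2 * k ≤ n) :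
    ∃ P Q : Matrix (Fin n) (Fin k) F, Pᵀ * P = 0 ∧ Qᵀ * Q = 0 ∧ Qᵀ * P = 1 := by
  have hne : ∀ l j : Fin k, (⟨(l : ℕ), by omega⟩ : Fin n) ≠ ⟨k + (j : ℕ), by omega⟩ := by
    intro l j h
    rw [Fin.ext_iff] at h
    simp only at h
    omega
  have key : ∀ (a b c d : F) (l j : Fin k),
      (Matrix.of fun (r : Fin n) (s : Fin k) => (if (r : ℕ) = s then a else 0) +
        (if (r : ℕ) = k + s then b else 0) : Matrix (Fin n) (Fin k) F)ᵀ l ⬝ᵥ
      (Matrix.of fun (r : Fin n) (s : Fin k) => (if (r : ℕ) = s then c else 0) +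
        (if (r : ℕ) = k + s then d else 0) : Matrix (Fin n) (Fin k) F)ᵀ j =
      if l = j then a * c + b * d else 0 := by
    intro a b c d l j
    rw [dotProduct]
    simp only [transpose_apply, Matrix.of_apply, add_mul, mul_add, Finset.sum_add_distrib]
    have e1 : ∀ (l : Fin k) (g : Fin n → F) (a : F),
        ∑ r : Fin n, (if (r : ℕ) = l then a else 0) * g r = a * g ⟨l, by omega⟩ := by
      intro l g a
      rw [Finset.sum_eq_single (⟨(l : ℕ), by omega⟩ : Fin n)]
      · rw [if_pos rfl]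
      · intro r _ hr
        rw [if_neg, zero_mul]
        intro h
        exact hr (Fin.ext h)
      · intro h
        exact absurd (Finset.mem_univ _) h
    have e2 : ∀ (l : Fin k) (g : Fin n → F) (a : F),
        ∑ r : Fin n, (if (r : ℕ) = k + l then a else 0) * g r = a * g ⟨k + l, by omega⟩ := by
      intro l g a
      rw [Finset.sum_eq_single (⟨k + (l : ℕ), by omega⟩ : Fin n)]
      · rw [if_pos rfl]
      · intro r _ hr
        rw [if_neg, zero_mul]
        intro h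
        exact hr (Fin.ext h)
      · intro h
        exact absurd (Finset.mem_univ _) h
    rw [e1, e1, e2, e2]
    simp only [Fin.val_inj]
    have f1 : ¬ ((l : ℕ) = k + (j : ℕ)) := by omega
    have f2 : ¬ (k + (l : ℕ) = (j : ℕ)) := by omega
    have f3 : (k + (l : ℕ) = k + (j : ℕ)) ↔ l = j := by
      rw [Fin.ext_iff]
      omega
    simp only [if_neg f1, if_neg f2, f3, mul_zero, add_zero, zero_add]
    split_ifs
    · ring
    · ring
  refine ⟨Matrix.of fun (r : Fin n) (s : Fin k) => (if (r : ℕ) = s then (2⁻¹ : F) else 0) +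
        (if (r : ℕ) = k + s then 2⁻¹ * i else 0),
      Matrix.of fun (r : Fin n) (s : Fin k) => (if (r : ℕ) = s then (1 : F) else 0) +
        (if (r : ℕ) = k + s then -i else 0), ?_, ?_, ?_⟩
  · ext l j
    refine (key _ _ _ _ l j).trans ?_
    rw [Matrix.zero_apply]
    split_ifs
    · linear_combination (4⁻¹ : F) * hi
    · rfl
  · ext l j
    refine (key _ _ _ _ l j).trans ?_
    rw [Matrix.zero_apply]
    split_ifs
    · linear_combination hi
    · rfl
  · ext l j
    refine (key _ _ _ _ l j).trans ?_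
    rw [Matrix.one_apply]
    split_ifs
    · field_simp
      linear_combination (-1 : F) * hi
    · rfl

/-- `i ^ 2 = -1` -/
theorem lower_HSym {i : F} (hi : i * i = -1) (k : ℕ) (hk : 1 ≤ k) (n : ℕ) (hn : 2 * k ≤ n) :
    ∃ R : Matrix (Fin n) (Fin n) F →ₗ[F] Matrix (Fin n) (Fin n) F, SRB R ∧
      ∃ x, xᵀ = x ∧ (R ^ (2 * k - 2)) x ≠ 0 := by
  obtain ⟨m, rfl⟩ : ∃ m, k = m + 1 := ⟨k - 1, by omega⟩
  obtain ⟨P, Q, hP, hQ, hQP⟩ := exists_iso_pair hi (m + 1) n hn
  have hPQ : Pᵀ * Q = 1 := by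
    rw [← transpose_transpose (Pᵀ * Q), transpose_mul, transpose_transpose, hQP, transpose_one]
  obtain ⟨Φ, hΦ⟩ : ∃ Φ : Matrix (Fin (m + 1)) (Fin (m + 1)) F →ₗ[F] Matrix (Fin n) (Fin n) F,
      ∀ X, Φ X = P * X * Qᵀ + Q * Xᵀ * Pᵀ :=
    ⟨{ toFun := fun X => P * X * Qᵀ + Q * Xᵀ * Pᵀ
       map_add' := by
        intro X Y
        rw [transpose_add, Matrix.mul_add, Matrix.add_mul, Matrix.mul_add, Matrix.add_mul]
        abel
       map_smul' := by
        intro c X
        rw [transpose_smul, Matrix.mul_smul, Matrix.smul_mul, Matrix.mul_smul, Matrix.smul_mul,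
          ← smul_add, RingHom.id_apply] }, fun _ => rfl⟩
  obtain ⟨Ψ, hΨ⟩ : ∃ Ψ : Matrix (Fin n) (Fin n) F →ₗ[F] Matrix (Fin (m + 1)) (Fin (m + 1)) F,
      ∀ y, Ψ y = (2⁻¹ : F) • (Qᵀ * (y + yᵀ) * P) :=
    ⟨{ toFun := fun y => (2⁻¹ : F) • (Qᵀ * (y + yᵀ) * P)
       map_add' := by
        intro X Y
        rw [← smul_add, ← Matrix.add_mul, ← Matrix.mul_add, transpose_add]
        congr 3
        abel
       map_smul' := by
        intro c X
        rw [transpose_smul, ← smul_add, Matrix.mul_smul, Matrix.smul_mul, RingHom.id_apply,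
          smul_comm] }, fun _ => rfl⟩
  have hΦt : ∀ X, (Φ X)ᵀ = Φ X := by
    intro X
    rw [hΦ, transpose_add, transpose_mul, transpose_mul, transpose_mul, transpose_mul,
      transpose_transpose, transpose_transpose, transpose_transpose, ← Matrix.mul_assoc,
      ← Matrix.mul_assoc, add_comm]
  have hQΦ : ∀ X, Qᵀ * Φ X = X * Qᵀ := by
    intro X
    rw [hΦ, Matrix.mul_add, ← Matrix.mul_assoc, ← Matrix.mul_assoc, hQP, Matrix.one_mul,
      ← Matrix.mul_assoc, ← Matrix.mul_assoc, hQ, Matrix.zero_mul, Matrix.zero_mul, add_zero]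
  have hΦP : ∀ X, Φ X * P = P * X := by
    intro X
    rw [hΦ, Matrix.add_mul, Matrix.mul_assoc (P * X), hQP, Matrix.mul_one,
      Matrix.mul_assoc (Q * Xᵀ), hP, Matrix.mul_zero, add_zero]
  have hΨΦ : ∀ X, Ψ (Φ X) = X := by
    intro X
    rw [hΨ, hΦt, ← two_smul F (Φ X), Matrix.mul_smul, Matrix.smul_mul, smul_smul,
      inv_mul_cancel₀ two_ne_zero, one_smul, hQΦ, Matrix.mul_assoc, hQP, Matrix.mul_one]
  have hΦj : ∀ X Y, jp (Φ X) (Φ Y) = Φ (jp X Y) := by
    intro X Y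
    have h1 : ∀ X Y, Φ X * Φ Y = P * (X * Y) * Qᵀ + Q * (Xᵀ * Yᵀ) * Pᵀ := by
      intro X Y
      have h2 : Pᵀ * Φ Y = Yᵀ * Pᵀ := by
        rw [← transpose_transpose (Pᵀ * Φ Y), transpose_mul, hΦt, transpose_transpose, hΦP,
          transpose_mul]
      rw [hΦ X, Matrix.add_mul, Matrix.mul_assoc (P * X), hQΦ, Matrix.mul_assoc (Q * Xᵀ), h2]
      simp only [Matrix.mul_assoc]
    unfold jp
    rw [h1, h1, hΦ, transpose_add, transpose_mul, transpose_mul, Matrix.mul_add, Matrix.mul_add,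
      Matrix.add_mul, Matrix.add_mul]
    abel
  have hΨt : ∀ y, Ψ yᵀ = Ψ y := by
    intro y
    rw [hΨ, hΨ, transpose_transpose, add_comm yᵀ y]
  have hΨj : ∀ X y, Ψ (jp (Φ X) y) = jp X (Ψ y) := by
    intro X y
    have h1 : jp (Φ X) y + (jp (Φ X) y)ᵀ = Φ X * (y + yᵀ) + (y + yᵀ) * Φ X := by
      unfold jp
      rw [transpose_add, transpose_mul, transpose_mul, hΦt, Matrix.mul_add, Matrix.add_mul]
      abel
    rw [hΨ, h1, hΨ, jp_smul]
    congr 1
    unfold jp
    rw [Matrix.mul_add, Matrix.add_mul, ← Matrix.mul_assoc, hQΦ, Matrix.mul_assoc Qᵀ,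
      Matrix.mul_assoc (y + yᵀ), hΦP]
    simp only [Matrix.mul_assoc]
  have hrr : JRB (RR F m) := by
    intro X Y
    unfold jp
    rw [RR_rb, RR_rb, ← map_add]
    congr 1
    abel
  refine ⟨Φ ∘ₗ RR F m ∘ₗ Ψ, ⟨?_, ?_, ?_⟩, ?_⟩
  · intro x y
    simp only [LinearMap.comp_apply]
    rw [hΦj, hrr, map_add Ψ, hΨj, jp_comm x, hΨj, jp_comm (Ψ x)]
  · intro x
    simp only [LinearMap.comp_apply]
    rw [hΦt]
  · intro x
    simp only [LinearMap.comp_apply]
    rw [hΨt]
  · have h2 : ∀ j X, ((Φ ∘ₗ RR F m ∘ₗ Ψ) ^ j) (Φ X) = Φ (((RR F m) ^ j) X) := by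
      intro j
      induction j with
      | zero =>
        intro X
        rw [pow_zero, pow_zero, Module.End.one_apply, Module.End.one_apply]
      | succ j ih =>
        intro X
        rw [pow_succ, Module.End.mul_apply, LinearMap.comp_apply, LinearMap.comp_apply, hΨΦ, ih,
          pow_succ (RR F m), Module.End.mul_apply]
    have h3 : (RR F m) ^ (2 * m) ≠ 0 := RR_pow_ne
    obtain ⟨X, hX⟩ : ∃ X, ((RR F m) ^ (2 * m)) X ≠ 0 := by
      by_contra hcon
      push Not at hcon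
      exact h3 (LinearMap.ext hcon)
    refine ⟨Φ X, hΦt X, ?_⟩
    have h4 : 2 * (m + 1) - 2 = 2 * m := by omega
    rw [h4, h2]
    intro h5
    apply hX
    rw [← hΨΦ (((RR F m) ^ (2 * m)) X), h5, map_zero]

theorem lower_H3 {i : F} (hi : i * i = -1) :
    ∃ R : Matrix (Fin 3) (Fin 3) F →ₗ[F] Matrix (Fin 3) (Fin 3) F, SRB R ∧ R ≠ 0 := by
  obtain ⟨v, hv, w, hw⟩ : ∃ v : Fin 3 → F, v ⬝ᵥ v = 0 ∧ ∃ w : Fin 3 → F, v ⬝ᵥ w = 1 := by
    refine ⟨![1, i, 0], ?_, ![1, 0, 0], ?_⟩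
    · simp [dotProduct, Fin.sum_univ_three, hi]
    · simp [dotProduct, Fin.sum_univ_three]
  obtain ⟨R, hR⟩ : ∃ R : Matrix (Fin 3) (Fin 3) F →ₗ[F] Matrix (Fin 3) (Fin 3) F,
      ∀ x, R x = (v ⬝ᵥ (x *ᵥ v)) • vecMulVec v v :=
    ⟨{ toFun := fun x => (v ⬝ᵥ (x *ᵥ v)) • vecMulVec v v
       map_add' := by
        intro x y
        rw [add_mulVec, dotProduct_add, add_smul]
       map_smul' := by
        intro c x
        rw [smul_mulVec, dotProduct_smul, RingHom.id_apply, smul_smul, smul_eq_mul] },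
      fun _ => rfl⟩
  have h1 : ∀ y : Matrix (Fin 3) (Fin 3) F, v ⬝ᵥ ((vecMulVec v v * y) *ᵥ v) = 0 := by
    intro y
    rw [← mulVec_mulVec, vmv_mulVec, dotProduct_smul, hv, smul_zero]
  have h2 : ∀ y : Matrix (Fin 3) (Fin 3) F, v ⬝ᵥ ((y * vecMulVec v v) *ᵥ v) = 0 := by
    intro y
    rw [← mulVec_mulVec, vmv_mulVec, hv, zero_smul, mulVec_zero, dotProduct_zero]
  refine ⟨R, ⟨?_, ?_, ?_⟩, ?_⟩
  · intro x y
    unfold jp
    rw [hR x, hR y, hR]
    simp only [add_mulVec, dotProduct_add, Matrix.smul_mul, Matrix.mul_smul, smul_mulVec,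
      dotProduct_smul, h1, h2, smul_zero, add_zero, zero_smul]
    rw [vecMulVec_mul, vecMul_vecMulVec, hv, zero_smul]
    simp
  · intro x
    rw [hR, transpose_smul, transpose_vecMulVec]
  · intro x
    rw [hR, hR, mulVec_transpose, dotProduct_comm, dotProduct_mulVec]
  · intro h
    have h3 : R (vecMulVec w w) = 0 := by rw [h, LinearMap.zero_apply]
    rw [hR, vmv_mulVec, dotProduct_comm w v, hw, one_smul, hw, one_smul] at h3
    have h4 : vecMulVec v v *ᵥ w = 0 := by rw [h3, zero_mulVec]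
    rw [vmv_mulVec, hw, one_smul] at h4
    rw [h4, zero_dotProduct] at hw
    exact zero_ne_one hw

end Lower

end Pool.Agent.MP_f4742e_al
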