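import Pool.Agent.Lib.MP_f4742e_al.HOp

/-!
The action of the image of `R^m` on the image of `a^(m-1)`, in the case of rank two.
-/

set_option autoImplicit false

namespace Pool.Agent.MP_f4742e_al

open Matrix

section

variable {F : Type*} [Field F] [CharZero F] {n : ℕ}

theorem vmv_swap_zero {y z : Fin n → F} (h : vecMulVec y z + vecMulVec z y = 0) :
    y = 0 ∨ z = 0 := by
  by_cases hz : z = 0
  · exact Or.inr hz
  · left
    obtain ⟨i, hi⟩ : ∃ i, z i ≠ 0 := by
      by_contra hcon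
      push Not at hcon
      exact hz (funext hcon)
    have key : ∀ a b : Fin n, y a * z b + z a * y b = 0 := by
      intro a b
      have h1 := congrFun (congrFun h a) b
      simpa [vecMulVec_apply] using h1
    have h1 : y i = 0 := by
      have h2 := key i i
      have h3 : 2 * (y i * z i) = 0 := by linear_combination h2
      have h4 := (mul_eq_zero.1 h3).resolve_left two_ne_zero
      exact (mul_eq_zero.1 h4).resolve_right hi
    funext j
    have h2 := key j i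
    rw [h1, mul_zero, add_zero] at h2
    exact (mul_eq_zero.1 h2).resolve_right hi

variable {R : Matrix (Fin n) (Fin n) F →ₗ[F] Matrix (Fin n) (Fin n) F} (hR : SRB R) {m : ℕ}
  {v w v1 w1 v0 w0 : Fin n → F}

include hR

omit [CharZero F] in
theorem SRB.pow_tr' (hm : 1 ≤ m) (x : Matrix (Fin n) (Fin n) F) : ((R ^ m) x)ᵀ = (R ^ m) x := by
  have h1 : (R ^ m) x = R ((R ^ (m - 1)) x) := by
    rw [← Module.End.mul_apply, ← pow_succ']
    congr 2
    omega
  rw [h1, hR.tr]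

/-- The action of the image of `R^m` on `E = span (v, w)`. -/
theorem qE (D : AData (R 1) m v w v1 w1 v0 w0) (x : Matrix (Fin n) (Fin n) F) :
    ∃ α β c : F, (R ^ m) x *ᵥ v = α • v + c • w ∧ (R ^ m) x *ᵥ w = β • v + α • w ∧
      α * α = β * c ∧ ((α = 0 ∧ β = 0 ∧ c = 0) → (R ^ (2 * m - 1)) x = 0) := by
  have hm := D.hm
  have hm1 : 1 ≤ m := by omega
  have hm2 : 2 ≤ m := by omega
  have hv : v ≠ 0 := by
    rintro rfl
    have := D.v0v
    rw [dotProduct_zero] at this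
    exact zero_ne_one this
  have hw : w ≠ 0 := by
    rintro rfl
    have := D.w0w
    rw [dotProduct_zero] at this
    exact zero_ne_one this
  have hv0v' : v ⬝ᵥ v0 = 1 := by rw [dotProduct_comm, D.v0v]
  have hv0w' : w ⬝ᵥ v0 = 0 := by rw [dotProduct_comm, D.v0w]
  have hw0v' : v ⬝ᵥ w0 = 0 := by rw [dotProduct_comm, D.w0v]
  have hw0w' : w ⬝ᵥ w0 = 1 := by rw [dotProduct_comm, D.w0w]
  -- the images are killed by `a`
  have kill : ∀ x : Matrix (Fin n) (Fin n) F, R 1 *ᵥ ((R ^ m) x *ᵥ v) = 0 ∧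
      R 1 *ᵥ ((R ^ m) x *ᵥ w) = 0 := by
    intro x
    have hqs := hR.pow_tr' hm1 x
    have h1 := aqeqa hR.rb hm1 D.am x
    have h2 := aqe hR.rb hm1 D.am x
    rw [D.e, Matrix.mul_add, Matrix.add_mul, mul_vecMulVec, mul_vecMulVec, vecMulVec_mul,
      vecMulVec_mul] at h1
    have h3 : ∀ t : Fin n → F, t ᵥ* ((R ^ m) x * R 1) = R 1 *ᵥ ((R ^ m) x *ᵥ t) := by
      intro t
      rw [← mulVec_transpose, transpose_mul, hqs, hR.tr, mulVec_mulVec]
    rw [h3, h3, ← mulVec_mulVec, ← mulVec_mulVec] at h1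
    rw [D.e, Matrix.mul_add, mul_vecMulVec, mul_vecMulVec, Matrix.add_mul, Matrix.add_mul,
      Matrix.mul_assoc (vecMulVec v w), Matrix.mul_assoc (vecMulVec w v), vecMulVec_mul,
      vecMulVec_mul, h3, h3, ← mulVec_mulVec, ← mulVec_mulVec] at h2
    rcases vmv_swap_zero h1 with h4 | h4
    · rw [h4, zero_vecMulVec, vecMulVec_zero, zero_add, add_zero] at h2
      rcases vmv_swap_zero h2 with h5 | h5
      · exact ⟨h4, h5⟩
      · exact absurd h5 hv
    · rw [h4, zero_vecMulVec, vecMulVec_zero, zero_add, add_zero] at h2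
      rcases vmv_swap_zero h2 with h5 | h5
      · exact ⟨h5, h4⟩
      · exact absurd h5 hw
  have iso : ∀ x : Matrix (Fin n) (Fin n) F, ((R ^ m) x *ᵥ v) ⬝ᵥ ((R ^ m) x *ᵥ v) = 0 ∧
      ((R ^ m) x *ᵥ w) ⬝ᵥ ((R ^ m) x *ᵥ w) = 0 := by
    intro x
    have hqs := hR.pow_tr' hm1 x
    obtain ⟨z, hz⟩ := sq_mem hR.rb m x
    have h1 := e_q_e hR.rb hm2 D.am z
    rw [← hz] at h1
    have h2 : ∀ t t' : Fin n → F, ((R 1) ^ (m - 1) *ᵥ t) ⬝ᵥ
        ((R ^ m) x *ᵥ ((R ^ m) x *ᵥ ((R 1) ^ (m - 1) *ᵥ t'))) = 0 := by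
      intro t t'
      rw [dot_symm (hR.a_tr _), mulVec_mulVec, mulVec_mulVec, mulVec_mulVec,
        Matrix.mul_assoc _ ((R ^ m) x) ((R ^ m) x), h1, zero_mulVec, dotProduct_zero]
    constructor
    · have h3 := h2 w0 w0
      rw [D.e_w0, ← dot_symm hqs] at h3
      exact h3
    · have h3 := h2 v0 v0
      rw [D.e_v0, ← dot_symm hqs] at h3
      exact h3
  have hqs := hR.pow_tr' hm1 x
  obtain ⟨α, c, h1⟩ := D.anis _ (kill x).1 (iso x).1
  obtain ⟨β, α', h2⟩ := D.anis _ (kill x).2 (iso x).2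
  have he : ∀ t : Fin n → F, (R 1) ^ (m - 1) *ᵥ t = (w ⬝ᵥ t) • v + (v ⬝ᵥ t) • w := D.e_mulVec
  have hwq : ∀ t t' : Fin n → F, t ⬝ᵥ ((R ^ m) x *ᵥ t') = ((R ^ m) x *ᵥ t) ⬝ᵥ t' :=
    fun t t' => (dot_symm hqs t t').symm
  -- α = α'
  have h3 : α' = α := by
    have h4 := F_rel hR.rb hm1 D.am x
    have h5 := congrArg (fun M => v0 ⬝ᵥ (M *ᵥ w0)) h4
    simp only [add_mulVec, smul_mulVec, ← mulVec_mulVec, dotProduct_add, dotProduct_smul,
      D.e_w0] at h5
    rw [← dot_symm (hR.a_tr _), D.e_v0, he, hwq w, hwq _ w0, hwq w, hwq v] at h5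
    simp only [h1, h2, mulVec_add, mulVec_smul, dotProduct_add, add_dotProduct, smul_dotProduct,
      dotProduct_smul, smul_eq_mul, D.v0v, D.v0w, hw0v', hw0w', mul_one,
      mul_zero, add_zero, zero_add] at h5
    have h6 : (α' - α) ^ 2 = 0 := by linear_combination h5
    exact sub_eq_zero.1 (pow_eq_zero_iff (two_ne_zero) |>.1 h6)
  rw [h3] at h2
  have hje : ∀ (y : Matrix (Fin n) (Fin n) F) (α β c : F), yᵀ = y → y *ᵥ v = α • v + c • w →
      y *ᵥ w = β • v + α • w → jp ((R 1) ^ (m - 1)) y =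
        (2 : F) • (α • (R 1) ^ (m - 1) + β • vecMulVec v v + c • vecMulVec w w) := by
    intro y α β c hy h5 h6
    unfold jp
    rw [D.e, Matrix.add_mul, Matrix.mul_add, vmv_mul hy, vmv_mul hy, mul_vecMulVec, mul_vecMulVec,
      h5, h6]
    simp only [add_vecMulVec, vecMulVec_add, smul_vecMulVec, vecMulVec_smul]
    module
  have he0 : (R 1) ^ (m - 1) ≠ 0 := by
    intro h5
    have h6 := D.e_w0
    rw [h5, zero_mulVec] at h6
    exact hv h6.symm
  have h4 : α * α = β * c := by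
    obtain ⟨z, hz⟩ := sq_mem hR.rb m x
    have h5 := hje _ α β c hqs h1 h2
    have h6 := hje ((R ^ m) x * (R ^ m) x) (α * α + β * c) (2 * α * β) (2 * α * c)
      (by rw [transpose_mul, hqs])
      (by
        rw [← mulVec_mulVec, h1, mulVec_add, mulVec_smul, mulVec_smul, h1, h2]
        module)
      (by
        rw [← mulVec_mulVec, h2, mulVec_add, mulVec_smul, mulVec_smul, h1, h2]
        module)
    have h7 : jp ((R 1) ^ (m - 1)) ((R ^ m) ((2 * α) • x - z)) =
        (2 * (α * α - β * c)) • (R 1) ^ (m - 1) := by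
      rw [map_sub, map_smul, ← hz, jp_sub, jp_smul, h5, h6]
      module
    have h8 := jp_e_ne hR.rb hm1 D.am he0 _ h7
    exact sub_eq_zero.1 ((mul_eq_zero.1 h8).resolve_left two_ne_zero)
  refine ⟨α, β, c, h1, h2, h4, ?_⟩
  rintro ⟨h5, h6, h7⟩
  apply last_zero hR.rb hm1 D.am
  rw [hje _ α β c hqs h1 h2, h5, h6, h7]
  module

end

end Pool.Agent.MP_f4742e_al
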