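import Pool.Agent.Lib.MP_f4742e_al.HData
import Pool.Agent.Lib.MP_f4742e_al.HLA

/-!
Normal form of a nilpotent symmetric matrix `a` of size `n ≤ 2m+1` with `a^m = 0 ≠ a^(m-1)`.
-/

set_option autoImplicit false

namespace Pool.Agent.MP_f4742e_al

open Matrix

section StructA

variable {F : Type*} [Field F] {n : ℕ}

/-- A vector killed by a dual pair. -/
theorem indep_vwu {v w u v0 w0 : Fin n → F} (v0v : v0 ⬝ᵥ v = 1) (v0w : v0 ⬝ᵥ w = 0)
    (w0v : w0 ⬝ᵥ v = 0) (w0w : w0 ⬝ᵥ w = 1)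
    (hu : ∀ α β : F, u ≠ α • v + β • w) : LinearIndependent F ![w, v, u] := by
  rw [Fintype.linearIndependent_iff]
  intro g hg
  rw [Fin.sum_univ_three] at hg
  simp only [cons_val_zero, cons_val_one, cons_val] at hg
  have h2 : g 2 = 0 := by
    by_contra h2
    apply hu (-(g 1 / g 2)) (-(g 0 / g 2))
    have h3 : g 2 • u = -(g 0 • w + g 1 • v) := by
      rw [eq_neg_iff_add_eq_zero, add_comm]
      exact hg
    have h4 : u = (g 2)⁻¹ • (g 2 • u) := by rw [smul_smul, inv_mul_cancel₀ h2, one_smul]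
    rw [h4, h3]
    module
  rw [h2, zero_smul, add_zero] at hg
  have h1 := congrArg (fun z => v0 ⬝ᵥ z) hg
  have h0 := congrArg (fun z => w0 ⬝ᵥ z) hg
  simp only [dotProduct_add, dotProduct_smul, dotProduct_zero, v0v, v0w, w0v, w0w, smul_eq_mul,
    mul_zero, mul_one, zero_add, add_zero] at h1 h0
  intro i
  fin_cases i
  · exact h0
  · exact h1
  · exact h2

variable {a : Matrix (Fin n) (Fin n) F} {m : ℕ}

/-- the final part of `structA`. -/
theorem structA_aux [CharZero F] (ha : aᵀ = a) (hm : 3 ≤ m) (hn : n ≤ 2 * m + 1) (h0 : a ^ m = 0)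
    {v w v0 w0 : Fin n → F} (he : a ^ (m - 1) = vecMulVec v w + vecMulVec w v)
    (v0v : v0 ⬝ᵥ v = 1) (v0w : v0 ⬝ᵥ w = 0) (w0v : w0 ⬝ᵥ v = 0) (w0w : w0 ⬝ᵥ w = 1) :
    ∃ v1 w1 : Fin n → F, AData a m v w v1 w1 v0 w0 := by
  obtain ⟨l, rfl⟩ : ∃ l, m = l + 3 := ⟨m - 3, by omega⟩
  have e1 : l + 3 - 1 = l + 2 := by omega
  have e2 : l + 3 - 2 = l + 1 := by omega
  rw [e1] at he
  have vv0 : v ⬝ᵥ v0 = 1 := by rw [dotProduct_comm, v0v]
  have wv0 : w ⬝ᵥ v0 = 0 := by rw [dotProduct_comm, v0w]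
  have vw0 : v ⬝ᵥ w0 = 0 := by rw [dotProduct_comm, w0v]
  have ww0 : w ⬝ᵥ w0 = 1 := by rw [dotProduct_comm, w0w]
  have ev0 : a ^ (l + 2) *ᵥ v0 = w := by
    rw [he, add_mulVec, vmv_mulVec, vmv_mulVec, wv0, vv0, zero_smul, one_smul, zero_add]
  have ew0 : a ^ (l + 2) *ᵥ w0 = v := by
    rw [he, add_mulVec, vmv_mulVec, vmv_mulVec, vw0, ww0, zero_smul, one_smul, add_zero]
  have aw : a *ᵥ w = 0 := by
    rw [← ev0, mulVec_mulVec, ← pow_succ', h0, zero_mulVec]
  have av : a *ᵥ v = 0 := by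
    rw [← ew0, mulVec_mulVec, ← pow_succ', h0, zero_mulVec]
  set b := a ^ (l + 1) with hb
  have hbt : bᵀ = b := pow_tr ha _
  have hab : a * b = a ^ (l + 2) := by rw [hb, ← pow_succ']
  have hba : b * a = a ^ (l + 2) := by rw [hb, ← pow_succ]
  have hsym : w0 ⬝ᵥ (b *ᵥ v0) = v0 ⬝ᵥ (b *ᵥ w0) := dot_symm' hbt _ _
  -- the corrected vectors
  obtain ⟨w1, hw1⟩ : ∃ w1, w1 = b *ᵥ v0 - ((v0 ⬝ᵥ (b *ᵥ v0)) / 2) • v -
    (v0 ⬝ᵥ (b *ᵥ w0)) • w := ⟨_, rfl⟩
  obtain ⟨v1, hv1⟩ : ∃ v1, v1 = b *ᵥ w0 - ((w0 ⬝ᵥ (b *ᵥ w0)) / 2) • w := ⟨_, rfl⟩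
  have aw1 : a *ᵥ w1 = w := by
    rw [hw1, mulVec_sub, mulVec_sub, mulVec_smul, mulVec_smul, av, aw, mulVec_mulVec, hab, ev0]
    simp
  have av1 : a *ᵥ v1 = v := by
    rw [hv1, mulVec_sub, mulVec_smul, aw, mulVec_mulVec, hab, ew0]
    simp
  obtain ⟨β, hβ⟩ : ∃ β, β = b - (vecMulVec v w1 + vecMulVec w1 v + vecMulVec w v1 +
    vecMulVec v1 w) := ⟨_, rfl⟩
  have hβt : βᵀ = β := by
    rw [hβ, transpose_sub, transpose_add, transpose_add, transpose_add, transpose_vecMulVec,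
      transpose_vecMulVec, transpose_vecMulVec, transpose_vecMulVec, hbt]
    abel
  have hb1 : ∀ t, b *ᵥ t = (w1 ⬝ᵥ t) • v + (v ⬝ᵥ t) • w1 + (v1 ⬝ᵥ t) • w + (w ⬝ᵥ t) • v1 +
      β *ᵥ t := by
    intro t
    rw [hβ, sub_mulVec, add_mulVec, add_mulVec, add_mulVec, vmv_mulVec, vmv_mulVec, vmv_mulVec,
      vmv_mulVec]
    abel
  have hβv0 : β *ᵥ v0 = 0 := by
    have h1 := hb1 v0
    have h2 : w1 ⬝ᵥ v0 = (v0 ⬝ᵥ (b *ᵥ v0)) / 2 := by
      rw [dotProduct_comm, hw1, dotProduct_sub, dotProduct_sub, dotProduct_smul, dotProduct_smul,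
        v0v, v0w, smul_eq_mul, smul_eq_mul]
      ring
    have h3 : v1 ⬝ᵥ v0 = v0 ⬝ᵥ (b *ᵥ w0) := by
      rw [dotProduct_comm, hv1, dotProduct_sub, dotProduct_smul, v0w, smul_eq_mul]
      ring
    rw [h2, h3, vv0, wv0] at h1
    have h4 : β *ᵥ v0 = b *ᵥ v0 - (((v0 ⬝ᵥ (b *ᵥ v0)) / 2) • v + (1 : F) • w1 +
      (v0 ⬝ᵥ (b *ᵥ w0)) • w + (0 : F) • v1) := by
      rw [eq_sub_iff_add_eq, add_comm]
      exact h1.symm
    rw [h4, hw1]
    have h6 : (v0 ⬝ᵥ (b *ᵥ v0)) / 2 + (v0 ⬝ᵥ (b *ᵥ v0)) / 2 = v0 ⬝ᵥ (b *ᵥ v0) := by ring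
    module
  have hβw0 : β *ᵥ w0 = 0 := by
    have h1 := hb1 w0
    have h2 : w1 ⬝ᵥ w0 = 0 := by
      rw [dotProduct_comm, hw1, dotProduct_sub, dotProduct_sub, dotProduct_smul, dotProduct_smul,
        w0v, w0w, smul_eq_mul, smul_eq_mul, hsym]
      ring
    have h3 : v1 ⬝ᵥ w0 = (w0 ⬝ᵥ (b *ᵥ w0)) / 2 := by
      rw [dotProduct_comm, hv1, dotProduct_sub, dotProduct_smul, w0w, smul_eq_mul]
      ring
    rw [h2, h3, vw0, ww0] at h1
    have h4 : b *ᵥ w0 = ((w0 ⬝ᵥ (b *ᵥ w0)) / 2) • w + v1 := by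
      rw [hv1]
      abel
    have h5 : β *ᵥ w0 = b *ᵥ w0 - ((0 : F) • v + (0 : F) • w1 +
      ((w0 ⬝ᵥ (b *ᵥ w0)) / 2) • w + (1 : F) • v1) := by
      rw [eq_sub_iff_add_eq, add_comm]
      exact h1.symm
    rw [h5]
    nth_rewrite 1 [h4]
    module
  have hβa : β * a = 0 := by
    rw [hβ, sub_mul, add_mul, add_mul, add_mul, vmv_mul ha, vmv_mul ha, vmv_mul ha, vmv_mul ha, aw1,
      av, av1, aw, hba, he]
    simp
  have haβ : a * β = 0 := by
    have h1 := congrArg transpose hβa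
    rw [transpose_mul, ha, hβt, transpose_zero] at h1
    exact h1
  have hβ0 : β = 0 := by
    by_contra hne
    have h1 : ∃ y, β *ᵥ y ≠ 0 := by
      by_contra hno
      push Not at hno
      apply hne
      ext i j
      have h2 := congrFun (hno (Pi.single j 1)) i
      rw [mulVec_single_one] at h2
      exact h2
    obtain ⟨y, hy⟩ := h1
    obtain ⟨u, hu⟩ : ∃ u, u = β *ᵥ y := ⟨_, rfl⟩
    rw [← hu] at hy
    have hau : a *ᵥ u = 0 := by rw [hu, mulVec_mulVec, haβ, zero_mulVec]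
    have huv0 : v0 ⬝ᵥ u = 0 := by rw [hu, ← dot_symm hβt, hβv0, zero_dotProduct]
    have huw0 : w0 ⬝ᵥ u = 0 := by rw [hu, ← dot_symm hβt, hβw0, zero_dotProduct]
    obtain ⟨y1, hy1⟩ : ∃ y1, y1 = y - (v ⬝ᵥ y) • v0 - (w ⬝ᵥ y) • w0 := ⟨_, rfl⟩
    have hvy1 : v ⬝ᵥ y1 = 0 := by
      rw [hy1, dotProduct_sub, dotProduct_sub, dotProduct_smul, dotProduct_smul, vv0, vw0]
      simp
    have hwy1 : w ⬝ᵥ y1 = 0 := by
      rw [hy1, dotProduct_sub, dotProduct_sub, dotProduct_smul, dotProduct_smul, wv0, ww0]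
      simp
    have hβy1 : β *ᵥ y1 = u := by
      rw [hy1, mulVec_sub, mulVec_sub, mulVec_smul, mulVec_smul, hβv0, hβw0, hu]
      simp
    obtain ⟨y2, hy2⟩ : ∃ y2, y2 = y1 - (w1 ⬝ᵥ y1) • (a *ᵥ w0) - (v1 ⬝ᵥ y1) • (a *ᵥ v0) :=
      ⟨_, rfl⟩
    have hby2 : b *ᵥ y2 = u := by
      rw [hy2, mulVec_sub, mulVec_sub, mulVec_smul, mulVec_smul, mulVec_mulVec, mulVec_mulVec, hba,
        ev0, ew0, hb1, hvy1, hwy1, hβy1]
      module
    have hli : LinearIndependent F ![w, v, u] := by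
      apply indep_vwu v0v v0w w0v w0w
      intro α β' hc
      have h3 := congrArg (fun z => v0 ⬝ᵥ z) hc
      have h4 := congrArg (fun z => w0 ⬝ᵥ z) hc
      simp only [dotProduct_add, dotProduct_smul, v0v, v0w, w0v, w0w, smul_eq_mul, huv0, huw0,
        mul_zero, mul_one, zero_add, add_zero] at h3 h4
      rw [← h3, ← h4] at hc
      apply hy
      rw [hc]
      simp
    have hcc := chain_card (a := a) (y := ![v0, w0, y2]) (l := ![l + 2, l + 2, l + 1])
      (by
        intro j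
        fin_cases j
        · simp [h0]
        · simp [h0]
        · change a ^ (l + 1 + 1) *ᵥ y2 = 0
          rw [pow_succ', ← mulVec_mulVec, ← hb, hby2, hau])
      (by
        have h6 : (fun j : Fin 3 => a ^ ((![l + 2, l + 2, l + 1] : Fin 3 → ℕ) j) *ᵥ
            (![v0, w0, y2] : Fin 3 → Fin n → F) j) = ![w, v, u] := by
          funext j
          fin_cases j
          · exact ev0
          · exact ew0
          · exact hby2
        rw [h6]
        exact hli)
    rw [Fin.sum_univ_three] at hcc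
    simp only [cons_val_zero, cons_val_one, cons_val] at hcc
    omega
  refine ⟨v1, w1, ?_⟩
  have hbb : a ^ (l + 3 - 2) = vecMulVec v w1 + vecMulVec w1 v + vecMulVec w v1 +
      vecMulVec v1 w := by
    rw [e2, ← hb]
    rw [hβ0, eq_comm, sub_eq_zero] at hβ
    exact hβ
  refine ⟨hm, hn, ha, h0, by rw [e1]; exact he, hbb, av, aw, av1, aw1, v0v, v0w, w0v, w0w, ?_⟩
  intro k hak hkk
  by_contra hno
  push Not at hno
  have hli : LinearIndependent F ![w, v, k] := indep_vwu v0v v0w w0v w0w hno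
  have hkv : k ⬝ᵥ v = 0 := by
    rw [← ew0, ← dot_symm (pow_tr ha _), pow_succ, ← mulVec_mulVec, hak, mulVec_zero,
      zero_dotProduct]
  have hkw : k ⬝ᵥ w = 0 := by
    rw [← ev0, ← dot_symm (pow_tr ha _), pow_succ, ← mulVec_mulVec, hak, mulVec_zero,
      zero_dotProduct]
  have horth : ∀ z, a *ᵥ z = 0 → z ⬝ᵥ k = 0 := by
    intro z hz
    by_contra hzk
    have hli4 : LinearIndependent F ![w, v, k, z] := by
      rw [Fintype.linearIndependent_iff]
      intro g hg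
      rw [Fin.sum_univ_four] at hg
      simp only [cons_val_zero, cons_val_one, cons_val] at hg
      have h3 : g 3 = 0 := by
        have h4 := congrArg (fun z => k ⬝ᵥ z) hg
        simp only [dotProduct_add, dotProduct_smul, dotProduct_zero, hkv, hkw, hkk, smul_eq_mul,
          mul_zero, zero_add] at h4
        rw [dotProduct_comm k z] at h4
        exact (mul_eq_zero.1 h4).resolve_right hzk
      rw [h3, zero_smul, add_zero] at hg
      have h5 := Fintype.linearIndependent_iff.1 hli ![g 0, g 1, g 2] (by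
        rw [Fin.sum_univ_three]
        simp only [cons_val_zero, cons_val_one, cons_val]
        exact hg)
      intro i
      fin_cases i
      · exact h5 0
      · exact h5 1
      · exact h5 2
      · exact h3
    have hcc := chain_card (a := a) (y := ![v0, w0, k, z]) (l := ![l + 2, l + 2, 0, 0])
      (by
        intro j
        fin_cases j
        · simp [h0]
        · simp [h0]
        · simpa using hak
        · simpa using hz)
      (by
        have h6 : (fun j : Fin 4 => a ^ ((![l + 2, l + 2, 0, 0] : Fin 4 → ℕ) j) *ᵥ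
            (![v0, w0, k, z] : Fin 4 → Fin n → F) j) = ![w, v, k, z] := by
          funext j
          fin_cases j
          · exact ev0
          · exact ew0
          · change a ^ 0 *ᵥ k = k
            rw [pow_zero, one_mulVec]
          · change a ^ 0 *ᵥ z = z
            rw [pow_zero, one_mulVec]
        rw [h6]
        exact hli4)
    rw [Fin.sum_univ_four] at hcc
    simp only [cons_val_zero, cons_val_one, cons_val] at hcc
    omega
  obtain ⟨t, ht⟩ := mem_range_of_orth ha horth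
  have hcc := chain_card (a := a) (y := ![v0, w0, t]) (l := ![l + 2, l + 2, 1])
      (by
        intro j
        fin_cases j
        · simp [h0]
        · simp [h0]
        · change a ^ (1 + 1) *ᵥ t = 0
          rw [pow_succ', pow_one, ← mulVec_mulVec, ← ht, hak])
      (by
        have h6 : (fun j : Fin 3 => a ^ ((![l + 2, l + 2, 1] : Fin 3 → ℕ) j) *ᵥ
            (![v0, w0, t] : Fin 3 → Fin n → F) j) = ![w, v, k] := by
          funext j
          fin_cases j
          · exact ev0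
          · exact ew0
          · change a ^ 1 *ᵥ t = k
            rw [pow_one, ht]
        rw [h6]
        exact hli)
  rw [Fin.sum_univ_three] at hcc
  simp only [cons_val_zero, cons_val_one, cons_val] at hcc
  omega

/-- Normal form of a nilpotent symmetric matrix of index `m ≥ 3` and size `≤ 2m+1`. -/
theorem structA [CharZero F] [IsAlgClosed F] (ha : aᵀ = a) (hm : 3 ≤ m) (hn : n ≤ 2 * m + 1)
    (h0 : a ^ m = 0) (h1 : a ^ (m - 1) ≠ 0) :
    (∃ v : Fin n → F, v ≠ 0 ∧ a ^ (m - 1) = vecMulVec v v) ∨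
    (∃ v w v1 w1 v0 w0 : Fin n → F, AData a m v w v1 w1 v0 w0) := by
  obtain ⟨r, y, hy, he⟩ := symm_decomp (pow_tr ha (m - 1))
  obtain ⟨h, hh⟩ := exists_dual hy
  have heh : ∀ i, a ^ (m - 1) *ᵥ h i = y i := by
    intro i
    have h2 : ∀ j, y j ⬝ᵥ h i = if i = j then 1 else 0 := by
      intro j
      rw [dotProduct_comm, hh]
    rw [he, sum_mulVec]
    simp only [vmv_mulVec, h2]
    simp
  have hr : r * m ≤ n := by
    have hcc := chain_card (a := a) (y := h) (l := fun _ => m - 1)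
      (by
        intro j
        rw [show m - 1 + 1 = m by omega, h0, zero_mulVec])
      (by
        simp only [heh]
        exact hy)
    rw [Finset.sum_const, Finset.card_univ, Fintype.card_fin, smul_eq_mul,
      show m - 1 + 1 = m by omega] at hcc
    exact hcc
  have hr2 : r ≤ 2 := by
    by_contra h2
    have h3 : 3 * m ≤ r * m := Nat.mul_le_mul_right m (by omega)
    omega
  interval_cases r
  · exfalso
    apply h1
    rw [he]
    simp
  · left
    refine ⟨y 0, hy.ne_zero 0, ?_⟩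
    rw [he]
    simp
  · right
    obtain ⟨i, hi⟩ := IsAlgClosed.exists_eq_mul_self (-1 : F)
    rw [Fin.sum_univ_two] at he
    obtain ⟨v, hv⟩ : ∃ v, v = y 0 + i • y 1 := ⟨_, rfl⟩
    obtain ⟨w, hw⟩ : ∃ w, w = (1 / 2 : F) • (y 0 - i • y 1) := ⟨_, rfl⟩
    obtain ⟨v0, hv0⟩ : ∃ v0, v0 = (1 / 2 : F) • (h 0 - i • h 1) := ⟨_, rfl⟩
    obtain ⟨w0, hw0⟩ : ∃ w0, w0 = h 0 + i • h 1 := ⟨_, rfl⟩
    have h00 : h 0 ⬝ᵥ y 0 = 1 := by rw [hh]; simp
    have h01 : h 0 ⬝ᵥ y 1 = 0 := by rw [hh]; simp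
    have h10 : h 1 ⬝ᵥ y 0 = 0 := by rw [hh]; simp
    have h11 : h 1 ⬝ᵥ y 1 = 1 := by rw [hh]; simp
    have he2 : a ^ (m - 1) = vecMulVec v w + vecMulVec w v := by
      rw [he, hv, hw]
      ext p q
      simp only [Matrix.add_apply, vecMulVec_apply, Pi.add_apply, Pi.sub_apply, Pi.smul_apply,
        smul_eq_mul]
      linear_combination (-(y 1 p * y 1 q)) * hi
    obtain ⟨v1, w1, D⟩ := structA_aux ha hm hn h0 (v := v) (w := w) (v0 := v0) (w0 := w0) he2
      (by
        rw [hv0, hv]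
        simp only [smul_dotProduct, sub_dotProduct, dotProduct_add, dotProduct_smul, h00, h01, h10,
          h11, smul_eq_mul]
        linear_combination (-(1 : F) / 2 * (-1)) * hi)
      (by
        rw [hv0, hw]
        simp only [smul_dotProduct, sub_dotProduct, dotProduct_sub, dotProduct_smul, h00, h01, h10,
          h11, smul_eq_mul]
        linear_combination (-(1 : F) / 4) * hi)
      (by
        rw [hw0, hv]
        simp only [smul_dotProduct, add_dotProduct, dotProduct_add, dotProduct_smul, h00, h01, h10,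
          h11, smul_eq_mul]
        linear_combination (-(1 : F)) * hi)
      (by
        rw [hw0, hw]
        simp only [smul_dotProduct, add_dotProduct, dotProduct_sub, dotProduct_smul, h00, h01, h10,
          h11, smul_eq_mul]
        linear_combination ((1 : F) / 2) * hi)
    exact ⟨v, w, v1, w1, v0, w0, D⟩

end StructA

end Pool.Agent.MP_f4742e_al
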