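import Pool.Agent.Lib.MP_f4742e_al.HData
import Pool.Agent.Lib.MP_f4742e_al.HLA

/-!
Normal form of a nilpotent symmetric matrix `a` with `a ^ (m - 1) ≠ 0` and `n ≤ 2 m - 1`.
-/

set_option autoImplicit false

namespace Pool.Agent.MP_f4742e_al

open Matrix

section StructB

variable {F : Type*} [Field F] {n : ℕ}

theorem HB.ext_mulVec {A B : Matrix (Fin n) (Fin n) F} (h : ∀ y, A *ᵥ y = B *ᵥ y) : A = B := by
  apply Matrix.mulVec_injective
  funext y
  exact h y

theorem HB.sum_vmv_mulVec {r : ℕ} (y : Fin r → (Fin n → F)) (x : Fin n → F) :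
    (∑ i, vecMulVec (y i) (y i)) *ᵥ x = ∑ i, (y i ⬝ᵥ x) • y i := by
  rw [Matrix.sum_mulVec]
  exact Finset.sum_congr rfl fun i _ => vmv_mulVec _ _ _

/-- decomposition of a symmetric matrix with dual vectors -/
theorem HB.symm_dual [IsAlgClosed F] [CharZero F] {e : Matrix (Fin n) (Fin n) F} (he : eᵀ = e) :
    ∃ (r : ℕ) (y h : Fin r → (Fin n → F)), LinearIndependent F y ∧
      e = ∑ i, vecMulVec (y i) (y i) ∧ (∀ i j, h i ⬝ᵥ y j = if i = j then 1 else 0) ∧
      ∀ i, e *ᵥ h i = y i := by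
  obtain ⟨r, y, hy, hd⟩ := symm_decomp he
  obtain ⟨h, hh⟩ := exists_dual hy
  refine ⟨r, y, h, hy, hd, hh, fun i => ?_⟩
  rw [hd, HB.sum_vmv_mulVec, Finset.sum_eq_single i]
  · rw [dotProduct_comm, hh, if_pos rfl, one_smul]
  · intro j _ hj
    rw [dotProduct_comm, hh, if_neg (Ne.symm hj), zero_smul]
  · intro h
    exact absurd (Finset.mem_univ i) h

variable [CharZero F] [IsAlgClosed F] {a : Matrix (Fin n) (Fin n) F} {m : ℕ}

theorem structB (ha : aᵀ = a) (hm : 3 ≤ m) (hn : n ≤ 2 * m - 1) (h0 : a ^ m = 0)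
    (h1 : a ^ (m - 1) ≠ 0) :
    (∃ v v1 : Fin n → F, v ≠ 0 ∧ a ^ (m - 1) = vecMulVec v v ∧
      a ^ (m - 2) = vecMulVec v v1 + vecMulVec v1 v ∧ a *ᵥ v = 0 ∧ a *ᵥ v1 = v) ∨
    (∃ v v1 v2 u u1 v0 u0 : Fin n → F, BBData a m v v1 v2 u u1 v0 u0) := by
  -- powers
  have hab : a * a ^ (m - 2) = a ^ (m - 1) := by
    rw [← pow_succ']
    congr 1
    omega
  have hab3 : a * a ^ (m - 3) = a ^ (m - 2) := by
    rw [← pow_succ']
    congr 1
    omega
  have hba : a ^ (m - 2) * a = a ^ (m - 1) := by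
    rw [← pow_succ]
    congr 1
    omega
  have hae : a * a ^ (m - 1) = 0 := by
    rw [← pow_succ', show m - 1 + 1 = m by omega, h0]
  -- the top power
  obtain ⟨r, y, h, hy, hd, hh, hey⟩ := HB.symm_dual (pow_tr ha (m - 1))
  have hr : ∑ _j : Fin r, (m - 1 + 1) ≤ n := by
    apply chain_card (a := a) (y := h) (l := fun _ => m - 1)
    · intro j
      rw [show m - 1 + 1 = m by omega, h0, zero_mulVec]
    · have : (fun j => a ^ (m - 1) *ᵥ h j) = y := funext hey
      rw [this]
      exact hy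
  rw [Finset.sum_const, Finset.card_univ, Fintype.card_fin, smul_eq_mul] at hr
  have hr1 : r = 1 := by
    rcases Nat.lt_or_ge r 1 with h2 | h2
    · exfalso
      have : r = 0 := by omega
      subst this
      apply h1
      rw [hd, Finset.univ_eq_empty, Finset.sum_empty]
    · by_contra h3
      have h4 : 2 ≤ r := by omega
      have h5 : 2 * (m - 1 + 1) ≤ r * (m - 1 + 1) := Nat.mul_le_mul_right _ h4
      omega
  subst hr1
  rw [Fin.sum_univ_one] at hd
  set v := y 0 with hv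
  set v0 := h 0 with hv0
  have v0v : v0 ⬝ᵥ v = 1 := by rw [hh, if_pos rfl]
  have vv0 : v ⬝ᵥ v0 = 1 := by rw [dotProduct_comm, v0v]
  have ev0 : a ^ (m - 1) *ᵥ v0 = v := hey 0
  have av : a *ᵥ v = 0 := by rw [← ev0, mulVec_mulVec, hae, zero_mulVec]
  have hvne : v ≠ 0 := hy.ne_zero 0
  -- v1
  set v1' := a ^ (m - 2) *ᵥ v0 with hv1'
  have av1' : a *ᵥ v1' = v := by rw [hv1', mulVec_mulVec, hab, ev0]
  set c := v1' ⬝ᵥ v0 with hc
  set v1 := v1' - (c / 2) • v with hv1
  have av1 : a *ᵥ v1 = v := by rw [hv1, mulVec_sub, mulVec_smul, av, smul_zero, sub_zero, av1']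
  have v1v0 : v1 ⬝ᵥ v0 = c / 2 := by
    rw [hv1, sub_dotProduct, smul_dotProduct, vv0, smul_eq_mul, ← hc]
    ring
  set β := a ^ (m - 2) - (vecMulVec v v1 + vecMulVec v1 v) with hβ
  have hb : a ^ (m - 2) = vecMulVec v v1 + vecMulVec v1 v + β := by rw [hβ]; abel
  have βtr : βᵀ = β := by
    rw [hβ, transpose_sub, transpose_add, transpose_vecMulVec, transpose_vecMulVec, pow_tr ha,
      add_comm (vecMulVec v1 v)]
  have aβ : a * β = 0 := by
    rw [hβ, Matrix.mul_sub, Matrix.mul_add, hab, mul_vecMulVec, mul_vecMulVec, av, av1,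
      zero_vecMulVec, zero_add, hd, sub_self]
  have bmul : ∀ t, a ^ (m - 2) *ᵥ t = (v1 ⬝ᵥ t) • v + (v ⬝ᵥ t) • v1 + β *ᵥ t := by
    intro t
    conv_lhs => rw [hb]
    rw [add_mulVec, add_mulVec, vmv_mulVec, vmv_mulVec]
  have βv0 : β *ᵥ v0 = 0 := by
    have h2 := bmul v0
    rw [← hv1', v1v0, vv0, one_smul] at h2
    have h3 : β *ᵥ v0 = v1' - ((c / 2) • v + v1) := by rw [h2]; abel
    rw [h3, hv1]
    abel
  by_cases hβ0 : β = 0
  · left
    refine ⟨v, v1, hvne, hd, ?_, av, av1⟩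
    rw [hb, hβ0, add_zero]
  right
  obtain ⟨q, us, ts, hus, hβd, hts, hβt⟩ := HB.symm_dual βtr
  have aus : ∀ i, a *ᵥ us i = 0 := fun i => by
    rw [← hβt, mulVec_mulVec, aβ, zero_mulVec]
  have usv0 : ∀ i, us i ⬝ᵥ v0 = 0 := fun i => by
    rw [← hβt, dot_symm βtr, βv0, dotProduct_zero]
  have av0 : ∀ x, a *ᵥ x = 0 → x ⬝ᵥ (a *ᵥ v0) = 0 := fun x hx => by
    rw [← dot_symm ha, hx, zero_dotProduct]
  have bav0 : a ^ (m - 2) *ᵥ (a *ᵥ v0) = v := by rw [mulVec_mulVec, hba, ev0]
  set ts' : Fin q → (Fin n → F) := fun i => (ts i - (v ⬝ᵥ ts i) • v0) -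
    (v1 ⬝ᵥ (ts i - (v ⬝ᵥ ts i) • v0)) • (a *ᵥ v0) with hts'
  have bts : ∀ i, a ^ (m - 2) *ᵥ ts' i = us i := by
    intro i
    have h2 : v ⬝ᵥ (ts i - (v ⬝ᵥ ts i) • v0) = 0 := by
      rw [dotProduct_sub, dotProduct_smul, vv0, smul_eq_mul, mul_one, sub_self]
    have h3 : β *ᵥ (ts i - (v ⬝ᵥ ts i) • v0) = us i := by
      rw [mulVec_sub, mulVec_smul, βv0, smul_zero, sub_zero, hβt]
    simp only [hts']
    rw [mulVec_sub, mulVec_smul, bav0, bmul, h2, h3, zero_smul, add_zero, add_sub_cancel_left]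
  have hli : LinearIndependent F (fun j : Option (Fin q) => Option.elim j v us) := by
    rw [linearIndependent_option]
    refine ⟨hus, ?_⟩
    intro hmem
    have h2 : ∀ x ∈ Submodule.span F (Set.range us), x ⬝ᵥ v0 = 0 := by
      intro x hx
      induction hx using Submodule.span_induction with
      | mem x hx =>
        obtain ⟨i, rfl⟩ := hx
        exact usv0 i
      | zero => exact zero_dotProduct _
      | add x y _ _ hx hy => rw [add_dotProduct, hx, hy, add_zero]
      | smul c x _ hx => rw [smul_dotProduct, hx, smul_zero]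
    have h3 := h2 v hmem
    rw [vv0] at h3
    exact one_ne_zero h3
  have hcard : ∑ j : Option (Fin q), ((Option.elim j (m - 1) fun _ => m - 2) + 1) ≤ n := by
    apply chain_card (a := a) (y := fun j : Option (Fin q) => Option.elim j v0 ts')
      (l := fun j => Option.elim j (m - 1) fun _ => m - 2)
    · intro j
      cases j with
      | none =>
        simp only [Option.elim_none]
        rw [show m - 1 + 1 = m by omega, h0, zero_mulVec]
      | some i =>
        simp only [Option.elim_some]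
        rw [pow_succ', ← mulVec_mulVec, bts, aus]
    · have : (fun j : Option (Fin q) => a ^ (Option.elim j (m - 1) fun _ => m - 2) *ᵥ
          (Option.elim j v0 ts')) = fun j : Option (Fin q) => Option.elim j v us := by
        funext j
        cases j with
        | none => exact ev0
        | some i => exact bts i
      rw [this]
      exact hli
  rw [Fintype.sum_option] at hcard
  simp only [Option.elim_none, Option.elim_some, Finset.sum_const, Finset.card_univ,
    Fintype.card_fin, smul_eq_mul] at hcard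
  have hq1 : q = 1 := by
    rcases Nat.lt_or_ge q 1 with h2 | h2
    · exfalso
      have : q = 0 := by omega
      subst this
      apply hβ0
      rw [hβd, Finset.univ_eq_empty, Finset.sum_empty]
    · by_contra h3
      have h4 : 2 ≤ q := by omega
      have h5 : 2 * (m - 2 + 1) ≤ q * (m - 2 + 1) := Nat.mul_le_mul_right _ h4
      omega
  subst hq1
  rw [Fin.sum_univ_one] at hβd
  have hn' : n = 2 * m - 1 := by omega
  set u := us 0 with hu
  set u0 := ts' 0 with hu0
  have au : a *ᵥ u = 0 := aus 0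
  have uv0 : u ⬝ᵥ v0 = 0 := usv0 0
  have v0u : v0 ⬝ᵥ u = 0 := by rw [dotProduct_comm, uv0]
  have u0v : u0 ⬝ᵥ v = 0 := by
    rw [hu0, hts', dotProduct_comm, dotProduct_sub, dotProduct_smul, dotProduct_sub,
      dotProduct_smul, vv0, av0 v av, smul_zero, smul_eq_mul, mul_one, sub_self, sub_zero]
  have u0u : u0 ⬝ᵥ u = 1 := by
    rw [hu0, hts', dotProduct_comm, dotProduct_sub, dotProduct_smul, dotProduct_sub,
      dotProduct_smul, uv0, av0 u au, smul_zero, smul_zero, sub_zero, sub_zero,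
      dotProduct_comm, hts, if_pos rfl]
  have bu0 : a ^ (m - 2) *ᵥ u0 = u := bts 0
  -- the kernel
  have hli2 : LinearIndependent F ![v, u] := by
    rw [LinearIndependent.pair_iff]
    intro s t hst
    have h2 := congrArg (fun x => x ⬝ᵥ v0) hst
    simp only [add_dotProduct, smul_dotProduct, vv0, uv0, mul_zero, add_zero, zero_dotProduct,
      smul_eq_mul, mul_one] at h2
    have h3 := congrArg (fun x => x ⬝ᵥ u0) hst
    simp only [add_dotProduct, smul_dotProduct, zero_dotProduct, dotProduct_comm v u0,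
      dotProduct_comm u u0, u0v, u0u, smul_eq_mul, mul_one, mul_zero, zero_add] at h3
    exact ⟨h2, h3⟩
  have hker : ∀ k, a *ᵥ k = 0 → k = (v0 ⬝ᵥ k) • v + (u0 ⬝ᵥ k) • u := by
    intro k hk
    have hmem : k ∈ Submodule.span F (Set.range ![v, u]) := by
      by_contra hmem
      have h3 : LinearIndependent F (Fin.cons k ![v, u] : Fin 3 → (Fin n → F)) :=
        linearIndependent_finCons.mpr ⟨hli2, hmem⟩
      have h4 : ∑ j : Fin 3, ((![0, m - 1, m - 2] : Fin 3 → ℕ) j + 1) ≤ n := by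
        apply chain_card (a := a) (y := ![k, v0, u0]) (l := ![0, m - 1, m - 2])
        · intro j
          fin_cases j
          · change a ^ (0 + 1) *ᵥ k = 0
            rw [zero_add, pow_one, hk]
          · change a ^ (m - 1 + 1) *ᵥ v0 = 0
            rw [show m - 1 + 1 = m by omega, h0, zero_mulVec]
          · change a ^ (m - 2 + 1) *ᵥ u0 = 0
            rw [pow_succ', ← mulVec_mulVec, bu0, au]
        · have : (fun j : Fin 3 => a ^ ((![0, m - 1, m - 2] : Fin 3 → ℕ) j) *ᵥ
              (![k, v0, u0] : Fin 3 → (Fin n → F)) j) = Fin.cons k ![v, u] := by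
            funext j
            fin_cases j
            · change a ^ 0 *ᵥ k = k
              rw [pow_zero, one_mulVec]
            · exact ev0
            · exact bu0
          rw [this]
          exact h3
      rw [Fin.sum_univ_three] at h4
      change (0 + 1) + (m - 1 + 1) + (m - 2 + 1) ≤ n at h4
      omega
    rw [Matrix.range_cons, Matrix.range_cons, Matrix.range_empty, Set.union_empty,
      Set.singleton_union, Submodule.mem_span_pair] at hmem
    obtain ⟨s, t, rfl⟩ := hmem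
    rw [dotProduct_add, dotProduct_add, dotProduct_smul, dotProduct_smul, dotProduct_smul,
      dotProduct_smul, v0v, v0u, u0v, u0u]
    simp
  have hrg : ∀ y : Fin n → F, v ⬝ᵥ y = 0 → u ⬝ᵥ y = 0 → ∃ t, y = a *ᵥ t := by
    intro y h2 h3
    apply mem_range_of_orth ha
    intro k hk
    rw [hker k hk, add_dotProduct, smul_dotProduct, smul_dotProduct, h2, h3, smul_zero, smul_zero,
      add_zero]
  -- the third power
  set v2' := a ^ (m - 3) *ᵥ v0 - (c / 2) • v1 with hv2'
  set u1' := a ^ (m - 3) *ᵥ u0 with hu1'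
  have av2' : a *ᵥ v2' = v1 := by
    rw [hv2', mulVec_sub, mulVec_smul, mulVec_mulVec, hab3, av1]
  have au1' : a *ᵥ u1' = u := by rw [hu1', mulVec_mulVec, hab3, bu0]
  set γ := a ^ (m - 3) - (vecMulVec v v2' + vecMulVec v2' v + vecMulVec v1 v1 + vecMulVec u u1' +
    vecMulVec u1' u) with hγ
  have γtr : γᵀ = γ := by
    rw [hγ, transpose_sub, pow_tr ha]
    simp only [transpose_add, transpose_vecMulVec]
    abel
  have aγ : a * γ = 0 := by
    rw [hγ, Matrix.mul_sub, Matrix.mul_add, Matrix.mul_add, Matrix.mul_add, Matrix.mul_add, hab3,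
      mul_vecMulVec, mul_vecMulVec, mul_vecMulVec, mul_vecMulVec, mul_vecMulVec, av, av1, au,
      av2', au1', zero_vecMulVec, zero_vecMulVec, hb, hβd]
    abel
  have γk : ∀ y, γ *ᵥ y = ((γ *ᵥ v0) ⬝ᵥ y) • v + ((γ *ᵥ u0) ⬝ᵥ y) • u := by
    intro y
    have h2 := hker (γ *ᵥ y) (by rw [mulVec_mulVec, aγ, zero_mulVec])
    rw [h2]
    rw [dot_symm γtr, dot_symm γtr, ← h2]
  set p := v0 ⬝ᵥ (γ *ᵥ v0) with hp
  set q := u0 ⬝ᵥ (γ *ᵥ v0) with hq
  set s := u0 ⬝ᵥ (γ *ᵥ u0) with hs
  have γv0 : γ *ᵥ v0 = p • v + q • u := by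
    rw [hker (γ *ᵥ v0) (by rw [mulVec_mulVec, aγ, zero_mulVec])]
  have γu0 : γ *ᵥ u0 = q • v + s • u := by
    rw [hker (γ *ᵥ u0) (by rw [mulVec_mulVec, aγ, zero_mulVec]), dot_symm' γtr v0 u0]
  have hγe : γ = vecMulVec v (p • v + q • u) + vecMulVec u (q • v + s • u) := by
    apply HB.ext_mulVec
    intro y
    rw [γk y, add_mulVec, vmv_mulVec, vmv_mulVec, γv0, γu0]
  refine ⟨v, v1, v2' + (p / 2) • v + q • u, u, u1' + (s / 2) • u, v0, u0, ?_⟩
  refine ⟨hm, ha, h0, hd, ?_, ?_, av, au, av1, ?_, v0v, v0u, u0v, u0u, hrg⟩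
  · rw [hb, hβd]
  · have h2 : a ^ (m - 3) = (vecMulVec v v2' + vecMulVec v2' v + vecMulVec v1 v1 +
        vecMulVec u u1' + vecMulVec u1' u) + γ := by rw [hγ]; abel
    rw [h2, hγe]
    apply HB.ext_mulVec
    intro y
    simp only [add_mulVec, vmv_mulVec, add_dotProduct, smul_dotProduct, smul_eq_mul]
    module
  · rw [mulVec_add, mulVec_smul, au, smul_zero, add_zero, au1']

end StructB

end Pool.Agent.MP_f4742e_al
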