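import Pool.Agent.Lib.MP_f4742e_al.HTrans
import Pool.Agent.Lib.MP_f4742e_al.HBB
import Pool.Agent.Lib.MP_f4742e_al.HQE
import Pool.Agent.Lib.MP_f4742e_al.HA5
import Pool.Agent.Lib.MP_f4742e_al.HStructA
import Pool.Agent.Lib.MP_f4742e_al.HStructB
import Pool.Agent.Lib.MP_f4742e_al.HLower
import Pool.Agent.Lib.MP_f4742e_al.Upper
import Pool.Agent.Lib.MP_f4742e_al.HTheta
import Pool.Agent.Lib.MP_f4742e_al.HGamma
import Pool.Agent.Lib.MP_f4742e_al.H76H3
import Pool.Agent.Lib.MP_f4742e_al.H67Index2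

/-!
The RB-index of `H_n(F)`.
-/

set_option autoImplicit false

namespace Pool.Agent.MP_f4742e_al

open Matrix

section

variable {F : Type*} [Field F] [CharZero F] {n : ℕ}
  {R : Matrix (Fin n) (Fin n) F →ₗ[F] Matrix (Fin n) (Fin n) F} (hR : SRB R)

include hR

/-- Large nilpotency index is impossible. -/
theorem big_false [IsAlgClosed F] {m : ℕ} (hm : 3 ≤ m) (hn : n ≤ 2 * m - 1) (h0 : (R 1) ^ m = 0)
    (h1 : (R 1) ^ (m - 1) ≠ 0) : False := by
  rcases structB (hR.tr 1) hm hn h0 h1 with ⟨v, v1, hv, he, hb, -, -⟩ | ⟨v, v1, v2, u, u1, v0, u0, D⟩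
  · exact b0_false hR hm h0 hv he hb
  · exact bb_false hR D

/-- The critical case. -/
theorem mid_zero [IsAlgClosed F] {m : ℕ} (hm : 3 ≤ m) (hn : n ≤ 2 * m + 1) (h0 : (R 1) ^ m = 0)
    (h1 : (R 1) ^ (m - 1) ≠ 0) : R ^ (2 * m - 1) = 0 := by
  rcases structA (hR.tr 1) hm hn h0 h1 with ⟨v, hv, he⟩ | ⟨v, w, v1, w1, v0, w0, D⟩
  · exact mu1 hR (by omega) h0 hv he
  · obtain ⟨h2, h3⟩ := theta_zero hR D
    rcases gamma_form hR D h2 h3 with ⟨ν, hν, h4⟩ | ⟨ν, hν, h4⟩
    · exact a5_of hR (fun x => qE hR D x) D h2 h3 hν h4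
    · refine a5_of hR (fun x => qE hR D.swap x) D.swap h3 h2 hν ?_
      intro x hx
      rw [dot_symm' hx w v]
      exact h4 x hx

/-- The upper bound, `n ≥ 4`. -/
theorem upper_ge4 [IsAlgClosed F] (hn : 4 ≤ n) : R ^ (2 * (n / 2) - 1) = 0 := by
  have : Nonempty (Fin n) := ⟨⟨0, by omega⟩⟩
  obtain ⟨m, hm0, h0, h1⟩ := exists_index hR.rb.nilpotent_one one_ne_zero
  rcases lt_trichotomy m (n / 2) with h | h | h
  · exact pow_zero_of_le hR.rb h0 (by omega)
  · rcases Nat.lt_or_ge m 3 with h3 | h3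
    · have h4 : m = 2 := by omega
      have h5 : 2 * (n / 2) - 1 = 3 := by omega
      rw [h5]
      rw [h4] at h0
      obtain rfl | rfl : n = 4 ∨ n = 5 := by omega
      · exact index_two_four hR h0
      · exact index_two_five hR h0
    · have h2 := mid_zero hR h3 (by omega) h0 h1
      rw [← h]
      exact h2
  · exact (big_false hR (by omega) (by omega) h0 h1).elim

end

/-- The upper bound, `n = 3`. -/
theorem upper_3 {F : Type*} [Field F] [CharZero F] [IsAlgClosed F]
    {R : Matrix (Fin 3) (Fin 3) F →ₗ[F] Matrix (Fin 3) (Fin 3) F} (hR : SRB R) : R ^ 2 = 0 := by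
  obtain ⟨m, hm0, h0, h1⟩ := exists_index hR.rb.nilpotent_one one_ne_zero
  rcases Nat.lt_or_ge m 3 with h3 | h3
  · rcases Nat.eq_or_lt_of_le hm0 with h4 | h4
    · rw [← h4] at h0
      exact pow_zero_of_le hR.rb h0 (by omega)
    · have h5 : m = 2 := by omega
      rw [h5] at h0
      exact H3_upper hR h0
  · exact (big_false hR h3 (by omega) h0 h1).elim

/-- `rb(H_n(F))` for `n ≥ 4`. -/
theorem rb_HSym_ge4 {F : Type*} [Field F] [CharZero F] {i : F} (hi : i * i = -1) {n : ℕ}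
    (hn : 4 ≤ n) : HasRBIndex F (HSym n F) (2 * (n / 2) - 1) := by
  constructor
  · intro R hR
    obtain ⟨S, hS, hSR⟩ := toSRB R hR
    apply hSR
    have : CharZero (AlgebraicClosure F) :=
      charZero_of_injective_algebraMap (algebraMap F (AlgebraicClosure F)).injective
    exact baseR_pow_zero (K := AlgebraicClosure F) (upper_ge4 (baseR_SRB hS) hn)
  · intro N hN
    by_contra hcon
    obtain ⟨S, hS, x, hx, hne⟩ := lower_HSym hi (n / 2) (by omega) n (by omega)
    obtain ⟨R, hR, hRS⟩ := ofSRB hS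
    apply hne
    apply hRS _ _ hx
    exact pow_eq_zero_of_le (by omega) (hN R hR)

/-- `rb(H_3(F))`. -/
theorem rb_HSym_3 {F : Type*} [Field F] [CharZero F] {i : F} (hi : i * i = -1) :
    HasRBIndex F (HSym 3 F) 2 := by
  constructor
  · intro R hR
    obtain ⟨S, hS, hSR⟩ := toSRB R hR
    apply hSR
    have : CharZero (AlgebraicClosure F) :=
      charZero_of_injective_algebraMap (algebraMap F (AlgebraicClosure F)).injective
    exact baseR_pow_zero (K := AlgebraicClosure F) (upper_3 (baseR_SRB hS))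
  · intro N hN
    by_contra hcon
    obtain ⟨S, hS, hne⟩ := lower_H3 hi
    obtain ⟨R, hR, hRS⟩ := ofSRB hS
    have h1 : R ^ 1 = 0 := pow_eq_zero_of_le (by omega) (hN R hR)
    apply hne
    apply LinearMap.ext
    intro x
    have h2 := hRS 1 (x + xᵀ) (by rw [transpose_add, transpose_transpose, add_comm]) h1
    rw [pow_one, map_add, hS.ti, ← two_smul F] at h2
    rw [LinearMap.zero_apply]
    exact (smul_eq_zero.1 h2).resolve_left two_ne_zero

end Pool.Agent.MP_f4742e_al
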