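import Pool.Agent.Lib.MP_f4742e_al.HBase
import Pool.Agent.Lib.MP_f4742e_al.Transfer

/-!
Transfer between `H_n(F)` and symmetric-valued operators on matrices.
-/

set_option autoImplicit false

namespace Pool.Agent.MP_f4742e_al

open Matrix SymAlg

section

variable {F : Type*} [Field F] [CharZero F] {n : ℕ}

/-- The projection of matrices onto symmetric matrices. -/
noncomputable def symProj (n : ℕ) (F : Type*) [Field F] [CharZero F] :
    Matrix (Fin n) (Fin n) F →ₗ[F] HSym n F where
  toFun x := ⟨sym ((2⁻¹ : F) • (x + xᵀ)), by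
    change (unsym (sym ((2⁻¹ : F) • (x + xᵀ))))ᵀ = unsym (sym ((2⁻¹ : F) • (x + xᵀ)))
    rw [unsym_sym, transpose_smul, transpose_add, transpose_transpose, add_comm]⟩
  map_add' := by
    intro x y
    apply Subtype.ext
    apply unsym_injective
    change (2⁻¹ : F) • (x + y + (x + y)ᵀ) = (2⁻¹ : F) • (x + xᵀ) + (2⁻¹ : F) • (y + yᵀ)
    rw [transpose_add, ← smul_add]
    congr 1
    abel
  map_smul' := by
    intro c x
    apply Subtype.ext
    apply unsym_injective
    change (2⁻¹ : F) • (c • x + (c • x)ᵀ) = c • ((2⁻¹ : F) • (x + xᵀ))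
    rw [transpose_smul, ← smul_add, smul_comm]

theorem symProj_val (x : Matrix (Fin n) (Fin n) F) :
    unsym (symProj n F x).1 = (2⁻¹ : F) • (x + xᵀ) := rfl

theorem HSym_tr (u : HSym n F) : (unsym u.1)ᵀ = unsym u.1 := u.2

theorem symProj_sym (u : HSym n F) : symProj n F (unsym u.1) = u := by
  apply Subtype.ext
  apply unsym_injective
  rw [symProj_val, HSym_tr, ← two_smul F, smul_smul, inv_mul_cancel₀ two_ne_zero, one_smul]

theorem symProj_tr (x : Matrix (Fin n) (Fin n) F) : symProj n F xᵀ = symProj n F x := by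
  apply Subtype.ext
  apply unsym_injective
  rw [symProj_val, symProj_val, transpose_transpose, add_comm]

theorem symProj_mul (u : HSym n F) (y : Matrix (Fin n) (Fin n) F) :
    symProj n F ((2⁻¹ : F) • (unsym u.1 * y + y * unsym u.1)) = u * symProj n F y := by
  apply Subtype.ext
  apply unsym_injective
  change _ = unsym (u.1 * (symProj n F y).1)
  rw [unsym_mul_eq, symProj_val, symProj_val]
  have h1 := HSym_tr u
  rw [transpose_smul, transpose_add, transpose_mul, transpose_mul, h1, ← smul_add]
  congr 1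
  rw [Matrix.mul_smul, Matrix.smul_mul, Matrix.mul_add, Matrix.add_mul, ← smul_add]
  congr 1
  abel

/-- From `H_n(F)` to matrices. -/
theorem toSRB (R : HSym n F →ₗ[F] HSym n F) (hR : IsRotaBaxter R) :
    ∃ S : Matrix (Fin n) (Fin n) F →ₗ[F] Matrix (Fin n) (Fin n) F, SRB S ∧
      ∀ N : ℕ, S ^ N = 0 → R ^ N = 0 := by
  have hcomm : ∀ u v : HSym n F, u * v = v * u := by
    intro u v
    apply Subtype.ext
    exact SymAlg.mul_comm _ _
  refine ⟨symL.symm.toLinearMap ∘ₗ (HSym n F).toSubmodule.subtype ∘ₗ R ∘ₗ symProj n F,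
    ⟨?_, ?_, ?_⟩, ?_⟩
  · intro x y
    change jp (unsym (R (symProj n F x)).1) (unsym (R (symProj n F y)).1) =
      unsym (R (symProj n F (jp (unsym (R (symProj n F x)).1) y +
        jp x (unsym (R (symProj n F y)).1)))).1
    have h3 : ∀ (u : HSym n F) (y : Matrix (Fin n) (Fin n) F),
        symProj n F (jp (unsym u.1) y) = (2 : F) • (u * symProj n F y) := by
      intro u y
      rw [← symProj_mul, ← map_smul, smul_smul, mul_inv_cancel₀ two_ne_zero, one_smul]
      rfl
    have h4 : jp x (unsym (R (symProj n F y)).1) = jp (unsym (R (symProj n F y)).1) x :=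
      jp_comm _ _
    rw [map_add (symProj n F), h4, h3, h3, hcomm (R (symProj n F y)) (symProj n F x), ← smul_add,
      map_smul, ← hR]
    change _ = (2 : F) • unsym ((R (symProj n F x)).1 * (R (symProj n F y)).1)
    rw [unsym_mul_eq, smul_smul, mul_inv_cancel₀ two_ne_zero, one_smul]
    rfl
  · intro x
    exact HSym_tr _
  · intro x
    change unsym (R (symProj n F xᵀ)).1 = unsym (R (symProj n F x)).1
    rw [symProj_tr]
  · intro N hN
    have h3 : ∀ (N : ℕ) (u : HSym n F),
        ((symL.symm.toLinearMap ∘ₗ (HSym n F).toSubmodule.subtype ∘ₗ R ∘ₗ symProj n F :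
        Matrix (Fin n) (Fin n) F →ₗ[F] Matrix (Fin n) (Fin n) F) ^ N) (unsym u.1) =
          unsym ((R ^ N) u).1 := by
      intro N u
      induction N with
      | zero => rfl
      | succ N ih =>
        rw [pow_succ', Module.End.mul_apply, ih, pow_succ', Module.End.mul_apply]
        change unsym (R (symProj n F (unsym ((R ^ N) u).1))).1 = _
        rw [symProj_sym]
    apply LinearMap.ext
    intro u
    have h4 := h3 N u
    rw [hN, LinearMap.zero_apply] at h4
    apply Subtype.ext
    rw [LinearMap.zero_apply]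
    exact h4.symm

/-- From matrices to `H_n(F)`. -/
theorem ofSRB {S : Matrix (Fin n) (Fin n) F →ₗ[F] Matrix (Fin n) (Fin n) F} (hS : SRB S) :
    ∃ R : HSym n F →ₗ[F] HSym n F, IsRotaBaxter R ∧
      ∀ (N : ℕ) (x : Matrix (Fin n) (Fin n) F), xᵀ = x → R ^ N = 0 → (S ^ N) x = 0 := by
  have key : ∀ u : HSym n F, unsym (symProj n F (S (unsym u.1))).1 = S (unsym u.1) := by
    intro u
    rw [symProj_val, hS.tr, ← two_smul F, smul_smul, inv_mul_cancel₀ two_ne_zero, one_smul]
  refine ⟨symProj n F ∘ₗ S ∘ₗ symL.symm.toLinearMap ∘ₗ (HSym n F).toSubmodule.subtype, ?_, ?_⟩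
  · intro u v
    apply Subtype.ext
    apply unsym_injective
    change unsym ((symProj n F (S (unsym u.1))).1 * (symProj n F (S (unsym v.1))).1) =
      unsym (symProj n F (S (unsym ((symProj n F (S (unsym u.1))).1 * v.1 +
        u.1 * (symProj n F (S (unsym v.1))).1)))).1
    have h1 := key ((symProj n F (S (unsym u.1))) * v + u * (symProj n F (S (unsym v.1))))
    change unsym (symProj n F (S (unsym ((symProj n F (S (unsym u.1))).1 * v.1 +
        u.1 * (symProj n F (S (unsym v.1))).1)))).1 =
        S (unsym ((symProj n F (S (unsym u.1))).1 * v.1 +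
          u.1 * (symProj n F (S (unsym v.1))).1)) at h1
    rw [h1, unsym_add, unsym_mul_eq, unsym_mul_eq, unsym_mul_eq, key, key, ← smul_add, map_smul]
    congr 1
    exact hS.rb _ _
  · intro N x hx hN
    have h3 : ∀ (N : ℕ) (u : HSym n F), unsym (((symProj n F ∘ₗ S ∘ₗ symL.symm.toLinearMap ∘ₗ
        (HSym n F).toSubmodule.subtype : HSym n F →ₗ[F] HSym n F) ^ N) u).1 =
          (S ^ N) (unsym u.1) := by
      intro N u
      induction N with
      | zero => rfl
      | succ N ih =>
        rw [pow_succ', Module.End.mul_apply, pow_succ', Module.End.mul_apply, ← ih]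
        exact key _
    have h4 := h3 N ⟨sym x, hx⟩
    rw [hN] at h4
    exact h4.symm

end

end Pool.Agent.MP_f4742e_al
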