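import Mathlib

/-!
A Lefschetz property for `F[X,Y]/(X^k,Y^k)` and the invariance of the associated filtration.
-/

set_option autoImplicit false

namespace Pool.Agent.MP_f4742e_al

open Polynomial

section

variable {F : Type*} [Field F] [CharZero F]

/-- The polynomial form of the Lefschetz property. -/
theorem lef_poly (p s : ℕ) (f : F[X]) (hf : f.natDegree ≤ s)
    (h : ∀ i, p ≤ i → i ≤ p + s → ((X - 1) ^ (2 * p) * f).coeff i = 0) : f = 0 := by
  obtain ⟨g, hg⟩ : ∃ g, g = (X - 1) ^ (2 * p) * f := ⟨_, rfl⟩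
  rw [← hg] at h
  have hgdeg : g.natDegree ≤ 2 * p + s := by
    rw [hg]
    refine natDegree_mul_le.trans ?_
    have h1 : ((X - 1 : F[X]) ^ (2 * p)).natDegree ≤ 2 * p := by
      refine natDegree_pow_le.trans ?_
      have h2 : (X - 1 : F[X]).natDegree ≤ 1 := by
        rw [← C_1]
        exact natDegree_X_sub_C_le 1
      calc 2 * p * (X - 1 : F[X]).natDegree ≤ 2 * p * 1 := Nat.mul_le_mul_left _ h2
        _ = 2 * p := mul_one _
    omega
  obtain ⟨G, hG⟩ : ∃ G, G = derivative^[p] g := ⟨_, rfl⟩
  have hGdeg : G.natDegree ≤ p + s := by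
    rw [hG]
    refine (natDegree_iterate_derivative g p).trans ?_
    omega
  have hGcoeff : ∀ i, G.coeff i = ((i + p).descFactorial p : F) * g.coeff (i + p) := by
    intro i
    rw [hG, coeff_iterate_derivative, nsmul_eq_mul]
  have hd1 : (X - 1 : F[X]) ^ p ∣ G := by
    have h1 : (X - 1 : F[X]) ^ (2 * p) ∣ g := by
      rw [hg]
      exact dvd_mul_right _ _
    have h2 := pow_sub_dvd_iterate_derivative_of_pow_dvd p h1
    have h3 : 2 * p - p = p := by omega
    rw [h3] at h2
    rw [hG]
    exact h2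
  have hd2 : (X : F[X]) ^ (s + 1) ∣ G := by
    rw [X_pow_dvd_iff]
    intro i hi
    rw [hGcoeff, h (i + p) (by omega) (by omega), mul_zero]
  have hcop : IsCoprime ((X - 1 : F[X]) ^ p) ((X : F[X]) ^ (s + 1)) := by
    apply IsCoprime.pow
    exact ⟨-1, 1, by ring⟩
  have hd3 : (X - 1 : F[X]) ^ p * (X : F[X]) ^ (s + 1) ∣ G := hcop.mul_dvd hd1 hd2
  have hX1 : (X - 1 : F[X]) = X - C 1 := by rw [C_1]
  have hG0 : G = 0 := by
    by_contra hne
    have h1 := natDegree_le_of_dvd hd3 hne
    rw [hX1, ((monic_X_sub_C (1 : F)).pow p).natDegree_mul (monic_X_pow (s + 1)),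
      natDegree_pow, natDegree_X_sub_C, natDegree_X_pow] at h1
    omega
  have hgcoeff : ∀ i, p ≤ i → g.coeff i = 0 := by
    intro i hi
    have h1 := hGcoeff (i - p)
    have h2 : i - p + p = i := by omega
    rw [hG0, coeff_zero, h2] at h1
    have h3 : ((i.descFactorial p : ℕ) : F) ≠ 0 := by
      rw [Nat.cast_ne_zero, Ne, Nat.descFactorial_eq_zero_iff_lt]
      omega
    exact (mul_eq_zero.1 h1.symm).resolve_left h3
  have hX2 : ((X - 1 : F[X]) ^ (2 * p)) ≠ 0 := by
    rw [hX1]
    exact pow_ne_zero _ (X_sub_C_ne_zero 1)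
  by_contra hne
  have h4 : g ≠ 0 := by
    rw [hg]
    exact mul_ne_zero hX2 hne
  have h5 : g.natDegree < p := by
    by_contra hcon
    have h6 := hgcoeff g.natDegree (by omega)
    rw [coeff_natDegree, leadingCoeff_eq_zero] at h6
    exact h4 h6
  have h6 : 2 * p ≤ g.natDegree := by
    rw [hg, natDegree_mul hX2 hne, hX1, natDegree_pow, natDegree_X_sub_C]
    omega
  omega

end

section

variable {F V : Type*} [Field F] [AddCommGroup V] [Module F V]

/-- The homogenization of a polynomial in two commuting endomorphisms. -/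
noncomputable def Th (l r : Module.End F V) (m : ℕ) (f : F[X]) : Module.End F V :=
  ∑ q ∈ Finset.HasAntidiagonal.antidiagonal m, f.coeff q.1 • (l ^ q.1 * r ^ q.2)

variable {l r : Module.End F V}

theorem Th_succ (hlr : Commute l r) (m : ℕ) (f : F[X]) (hf : f.natDegree ≤ m) :
    (l - r) * Th l r m f = Th l r (m + 1) ((X - 1) * f) := by
  have h0 : (X - 1) * f = X * f - f := by ring
  have h1 : Th l r (m + 1) (X * f) = l * Th l r m f := by
    unfold Th
    rw [Finset.Nat.sum_antidiagonal_succ, Finset.mul_sum]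
    simp only [coeff_X_mul_zero, coeff_X_mul, zero_smul, zero_add]
    apply Finset.sum_congr rfl
    intro q _
    rw [mul_smul_comm, ← mul_assoc, ← pow_succ']
  have h2 : Th l r (m + 1) f = r * Th l r m f := by
    unfold Th
    rw [Finset.Nat.sum_antidiagonal_succ', Finset.mul_sum]
    simp only
    rw [coeff_eq_zero_of_natDegree_lt (by omega : f.natDegree < m + 1), zero_smul, zero_add]
    apply Finset.sum_congr rfl
    intro q _
    rw [mul_smul_comm, ← mul_assoc, ← (hlr.pow_left q.1).eq, mul_assoc, ← pow_succ']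
  have h3 : Th l r (m + 1) (X * f - f) = Th l r (m + 1) (X * f) - Th l r (m + 1) f := by
    unfold Th
    rw [← Finset.sum_sub_distrib]
    apply Finset.sum_congr rfl
    intro q _
    rw [coeff_sub, sub_smul]
  rw [h0, h3, h1, h2, sub_mul]

theorem Th_pow (hlr : Commute l r) (m c : ℕ) (f : F[X]) (hf : f.natDegree ≤ m) :
    (l - r) ^ c * Th l r m f = Th l r (m + c) ((X - 1) ^ c * f) := by
  induction c with
  | zero => rw [pow_zero, pow_zero, one_mul, one_mul, add_zero]
  | succ c ih =>
    have h1 : ((X - 1 : F[X]) ^ c * f).natDegree ≤ m + c := by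
      refine natDegree_mul_le.trans ?_
      have h1 : ((X - 1 : F[X]) ^ c).natDegree ≤ c := by
        refine natDegree_pow_le.trans ?_
        have h2 : (X - 1 : F[X]).natDegree ≤ 1 := by
          rw [← C_1]
          exact natDegree_X_sub_C_le 1
        calc c * (X - 1 : F[X]).natDegree ≤ c * 1 := Nat.mul_le_mul_left _ h2
          _ = c := mul_one _
      omega
    rw [pow_succ', mul_assoc, ih, Th_succ hlr _ _ h1, pow_succ', mul_assoc, add_assoc]

end

end Pool.Agent.MP_f4742e_al
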