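import Pool.Agent.Lib.MP_f4742e_al.AnisDefs
import Pool.Agent.Lib.MP_f4742e_al.DLower

/-!
Lower bound for `H(A, σ)` from an idempotent `f` orthogonal to `σ f`.
-/

set_option autoImplicit false

namespace Pool.Agent.MP_f4742e_al

open SymAlg

section

variable {F A : Type*} [Field F] [CharZero F] [Ring A] [Algebra F A] {σ : A →ₗ[F] A}

/-- An idempotent `f` with `σ(f) f = 0` can be corrected such that `f σ(f) = 0` holds too. -/
theorem correct_idem (hσ : IsInvolution σ) {f : A} (hf : f * f = f) (h : σ f * f = 0) :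
    ∃ g : A, g * g = g ∧ g * σ g = 0 ∧ σ g * g = 0 ∧ f * g = g ∧ g * f = f := by
  have h1 : σ (f * σ f) = f * σ f := by rw [hσ.anti, hσ.invol]
  have h2 : ∀ x, σ f * (f * x) = 0 := fun x => by rw [← mul_assoc, h, zero_mul]
  have h3 : ∀ x, f * (f * x) = f * x := fun x => by rw [← mul_assoc, hf]
  have h4 : σ f * σ f = σ f := by rw [← hσ.anti, hf]
  have h5 : ((2 : F)⁻¹ + (2 : F)⁻¹) = 1 := by
    rw [← two_mul, mul_inv_cancel₀ two_ne_zero]
  refine ⟨f - (2 : F)⁻¹ • (f * σ f), ?_, ?_, ?_, ?_, ?_⟩
  · simp only [sub_mul, mul_sub, smul_mul_assoc, mul_smul_comm, mul_assoc, hf, h, h2, h3, h4,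
      mul_zero, smul_zero, sub_zero]
  · rw [map_sub, map_smul, h1]
    simp only [sub_mul, mul_sub, smul_mul_assoc, mul_smul_comm, mul_assoc, hf, h, h2, h3, h4,
      mul_zero, smul_zero, sub_zero]
    rw [sub_sub, ← add_smul, h5, one_smul, sub_self]
  · rw [map_sub, map_smul, h1]
    simp only [sub_mul, mul_sub, smul_mul_assoc, mul_smul_comm, mul_assoc, hf, h, h2, h3, h4,
      mul_zero, smul_zero, sub_zero]
  · rw [mul_sub, mul_smul_comm, h3, hf]
  · rw [sub_mul, smul_mul_assoc, mul_assoc, h, mul_zero, smul_zero, sub_zero, hf]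

variable [Invertible (2 : A)] (hσ : IsInvolution σ)

/-- Transport of an associative Rota-Baxter operator on `M ≅ f A f` to `H(A, σ)`. -/
theorem lower_transport {M : Type*} [Ring M] [Algebra F M] {f : A} (hf : f * f = f)
    (h1 : f * σ f = 0) (h2 : σ f * f = 0) (e : M →ₗ[F] A) (g : A →ₗ[F] M)
    (hmul : ∀ x y, e (x * y) = e x * e y) (hge : ∀ x, g (e x) = x)
    (heg : ∀ y, e (g y) = f * y * f) {S : M →ₗ[F] M}
    (hS : ∀ x y, S x * S y = S (S x * y + x * S y)) {N : ℕ} (hN : S ^ N ≠ 0) :
    ∃ R : HInv σ hσ →ₗ[F] HInv σ hσ, IsRotaBaxter R ∧ R ^ N ≠ 0 := by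
  have hef : ∀ x, f * e x * f = e x := fun x => by rw [← heg, hge]
  have hfe : ∀ x, f * e x = e x := fun x => by
    conv_lhs => rw [← hef x]
    rw [← mul_assoc, ← mul_assoc, hf, hef]
  have hef' : ∀ x, e x * f = e x := fun x => by
    conv_lhs => rw [← hef x]
    rw [mul_assoc, hf, hef]
  have hinj : ∀ x y, e x = e y → x = y := fun x y h => by rw [← hge x, h, hge]
  have hfs : ∀ x, f * σ (e x) = 0 := fun x => by
    rw [← hef' x, hσ.anti, ← mul_assoc, h1, zero_mul]
  have hsf : ∀ x, σ (e x) * f = 0 := fun x => by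
    rw [← hfe x, hσ.anti, mul_assoc, h2, mul_zero]
  have hes : ∀ x y, e x * σ (e y) = 0 := fun x y => by
    rw [← hef' x, mul_assoc, hfs, mul_zero]
  have hse : ∀ x y, σ (e x) * e y = 0 := fun x y => by
    rw [← hfe y, ← mul_assoc, hsf, zero_mul]
  have hsp : ∀ x, σ (e x + σ (e x)) = e x + σ (e x) := fun x => by
    rw [map_add, hσ.invol, add_comm]
  -- the embedding and the projection
  let i : M →ₗ[F] HInv σ hσ :=
    { toFun := fun x => mkH hσ (hsp x)
      map_add' := fun x y => by
        apply H_ext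
        change e (x + y) + σ (e (x + y)) = (e x + σ (e x)) + (e y + σ (e y))
        rw [map_add, map_add]
        abel
      map_smul' := fun c x => by
        apply H_ext
        change e (c • x) + σ (e (c • x)) = c • (e x + σ (e x))
        rw [map_smul, map_smul, smul_add] }
  have hi : ∀ x, unsym (i x).1 = e x + σ (e x) := fun _ => rfl
  let p : HInv σ hσ →ₗ[F] M :=
    { toFun := fun u => g (unsym u.1)
      map_add' := fun u w => by
        change g (unsym u.1 + unsym w.1) = _
        rw [map_add]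
      map_smul' := fun c u => by
        change g (c • unsym u.1) = _
        rw [map_smul]
        rfl }
  have hp : ∀ u, p u = g (unsym u.1) := fun _ => rfl
  have hep : ∀ u, e (p u) = f * unsym u.1 * f := fun u => heg _
  have hpi : ∀ x, p (i x) = x := by
    intro x
    apply hinj
    rw [hep, hi, mul_add, add_mul, hef, hfs, zero_mul, add_zero]
  have hii : ∀ x y, i x * i y + i x * i y = i (x * y + y * x) := by
    intro x y
    apply H_ext
    change unsym (i x * i y).1 + unsym (i x * i y).1 = _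
    rw [H_mul, hi, hi, hi, map_add, map_add, hmul, hmul, hσ.anti, hσ.anti]
    unfold jp
    simp only [mul_add, add_mul, hes, hse, add_zero, zero_add]
    abel
  have hip : ∀ (x : M) (u : HInv σ hσ), p (i x * u + i x * u) = x * p u + p u * x := by
    intro x u
    apply hinj
    rw [hep]
    change f * (unsym (i x * u).1 + unsym (i x * u).1) * f = _
    rw [H_mul, hi, map_add, hmul, hmul, hep]
    unfold jp
    have hfs' : ∀ z, f * (σ (e x) * z) = 0 := fun z => by rw [← mul_assoc, hfs, zero_mul]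
    have hfe' : ∀ z, f * (e x * z) = e x * z := fun z => by rw [← mul_assoc, hfe]
    have hef2 : ∀ z, e x * (f * z) = e x * z := fun z => by rw [← mul_assoc, hef']
    simp only [mul_add, add_mul, mul_assoc, hfs', hfe', hsf, hfe, hef', hef2, mul_zero, zero_mul,
      add_zero, zero_add]
  have hcomm : ∀ u v : HInv σ hσ, u * v = v * u := by
    intro u v
    apply Subtype.ext
    exact SymAlg.mul_comm _ _
  refine ⟨i ∘ₗ S ∘ₗ p, ?_, ?_⟩
  · intro u w
    have h3 : ∀ a b : HInv σ hσ, a + a = b + b → a = b := by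
      intro a b hab
      rw [← two_smul F, ← two_smul F] at hab
      exact smul_right_injective _ (two_ne_zero (α := F)) hab
    apply h3
    simp only [LinearMap.comp_apply]
    rw [hii, ← map_add i, ← map_add S, ← map_add p]
    congr 1
    have h4 : (i (S (p u)) * w + u * i (S (p w)) + (i (S (p u)) * w + u * i (S (p w)))) =
        (i (S (p u)) * w + i (S (p u)) * w) + (i (S (p w)) * u + i (S (p w)) * u) := by
      rw [hcomm u (i (S (p w)))]
      abel
    rw [h4, map_add p, hip, hip, hS, hS (p w), ← map_add]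
    congr 1
    abel
  · intro h
    apply hN
    apply LinearMap.ext
    intro x
    have h3 : ∀ N : ℕ, ((i ∘ₗ S ∘ₗ p : HInv σ hσ →ₗ[F] HInv σ hσ) ^ N) (i x) =
        i ((S ^ N) x) := by
      intro N
      induction N with
      | zero => rfl
      | succ N ih =>
        rw [pow_succ', Module.End.mul_apply, ih, pow_succ', Module.End.mul_apply,
          LinearMap.comp_apply, LinearMap.comp_apply, hpi]
    have h4 := h3 N
    rw [h, LinearMap.zero_apply] at h4
    have h5 := congrArg p h4
    rw [map_zero, hpi] at h5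
    rw [← h5, LinearMap.zero_apply]

/-- The lower bound from a corner `f A f ≅ M_{l+1}(D)`, where `f` is orthogonal to `σ f`. -/
theorem lowerH {D : Type*} [Ring D] [Nontrivial D] [Algebra F D] {l : ℕ} {f : A}
    (hf : f * f = f) (h1 : f * σ f = 0) (h2 : σ f * f = 0)
    (e : Matrix (Fin (l + 1)) (Fin (l + 1)) D →ₗ[F] A)
    (g : A →ₗ[F] Matrix (Fin (l + 1)) (Fin (l + 1)) D)
    (hmul : ∀ x y, e (x * y) = e x * e y) (hge : ∀ x, g (e x) = x)
    (heg : ∀ y, e (g y) = f * y * f) :
    ∃ R : HInv σ hσ →ₗ[F] HInv σ hσ, IsRotaBaxter R ∧ R ^ (2 * l) ≠ 0 := by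
  obtain ⟨S, hS, hN⟩ := lowerD F D l
  exact lower_transport hσ hf h1 h2 e g hmul hge heg hS hN

end

end Pool.Agent.MP_f4742e_al
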