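import Pool.Agent.Lib.MP_f4742e_al.Basic

/-!
Nilpotency of Rota-Baxter operators of weight zero, and of the image of the unit.
-/

set_option autoImplicit false

namespace Pool.Agent.MP_f4742e_al

open Polynomial

section

variable {F B : Type*} [Field F] [CharZero F] [Ring B] [Algebra F B]

theorem comm_aeval {R H : B} {c : F} (h : H * R - R * H = c • R ^ 2) (p : F[X]) :
    H * aeval R p - aeval R p * H = c • aeval R (X ^ 2 * derivative p) := by
  have hpow : ∀ j : ℕ, H * R ^ j - R ^ j * H = c • ((j : F) • R ^ (j + 1)) := by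
    intro j
    induction j with
    | zero => simp
    | succ j ih =>
      have h1 : H * R ^ (j + 1) - R ^ (j + 1) * H =
          (H * R ^ j - R ^ j * H) * R + R ^ j * (H * R - R * H) := by
        rw [pow_succ]
        noncomm_ring
      rw [h1, ih, h, smul_mul_assoc, smul_mul_assoc, ← pow_succ, mul_smul_comm, ← pow_add,
        ← smul_add]
      congr 1
      push_cast
      rw [add_smul, one_smul]
  induction p using Polynomial.induction_on' with
  | add p q hp hq =>
    rw [map_add, derivative_add, mul_add, mul_add, map_add, smul_add, ← hp, ← hq, add_mul]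
    abel
  | monomial n a =>
    rw [aeval_monomial, derivative_monomial, mul_comm (X ^ 2) (monomial _ _), monomial_mul_X_pow,
      aeval_monomial]
    rcases Nat.eq_zero_or_pos n with rfl | hn
    · simp only [pow_zero, mul_one, CharP.cast_eq_zero, mul_zero, map_zero, zero_mul, smul_zero]
      rw [Algebra.commutes, sub_self]
    · have h2 : n - 1 + 2 = n + 1 := by omega
      rw [h2, ← Algebra.smul_def, ← Algebra.smul_def, mul_smul_comm, smul_mul_assoc, ← smul_sub,
        hpow, mul_smul, smul_comm]

/-- An integral element `R` with `[H, R] = c R²`, `c ≠ 0`, is nilpotent. -/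
theorem nil_of_rel {R H : B} (hR : IsIntegral F R) {c : F} (hc : c ≠ 0)
    (h : H * R - R * H = c • R ^ 2) : IsNilpotent R := by
  have hp0 : minpoly F R ≠ 0 := minpoly.ne_zero hR
  obtain ⟨q, hq, hnd⟩ := exists_eq_pow_rootMultiplicity_mul_and_not_dvd (minpoly F R) hp0 0
  rw [map_zero, sub_zero] at hq hnd
  obtain ⟨e, he⟩ : ∃ e, e = (minpoly F R).rootMultiplicity 0 := ⟨_, rfl⟩
  rw [← he] at hq
  have h1 := comm_aeval h (minpoly F R)
  rw [minpoly.aeval, mul_zero, zero_mul, sub_self] at h1
  have h2 : aeval R (X ^ 2 * derivative (minpoly F R)) = 0 := by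
    rcases smul_eq_zero.1 h1.symm with h3 | h3
    · exact absurd h3 hc
    · exact h3
  have h3 : q ∣ X ^ 2 * derivative (minpoly F R) :=
    (Dvd.intro_left _ hq.symm).trans (minpoly.dvd F R h2)
  rw [hq, derivative_mul, mul_add] at h3
  have h4 : q ∣ X ^ 2 * (derivative (X ^ e) * q) := by
    rw [← mul_assoc]
    exact Dvd.intro_left _ rfl
  have h5 : q ∣ X ^ (2 + e) * derivative q := by
    have h6 := (dvd_add_right h4).1 h3
    rwa [← mul_assoc, ← pow_add] at h6
  have hcop : IsCoprime q (X ^ (2 + e)) := by
    apply IsCoprime.pow_right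
    rw [isCoprime_comm]
    exact (prime_X.irreducible.coprime_iff_not_dvd).2 hnd
  have h7 : q ∣ derivative q := hcop.dvd_of_dvd_mul_left h5
  have hq0 : q ≠ 0 := by
    rintro rfl
    exact hnd (dvd_zero _)
  have h8 : derivative q = 0 := by
    by_contra hne
    have h9 := degree_le_of_dvd h7 hne
    exact absurd (degree_derivative_lt hq0) (not_lt.2 h9)
  have h9 : q = C (q.coeff 0) := by
    apply eq_C_of_natDegree_eq_zero
    exact derivative_eq_zero.1 h8
  have h10 : q.coeff 0 ≠ 0 := by
    intro h0
    rw [h0, map_zero] at h9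
    exact hq0 h9
  refine ⟨e, ?_⟩
  have h11 := minpoly.aeval F R
  rw [hq, h9, map_mul, map_pow, aeval_X, aeval_C, ← Algebra.commutes, ← Algebra.smul_def] at h11
  exact (smul_eq_zero.1 h11).resolve_left h10

end

section

variable {F A : Type*} [Field F] [CharZero F] [Ring A] [Algebra F A] [FiniteDimensional F A]
  {R : A →ₗ[F] A}

/-- A Rota-Baxter operator of weight zero is nilpotent. -/
theorem JRB.nilpotent (h : JRB R) : IsNilpotent R := by
  have h1 : (LinearMap.mulLeft F (R 1) + LinearMap.mulRight F (R 1)) * R -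
      R * (LinearMap.mulLeft F (R 1) + LinearMap.mulRight F (R 1)) = (2 : F) • R ^ 2 := by
    apply LinearMap.ext
    intro x
    have h2 := rel_pow h 1 x
    simp only [pow_one, Nat.cast_one, mul_one] at h2
    unfold jp at h2
    simp only [LinearMap.sub_apply, Module.End.mul_apply, LinearMap.add_apply,
      LinearMap.mulLeft_apply, LinearMap.mulRight_apply, LinearMap.smul_apply]
    rw [h2, add_sub_cancel_right]
  exact nil_of_rel (F := F) (B := Module.End F A) (Algebra.IsIntegral.isIntegral R) two_ne_zero h1

/-- The image of the unit is nilpotent. -/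
theorem JRB.nilpotent_one (h : JRB R) : IsNilpotent (R 1) := by
  obtain ⟨k, hk⟩ := h.nilpotent
  refine ⟨k, ?_⟩
  rw [← pow_R_one_eq_zero h, hk, LinearMap.zero_apply]

end

end Pool.Agent.MP_f4742e_al
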